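import Mathlib

/-!
Definitions for the homological Artin-Rees property (paper section 4). Pure commutative algebra.
-/

namespace MP50e386N

/-- Artin-Rees property of `X ≤ Y` with respect to the ideal `h` -/
def AR {A M : Type} [CommRing A] [AddCommGroup M] [Module A M] (h : Ideal A)
    (X Y : Submodule A M) : Prop :=
  ∀ K : ℕ, ∃ K' : ℕ, X ⊓ h ^ K' • Y ≤ h ^ K • X

/-- `Good_n(Q)`: there is a free cover `π : F → Q` with `AR(ker π, F)` and `Good_(n-1)(ker π)`. -/
def Good {A : Type} [CommRing A] (h : Ideal A) :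
    ℕ → ∀ (Q : Type) [AddCommGroup Q] [Module A Q], Prop
  | 0, _, _, _ => True
  | n + 1, Q, _, _ => ∃ (ι : Type) (π : (ι →₀ A) →ₗ[A] Q), Function.Surjective π ∧
      AR h (LinearMap.ker π) ⊤ ∧ Good h n (LinearMap.ker π)

end MP50e386N
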