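import Mathlib
import Pool.Agent.Lib.MP_50e386_al.Defs
import Pool.Agent.Lib.MP_50e386_al.N.GoodDefs

/-!
Definitions for the proof that `Sym(Sym^2(ℂ^∞))` is `Sp_∞`-noetherian (paper: MP_50e386_paper.md).
-/

namespace MP50e386N

open MvPolynomial Pool.Agent.Lib.MP50e386

/-- `V = ℂ^∞` -/
abbrev V := ℕ →₀ ℂ

/-- the basis vector `e i` -/
noncomputable abbrev ee (i : ℕ) : V := Finsupp.single i 1

/-- the symplectic form -/
noncomputable abbrev om (u v : V) : ℂ := sympForm u v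

/-- `V_R` -/
abbrev VR (R : Type) [CommRing R] := ℕ →₀ R

/-- A commutative `ℂ`-algebra generated by symmetric elements `x i j` on which substitutions act. -/
class GLRing (R : Type) [CommRing R] [Algebra ℂ R] where
  x : ℕ → ℕ → R
  x_symm : ∀ i j, x i j = x j i
  gen : Algebra.adjoin ℂ (Set.range fun p : ℕ × ℕ => x p.1 p.2) = ⊤
  sb : (ℕ → VR R) → R →ₐ[ℂ] R
  sb_x : ∀ (ψ : ℕ → VR R) (i j : ℕ),
    sb ψ (x i j) = (ψ i).sum fun k a => (ψ j).sum fun l b => a * b * x k l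

variable {R : Type} [CommRing R] [Algebra ℂ R] [GLRing R]

/-- the `R`-bilinear form `x(y, y')` on `V_R` -/
noncomputable def xf : VR R →ₗ[R] VR R →ₗ[R] R :=
  Finsupp.linearCombination R (fun k => Finsupp.linearCombination R (fun l => GLRing.x k l))

/-- `V → V_R` -/
noncomputable def cst : V →ₗ[ℂ] VR R := Finsupp.mapRange.linearMap (Algebra.linearMap ℂ R)

/-- `x(v, w)` for `v, w ∈ V` -/
noncomputable def xv (v w : V) : R := xf (cst v) (cst w)

/-- `U_R = R[z_{a,i}]`, `a` slot label, `i` letter -/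
abbrev U (R : Type) [CommRing R] := MvPolynomial (ℕ × ℕ) R

/-- `z_a(y) = ∑ y_k z_{a,k}` -/
noncomputable def zf (a : ℕ) : VR R →ₗ[R] U R :=
  Finsupp.linearCombination R (fun i => (X (a, i) : U R))

/-- the substitution `e_i ↦ ψ_i` on `U_R` -/
noncomputable def sbU (ψ : ℕ → VR R) : U R →+* U R :=
  eval₂Hom ((C : R →+* U R).comp (GLRing.sb ψ : R →ₐ[ℂ] R).toRingHom) (fun p => zf p.1 (ψ p.2))

/-- the substitution `e_i ↦ φ_i`, `φ_i ∈ V` -/
noncomputable def sbC (φ : ℕ → V) : U R →+* U R := sbU (fun i => cst (φ i))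

/-- the substitution `e_i ↦ φ_i` on `R` -/
noncomputable def sbR (φ : ℕ → V) : R →ₐ[ℂ] R := GLRing.sb (fun i => cst (φ i))

/-- stable under all `ℂ`-linear substitutions -/
def GLS (N : Submodule R (U R)) : Prop := ∀ φ : ℕ → V, ∀ f ∈ N, sbC φ f ∈ N

/-- stable under `ℂ^* · Sp_∞` -/
def GS (N : Submodule R (U R)) : Prop :=
  ∀ g : Cinf ≃ₗ[ℂ] Cinf, IsSp g → ∀ c : ℂ, c ≠ 0 → ∀ f ∈ N, sbC (fun i => c • g (ee i)) f ∈ N

/-- the same for ideals of `R` -/
def GLSI (I : Ideal R) : Prop := ∀ φ : ℕ → V, ∀ f ∈ I, sbR φ f ∈ I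

def GSI (I : Ideal R) : Prop :=
  ∀ g : Cinf ≃ₗ[ℂ] Cinf, IsSp g → ∀ c : ℂ, c ≠ 0 → ∀ f ∈ I, sbR (fun i => c • g (ee i)) f ∈ I

/-- slot degree of a monomial -/
def sdeg (a : ℕ) (m : ℕ × ℕ →₀ ℕ) : ℕ := m.sum fun p k => if p.1 = a then k else 0

variable (R) in
/-- `M_S`: multilinear in the slots `a ∈ S`, no other slots -/
noncomputable def MS (S : Finset ℕ) : Submodule R (U R) :=
  restrictSupport R {m | ∀ a, sdeg a m = if a ∈ S then 1 else 0}

variable (R) in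
/-- `BD(L,D)`: labels `< L`, degree `≤ D` in the `z` -/
noncomputable def BD (L D : ℕ) : Submodule R (U R) :=
  restrictSupport R {m | (∀ p ∈ m.support, p.1 < L) ∧ m.degree ≤ D}

/-- the contraction of the slots `a` and `b` -/
noncomputable def tr (a b : ℕ) : U R →ₗ[R] U R :=
  (basisMonomials (ℕ × ℕ) R).constr R (fun m => ∑ p ∈ m.support, ∑ q ∈ m.support,
    if p.1 = a ∧ q.1 = b then
      (algebraMap ℂ R (om (ee p.2) (ee q.2))) • pderiv p (pderiv q (monomial m (1 : R))) else 0)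

variable (R) in
/-- polynomials with letters in `T` -/
noncomputable def LT (T : Set ℕ) : Subalgebra ℂ (U R) :=
  Algebra.adjoin ℂ ({f | ∃ i ∈ T, ∃ j ∈ T, f = C (GLRing.x i j)} ∪
    {f | ∃ a, ∃ i ∈ T, f = X (a, i)})

/-- `f` has multidegree `κ` in the letters -/
def MW (κ : ℕ →₀ ℕ) (f : U R) : Prop :=
  ∀ t : ℕ → ℂ, sbC (fun i => t i • ee i) f = (κ.prod fun i k => t i ^ k) • f

/-- `f` is homogeneous of weight `d` (number of letters) -/
def HW (d : ℕ) (f : U R) : Prop := ∀ c : ℂ, sbC (fun i => c • ee i) f = c ^ d • f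

/-- a family of vectors is isotropic -/
def Iso {ι : Type} (φ : ι → V) : Prop := ∀ i j, om (φ i) (φ j) = 0

/-- `nn(M₁)` -/
noncomputable def nn (M : Submodule R (U R)) : Submodule R (U R) :=
  Submodule.span R {f | ∃ φ : ℕ → V, Iso φ ∧ ∃ g ∈ M, f = sbC φ g}

/-- Gram matrix -/
noncomputable def gramM {ι : Type} (v : ι → V) : Matrix ι ι R := Matrix.of fun i j => xv (v i) (v j)

/-- `Delta(v)` -/
noncomputable def Dl {ι : Type} [Fintype ι] [DecidableEq ι] (v : ι → V) : R := (gramM v).det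

/-- `pi~_v(c) ∈ V_R` -/
noncomputable def pit {r : ℕ} (v : Fin r → V) (c : V) : VR R :=
  ∑ k, (∑ l, (xv c (v l) : R) * (gramM v : Matrix (Fin r) (Fin r) R).adjugate l k) •
    (cst (v k) : VR R)

/-- `c~ = Delta(v) c - pi~_v(c) ∈ V_R` -/
noncomputable def til {r : ℕ} (v : Fin r → V) (c : V) : VR R := (Dl v : R) • cst c - pit v c

/-- `Delta(v,c)` -/
noncomputable def Dl1 {r : ℕ} (v : Fin r → V) (c : V) : R := Dl (Fin.snoc v c : Fin (r + 1) → V)

/-- `E_k(v;c)` -/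
noncomputable def Ek (s : ℕ) {r k : ℕ} (v : Fin r → V) (c : Fin k → V) : R :=
  ∏ j, (Dl1 v (c j) : R) ^ s

/-- `E_k(v;c) Delta(v)^q` for `w = (v;c)` -/
noncomputable def hh (s q : ℕ) {r k : ℕ} (v : Fin r → V) (c : Fin k → V) : R :=
  Ek s v c * Dl v ^ q

/-- every chain of submodules satisfying `P` between `X` and `Y` is eventually constant -/
def NoethInt (P : Submodule R (U R) → Prop) (X Y : Submodule R (U R)) : Prop :=
  ∀ N : ℕ → Submodule R (U R), Monotone N → (∀ i, P (N i) ∧ X ≤ N i ∧ N i ≤ Y) →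
    ∃ n0, ∀ n ≥ n0, N n = N n0

/-- The package `Pkg(R,r,s,h)`. -/
structure Pkg (R : Type) [CommRing R] [Algebra ℂ R] [GLRing R] (r s : ℕ) (h : Ideal R) : Prop where
  gl : GLSI h
  p1 : ∀ w : Fin (r + 1) → V, (Dl w : R) ^ (s + 1) = 0
  p2 : ∀ v : Fin r → V, LinearIndependent ℂ v → (Dl v : R) ∈ nonZeroDivisors R
  p3 : ∀ (D k q : ℕ) (v : Fin D → Fin r → ℕ) (c : Fin D → Fin k → ℕ),
    Function.Injective (fun p : Fin D × (Fin r ⊕ Fin k) => Sum.elim (v p.1) (c p.1) p.2) →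
    (∏ d, hh s q (fun i => ee (v d i)) (fun j => ee (c d j)) : R) ≠ 0
  p4 : ∀ a : ℕ, ∃ k q : ℕ, ∀ (v : Fin r → V) (c : Fin k → V), hh s q v c ∈ h ^ a
  p5 : ∀ I : Ideal R, GLSI I → I ≠ ⊥ → ∃ q, h ^ q ≤ I
  p6 : ∀ L D, NoethInt (R := R) GLS ⊥ (BD R L D)
  p7 : ∀ L D, ∀ N Y : Submodule R (U R), GLS N → GLS Y → N ≤ Y → Y ≤ BD R L D → AR h N Y
  p8 : ∀ L D, ∀ Y : Submodule R (U R), GLS Y → Y ≤ BD R L D → NoethInt GS (h • Y) Y

end MP50e386N
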