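import Mathlib
import Pool.Agent.Lib.MP_50e386_al.N.Defs

/-! More definitions (block T). -/

namespace MP50e386N

open MvPolynomial Pool.Agent.Lib.MP50e386

variable {R : Type} [CommRing R] [Algebra ℂ R] [GLRing R]

/-- the linear extension `V → V_R` of `ψ` -/
noncomputable def linR (ψ : ℕ → VR R) : V →ₗ[ℂ] VR R := Finsupp.linearCombination ℂ ψ

/-- the linear extension `V → V` of `φ` -/
noncomputable def linC (φ : ℕ → V) : V →ₗ[ℂ] V := Finsupp.linearCombination ℂ φ

/-- the semilinear map `∑ a_k e_k ↦ ∑ sb(a_k) ψ_k` on `V_R` -/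
noncomputable def actR (ψ : ℕ → VR R) (y : VR R) : VR R := y.sum fun k a => GLRing.sb ψ a • ψ k

theorem sbU_C (ψ : ℕ → VR R) (a : R) : sbU ψ (C a) = C (GLRing.sb ψ a) := by
  unfold sbU
  rw [eval₂Hom_C]
  rfl

theorem sbU_X (ψ : ℕ → VR R) (a i : ℕ) : sbU ψ (X (a, i)) = zf a (ψ i) := by
  unfold sbU
  rw [eval₂Hom_X']

theorem sbU_smul (ψ : ℕ → VR R) (a : R) (f : U R) :
    sbU ψ (a • f) = GLRing.sb ψ a • sbU ψ f := by
  rw [smul_eq_C_mul, map_mul, sbU_C, smul_eq_C_mul]

theorem sbC_smul (φ : ℕ → V) (a : R) (f : U R) :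
    sbC φ (a • f) = sbR φ a • sbC φ f := sbU_smul _ _ _

/-- `M₁(N)` -/
noncomputable def M1 (S : Finset ℕ) (N : Submodule R (U R)) : Submodule R (U R) where
  carrier := {f | f ∈ MS R S ∧ ∀ φ : ℕ → V, Iso φ → sbC φ f ∈ N}
  zero_mem' := ⟨Submodule.zero_mem _, fun φ _ => by rw [map_zero]; exact Submodule.zero_mem _⟩
  add_mem' := by
    rintro a b ⟨ha, ha'⟩ ⟨hb, hb'⟩
    refine ⟨Submodule.add_mem _ ha hb, fun φ hφ => ?_⟩
    rw [map_add]
    exact Submodule.add_mem _ (ha' φ hφ) (hb' φ hφ)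
  smul_mem' := by
    rintro c a ⟨ha, ha'⟩
    refine ⟨Submodule.smul_mem _ c ha, fun φ hφ => ?_⟩
    rw [sbC_smul]
    exact Submodule.smul_mem _ _ (ha' φ hφ)

/-- an ideal of `R` as a submodule of `U_R` -/
noncomputable def ofI (I : Ideal R) : Submodule R (U R) :=
  Submodule.map (Algebra.linearMap R (U R)) I

/-- `f` is multilinear in the letters `0, …, n-1` (and contains no other letters) -/
def ML (n : ℕ) (f : U R) : Prop := MW (∑ i ∈ Finset.range n, Finsupp.single i 1) f

/-- radical of the form `E • x(.,.)` -/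
noncomputable def Rad (E : R) : Submodule R (VR R) where
  carrier := {y | ∀ y', E * xf y y' = 0}
  zero_mem' := fun y' => by rw [map_zero, LinearMap.zero_apply, mul_zero]
  add_mem' := by
    intro a b ha hb y'
    rw [map_add, LinearMap.add_apply, mul_add, ha y', hb y', add_zero]
  smul_mem' := by
    intro c a ha y'
    rw [map_smul, LinearMap.smul_apply, smul_eq_mul, mul_left_comm, ha y', mul_zero]

end MP50e386N
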