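import Mathlib
import Pool.Agent.Lib.MP_50e386_al.N.TDefs

/-! Definitions for block Q. -/

namespace MP50e386N

open MvPolynomial Pool.Agent.Lib.MP50e386

variable {R : Type} [CommRing R] [Algebra ℂ R] [GLRing R]

/-- hypothesis (P1) -/
def HP1 (R : Type) [CommRing R] [Algebra ℂ R] [GLRing R] (r s : ℕ) : Prop :=
  ∀ w : Fin (r + 1) → V, (Dl w : R) ^ (s + 1) = 0

/-- hypothesis (P2) -/
def HP2 (R : Type) [CommRing R] [Algebra ℂ R] [GLRing R] (r : ℕ) : Prop :=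
  ∀ v : Fin r → V, LinearIndependent ℂ v → (Dl v : R) ∈ nonZeroDivisors R

/-- `Ev(y)` for a frame `y = (v; c)` -/
noncomputable def Ev (s : ℕ) {r k : ℕ} (y : Fin r ⊕ Fin k → V) : R :=
  Ek s (fun i => y (Sum.inl i)) (fun j => y (Sum.inr j))

/-- `dl(y)` -/
noncomputable def dl {r k : ℕ} (y : Fin r ⊕ Fin k → V) : R := Dl (fun i => y (Sum.inl i))

end MP50e386N
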