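import Mathlib
import Pool.Agent.Lib.MP_50e386_al.N.TDefs
import Pool.Agent.Lib.MP_50e386_al.N.QDefs

/-! Definitions for block C (paper 5.1-5.6). -/

namespace MP50e386N

open MvPolynomial Pool.Agent.Lib.MP50e386

variable {R : Type} [CommRing R] [Algebra ℂ R] [GLRing R]

/-- slot dependent substitution `z_{a,i} ↦ z_a(Y a i)`, `R`-linear -/
noncomputable def mev (Y : ℕ → ℕ → VR R) : U R →ₐ[R] U R := aeval (fun p => zf p.1 (Y p.1 p.2))

/-- the coefficients of `f` are substituted by `ψ` -/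
noncomputable def cfs (ψ : ℕ → VR R) : U R →+* U R :=
  MvPolynomial.map ((GLRing.sb ψ : R →ₐ[ℂ] R) : R →+* R)

open Classical in
/-- the coefficient of `λ_0 ⋯ λ_(j-1)` in `mev (ψ' + ∑ λ_t φ_t) F` for `F` multilinear in the slots
`S` -/
noncomputable def DDm (S : Finset ℕ) (F : U R) (ψ' : ℕ → VR R) {j : ℕ} (φ : Fin j → ℕ → VR R) :
    U R :=
  ∑ c ∈ (Finset.univ : Finset (S → Option (Fin j))).filter (fun c => ∀ t, ∃! a, c a = some t),
    mev (fun a => if h : a ∈ S then Option.elim (c ⟨a, h⟩) ψ' φ else 0) F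

/-- scaling of the letters `< 2n` -/
noncomputable def scT (n : ℕ) (c : ℂ) (i : ℕ) : V := if i < 2 * n then c • ee i else ee i

/-- `T`-degree at most `D`, `T = {0, …, 2n-1}` -/
def TD (n D : ℕ) (f : U R) : Prop :=
  ∃ g : ℕ → U R, f = ∑ d ∈ Finset.range (D + 1), g d ∧ ∀ d, ∀ c : ℂ, sbC (scT n c) (g d) = c ^ d • g d

/-- all traces vanish -/
def TrZ (S : Finset ℕ) (f : U R) : Prop := ∀ a ∈ S, ∀ b ∈ S, a ≠ b → tr a b f = 0

/-- property (F) of paper 5.4 -/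
def FProp (r s k q n D : ℕ) (S : Finset ℕ) (M : Submodule R (U R)) : Prop :=
  ∀ Z : Set ℕ, Z.Finite → (∀ z ∈ Z, 2 * n ≤ z) → (∀ z ∈ Z, ∀ z' ∈ Z, om (ee z) (ee z') = 0) →
    ∀ f ∈ M, TrZ S f → f ∈ LT R (Set.Iio (2 * n) ∪ Z) → TD n D f →
      ∀ (u : Fin r → V) (b : Fin k → V), Iso (Sum.elim u b) →
        (∀ i, ∀ z ∈ Set.Iio (2 * n) ∪ Z, om (Sum.elim u b i) (ee z) = 0) →
        (hh s q u b : R) • f ∈ nn M

/-- the auxiliary vectors of claim 0: `u` and the hyperbolic pairs `p a b, q a b` -/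
structure Aux (r n : ℕ) (Z : Set ℕ) (u : Fin r → V) (p q : ℕ → ℕ → V) : Prop where
  uu : ∀ i j, om (u i) (u j) = 0
  uT : ∀ i, ∀ k ∈ Set.Iio (2 * n) ∪ Z, om (u i) (ee k) = 0
  up : ∀ i a b, om (u i) (p a b) = 0
  uq : ∀ i a b, om (u i) (q a b) = 0
  pT : ∀ a b, ∀ k ∈ Set.Iio (2 * n) ∪ Z, om (p a b) (ee k) = 0
  qT : ∀ a b, ∀ k ∈ Set.Iio (2 * n) ∪ Z, om (q a b) (ee k) = 0
  pp : ∀ a b a' b', om (p a b) (p a' b') = 0
  qq : ∀ a b a' b', om (q a b) (q a' b') = 0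
  pq : ∀ a b a' b', om (p a b) (q a' b') = if a = a' ∧ b = b' then 1 else 0

end MP50e386N
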