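import Mathlib

/-! Vandermonde: coefficients of a polynomial with values in a subspace. -/

namespace MP50e386N

open MvPolynomial

theorem vand1 {W : Type} [AddCommGroup W] [Module ℂ W] (N : Submodule ℂ W) (n : ℕ) (f : ℕ → W)
    (h : {t : ℂ | ∑ k ∈ Finset.range n, t ^ k • f k ∈ N}.Infinite) : ∀ k < n, f k ∈ N := by
  intro k hkn
  by_contra hk
  obtain ⟨l, hl1, hl2⟩ := Submodule.exists_le_ker_of_notMem hk
  set r : Polynomial ℂ := ∑ i ∈ Finset.range n, Polynomial.monomial i (l (f i)) with hr
  have hr0 : r = 0 := by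
    apply Polynomial.eq_zero_of_infinite_isRoot
    apply h.mono
    intro s hs
    change r.eval s = 0
    have h1 := hl2 hs
    rw [LinearMap.mem_ker, map_sum] at h1
    rw [hr, Polynomial.eval_finsetSum, ← h1]
    apply Finset.sum_congr rfl
    intro i _
    rw [Polynomial.eval_monomial, map_smul, smul_eq_mul, mul_comm]
  have h2 : r.coeff k = l (f k) := by
    rw [hr, Polynomial.finsetSum_coeff]
    simp only [Polynomial.coeff_monomial]
    rw [Finset.sum_ite_eq', if_pos (Finset.mem_range.2 hkn)]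
  rw [hr0, Polynomial.coeff_zero] at h2
  exact hl1 h2.symm

/-- values at all `t` with nonzero coordinates -/
theorem vandM {W σ : Type} [AddCommGroup W] [Module ℂ W] (N : Submodule ℂ W)
    (s : Finset (σ →₀ ℕ)) (f : (σ →₀ ℕ) → W)
    (h : ∀ t : σ → ℂ, (∀ i, t i ≠ 0) → ∑ m ∈ s, (m.prod fun i k => t i ^ k) • f m ∈ N) :
    ∀ m ∈ s, f m ∈ N := by
  classical
  intro m hm
  by_contra hk
  obtain ⟨l, hl1, hl2⟩ := Submodule.exists_le_ker_of_notMem hk
  set r : MvPolynomial σ ℂ := ∑ i ∈ s, monomial i (l (f i)) with hr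
  have hr0 : r = 0 := by
    apply MvPolynomial.funext_set (fun _ : σ => ({0}ᶜ : Set ℂ))
      (fun _ => (Set.finite_singleton (0 : ℂ)).infinite_compl)
    intro t ht
    rw [map_zero]
    have ht0 : ∀ i, t i ≠ 0 := fun i => ht i (Set.mem_univ i)
    have h1 := hl2 (h t ht0)
    rw [LinearMap.mem_ker, map_sum] at h1
    rw [hr, map_sum, ← h1]
    apply Finset.sum_congr rfl
    intro i _
    rw [eval_monomial, map_smul, smul_eq_mul, mul_comm]
  have h2 : r.coeff m = l (f m) := by
    rw [hr, coeff_sum]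
    simp only [coeff_monomial]
    rw [Finset.sum_ite_eq', if_pos hm]
  rw [hr0, coeff_zero] at h2
  exact hl1 h2.symm

theorem vand_poly {S : Type} [CommRing S] [Algebra ℂ S] (N : Submodule ℂ S) (P : Polynomial S)
    (h : {t : ℂ | P.eval (algebraMap ℂ S t) ∈ N}.Infinite) (k : ℕ) : P.coeff k ∈ N := by
  by_cases hk : k < P.natDegree + 1
  · refine vand1 N (P.natDegree + 1) P.coeff (h.mono ?_) k hk
    intro t ht
    simp only [Set.mem_ofPred_eq] at ht ⊢
    rw [Polynomial.eval_eq_sum_range] at ht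
    have e : ∑ k ∈ Finset.range (P.natDegree + 1), t ^ k • P.coeff k =
        ∑ i ∈ Finset.range (P.natDegree + 1), P.coeff i * (algebraMap ℂ S t) ^ i := by
      apply Finset.sum_congr rfl
      intro i _
      rw [← map_pow, mul_comm (P.coeff i), ← Algebra.smul_def]
    rw [e]
    exact ht
  · rw [Polynomial.coeff_eq_zero_of_natDegree_lt (by omega)]
    exact N.zero_mem

theorem vand_mvpoly {S σ : Type} [CommRing S] [Algebra ℂ S] (N : Submodule ℂ S)
    (P : MvPolynomial σ S)
    (h : ∀ t : σ → ℂ, (∀ i, t i ≠ 0) → eval (fun i => algebraMap ℂ S (t i)) P ∈ N)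
    (m : σ →₀ ℕ) : P.coeff m ∈ N := by
  by_cases hm : m ∈ P.support
  · refine vandM N P.support (fun m => P.coeff m) ?_ m hm
    intro t ht
    have h1 := h t ht
    rw [eval_eq] at h1
    have e : ∑ m ∈ P.support, (m.prod fun i k => t i ^ k) • P.coeff m =
        ∑ d ∈ P.support, coeff d P * ∏ i ∈ d.support, (algebraMap ℂ S (t i)) ^ d i := by
      apply Finset.sum_congr rfl
      intro d _
      rw [mul_comm (coeff d P), Algebra.smul_def, Finsupp.prod, map_prod]
      congr 1
      apply Finset.prod_congr rfl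
      intro i _
      rw [map_pow]
    rw [e]
    exact h1
  · rw [notMem_support_iff.1 hm]
    exact N.zero_mem

end MP50e386N
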