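import Mathlib
import Pool.Agent.Lib.MP_50e386_al.N.TDefs

/-! Basic facts about the substitutions. -/

namespace MP50e386N

open MvPolynomial Pool.Agent.Lib.MP50e386

variable {R : Type} [CommRing R] [Algebra ℂ R] [GLRing R]

theorem xf_single (i j : ℕ) (a b : R) :
    xf (Finsupp.single i a) (Finsupp.single j b) = a * b * (GLRing.x i j : R) := by
  simp only [xf, Finsupp.linearCombination_single, LinearMap.smul_apply, smul_eq_mul, mul_assoc]

theorem xf_comm (y y' : VR R) : xf y y' = xf y' y := by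
  induction y using Finsupp.induction_linear with
  | zero => simp
  | add f g hf hg => simp only [map_add, LinearMap.add_apply, hf, hg]
  | single i a =>
    induction y' using Finsupp.induction_linear with
    | zero => simp
    | add f g hf hg => simp only [map_add, LinearMap.add_apply, hf, hg]
    | single j b =>
      rw [xf_single, xf_single, GLRing.x_symm i j, mul_comm a b]

private theorem T2_cst_single (i : ℕ) (a : ℂ) : (cst (Finsupp.single i a) : VR R) =
    Finsupp.single i (algebraMap ℂ R a) := by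
  simp [cst]

theorem xv_ee (i j : ℕ) : (xv (ee i) (ee j) : R) = GLRing.x i j := by
  simp only [xv, ee, T2_cst_single, map_one, xf_single, one_mul]

theorem xv_comm (v w : V) : (xv v w : R) = xv w v := xf_comm _ _

theorem zf_single (a i : ℕ) (c : R) : zf a (Finsupp.single i c) = c • (X (a, i) : U R) := by
  simp only [zf, Finsupp.linearCombination_single]

private theorem T2_xf_eq_sum (y y' : VR R) : (xf y y' : R) =
    y.sum fun k a => y'.sum fun l b => a * b * GLRing.x k l := by
  simp only [xf, Finsupp.linearCombination_apply, Finsupp.sum, LinearMap.sum_apply,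
    LinearMap.smul_apply, smul_eq_mul, Finset.mul_sum, mul_assoc]

theorem sb_x' (ψ : ℕ → VR R) (i j : ℕ) : GLRing.sb ψ (GLRing.x i j : R) = xf (ψ i) (ψ j) := by
  rw [GLRing.sb_x, T2_xf_eq_sum]

theorem actR_add (ψ : ℕ → VR R) (y y' : VR R) : actR ψ (y + y') = actR ψ y + actR ψ y' := by
  unfold actR
  refine Finsupp.sum_add_index' ?_ ?_
  · intro i; rw [map_zero, zero_smul]
  · intro i a b; rw [map_add, add_smul]

private theorem T2_actR_zero (ψ : ℕ → VR R) : actR ψ (0 : VR R) = 0 := by
  unfold actR; exact Finsupp.sum_zero_index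

private theorem T2_actR_single (ψ : ℕ → VR R) (i : ℕ) (a : R) :
    actR ψ (Finsupp.single i a) = GLRing.sb ψ a • ψ i := by
  unfold actR
  rw [Finsupp.sum_single_index]
  rw [map_zero, zero_smul]

theorem actR_smul (ψ : ℕ → VR R) (c : R) (y : VR R) :
    actR ψ (c • y) = GLRing.sb ψ c • actR ψ y := by
  induction y using Finsupp.induction_linear with
  | zero => rw [smul_zero, T2_actR_zero, smul_zero]
  | add f g hf hg => rw [smul_add, actR_add, hf, hg, actR_add, smul_add]
  | single i a =>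
    rw [Finsupp.smul_single, smul_eq_mul, T2_actR_single, T2_actR_single, map_mul, mul_smul]

theorem sb_xf (ψ : ℕ → VR R) (y y' : VR R) :
    GLRing.sb ψ (xf y y' : R) = xf (actR ψ y) (actR ψ y') := by
  induction y using Finsupp.induction_linear with
  | zero => simp [T2_actR_zero]
  | add f g hf hg => simp only [map_add, LinearMap.add_apply, hf, hg, actR_add]
  | single i a =>
    induction y' using Finsupp.induction_linear with
    | zero => simp [T2_actR_zero]
    | add f g hf hg => simp only [map_add, hf, hg, actR_add]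
    | single j b =>
      rw [xf_single, map_mul, map_mul, sb_x', T2_actR_single, T2_actR_single, map_smul, map_smul,
        LinearMap.smul_apply, smul_eq_mul, smul_eq_mul]
      ring

theorem sbU_zf (ψ : ℕ → VR R) (a : ℕ) (y : VR R) : sbU ψ (zf a y) = zf a (actR ψ y) := by
  induction y using Finsupp.induction_linear with
  | zero => simp [T2_actR_zero]
  | add f g hf hg => simp only [map_add, hf, hg, actR_add]
  | single i c =>
    rw [zf_single, sbU_smul, sbU_X, T2_actR_single, map_smul]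

theorem actR_cst (ψ : ℕ → VR R) (v : V) : actR ψ (cst v) = linR ψ v := by
  induction v using Finsupp.induction_linear with
  | zero => simp [T2_actR_zero]
  | add f g hf hg => simp only [map_add, hf, hg, actR_add]
  | single i c =>
    rw [T2_cst_single, T2_actR_single, AlgHom.commutes, linR, Finsupp.linearCombination_single,
      algebraMap_smul]

theorem linR_cst (φ : ℕ → V) (v : V) :
    linR (R := R) (fun i => cst (φ i)) v = cst (linC φ v) := by
  induction v using Finsupp.induction_linear with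
  | zero => simp
  | add f g hf hg => simp only [map_add, hf, hg]
  | single i c =>
    rw [linR, linC, Finsupp.linearCombination_single, Finsupp.linearCombination_single, map_smul]

theorem linC_ee (φ : ℕ → V) (i : ℕ) : linC φ (ee i) = φ i := by
  rw [linC, Finsupp.linearCombination_single, one_smul]

theorem linC_id (v : V) : linC ee v = v := by
  induction v using Finsupp.induction_linear with
  | zero => simp
  | add f g hf hg => simp only [map_add, hf, hg]
  | single i c =>
    rw [linC, Finsupp.linearCombination_single, Finsupp.smul_single, smul_eq_mul, mul_one]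

theorem sb_x_cst (φ : ℕ → V) (v w : V) : sbR φ (xv v w : R) = xv (linC φ v) (linC φ w) := by
  unfold sbR xv
  rw [sb_xf, actR_cst, actR_cst, linR_cst, linR_cst]

/-- substitutions are determined by generators -/
theorem sb_ext {S : Type} [Semiring S] (g g' : R →+* S) (hC : ∀ c : ℂ, g (algebraMap ℂ R c) =
    g' (algebraMap ℂ R c)) (h : ∀ i j, g (GLRing.x i j) = g' (GLRing.x i j)) : g = g' := by
  ext a
  have ha : a ∈ Algebra.adjoin ℂ (Set.range fun p : ℕ × ℕ => (GLRing.x p.1 p.2 : R)) := by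
    rw [GLRing.gen]; trivial
  induction ha using Algebra.adjoin_induction with
  | mem x hx =>
    obtain ⟨p, rfl⟩ := hx
    exact h _ _
  | algebraMap r => exact hC r
  | add x y _ _ hx hy => rw [map_add, map_add, hx, hy]
  | mul x y _ _ hx hy => rw [map_mul, map_mul, hx, hy]

theorem U_ext {S : Type} [Semiring S] (g g' : U R →+* S)
    (hC : ∀ c : ℂ, g (C (algebraMap ℂ R c)) = g' (C (algebraMap ℂ R c)))
    (h : ∀ i j, g (C (GLRing.x i j)) = g' (C (GLRing.x i j)))
    (hX : ∀ a i, g (X (a, i)) = g' (X (a, i))) : g = g' := by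
  apply MvPolynomial.ringHom_ext
  · intro r
    have := sb_ext (g.comp C) (g'.comp C) hC h
    exact DFunLike.congr_fun this r
  · intro p
    exact hX p.1 p.2

private theorem T2_actR_actR (ψ ψ' : ℕ → VR R) (h : ∀ a : R, GLRing.sb ψ (GLRing.sb ψ' a) =
    GLRing.sb (fun i => actR ψ (ψ' i)) a) (y : VR R) :
    actR ψ (actR ψ' y) = actR (fun i => actR ψ (ψ' i)) y := by
  induction y using Finsupp.induction_linear with
  | zero => simp [T2_actR_zero]
  | add f g hf hg => simp only [hf, hg, actR_add]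
  | single i c => rw [T2_actR_single, actR_smul, h, T2_actR_single]

theorem sb_sb (ψ ψ' : ℕ → VR R) (a : R) :
    GLRing.sb ψ (GLRing.sb ψ' a) = GLRing.sb (fun i => actR ψ (ψ' i)) a := by
  have := sb_ext (((GLRing.sb ψ : R →ₐ[ℂ] R) : R →+* R).comp ((GLRing.sb ψ' : R →ₐ[ℂ] R) : R →+* R))
    ((GLRing.sb (fun i => actR ψ (ψ' i)) : R →ₐ[ℂ] R) : R →+* R) (by
      intro c
      simp) (by
      intro i j
      simp only [RingHom.comp_apply, RingHom.coe_coe, sb_x', sb_xf])
  exact DFunLike.congr_fun this a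

theorem sbU_sbU (ψ ψ' : ℕ → VR R) (f : U R) :
    sbU ψ (sbU ψ' f) = sbU (fun i => actR ψ (ψ' i)) f := by
  have := U_ext ((sbU ψ).comp (sbU ψ')) (sbU (fun i => actR ψ (ψ' i))) (by
      intro c
      simp only [RingHom.comp_apply, sbU_C, sb_sb]) (by
      intro i j
      simp only [RingHom.comp_apply, sbU_C, sb_sb]) (by
      intro a i
      simp only [RingHom.comp_apply, sbU_X, sbU_zf])
  exact DFunLike.congr_fun this f

theorem sbC_sbC (φ φ' : ℕ → V) (f : U R) :
    sbC φ (sbC φ' f) = sbC (fun i => linC φ (φ' i)) f := by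
  unfold sbC
  rw [sbU_sbU]
  simp only [actR_cst, linR_cst]

theorem sbR_sbR (φ φ' : ℕ → V) (a : R) :
    sbR φ (sbR φ' a) = sbR (fun i => linC φ (φ' i)) a := by
  unfold sbR
  rw [sb_sb]
  simp only [actR_cst, linR_cst]

private theorem T2_sb_id (a : R) : GLRing.sb (fun i => (Finsupp.single i 1 : VR R)) a = a := by
  have := sb_ext ((GLRing.sb (fun i => (Finsupp.single i 1 : VR R)) : R →ₐ[ℂ] R) : R →+* R)
    (RingHom.id R) (by intro c; simp) (by
      intro i j
      simp only [RingHom.coe_coe, RingHom.id_apply, sb_x', xf_single, one_mul])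
  exact DFunLike.congr_fun this a

theorem sbU_id (f : U R) : sbU (fun i => Finsupp.single i 1) f = f := by
  have := U_ext (sbU (fun i => (Finsupp.single i 1 : VR R))) (RingHom.id (U R)) (by
      intro c
      rw [sbU_C, T2_sb_id]; rfl) (by
      intro i j
      rw [sbU_C, T2_sb_id]; rfl) (by
      intro a i
      rw [sbU_X, zf_single, one_smul]; rfl)
  exact DFunLike.congr_fun this f

private theorem T2_cst_ee (i : ℕ) : (cst (ee i) : VR R) = Finsupp.single i 1 := by
  rw [ee, T2_cst_single, map_one]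

theorem sbC_id (f : U R) : sbC ee f = f := by
  unfold sbC
  simp only [T2_cst_ee]
  exact sbU_id f

theorem sbR_id (a : R) : sbR ee a = a := by
  unfold sbR
  simp only [T2_cst_ee]
  exact T2_sb_id a

theorem sbC_C (φ : ℕ → V) (a : R) : sbC φ (C a : U R) = C (sbR φ a) := sbU_C _ _

theorem sbC_X (φ : ℕ → V) (a i : ℕ) : sbC φ (X (a, i) : U R) = zf a (cst (φ i)) := sbU_X _ _ _

theorem sbU_smulC (ψ : ℕ → VR R) (c : ℂ) (f : U R) : sbU ψ (c • f) = c • sbU ψ f := by
  rw [← algebraMap_smul R c f, sbU_smul, AlgHom.commutes, algebraMap_smul]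

theorem sbC_smulC (φ : ℕ → V) (c : ℂ) (f : U R) : sbC φ (c • f) = c • sbC φ f := sbU_smulC _ _ _

/-- a submodule over `R` is closed under complex scalars -/
theorem smulC_mem (N : Submodule R (U R)) (c : ℂ) {f : U R} (hf : f ∈ N) : c • f ∈ N := by
  rw [← algebraMap_smul R c f]
  exact N.smul_mem _ hf

private theorem T2_sdeg_add (a : ℕ) (m m' : ℕ × ℕ →₀ ℕ) :
    sdeg a (m + m') = sdeg a m + sdeg a m' := by
  unfold sdeg
  refine Finsupp.sum_add_index' ?_ ?_
  · intro p; simp
  · intro p b c; split_ifs <;> simp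

private theorem T2_sdeg_zero (a : ℕ) : sdeg a (0 : ℕ × ℕ →₀ ℕ) = 0 := by
  unfold sdeg; exact Finsupp.sum_zero_index

private theorem T2_sdeg_single (a : ℕ) (p : ℕ × ℕ) (k : ℕ) :
    sdeg a (Finsupp.single p k) = if p.1 = a then k else 0 := by
  unfold sdeg
  rw [Finsupp.sum_single_index]
  simp

private theorem T2_le_sdeg (m : ℕ × ℕ →₀ ℕ) (p : ℕ × ℕ) : m p ≤ sdeg p.1 m := by
  by_cases hp : p ∈ m.support
  · unfold sdeg Finsupp.sum
    have := Finset.single_le_sum (f := fun q : ℕ × ℕ => if q.1 = p.1 then m q else 0)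
      (fun q _ => Nat.zero_le _) hp
    simpa using this
  · rw [Finsupp.notMem_support_iff.1 hp]
    exact Nat.zero_le _

private theorem T2_exists_of_sdeg (m : ℕ × ℕ →₀ ℕ) (a : ℕ) (h : sdeg a m ≠ 0) :
    ∃ p ∈ m.support, p.1 = a := by
  by_contra hcon
  push Not at hcon
  apply h
  unfold sdeg Finsupp.sum
  exact Finset.sum_eq_zero fun p hp => if_neg (hcon p hp)

private theorem T2_degree_eq (m : ℕ × ℕ →₀ ℕ) (L : ℕ) (h : ∀ p ∈ m.support, p.1 < L) :
    m.degree = ∑ a ∈ Finset.range L, sdeg a m := by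
  unfold sdeg Finsupp.sum
  rw [Finset.sum_comm, Finsupp.degree_apply]
  refine Finset.sum_congr rfl fun p hp => ?_
  rw [Finset.sum_ite_eq, if_pos (Finset.mem_range.2 (h p hp))]

private def T2_wt (d : ℕ → ℕ) : Set (ℕ × ℕ →₀ ℕ) := {m | ∀ a, sdeg a m = d a}

private theorem T2_mul_mem {d d' : ℕ → ℕ} {f g : U R} (hf : f ∈ restrictSupport R (T2_wt d))
    (hg : g ∈ restrictSupport R (T2_wt d')) :
    f * g ∈ restrictSupport R (T2_wt (fun a => d a + d' a)) := by
  have h1 : f * g ∈ restrictSupport R (T2_wt d) * restrictSupport R (T2_wt d') :=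
    Submodule.mul_mem_mul hf hg
  rw [← restrictSupport_add] at h1
  refine restrictSupport_mono R ?_ h1
  rintro _ ⟨m, hm, m', hm', rfl⟩ a
  change sdeg a (m + m') = d a + d' a
  rw [T2_sdeg_add, hm a, hm' a]

private theorem T2_one_mem : (1 : U R) ∈ restrictSupport R (T2_wt (fun _ => 0)) := by
  have : (1 : U R) = monomial 0 1 := rfl
  rw [this]
  exact (monomial_mem_restrictSupport R).2 (Or.inl fun a => T2_sdeg_zero a)

private theorem T2_pow_mem {d : ℕ → ℕ} {f : U R} (hf : f ∈ restrictSupport R (T2_wt d)) (k : ℕ) :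
    f ^ k ∈ restrictSupport R (T2_wt (fun a => k * d a)) := by
  induction k with
  | zero =>
    simp only [pow_zero, zero_mul]
    exact T2_one_mem
  | succ k ih =>
    have := T2_mul_mem ih hf
    rw [pow_succ]
    simp only [Nat.succ_mul]
    exact this

private theorem T2_zf_mem (a : ℕ) (y : VR R) :
    zf a y ∈ restrictSupport R (T2_wt (fun b => if a = b then 1 else 0)) := by
  induction y using Finsupp.induction_linear with
  | zero => rw [map_zero]; exact Submodule.zero_mem _
  | add f g hf hg => rw [map_add]; exact Submodule.add_mem _ hf hg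
  | single i c =>
    rw [zf_single]
    refine Submodule.smul_mem _ _ ?_
    have : (X (a, i) : U R) = monomial (Finsupp.single (a, i) 1) 1 := rfl
    rw [this]
    exact (monomial_mem_restrictSupport R).2 (Or.inl fun b => T2_sdeg_single b (a, i) 1)

private theorem T2_prod_mem (ψ : ℕ → VR R) (m : ℕ × ℕ →₀ ℕ) :
    (m.prod fun p k => (zf p.1 (ψ p.2) : U R) ^ k) ∈
      restrictSupport R (T2_wt (fun a => sdeg a m)) := by
  induction m using Finsupp.induction_linear with
  | zero =>
    rw [Finsupp.prod_zero_index]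
    simp only [T2_sdeg_zero]
    exact T2_one_mem
  | add f g hf hg =>
    rw [Finsupp.prod_add_index' (fun p => pow_zero _) (fun p b c => pow_add _ _ _)]
    simp only [T2_sdeg_add]
    exact T2_mul_mem hf hg
  | single p k =>
    have he : ((Finsupp.single p k).prod fun p k => (zf p.1 (ψ p.2) : U R) ^ k) =
        (zf p.1 (ψ p.2) : U R) ^ k := Finsupp.prod_single_index (pow_zero _)
    rw [he]
    have := T2_pow_mem (T2_zf_mem p.1 (ψ p.2)) k
    simp only [T2_sdeg_single]
    simpa only [mul_ite, mul_one, mul_zero] using this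

private theorem T2_main (ψ : ℕ → VR R) (Q : Set (ℕ × ℕ →₀ ℕ))
    (hQ : ∀ m ∈ Q, ∀ m', (∀ a, sdeg a m' = sdeg a m) → m' ∈ Q) (f : U R)
    (hf : f ∈ restrictSupport R Q) : sbU ψ f ∈ restrictSupport R Q := by
  rw [f.as_sum, map_sum]
  refine Submodule.sum_mem _ fun m hm => ?_
  have hmQ : m ∈ Q := hf hm
  have h1 : sbU ψ (monomial m (coeff m f)) =
      GLRing.sb ψ (coeff m f) • (m.prod fun p k => (zf p.1 (ψ p.2) : U R) ^ k) := by
    rw [smul_eq_C_mul]
    unfold sbU
    rw [coe_eval₂Hom, eval₂_monomial]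
    rfl
  rw [h1]
  refine Submodule.smul_mem _ _ (restrictSupport_mono R ?_ (T2_prod_mem ψ m))
  intro m' hm'
  exact hQ m hmQ m' hm'

theorem sbU_MS (ψ : ℕ → VR R) (S : Finset ℕ) (f : U R) (hf : f ∈ MS R S) :
    sbU ψ f ∈ MS R S := by
  refine T2_main ψ _ ?_ f hf
  intro m hm m' h a
  rw [h a]
  exact hm a

theorem sbU_BD (ψ : ℕ → VR R) (L D : ℕ) (f : U R) (hf : f ∈ BD R L D) :
    sbU ψ f ∈ BD R L D := by
  refine T2_main ψ _ ?_ f hf
  rintro m ⟨hm1, hm2⟩ m' h
  have h1 : ∀ p ∈ m'.support, p.1 < L := by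
    intro p hp
    have h2 := T2_le_sdeg m' p
    have h3 : m' p ≠ 0 := Finsupp.mem_support_iff.1 hp
    rw [h p.1] at h2
    obtain ⟨q, hq, hq1⟩ := T2_exists_of_sdeg m p.1 (by omega)
    rw [← hq1]
    exact hm1 q hq
  refine ⟨h1, ?_⟩
  rw [T2_degree_eq m' L h1]
  rw [T2_degree_eq m L hm1] at hm2
  simp only [h]
  exact hm2

theorem GLS_MS (S : Finset ℕ) : GLS (MS R S) := fun _ f hf => sbU_MS _ S f hf

theorem GLS_BD (L D : ℕ) : GLS (BD R L D) := fun _ f hf => sbU_BD _ L D f hf

theorem MS_le_BD (S : Finset ℕ) (L : ℕ) (hL : ∀ a ∈ S, a < L) : MS R S ≤ BD R L S.card := by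
  refine restrictSupport_mono R ?_
  intro m hm
  have h1 : ∀ p ∈ m.support, p.1 < L := by
    intro p hp
    have h2 := T2_le_sdeg m p
    have h3 : m p ≠ 0 := Finsupp.mem_support_iff.1 hp
    rw [hm p.1] at h2
    by_contra hcon
    have : p.1 ∉ S := fun h => hcon (hL _ h)
    rw [if_neg this] at h2
    omega
  refine ⟨h1, ?_⟩
  rw [T2_degree_eq m L h1]
  simp only [show ∀ a, sdeg a m = if a ∈ S then 1 else 0 from hm]
  rw [Finset.sum_ite_mem, Finset.sum_const, smul_eq_mul, mul_one]
  exact Finset.card_le_card Finset.inter_subset_right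

/-! stability for one substitution -/

private theorem T2_sup (φ : ℕ → V) {N N' : Submodule R (U R)} (h : ∀ f ∈ N, sbC φ f ∈ N)
    (h' : ∀ f ∈ N', sbC φ f ∈ N') : ∀ f ∈ N ⊔ N', sbC φ f ∈ N ⊔ N' := by
  intro f hf
  obtain ⟨a, ha, b, hb, rfl⟩ := Submodule.mem_sup.1 hf
  rw [map_add]
  exact Submodule.add_mem_sup (h a ha) (h' b hb)

private theorem T2_smul (φ : ℕ → V) {I : Ideal R} {N : Submodule R (U R)}
    (h : ∀ f ∈ I, sbR φ f ∈ I)
    (h' : ∀ f ∈ N, sbC φ f ∈ N) : ∀ f ∈ I • N, sbC φ f ∈ I • N := by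
  intro f hf
  refine Submodule.smul_induction_on hf ?_ ?_
  · intro r hr n hn
    rw [sbC_smul]
    exact Submodule.smul_mem_smul (h r hr) (h' n hn)
  · intro x y hx hy
    rw [map_add]
    exact Submodule.add_mem _ hx hy

private theorem T2_mul (φ : ℕ → V) {I I' : Ideal R} (h : ∀ f ∈ I, sbR φ f ∈ I)
    (h' : ∀ f ∈ I', sbR φ f ∈ I') : ∀ f ∈ I * I', sbR φ f ∈ I * I' := by
  intro f hf
  refine Submodule.mul_induction_on hf ?_ ?_
  · intro r hr n hn
    rw [map_mul]
    exact Ideal.mul_mem_mul (h r hr) (h' n hn)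
  · intro x y hx hy
    rw [map_add]
    exact Ideal.add_mem _ hx hy

private theorem T2_pow (φ : ℕ → V) {I : Ideal R} (h : ∀ f ∈ I, sbR φ f ∈ I) (n : ℕ) :
    ∀ f ∈ I ^ n, sbR φ f ∈ I ^ n := by
  induction n with
  | zero =>
    intro f _
    rw [pow_zero, Ideal.one_eq_top]
    trivial
  | succ n ih =>
    rw [pow_succ]
    exact T2_mul φ ih h

private theorem T2_span (φ : ℕ → V) (s : Set (U R))
    (h : ∀ f ∈ s, sbC φ f ∈ Submodule.span R s) :
    ∀ f ∈ Submodule.span R s, sbC φ f ∈ Submodule.span R s := by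
  intro f hf
  induction hf using Submodule.span_induction with
  | mem x hx => exact h x hx
  | zero => rw [map_zero]; exact Submodule.zero_mem _
  | add x y _ _ hx hy => rw [map_add]; exact Submodule.add_mem _ hx hy
  | smul a x _ hx => rw [sbC_smul]; exact Submodule.smul_mem _ _ hx

theorem GLS.sup {N N' : Submodule R (U R)} (h : GLS N) (h' : GLS N') : GLS (N ⊔ N') :=
  fun φ => T2_sup φ (h φ) (h' φ)

theorem GLS.inf {N N' : Submodule R (U R)} (h : GLS N) (h' : GLS N') : GLS (N ⊓ N') :=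
  fun φ f hf => ⟨h φ f hf.1, h' φ f hf.2⟩

theorem GLS.smul {I : Ideal R} {N : Submodule R (U R)} (hI : GLSI I) (h : GLS N) :
    GLS (I • N) := fun φ => T2_smul φ (hI φ) (h φ)

theorem GLSI.pow {I : Ideal R} (hI : GLSI I) (n : ℕ) : GLSI (I ^ n) :=
  fun φ => T2_pow φ (hI φ) n

theorem GLSI.mul {I I' : Ideal R} (hI : GLSI I) (hI' : GLSI I') : GLSI (I * I') :=
  fun φ => T2_mul φ (hI φ) (hI' φ)

theorem GS.sup {N N' : Submodule R (U R)} (h : GS N) (h' : GS N') : GS (N ⊔ N') :=
  fun g hg c hc => T2_sup _ (h g hg c hc) (h' g hg c hc)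

theorem GS.inf {N N' : Submodule R (U R)} (h : GS N) (h' : GS N') : GS (N ⊓ N') :=
  fun g hg c hc f hf => ⟨h g hg c hc f hf.1, h' g hg c hc f hf.2⟩

theorem GS.smul {I : Ideal R} {N : Submodule R (U R)} (hI : GSI I) (h : GS N) :
    GS (I • N) := fun g hg c hc => T2_smul _ (hI g hg c hc) (h g hg c hc)

theorem GLS.gs {N : Submodule R (U R)} (h : GLS N) : GS N := fun _ _ _ _ => h _

theorem GLSI.gsi {I : Ideal R} (h : GLSI I) : GSI I := fun _ _ _ _ => h _

/-- stability of a span -/
theorem GLS_span (s : Set (U R)) (h : ∀ φ : ℕ → V, ∀ f ∈ s, sbC φ f ∈ Submodule.span R s) :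
    GLS (Submodule.span R s) := fun φ => T2_span φ s (h φ)

theorem GS_span (s : Set (U R)) (h : ∀ g : Cinf ≃ₗ[ℂ] Cinf, IsSp g → ∀ c : ℂ, c ≠ 0 → ∀ f ∈ s,
    sbC (fun i => c • g (ee i)) f ∈ Submodule.span R s) : GS (Submodule.span R s) :=
  fun g hg c hc => T2_span _ s (h g hg c hc)

/-- ideals as submodules -/
theorem C_mem_ofI (I : Ideal R) (a : R) : (C a : U R) ∈ ofI I ↔ a ∈ I := by
  unfold ofI
  rw [Submodule.mem_map]
  constructor
  · rintro ⟨b, hb, hab⟩
    have : b = a := C_injective _ _ hab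
    exact this ▸ hb
  · intro ha
    exact ⟨a, ha, rfl⟩

theorem mem_ofI (I : Ideal R) (f : U R) : f ∈ ofI I ↔ ∃ a ∈ I, f = C a := by
  unfold ofI
  rw [Submodule.mem_map]
  constructor
  · rintro ⟨b, hb, hab⟩
    exact ⟨b, hb, hab.symm⟩
  · rintro ⟨a, ha, rfl⟩
    exact ⟨a, ha, rfl⟩

theorem ofI_le (I I' : Ideal R) : ofI I ≤ ofI I' ↔ I ≤ I' := by
  constructor
  · intro h a ha
    exact (C_mem_ofI I' a).1 (h ((C_mem_ofI I a).2 ha))
  · intro h
    exact Submodule.map_mono h

theorem ofI_smul (I I' : Ideal R) : I • ofI I' = ofI (I * I') := by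
  unfold ofI
  rw [← smul_eq_mul, Submodule.map_smul'']

theorem GLS_ofI (I : Ideal R) : GLS (ofI I) ↔ GLSI I := by
  constructor
  · intro h φ a ha
    have := h φ (C a) ((C_mem_ofI I a).2 ha)
    rw [sbC_C] at this
    exact (C_mem_ofI I _).1 this
  · intro h φ f hf
    obtain ⟨a, ha, rfl⟩ := (mem_ofI I f).1 hf
    rw [sbC_C]
    exact (C_mem_ofI I _).2 (h φ a ha)

theorem GS_ofI (I : Ideal R) : GS (ofI I) ↔ GSI I := by
  constructor
  · intro h g hg c hc a ha
    have := h g hg c hc (C a) ((C_mem_ofI I a).2 ha)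
    rw [sbC_C] at this
    exact (C_mem_ofI I _).1 this
  · intro h g hg c hc f hf
    obtain ⟨a, ha, rfl⟩ := (mem_ofI I f).1 hf
    rw [sbC_C]
    exact (C_mem_ofI I _).2 (h g hg c hc a ha)

private theorem T2_eq_C (f : U R) (h : ∀ m ∈ f.support, m = 0) : f = C (coeff 0 f) := by
  ext m
  rw [coeff_C]
  split_ifs with h0
  · rw [h0]
  · by_contra hne
    exact h0 (h m (mem_support_iff.2 hne)).symm

theorem MS_empty : MS R ∅ = ofI (⊤ : Ideal R) := by
  ext f
  constructor
  · intro hf
    rw [mem_ofI]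
    refine ⟨coeff 0 f, trivial, T2_eq_C f fun m hm => ?_⟩
    have h1 := hf hm
    ext p
    have h2 := T2_le_sdeg m p
    have h3 := h1 p.1
    simp only [Finset.notMem_empty, if_false] at h3
    rw [h3] at h2
    simpa using h2
  · intro hf
    obtain ⟨a, -, rfl⟩ := (mem_ofI _ f).1 hf
    have : (C a : U R) = monomial 0 a := rfl
    rw [this]
    refine (monomial_mem_restrictSupport R).2 (Or.inl fun b => ?_)
    rw [T2_sdeg_zero]
    simp

theorem BD_zero : BD R 0 0 = ofI (⊤ : Ideal R) := by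
  ext f
  constructor
  · intro hf
    rw [mem_ofI]
    refine ⟨coeff 0 f, trivial, T2_eq_C f fun m hm => ?_⟩
    have h1 := (hf hm).2
    exact (Finsupp.degree_eq_zero_iff m).1 (Nat.le_zero.1 h1)
  · intro hf
    obtain ⟨a, -, rfl⟩ := (mem_ofI _ f).1 hf
    have : (C a : U R) = monomial 0 a := rfl
    rw [this]
    refine (monomial_mem_restrictSupport R).2 (Or.inl ⟨?_, ?_⟩)
    · intro p hp
      simp at hp
    · simp

/-- submodules of `ofI ⊤` are ideals -/
theorem eq_ofI (N : Submodule R (U R)) (h : N ≤ ofI ⊤) : N = ofI (N.comap (Algebra.linearMap R (U R))) := by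
  ext f
  constructor
  · intro hf
    obtain ⟨a, -, rfl⟩ := (mem_ofI _ f).1 (h hf)
    rw [C_mem_ofI]
    exact hf
  · intro hf
    obtain ⟨a, ha, rfl⟩ := (mem_ofI _ f).1 hf
    exact ha

end MP50e386N
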