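import Mathlib
import Pool.Agent.Lib.MP_50e386_al.N.QDefs
import Pool.Agent.Lib.MP_50e386_al.N.T1
import Pool.Agent.Lib.MP_50e386_al.N.T2

/-! Gram determinants and the key identity (KI), paper section 1. -/

namespace MP50e386N

open MvPolynomial Pool.Agent.Lib.MP50e386

/-! ### bordered determinants -/

private theorem Q1_bord_reg {S : Type} [CommRing S] {m : Type} [Fintype m] [DecidableEq m]
    (A : Matrix m m S) (B : Matrix m (Fin 1) S) (C' : Matrix (Fin 1) m S)
    (D : Matrix (Fin 1) (Fin 1) S) (hA : IsRegular A.det) :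
    (Matrix.fromBlocks A B C' D).det = A.det * D 0 0 - (C' * A.adjugate * B) 0 0 := by
  have h1 : Matrix.fromBlocks A B C' D *
      Matrix.fromBlocks 1 (-(A.adjugate * B)) 0 (A.det • (1 : Matrix (Fin 1) (Fin 1) S)) =
      Matrix.fromBlocks A 0 C' (A.det • D - C' * A.adjugate * B) := by
    rw [Matrix.fromBlocks_multiply]
    congr 1
    · simp
    · rw [Matrix.mul_neg, ← Matrix.mul_assoc, Matrix.mul_adjugate]
      simp
    · simp
    · rw [Matrix.mul_neg, ← Matrix.mul_assoc]
      simp only [Matrix.mul_smul, Matrix.mul_one]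
      abel
  have h2 := congrArg Matrix.det h1
  rw [Matrix.det_mul, Matrix.det_fromBlocks_zero₂₁, Matrix.det_fromBlocks_zero₁₂] at h2
  simp only [Matrix.det_one, one_mul, Matrix.det_fin_one, Matrix.smul_apply, Matrix.one_apply_eq,
    smul_eq_mul, mul_one, Matrix.sub_apply] at h2
  rw [mul_comm] at h2
  exact hA.left h2

private theorem Q1_bord {S : Type} [CommRing S] {m : Type} [Fintype m] [DecidableEq m]
    (A : Matrix m m S) (B : Matrix m (Fin 1) S) (C' : Matrix (Fin 1) m S)
    (D : Matrix (Fin 1) (Fin 1) S) :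
    (Matrix.fromBlocks A B C' D).det = A.det * D 0 0 - (C' * A.adjugate * B) 0 0 := by
  set φ : Polynomial S →+* S := Polynomial.evalRingHom 0 with hφ
  have hmap : ∀ {p q : Type} (N : Matrix p q S), (N.map Polynomial.C).map φ = N := by
    intro p q N
    ext i j
    simp [hφ]
  have hA : (Matrix.charmatrix (-A)).map φ = A := by
    ext i j
    by_cases hij : i = j
    · subst hij
      simp [hφ, Matrix.charmatrix_apply_eq]
    · simp [hφ, Matrix.charmatrix_apply_ne _ _ _ hij]
  have hreg : IsRegular (Matrix.charmatrix (-A)).det := by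
    have := (Matrix.charpoly_monic (-A))
    exact this.isRegular
  have h1 := Q1_bord_reg (Matrix.charmatrix (-A)) (B.map Polynomial.C) (C'.map Polynomial.C)
    (D.map Polynomial.C) hreg
  have h2 := congrArg φ h1
  rw [RingHom.map_det, RingHom.mapMatrix_apply, Matrix.fromBlocks_map, hA, hmap, hmap, hmap,
    map_sub, map_mul, RingHom.map_det, RingHom.mapMatrix_apply, hA] at h2
  rw [h2]
  congr 1
  · simp [hφ]
  · have h3 : φ ((C'.map Polynomial.C * (Matrix.charmatrix (-A)).adjugate *
        B.map Polynomial.C) 0 0) =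
        ((C'.map Polynomial.C * (Matrix.charmatrix (-A)).adjugate *
          B.map Polynomial.C).map φ) 0 0 := rfl
    rw [h3, Matrix.map_mul, Matrix.map_mul, hmap, hmap]
    have h4 : (Matrix.charmatrix (-A)).adjugate.map φ = A.adjugate := by
      have := φ.map_adjugate (Matrix.charmatrix (-A))
      rw [RingHom.mapMatrix_apply, RingHom.mapMatrix_apply, hA] at this
      exact this
    rw [h4]

variable {R : Type} [CommRing R] [Algebra ℂ R] [GLRing R]

/-! ### bilinearity -/

private theorem Q1_xv_eq (v w : V) : (xv v w : R) = xf (cst v) (cst w) := rfl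

private theorem Q1_xf_smul_left (a : ℂ) (y y' : VR R) :
    (xf (a • y) y' : R) = algebraMap ℂ R a * xf y y' := by
  rw [← algebraMap_smul R a y, map_smul, LinearMap.smul_apply, smul_eq_mul]

private theorem Q1_xf_smul_right (a : ℂ) (y y' : VR R) :
    (xf y (a • y') : R) = algebraMap ℂ R a * xf y y' := by
  rw [← algebraMap_smul R a y', map_smul, smul_eq_mul]

private theorem Q1_xv_add_left (v v' w : V) : (xv (v + v') w : R) = xv v w + xv v' w := by
  simp only [Q1_xv_eq, map_add, LinearMap.add_apply]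

private theorem Q1_xv_smul_left (a : ℂ) (v w : V) :
    (xv (a • v) w : R) = algebraMap ℂ R a * xv v w := by
  rw [Q1_xv_eq, map_smul, Q1_xf_smul_left]
  rfl

private theorem Q1_xv_sum {r : ℕ} (a b : Fin r → ℂ) (v w : Fin r → V) :
    (xv (∑ i, a i • v i) (∑ j, b j • w j) : R) =
      ∑ i, ∑ j, algebraMap ℂ R (a i) * xv (v i) (w j) * algebraMap ℂ R (b j) := by
  rw [Q1_xv_eq, map_sum, map_sum, map_sum, LinearMap.sum_apply]
  refine Finset.sum_congr rfl fun i _ => ?_
  rw [map_sum]
  refine Finset.sum_congr rfl fun j _ => ?_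
  rw [map_smul (cst : V →ₗ[ℂ] VR R), map_smul (cst : V →ₗ[ℂ] VR R), Q1_xf_smul_left,
    Q1_xf_smul_right, Q1_xv_eq]
  ring

theorem Dl_zero (v : Fin 0 → V) : (Dl v : R) = 1 := by
  unfold Dl
  exact Matrix.det_isEmpty

theorem sbR_Dl {r : ℕ} (φ : ℕ → V) (v : Fin r → V) :
    sbR φ (Dl v : R) = Dl (fun i => linC φ (v i)) := by
  unfold Dl
  rw [AlgHom.map_det]
  congr 1
  ext i j
  exact sb_x_cst φ (v i) (v j)

private theorem Q1_sbR_Dl1 {r : ℕ} (φ : ℕ → V) (v : Fin r → V) (c : V) :
    sbR φ (Dl1 v c : R) = Dl1 (fun i => linC φ (v i)) (linC φ c) := by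
  unfold Dl1
  rw [sbR_Dl]
  congr 1
  exact Fin.comp_snoc (linC φ) v c

theorem sbR_hh (s q : ℕ) {r k : ℕ} (φ : ℕ → V) (v : Fin r → V) (c : Fin k → V) :
    sbR φ (hh s q v c : R) = hh s q (fun i => linC φ (v i)) (fun j => linC φ (c j)) := by
  unfold hh Ek
  rw [map_mul, map_prod, map_pow, sbR_Dl]
  congr 1
  refine Finset.prod_congr rfl fun j _ => ?_
  rw [map_pow, Q1_sbR_Dl1]

theorem Dl_mat {r : ℕ} (g : Matrix (Fin r) (Fin r) ℂ) (v : Fin r → V) :
    (Dl (fun j => ∑ i, g i j • v i) : R) = algebraMap ℂ R (g.det ^ 2) * Dl v := by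
  have h1 : (gramM (fun j => ∑ i, g i j • v i) : Matrix (Fin r) (Fin r) R) =
      ((algebraMap ℂ R).mapMatrix g).transpose * gramM v * (algebraMap ℂ R).mapMatrix g := by
    ext i j
    simp only [gramM, Matrix.of_apply, Matrix.mul_apply, Matrix.transpose_apply,
      RingHom.mapMatrix_apply, Matrix.map_apply]
    rw [Q1_xv_sum]
    rw [Finset.sum_comm]
    refine Finset.sum_congr rfl fun k _ => ?_
    rw [Finset.sum_mul]
  unfold Dl
  rw [h1, Matrix.det_mul, Matrix.det_mul, Matrix.det_transpose, ← RingHom.map_det, map_pow]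
  ring

theorem Dl_eq_zero {r : ℕ} (v : Fin r → V) (hv : ¬ LinearIndependent ℂ v) : (Dl v : R) = 0 := by
  rw [Fintype.not_linearIndependent_iff] at hv
  obtain ⟨g, hg, i0, hi0⟩ := hv
  have h1 := Dl_mat (R := R) (Matrix.updateCol (1 : Matrix (Fin r) (Fin r) ℂ) i0 g) v
  have h2 : (Matrix.updateCol (1 : Matrix (Fin r) (Fin r) ℂ) i0 g).det = g i0 := by
    rw [← Matrix.cramer_apply, Matrix.cramer_one]
    rfl
  rw [h2] at h1
  have h3 : (Dl (fun j => ∑ i, Matrix.updateCol (1 : Matrix (Fin r) (Fin r) ℂ) i0 g i j • v i) :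
      R) = 0 := by
    unfold Dl
    apply Matrix.det_eq_zero_of_row_eq_zero i0
    intro j
    have h4 : ∑ i, Matrix.updateCol (1 : Matrix (Fin r) (Fin r) ℂ) i0 g i i0 • v i = 0 := by
      simp only [Matrix.updateCol_self]
      exact hg
    simp only [gramM, Matrix.of_apply]
    rw [h4, Q1_xv_eq, map_zero, map_zero, LinearMap.zero_apply]
  rw [h3] at h1
  have h5 : IsUnit (algebraMap ℂ R (g i0 ^ 2)) :=
    (IsUnit.mk0 _ (pow_ne_zero 2 hi0)).map (algebraMap ℂ R)
  exact (h5.mul_right_eq_zero).1 h1.symm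

private theorem Q1_smul (a : ℂ) (b : R) (y : VR R) :
    a • (b • y) = (algebraMap ℂ R a * b) • y := by
  rw [← algebraMap_smul R a (b • y), smul_smul]

theorem pit_add {r : ℕ} (v : Fin r → V) (c c' : V) :
    (pit v (c + c') : VR R) = pit v c + pit v c' := by
  unfold pit
  rw [← Finset.sum_add_distrib]
  refine Finset.sum_congr rfl fun k _ => ?_
  rw [← add_smul, ← Finset.sum_add_distrib]
  congr 1
  refine Finset.sum_congr rfl fun l _ => ?_
  rw [Q1_xv_add_left, add_mul]

private theorem Q1_pit_smul {r : ℕ} (v : Fin r → V) (a : ℂ) (c : V) :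
    (pit v (a • c) : VR R) = a • pit v c := by
  unfold pit
  rw [Finset.smul_sum]
  refine Finset.sum_congr rfl fun k _ => ?_
  rw [Q1_smul]
  congr 1
  rw [Finset.mul_sum]
  refine Finset.sum_congr rfl fun l _ => ?_
  rw [Q1_xv_smul_left, mul_assoc]

theorem til_add {r : ℕ} (v : Fin r → V) (c c' : V) :
    (til v (c + c') : VR R) = til v c + til v c' := by
  unfold til
  rw [pit_add, map_add, smul_add]
  abel

theorem til_smul {r : ℕ} (v : Fin r → V) (a : ℂ) (c : V) :
    (til v (a • c) : VR R) = a • til v c := by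
  unfold til
  rw [Q1_pit_smul, map_smul, smul_sub, smul_comm]

theorem til_self {r : ℕ} (v : Fin r → V) (i : Fin r) : (til v (v i) : VR R) = 0 := by
  have h1 : (pit v (v i) : VR R) = (Dl v : R) • cst (v i) := by
    unfold pit
    have h2 : ∀ k, ∑ l, (xv (v i) (v l) : R) *
        (gramM v : Matrix (Fin r) (Fin r) R).adjugate l k =
        (Dl v : R) * (1 : Matrix (Fin r) (Fin r) R) i k := by
      intro k
      have h3 := congrFun (congrFun (Matrix.mul_adjugate (gramM v : Matrix (Fin r) (Fin r) R)) i) k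
      rw [Matrix.mul_apply, Matrix.smul_apply, smul_eq_mul] at h3
      exact h3
    simp_rw [h2]
    rw [Finset.sum_eq_single i]
    · rw [Matrix.one_apply_eq, mul_one]
    · intro k _ hk
      rw [Matrix.one_apply_ne (Ne.symm hk), mul_zero, zero_smul]
    · intro h
      exact absurd (Finset.mem_univ i) h
  unfold til
  rw [h1, sub_self]

/-- `til v c` and `pit v c` lie in the `R`-span of `v` and `c`, resp. of `v` -/
theorem pit_mem_span {r : ℕ} (v : Fin r → V) (c : V) :
    (pit v c : VR R) ∈ Submodule.span R ((fun w => (cst w : VR R)) '' (Set.range v)) := by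
  unfold pit
  refine Submodule.sum_mem _ fun k _ => Submodule.smul_mem _ _ (Submodule.subset_span ?_)
  exact ⟨v k, ⟨k, rfl⟩, rfl⟩

theorem til_mem_span {r : ℕ} (v : Fin r → V) (c : V) :
    (til v c : VR R) ∈ Submodule.span R ((fun w => (cst w : VR R)) '' (Set.range v ∪ {c})) := by
  unfold til
  refine Submodule.sub_mem _ (Submodule.smul_mem _ _ (Submodule.subset_span ?_)) ?_
  · exact ⟨c, Or.inr rfl, rfl⟩
  · exact Submodule.span_mono (Set.image_mono Set.subset_union_left) (pit_mem_span v c)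

private theorem Q1_xf_til {r : ℕ} (v : Fin r → V) (c y : V) :
    (xf (til v c) (cst y) : R) = Dl v * xv c y - ∑ k, (∑ l, (xv c (v l) : R) *
      (gramM v : Matrix (Fin r) (Fin r) R).adjugate l k) * xv (v k) y := by
  unfold til pit
  rw [map_sub, LinearMap.sub_apply, map_smul, LinearMap.smul_apply, smul_eq_mul, map_sum,
    LinearMap.sum_apply]
  congr 1
  refine Finset.sum_congr rfl fun k _ => ?_
  rw [map_smul, LinearMap.smul_apply, smul_eq_mul]
  rfl

/-- the form `B(v,c,y) = x(c~, y)` as a bordered determinant -/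
theorem det_border {r : ℕ} (v : Fin r → V) (c y : V) :
    (Matrix.det (Matrix.of fun i j : Fin (r + 1) =>
      (xv ((Fin.snoc v c : Fin (r + 1) → V) i) ((Fin.snoc v y : Fin (r + 1) → V) j) : R))) =
      xf (til v c) (cst y) := by
  have h1 : (Matrix.of fun i j : Fin (r + 1) =>
      (xv ((Fin.snoc v c : Fin (r + 1) → V) i) ((Fin.snoc v y : Fin (r + 1) → V) j) : R)).submatrix
        finSumFinEquiv finSumFinEquiv =
      Matrix.fromBlocks (gramM v) (Matrix.of fun i _ => xv (v i) y)
        (Matrix.of fun _ j => xv c (v j)) (Matrix.of fun (_ _ : Fin 1) => xv c y) := by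
    have hl : ∀ (w : V) (i : Fin r), (Fin.snoc v w : Fin (r + 1) → V) (finSumFinEquiv (Sum.inl i)) =
        v i := by
      intro w i
      rw [finSumFinEquiv_apply_left]
      exact Fin.snoc_castSucc (α := fun _ => V) w v i
    have hr : ∀ (w : V) (i : Fin 1), (Fin.snoc v w : Fin (r + 1) → V) (finSumFinEquiv (Sum.inr i)) =
        w := by
      intro w i
      have h2 : (finSumFinEquiv (Sum.inr i) : Fin (r + 1)) = Fin.last r := by
        rw [finSumFinEquiv_apply_right]
        ext
        simp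
      rw [h2]
      exact Fin.snoc_last (α := fun _ => V) w v
    ext i j
    rcases i with i | i <;> rcases j with j | j <;>
      simp only [Matrix.submatrix_apply, Matrix.of_apply, hl, hr, Matrix.fromBlocks_apply₁₁,
        Matrix.fromBlocks_apply₁₂, Matrix.fromBlocks_apply₂₁, Matrix.fromBlocks_apply₂₂, gramM]
  rw [← Matrix.det_submatrix_equiv_self finSumFinEquiv, h1, Q1_bord, Q1_xf_til]
  simp only [Matrix.of_apply, Matrix.mul_apply]
  rfl

theorem Dl1_eq {r : ℕ} (v : Fin r → V) (c : V) : (Dl1 v c : R) = xf (til v c) (cst c) := by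
  rw [← det_border]
  rfl

theorem xf_til_comm {r : ℕ} (v : Fin r → V) (c y : V) :
    (xf (til v c) (cst y) : R) = xf (til v y) (cst c) := by
  rw [← det_border, ← det_border, ← Matrix.det_transpose]
  congr 1
  ext i j
  simp only [Matrix.transpose_apply, Matrix.of_apply]
  exact xv_comm _ _

theorem Dl1_add {r : ℕ} (v : Fin r → V) (c y : V) (a : ℂ) :
    (Dl1 v (c + a • y) : R) = Dl1 v c + (2 * a) • xf (til v c) (cst y) + a ^ 2 • Dl1 v y := by
  rw [Dl1_eq, Dl1_eq, Dl1_eq, til_add, til_smul, map_add (cst : V →ₗ[ℂ] VR R),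
    map_smul (cst : V →ₗ[ℂ] VR R)]
  simp only [map_add, LinearMap.add_apply, Q1_xf_smul_left, Q1_xf_smul_right]
  rw [xf_til_comm v y c, Algebra.smul_def, Algebra.smul_def, map_mul, map_pow, map_ofNat]
  ring

theorem Dl1_mem {r : ℕ} (v : Fin r → V) (i : Fin r) : (Dl1 v (v i) : R) = 0 := by
  rw [Dl1_eq, til_self, map_zero, LinearMap.zero_apply]

/-- (KI) -/
theorem KI {r s : ℕ} (h1 : HP1 R r s) (v : Fin r → V) (c : V) (y : VR R) :
    (Dl1 v c : R) ^ s * xf (til v c) y = 0 := by
  have key : ∀ y : V, (Dl1 v c : R) ^ s * xf (til v c) (cst y) = 0 := by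
    intro y
    set A : R := Dl1 v c with hA
    set B : R := xf (til v c) (cst y) with hB
    set D : R := Dl1 v y with hD
    set Q : Polynomial R := Polynomial.C A + Polynomial.C (2 * B) * Polynomial.X +
      Polynomial.C D * Polynomial.X ^ 2 with hQ
    have h2 : ∀ t : ℂ, (Q ^ (s + 1)).eval (algebraMap ℂ R t) ∈ (⊥ : Submodule ℂ R) := by
      intro t
      rw [Submodule.mem_bot]
      have h3 := h1 (Fin.snoc v (c + t • y))
      have h4 := Dl1_add (R := R) v c y t
      unfold Dl1 at h4
      rw [h4] at h3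
      rw [Polynomial.eval_pow]
      rw [← h3]
      congr 1
      rw [hQ]
      simp only [Polynomial.eval_add, Polynomial.eval_mul, Polynomial.eval_C, Polynomial.eval_X,
        Polynomial.eval_pow, Polynomial.eval_ofNat, Algebra.smul_def, map_mul, map_pow, map_ofNat]
      rw [hA, hB, hD]
      unfold Dl1
      ring
    have h5 : (Q ^ (s + 1)).coeff 1 ∈ (⊥ : Submodule ℂ R) := by
      apply vand_poly
      have : {t : ℂ | (Q ^ (s + 1)).eval (algebraMap ℂ R t) ∈ (⊥ : Submodule ℂ R)} = Set.univ := by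
        ext t
        simp only [Set.mem_univ, iff_true]
        exact h2 t
      rw [this]
      exact Set.infinite_univ
    rw [Submodule.mem_bot] at h5
    have h6 : (Q ^ (s + 1)).coeff 1 = ((s : R) + 1) * (A ^ s * (2 * B)) := by
      have h7 := Polynomial.coeff_derivative (Q ^ (s + 1)) 0
      rw [Nat.cast_zero, zero_add, zero_add, mul_one] at h7
      rw [← h7, Polynomial.coeff_zero_eq_eval_zero, Polynomial.derivative_pow_succ]
      have h8 : Q.eval 0 = A := by
        rw [hQ]; simp
      have h9 : Q.derivative.eval 0 = 2 * B := by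
        rw [hQ]; simp
      rw [Polynomial.eval_mul, Polynomial.eval_mul, Polynomial.eval_pow, h8, h9]
      simp only [Polynomial.eval_C]
      push_cast
      ring
    rw [h6] at h5
    have h10 : ((s : R) + 1) * (A ^ s * (2 * B)) =
        algebraMap ℂ R (((s : ℂ) + 1) * 2) * (A ^ s * B) := by
      rw [map_mul, map_add, map_natCast, map_one, map_ofNat]
      ring
    rw [h10] at h5
    have h11 : IsUnit (algebraMap ℂ R (((s : ℂ) + 1) * 2)) := by
      refine (IsUnit.mk0 _ ?_).map (algebraMap ℂ R)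
      have : ((s : ℂ) + 1) ≠ 0 := Nat.cast_add_one_ne_zero s
      exact mul_ne_zero this (by norm_num)
    exact (h11.mul_right_eq_zero).1 h5
  induction y using Finsupp.induction_linear with
  | zero => rw [map_zero, mul_zero]
  | add f g hf hg => rw [map_add, mul_add, hf, hg, add_zero]
  | single i a =>
    have h3 : (Finsupp.single i a : VR R) = a • cst (ee i) := by
      simp [cst]
    rw [h3, map_smul, smul_eq_mul, mul_left_comm, key, mul_zero]

theorem til_mem_Rad {r s k : ℕ} (h1 : HP1 R r s) (v : Fin r → V) (c : Fin k → V) (c' : V)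
    (hc' : c' ∈ Submodule.span ℂ (Set.range v ∪ Set.range c)) :
    (til v c' : VR R) ∈ Rad (Ek s v c : R) := by
  induction hc' using Submodule.span_induction with
  | mem x hx =>
    rcases hx with ⟨i, rfl⟩ | ⟨j, rfl⟩
    · rw [til_self]
      exact Submodule.zero_mem _
    · intro y'
      unfold Ek
      rw [← Finset.mul_prod_erase Finset.univ _ (Finset.mem_univ j), mul_right_comm,
        KI h1, zero_mul]
  | zero =>
    have h2 := til_smul (R := R) v 0 0
    rw [zero_smul, zero_smul] at h2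
    rw [h2]
    exact Submodule.zero_mem _
  | add x y _ _ hx hy =>
    rw [til_add]
    exact Submodule.add_mem _ hx hy
  | smul a x _ hx =>
    rw [til_smul, ← algebraMap_smul R a]
    exact Submodule.smul_mem _ _ hx

theorem Rad_mul (E E' : R) : Rad E ≤ Rad (E * E') := by
  intro y hy y'
  rw [mul_right_comm, hy y', zero_mul]

private theorem Q1_gen (E : R) (ψ ψ' : ℕ → VR R) {i j : ℕ} (hi : ψ i - ψ' i ∈ Rad E)
    (hj : ψ j - ψ' j ∈ Rad E) :
    E * GLRing.sb ψ (GLRing.x i j : R) = E * GLRing.sb ψ' (GLRing.x i j : R) := by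
  rw [sb_x', sb_x']
  have h1 := hi (ψ j)
  have h2 := hj (ψ' i)
  rw [map_sub, LinearMap.sub_apply, mul_sub] at h1 h2
  rw [xf_comm (ψ j), xf_comm (ψ' j)] at h2
  have h3 : E * xf (ψ i) (ψ j) = E * xf (ψ' i) (ψ j) := sub_eq_zero.1 h1
  have h4 : E * xf (ψ' i) (ψ j) = E * xf (ψ' i) (ψ' j) := sub_eq_zero.1 h2
  rw [h3, h4]

omit [Algebra ℂ R] [GLRing R] in
private theorem Q1_mul (E a b a' b' : R) (h : E * a = E * a') (h' : E * b = E * b') :
    E * (a * b) = E * (a' * b') := by
  calc E * (a * b) = (E * a) * b := by ring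
    _ = (E * b) * a' := by rw [h]; ring
    _ = E * (a' * b') := by rw [h']; ring

/-- (sbE) -/
theorem sbE (E : R) (ψ ψ' : ℕ → VR R) (h : ∀ i, ψ i - ψ' i ∈ Rad E) (a : R) :
    E * GLRing.sb ψ a = E * GLRing.sb ψ' a := by
  have ha : a ∈ Algebra.adjoin ℂ (Set.range fun p : ℕ × ℕ => (GLRing.x p.1 p.2 : R)) := by
    rw [GLRing.gen]; trivial
  induction ha using Algebra.adjoin_induction with
  | mem x hx =>
    obtain ⟨p, rfl⟩ := hx
    exact Q1_gen E ψ ψ' (h p.1) (h p.2)
  | algebraMap r => rw [AlgHom.commutes, AlgHom.commutes]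
  | add x y _ _ hx hy => rw [map_add, map_add, mul_add, mul_add, hx, hy]
  | mul x y _ _ hx hy =>
    rw [map_mul, map_mul]
    exact Q1_mul E _ _ _ _ hx hy

/-- (sbE) for elements with letters in `T` -/
theorem sbE' (E : R) (ψ ψ' : ℕ → VR R) (T : Set ℕ) (h : ∀ i ∈ T, ψ i - ψ' i ∈ Rad E) (a : R)
    (ha : (C a : U R) ∈ LT R T) : E * GLRing.sb ψ a = E * GLRing.sb ψ' a := by
  have key : ∀ f ∈ LT R T, E * GLRing.sb ψ (constantCoeff f) =
      E * GLRing.sb ψ' (constantCoeff f) := by
    intro f hf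
    unfold LT at hf
    induction hf using Algebra.adjoin_induction with
    | mem x hx =>
      rcases hx with ⟨i, hi, j, hj, rfl⟩ | ⟨a, i, hi, rfl⟩
      · rw [constantCoeff_C]
        exact Q1_gen E ψ ψ' (h i hi) (h j hj)
      · rw [constantCoeff_X, map_zero, map_zero]
    | algebraMap r =>
      have h2 : constantCoeff (algebraMap ℂ (U R) r) = algebraMap ℂ R r := by
        rw [IsScalarTower.algebraMap_apply ℂ R (U R), MvPolynomial.algebraMap_eq,
          constantCoeff_C]
      rw [h2, AlgHom.commutes, AlgHom.commutes]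
    | add x y _ _ hx hy => rw [map_add, map_add, map_add, mul_add, mul_add, hx, hy]
    | mul x y _ _ hx hy =>
      rw [map_mul, map_mul, map_mul]
      exact Q1_mul E _ _ _ _ hx hy
  have := key _ ha
  rwa [constantCoeff_C] at this

theorem Ek_mono (s : ℕ) {r k k' : ℕ} (v : Fin r → V) (c : Fin k → V) (c' : Fin k' → V)
    (h : ∃ e : Fin k ↪ Fin k', ∀ j, c' (e j) = c j) : (Ek s v c : R) ∣ Ek s v c' := by
  obtain ⟨e, he⟩ := h
  have h1 : (Ek s v c : R) = ∏ j ∈ Finset.univ.map e, (Dl1 v (c' j) : R) ^ s := by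
    unfold Ek
    rw [Finset.prod_map]
    exact Finset.prod_congr rfl fun j _ => by rw [he]
  rw [h1]
  exact Finset.prod_dvd_prod_of_subset _ _ _ (Finset.subset_univ _)

end MP50e386N
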