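import Mathlib
import Pool.Agent.Lib.MP_50e386_al.N.TDefs
import Pool.Agent.Lib.MP_50e386_al.N.T1
import Pool.Agent.Lib.MP_50e386_al.N.T2

/-! Letters, and substitutions with coefficients in `R`, (rc). -/

namespace MP50e386N

open MvPolynomial Pool.Agent.Lib.MP50e386

variable {R : Type} [CommRing R] [Algebra ℂ R] [GLRing R]

theorem LT_mono {T T' : Set ℕ} (h : T ⊆ T') : LT R T ≤ LT R T' := by
  apply Algebra.adjoin_mono
  rintro f (⟨i, hi, j, hj, rfl⟩ | ⟨a, i, hi, rfl⟩)
  · exact Or.inl ⟨i, h hi, j, h hj, rfl⟩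
  · exact Or.inr ⟨a, i, h hi, rfl⟩

private theorem t3_C_mem (a : R) : (C a : U R) ∈ LT R Set.univ := by
  have h : a ∈ Algebra.adjoin ℂ (Set.range fun p : ℕ × ℕ => (GLRing.x p.1 p.2 : R)) := by
    rw [GLRing.gen]
    exact Algebra.mem_top
  induction h using Algebra.adjoin_induction with
  | mem x hx =>
    obtain ⟨p, rfl⟩ := hx
    exact Algebra.subset_adjoin (Or.inl ⟨p.1, trivial, p.2, trivial, rfl⟩)
  | algebraMap c => exact Subalgebra.algebraMap_mem (LT R Set.univ) c
  | add x y _ _ hx hy =>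
    rw [map_add]
    exact Subalgebra.add_mem _ hx hy
  | mul x y _ _ hx hy =>
    rw [map_mul]
    exact Subalgebra.mul_mem _ hx hy

theorem LT_univ : LT R Set.univ = ⊤ := by
  rw [eq_top_iff]
  intro f _
  induction f using MvPolynomial.induction_on with
  | C a => exact t3_C_mem a
  | add p q hp hq => exact Subalgebra.add_mem _ (hp trivial) (hq trivial)
  | mul_X p i hp =>
    exact Subalgebra.mul_mem _ (hp trivial)
      (Algebra.subset_adjoin (Or.inr ⟨i.1, i.2, trivial, rfl⟩))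

theorem exists_LT (f : U R) : ∃ n, f ∈ LT R (Set.Iio n) := by
  have h : f ∈ LT R Set.univ := by rw [LT_univ]; exact Algebra.mem_top
  unfold LT at h
  induction h using Algebra.adjoin_induction with
  | mem x hx =>
    rcases hx with ⟨i, -, j, -, rfl⟩ | ⟨a, i, -, rfl⟩
    · refine ⟨max i j + 1, Algebra.subset_adjoin (Or.inl ⟨i, ?_, j, ?_, rfl⟩)⟩
      · exact Nat.lt_succ_of_le (le_max_left _ _)
      · exact Nat.lt_succ_of_le (le_max_right _ _)
    · exact ⟨i + 1, Algebra.subset_adjoin (Or.inr ⟨a, i, Nat.lt_succ_self _, rfl⟩)⟩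
  | algebraMap c => exact ⟨0, Subalgebra.algebraMap_mem _ c⟩
  | add x y _ _ hx hy =>
    obtain ⟨n, hn⟩ := hx
    obtain ⟨m, hm⟩ := hy
    exact ⟨max n m, Subalgebra.add_mem _
      (LT_mono (Set.Iio_subset_Iio (le_max_left _ _)) hn)
      (LT_mono (Set.Iio_subset_Iio (le_max_right _ _)) hm)⟩
  | mul x y _ _ hx hy =>
    obtain ⟨n, hn⟩ := hx
    obtain ⟨m, hm⟩ := hy
    exact ⟨max n m, Subalgebra.mul_mem _
      (LT_mono (Set.Iio_subset_Iio (le_max_left _ _)) hn)
      (LT_mono (Set.Iio_subset_Iio (le_max_right _ _)) hm)⟩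

private theorem t3_alg (ψ : ℕ → VR R) (c : ℂ) :
    sbU ψ (algebraMap ℂ (U R) c) = algebraMap ℂ (U R) c := by
  have h : (algebraMap ℂ (U R) c) = C (algebraMap ℂ R c) := rfl
  rw [h, sbU_C, AlgHom.commutes]

theorem sbU_congr {T : Set ℕ} {f : U R} (hf : f ∈ LT R T) (ψ ψ' : ℕ → VR R)
    (h : ∀ i ∈ T, ψ i = ψ' i) : sbU ψ f = sbU ψ' f := by
  unfold LT at hf
  induction hf using Algebra.adjoin_induction with
  | mem x hx =>
    rcases hx with ⟨i, hi, j, hj, rfl⟩ | ⟨a, i, hi, rfl⟩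
    · rw [sbU_C, sbU_C, GLRing.sb_x, GLRing.sb_x, h i hi, h j hj]
    · rw [sbU_X, sbU_X, h i hi]
  | algebraMap c => rw [t3_alg, t3_alg]
  | add x y _ _ hx hy => rw [map_add, map_add, hx, hy]
  | mul x y _ _ hx hy => rw [map_mul, map_mul, hx, hy]

theorem sbC_congr {T : Set ℕ} {f : U R} (hf : f ∈ LT R T) (φ φ' : ℕ → V)
    (h : ∀ i ∈ T, φ i = φ' i) : sbC φ f = sbC φ' f :=
  sbU_congr hf _ _ fun i hi => by rw [h i hi]

private theorem t3_smul_mem {T' : Set ℕ} {f : U R} (hf : f ∈ LT R T') (c : ℂ) :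
    (C (algebraMap ℂ R c) : U R) * f ∈ LT R T' :=
  Subalgebra.mul_mem _ (Subalgebra.algebraMap_mem (LT R T') c) hf

omit [GLRing R] in
private theorem t3_cst_apply (v : V) (k : ℕ) : (cst v : VR R) k = algebraMap ℂ R (v k) := rfl

omit [GLRing R] in
private theorem t3_cst_supp {v : V} {k : ℕ} (hk : k ∈ (cst v : VR R).support) : v k ≠ 0 := by
  intro h0
  rw [Finsupp.mem_support_iff, t3_cst_apply, h0, map_zero] at hk
  exact hk rfl

theorem sbC_LT {T T' : Set ℕ} {f : U R} (hf : f ∈ LT R T) (φ : ℕ → V)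
    (h : ∀ i ∈ T, ∀ j, φ i j ≠ 0 → j ∈ T') : sbC φ f ∈ LT R T' := by
  unfold LT at hf
  unfold sbC
  induction hf using Algebra.adjoin_induction with
  | mem x hx =>
    rcases hx with ⟨i, hi, j, hj, rfl⟩ | ⟨a, i, hi, rfl⟩
    · rw [sbU_C, GLRing.sb_x]
      unfold Finsupp.sum
      rw [map_sum]
      refine Subalgebra.sum_mem _ fun k hk => ?_
      rw [map_sum]
      refine Subalgebra.sum_mem _ fun l hl => ?_
      beta_reduce
      rw [t3_cst_apply, t3_cst_apply, ← map_mul, map_mul C]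
      exact t3_smul_mem (Algebra.subset_adjoin (Or.inl ⟨k, h i hi k (t3_cst_supp hk), l,
        h j hj l (t3_cst_supp hl), rfl⟩)) _
    · rw [sbU_X]
      unfold zf
      rw [Finsupp.linearCombination_apply]
      unfold Finsupp.sum
      refine Subalgebra.sum_mem _ fun k hk => ?_
      beta_reduce
      rw [t3_cst_apply, smul_eq_C_mul]
      exact t3_smul_mem (Algebra.subset_adjoin (Or.inr ⟨a, k, h i hi k (t3_cst_supp hk), rfl⟩)) _
  | algebraMap c =>
    rw [t3_alg]
    exact Subalgebra.algebraMap_mem _ c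
  | add x y _ _ hx hy =>
    rw [map_add]
    exact Subalgebra.add_mem _ hx hy
  | mul x y _ _ hx hy =>
    rw [map_mul]
    exact Subalgebra.mul_mem _ hx hy

/-- the components of a polynomial family of substitutions -/
theorem exists_sbU_poly {σ : Type} (ψ : ℕ → VR (MvPolynomial σ R)) (f : U R) :
    ∃ P : MvPolynomial σ (U R), ∀ t : σ → R,
      sbU (fun i => (ψ i).mapRange (eval t) (map_zero _)) f = eval (fun i => C (t i)) P := by
  have h : f ∈ LT R Set.univ := by rw [LT_univ]; exact Algebra.mem_top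
  unfold LT at h
  have key : ∀ (t : σ → R) (p : MvPolynomial σ R),
      eval (fun i => (C (t i) : U R)) (MvPolynomial.map (C : R →+* U R) p) = C (eval t p) := by
    intro t p
    rw [eval_map]
    exact (eval₂_comp_left (C : R →+* U R) (RingHom.id R) t p).symm
  induction h using Algebra.adjoin_induction with
  | mem x hx =>
    rcases hx with ⟨i, -, j, -, rfl⟩ | ⟨a, i, -, rfl⟩
    · refine ⟨(ψ i).sum fun k p => (ψ j).sum fun l q =>
        MvPolynomial.map (C : R →+* U R) p * MvPolynomial.map (C : R →+* U R) q *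
          C (C (GLRing.x k l)), fun t => ?_⟩
      rw [sbU_C, GLRing.sb_x, Finsupp.sum_mapRange_index (fun k => by simp)]
      unfold Finsupp.sum
      rw [map_sum, map_sum]
      refine Finset.sum_congr rfl fun k _ => ?_
      have h2 : (Finsupp.mapRange (eval t) (map_zero _) (ψ j)).sum
          (fun l b => eval t (ψ i k) * b * (GLRing.x k l : R)) =
          (ψ j).sum fun l q => eval t (ψ i k) * eval t q * (GLRing.x k l : R) :=
        Finsupp.sum_mapRange_index (fun l => by simp)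
      unfold Finsupp.sum at h2
      beta_reduce at h2 ⊢
      rw [h2, map_sum, map_sum]
      refine Finset.sum_congr rfl fun l _ => ?_
      rw [map_mul, map_mul, map_mul, map_mul, key, key, eval_C]
    · refine ⟨(ψ i).sum fun k p => MvPolynomial.map (C : R →+* U R) p * C (X (a, k)),
        fun t => ?_⟩
      rw [sbU_X]
      unfold zf
      rw [Finsupp.linearCombination_apply, Finsupp.sum_mapRange_index (fun k => by simp)]
      unfold Finsupp.sum
      rw [map_sum]
      refine Finset.sum_congr rfl fun k _ => ?_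
      beta_reduce
      rw [map_mul, key, eval_C, smul_eq_C_mul]
  | algebraMap c =>
    refine ⟨C (algebraMap ℂ (U R) c), fun t => ?_⟩
    rw [t3_alg, eval_C]
  | add x y _ _ hx hy =>
    obtain ⟨P, hP⟩ := hx
    obtain ⟨Q, hQ⟩ := hy
    exact ⟨P + Q, fun t => by rw [map_add, map_add, hP, hQ]⟩
  | mul x y _ _ hx hy =>
    obtain ⟨P, hP⟩ := hx
    obtain ⟨Q, hQ⟩ := hy
    exact ⟨P * Q, fun t => by rw [map_mul, map_mul, hP, hQ]⟩

/-- (rc), general form -/
theorem rc_gen (W : Submodule ℂ V) (N : Submodule R (U R)) (f : U R)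
    (h : ∀ φ : ℕ → V, (∀ i, φ i ∈ W) → sbC φ f ∈ N) (ψ : ℕ → VR R)
    (hψ : ∀ i, ψ i ∈ Submodule.span R ((fun v => (cst v : VR R)) '' (W : Set V))) :
    sbU ψ f ∈ N := by
  have h1 : ∀ i, ∃ (n : ℕ) (r : Fin n → R) (v : Fin n → V), (∀ k, v k ∈ W) ∧
      ∑ k, r k • (cst (v k) : VR R) = ψ i := by
    intro i
    obtain ⟨n, r, g, hg⟩ := Submodule.mem_span_set'.1 (hψ i)
    choose v hv hvg using fun k => (g k).2
    refine ⟨n, r, v, hv, ?_⟩
    rw [← hg]
    exact Finset.sum_congr rfl fun k _ => by rw [← hvg k]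
  choose n r v hv hr using h1
  let σ : Type := Σ i : ℕ, Fin (n i)
  let Ψ : ℕ → VR (MvPolynomial σ R) := fun i =>
    ∑ k, (X (⟨i, k⟩ : σ) : MvPolynomial σ R) •
      (cst (v i k) : VR R).mapRange (C : R →+* MvPolynomial σ R) (map_zero _)
  have hΨ : ∀ (t : σ → R) (i : ℕ), (Ψ i).mapRange (eval t) (map_zero _) =
      ∑ k, t ⟨i, k⟩ • (cst (v i k) : VR R) := by
    intro t i
    ext l
    rw [Finsupp.mapRange_apply, Finsupp.finsetSum_apply, Finsupp.finsetSum_apply, map_sum]
    refine Finset.sum_congr rfl fun k _ => ?_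
    rw [Finsupp.smul_apply, Finsupp.smul_apply, smul_eq_mul, smul_eq_mul, map_mul, eval_X,
      Finsupp.mapRange_apply, eval_C]
  obtain ⟨P, hP⟩ := exists_sbU_poly Ψ f
  have hco : ∀ m, P.coeff m ∈ N := by
    intro m
    have := vand_mvpoly (N.restrictScalars ℂ) P (fun t _ => ?_) m
    · exact this
    · have h2 := hP (fun s => algebraMap ℂ R (t s))
      have h3 : (fun i => (algebraMap ℂ (U R)) (t i)) =
          fun i : σ => (C (algebraMap ℂ R (t i)) : U R) := rfl
      rw [h3, ← h2]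
      have h4 : (fun i => (Ψ i).mapRange (eval fun s => algebraMap ℂ R (t s)) (map_zero _)) =
          fun i => cst (∑ k, t ⟨i, k⟩ • v i k) := by
        funext i
        rw [hΨ, map_sum]
        refine Finset.sum_congr rfl fun k _ => ?_
        rw [map_smul, algebraMap_smul]
      rw [h4]
      exact h _ fun i => Submodule.sum_mem _ fun k _ => Submodule.smul_mem _ _ (hv i k)
  have h5 := hP (fun s => r s.1 s.2)
  have h6 : (fun i => (Ψ i).mapRange (eval fun s : σ => r s.1 s.2) (map_zero _)) = ψ := by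
    funext i
    rw [hΨ]
    exact hr i
  rw [h6] at h5
  rw [h5, eval_eq]
  refine Submodule.sum_mem _ fun m _ => ?_
  have h7 : (∏ i ∈ m.support, (C (r i.1 i.2) : U R) ^ m i) =
      C (∏ i ∈ m.support, r i.1 i.2 ^ m i) := by
    rw [map_prod]
    exact Finset.prod_congr rfl fun i _ => by rw [map_pow]
  rw [h7, mul_comm, ← smul_eq_C_mul]
  exact Submodule.smul_mem _ _ (hco m)

theorem rc {N : Submodule R (U R)} (hN : GLS N) {f : U R} (hf : f ∈ N) (ψ : ℕ → VR R) :
    sbU ψ f ∈ N := by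
  refine rc_gen ⊤ N f (fun φ _ => hN φ f hf) ψ fun i => ?_
  have h1 : ψ i = (ψ i).sum fun k a => a • (cst (ee k) : VR R) := by
    conv_lhs => rw [← Finsupp.sum_single (ψ i)]
    refine Finsupp.sum_congr fun k _ => ?_
    ext l
    rw [Finsupp.smul_apply, t3_cst_apply, smul_eq_mul]
    by_cases hkl : k = l
    · subst hkl
      simp [ee]
    · simp [ee, hkl]
  rw [h1]
  exact Submodule.sum_mem _ fun k _ => Submodule.smul_mem _ _
    (Submodule.subset_span ⟨ee k, trivial, rfl⟩)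

theorem rcI {I : Ideal R} (hI : GLSI I) {a : R} (ha : a ∈ I) (ψ : ℕ → VR R) :
    GLRing.sb ψ a ∈ I := by
  have h := rc ((GLS_ofI I).2 hI) ((C_mem_ofI I a).2 ha) ψ
  rw [sbU_C] at h
  exact (C_mem_ofI I _).1 h

theorem rc_nn {M : Submodule R (U R)} {f : U R} (hf : f ∈ M) (W : Submodule ℂ V)
    (hW : ∀ v ∈ W, ∀ w ∈ W, om v w = 0) (ψ : ℕ → VR R)
    (hψ : ∀ i, ψ i ∈ Submodule.span R ((fun v => (cst v : VR R)) '' (W : Set V))) :
    sbU ψ f ∈ nn M := by
  refine rc_gen W (nn M) f (fun φ hφ => ?_) ψ hψ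
  exact Submodule.subset_span ⟨φ, fun i j => hW _ (hφ i) _ (hφ j), f, hf, rfl⟩

end MP50e386N
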