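import Mathlib
import Pool.Agent.Lib.MP_50e386_al.N.CDefs
import Pool.Agent.Lib.MP_50e386_al.N.T2
import Pool.Agent.Lib.MP_50e386_al.N.T3
import Pool.Agent.Lib.MP_50e386_al.N.Q1

/-! Paper 5.1: substitutions with a radical. -/

set_option linter.unusedSectionVars false

namespace MP50e386N

open MvPolynomial Pool.Agent.Lib.MP50e386

variable {R : Type} [CommRing R] [Algebra ℂ R] [GLRing R]

theorem mev_X (Y : ℕ → ℕ → VR R) (a i : ℕ) : mev Y (X (a, i)) = zf a (Y a i) := by
  unfold mev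
  rw [aeval_X]

private theorem C1_mev_C (Y : ℕ → ℕ → VR R) (c : R) : mev Y (C c) = C c := by
  unfold mev
  rw [aeval_C]
  rfl

private theorem C1_cfs_support (ψ : ℕ → VR R) (f : U R) : (cfs ψ f).support ⊆ f.support :=
  support_map_subset _ _

theorem cfs_MS (ψ : ℕ → VR R) (S : Finset ℕ) (f : U R) (hf : f ∈ MS R S) :
    cfs ψ f ∈ MS R S := by
  unfold MS at hf ⊢
  rw [mem_restrictSupport_iff] at hf ⊢
  intro m hm
  exact hf (C1_cfs_support ψ f hm)

private theorem C1_cfs_C (ψ : ℕ → VR R) (c : R) : cfs ψ (C c) = C (GLRing.sb ψ c) := by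
  unfold cfs
  rw [map_C]
  rfl

private theorem C1_cfs_X (ψ : ℕ → VR R) (p : ℕ × ℕ) : cfs ψ (X p) = X p := by
  unfold cfs
  rw [map_X]

theorem sbU_eq_mev (ψ : ℕ → VR R) (f : U R) : sbU ψ f = mev (fun _ => ψ) (cfs ψ f) := by
  induction f using MvPolynomial.induction_on with
  | C r => rw [sbU_C, C1_cfs_C, C1_mev_C]
  | add p q hp hq => rw [map_add, map_add, map_add, hp, hq]
  | mul_X p n hp =>
    rw [map_mul, map_mul, map_mul, hp, C1_cfs_X]
    obtain ⟨a, i⟩ := n
    rw [sbU_X, mev_X]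

theorem smul_sbU_eq (E : R) (T : Set ℕ) (ψ ψ' : ℕ → VR R)
    (h : ∀ i ∈ T, ψ i - ψ' i ∈ Rad E) (f : U R) (hf : f ∈ LT R T) :
    E • sbU ψ f = E • mev (fun _ => ψ) (cfs ψ' f) := by
  unfold LT at hf
  induction hf using Algebra.adjoin_induction with
  | mem x hx =>
    rcases hx with ⟨i, hi, j, hj, rfl⟩ | ⟨a, i, hi, rfl⟩
    · rw [sbU_C, C1_cfs_C, C1_mev_C]
      have h1 : (C (GLRing.x i j : R) : U R) ∈ LT R T :=
        Algebra.subset_adjoin (Or.inl ⟨i, hi, j, hj, rfl⟩)
      have h2 := sbE' E ψ ψ' T h (GLRing.x i j) h1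
      rw [smul_eq_C_mul, smul_eq_C_mul, ← C_mul, ← C_mul, h2]
    · rw [sbU_X, C1_cfs_X, mev_X]
  | algebraMap c =>
    have h1 : (algebraMap ℂ (U R) c) = C (algebraMap ℂ R c) := rfl
    rw [h1, sbU_C, C1_cfs_C, C1_mev_C, AlgHom.commutes, AlgHom.commutes]
  | add x y _ _ hx hy =>
    rw [map_add, smul_add, hx, hy, map_add, map_add, smul_add]
  | mul x y _ _ hx hy =>
    rw [map_mul, map_mul, map_mul]
    rw [← smul_mul_assoc, hx, smul_mul_assoc, ← mul_smul_comm, hy, mul_smul_comm]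

private theorem C1_mev_mono (Y : ℕ → ℕ → VR R) (m : ℕ × ℕ →₀ ℕ) (c : R) :
    mev Y (monomial m c) = C c * m.prod fun p k => zf p.1 (Y p.1 p.2) ^ k := by
  unfold mev
  rw [aeval_monomial]
  rfl

private theorem C1_sum (Y Y' : ℕ → ℕ → VR R) (F : U R)
    (h : ∀ m ∈ F.support, ∀ p ∈ m.support, Y p.1 p.2 = Y' p.1 p.2) : mev Y F = mev Y' F := by
  rw [as_sum F, map_sum, map_sum]
  refine Finset.sum_congr rfl fun m hm => ?_
  rw [C1_mev_mono, C1_mev_mono]
  congr 1
  exact Finsupp.prod_congr fun p hp => by rw [h m hm p hp]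

private theorem C1_sdeg_add (a : ℕ) (m m' : ℕ × ℕ →₀ ℕ) :
    sdeg a (m + m') = sdeg a m + sdeg a m' := by
  unfold sdeg
  refine Finsupp.sum_add_index' ?_ ?_
  · intro p; simp
  · intro p b c; split_ifs <;> simp

private theorem C1_sdeg_single (a : ℕ) (p : ℕ × ℕ) (k : ℕ) :
    sdeg a (Finsupp.single p k) = if p.1 = a then k else 0 := by
  unfold sdeg
  rw [Finsupp.sum_single_index]
  simp

private theorem C1_le_sdeg (m : ℕ × ℕ →₀ ℕ) (p : ℕ × ℕ) : m p ≤ sdeg p.1 m := by
  by_cases hp : p ∈ m.support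
  · unfold sdeg Finsupp.sum
    have := Finset.single_le_sum (f := fun q : ℕ × ℕ => if q.1 = p.1 then m q else 0)
      (fun q _ => Nat.zero_le _) hp
    simpa using this
  · rw [Finsupp.notMem_support_iff.1 hp]
    exact Nat.zero_le _

private theorem C1_exists (m : ℕ × ℕ →₀ ℕ) (a : ℕ) (h : sdeg a m = 1) :
    ∃ (i : ℕ) (m' : ℕ × ℕ →₀ ℕ), m = Finsupp.single (a, i) 1 + m' ∧ sdeg a m' = 0 := by
  obtain ⟨p, hp, hpa⟩ : ∃ p ∈ m.support, p.1 = a := by
    by_contra hcon
    push Not at hcon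
    have : sdeg a m = 0 := by
      unfold sdeg Finsupp.sum
      exact Finset.sum_eq_zero fun p hp => if_neg (hcon p hp)
    omega
  obtain ⟨b, i⟩ := p
  have hb : b = a := hpa
  subst hb
  have h1 : Finsupp.single (b, i) 1 ≤ m := by
    rw [Finsupp.single_le_iff]
    exact Nat.one_le_iff_ne_zero.2 (Finsupp.mem_support_iff.1 hp)
  refine ⟨i, m - Finsupp.single (b, i) 1, (add_tsub_cancel_of_le h1).symm, ?_⟩
  have h2 := C1_sdeg_add b (Finsupp.single (b, i) 1) (m - Finsupp.single (b, i) 1)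
  rw [add_tsub_cancel_of_le h1, C1_sdeg_single, h, if_pos rfl] at h2
  omega

private theorem C1_slot {S : Finset ℕ} {F : U R} (hF : F ∈ MS R S) {m : ℕ × ℕ →₀ ℕ}
    (hm : m ∈ F.support) (a : ℕ) : sdeg a m = if a ∈ S then 1 else 0 := by
  unfold MS at hF
  rw [mem_restrictSupport_iff] at hF
  exact hF hm a

private theorem C1_mem_slot {S : Finset ℕ} {F : U R} (hF : F ∈ MS R S) {m : ℕ × ℕ →₀ ℕ}
    (hm : m ∈ F.support) {p : ℕ × ℕ} (hp : p ∈ m.support) : p.1 ∈ S := by
  by_contra h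
  have h1 := C1_slot hF hm p.1
  rw [if_neg h] at h1
  have h2 := C1_le_sdeg m p
  rw [h1] at h2
  exact Finsupp.mem_support_iff.1 hp (Nat.le_zero.1 h2)

/-- on multilinear polynomials `mev` is multilinear in the slots -/
theorem mev_congr_MS (S : Finset ℕ) (F : U R) (hF : F ∈ MS R S) (Y Y' : ℕ → ℕ → VR R)
    (h : ∀ a ∈ S, Y a = Y' a) : mev Y F = mev Y' F :=
  C1_sum Y Y' F fun m hm p hp => by rw [h p.1 (C1_mem_slot hF hm hp)]

private theorem C1_mono_update (Y : ℕ → ℕ → VR R) (a : ℕ) (y : ℕ → VR R) (i : ℕ)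
    (m : ℕ × ℕ →₀ ℕ) (hm : sdeg a m = 0) (c : R) :
    mev (Function.update Y a y) (monomial (Finsupp.single (a, i) 1 + m) c) =
      zf a (y i) * mev Y (monomial m c) := by
  have h1 : (monomial (Finsupp.single (a, i) 1 + m) c : U R) = X (a, i) * monomial m c := by
    have h2 : (X (a, i) : U R) = monomial (Finsupp.single (a, i) 1) 1 := rfl
    rw [h2, monomial_mul, one_mul]
  rw [h1, map_mul, mev_X, Function.update_self]
  congr 1
  rw [C1_mev_mono, C1_mev_mono]
  congr 1
  refine Finsupp.prod_congr fun p hp => ?_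
  have h3 : p.1 ≠ a := by
    intro h4
    have h5 := C1_le_sdeg m p
    rw [h4, hm] at h5
    exact Finsupp.mem_support_iff.1 hp (Nat.le_zero.1 h5)
  rw [Function.update_of_ne h3]

theorem mev_add_MS (S : Finset ℕ) (F : U R) (hF : F ∈ MS R S) (Y : ℕ → ℕ → VR R) (a : ℕ)
    (ha : a ∈ S) (y y' : ℕ → VR R) :
    mev (Function.update Y a (y + y')) F =
      mev (Function.update Y a y) F + mev (Function.update Y a y') F := by
  rw [as_sum F, map_sum, map_sum, map_sum, ← Finset.sum_add_distrib]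
  refine Finset.sum_congr rfl fun m hm => ?_
  have h1 := C1_slot hF hm a
  rw [if_pos ha] at h1
  obtain ⟨i, m', hm', hs⟩ := C1_exists m a h1
  generalize coeff m F = c
  subst hm'
  rw [C1_mono_update Y a _ i m' hs, C1_mono_update Y a _ i m' hs, C1_mono_update Y a _ i m' hs,
    Pi.add_apply, map_add, add_mul]

theorem mev_smul_MS (S : Finset ℕ) (F : U R) (hF : F ∈ MS R S) (Y : ℕ → ℕ → VR R) (a : ℕ)
    (ha : a ∈ S) (c : R) (y : ℕ → VR R) :
    mev (Function.update Y a (c • y)) F = c • mev (Function.update Y a y) F := by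
  rw [as_sum F, map_sum, map_sum, Finset.smul_sum]
  refine Finset.sum_congr rfl fun m hm => ?_
  have h1 := C1_slot hF hm a
  rw [if_pos ha] at h1
  obtain ⟨i, m', hm', hs⟩ := C1_exists m a h1
  generalize coeff m F = d
  subst hm'
  rw [C1_mono_update Y a _ i m' hs, C1_mono_update Y a _ i m' hs, Pi.smul_apply, map_smul,
    smul_mul_assoc]

/-- the multilinear map in the slots -/
theorem exists_mevM (S : Finset ℕ) (F : U R) (hF : F ∈ MS R S) :
    ∃ Φ : MultilinearMap R (fun _ : S => ℕ → VR R) (U R), ∀ Y : ℕ → ℕ → VR R,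
      mev Y F = Φ (fun a => Y a) := by
  classical
  let ext : (S → ℕ → VR R) → ℕ → ℕ → VR R := fun y a => if h : a ∈ S then y ⟨a, h⟩ else 0
  have hupd : ∀ (inst : DecidableEq S) (y : S → ℕ → VR R) (a : S) (z : ℕ → VR R),
      ext (@Function.update S (fun _ => ℕ → VR R) inst y a z) = Function.update (ext y) a z := by
    intro inst y a z
    funext b
    by_cases hb : b = a
    · subst hb
      rw [Function.update_self]
      have h1 : ext (@Function.update S (fun _ => ℕ → VR R) inst y a z) (a : ℕ) =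
          (@Function.update S (fun _ => ℕ → VR R) inst y a z) ⟨(a : ℕ), a.2⟩ := dif_pos a.2
      rw [h1]
      exact Function.update_self _ _ _
    · rw [Function.update_of_ne hb]
      by_cases hbS : b ∈ S
      · have h1 : ext (@Function.update S (fun _ => ℕ → VR R) inst y a z) b =
            (@Function.update S (fun _ => ℕ → VR R) inst y a z) ⟨b, hbS⟩ := dif_pos hbS
        have h2 : ext y b = y ⟨b, hbS⟩ := dif_pos hbS
        rw [h1, h2]
        exact Function.update_of_ne (fun h => hb (congrArg Subtype.val h)) _ _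
      · have h1 : ext (@Function.update S (fun _ => ℕ → VR R) inst y a z) b = 0 := dif_neg hbS
        have h2 : ext y b = 0 := dif_neg hbS
        rw [h1, h2]
  have hadd : ∀ (inst : DecidableEq S) (y : S → ℕ → VR R) (a : S) (z z' : ℕ → VR R),
      mev (ext (@Function.update S (fun _ => ℕ → VR R) inst y a (z + z'))) F =
        mev (ext (@Function.update S (fun _ => ℕ → VR R) inst y a z)) F +
          mev (ext (@Function.update S (fun _ => ℕ → VR R) inst y a z')) F := by
    intro inst y a z z'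
    rw [hupd, hupd, hupd]
    exact mev_add_MS S F hF (ext y) a a.2 z z'
  have hsmul : ∀ (inst : DecidableEq S) (y : S → ℕ → VR R) (a : S) (c : R) (z : ℕ → VR R),
      mev (ext (@Function.update S (fun _ => ℕ → VR R) inst y a (c • z))) F =
        c • mev (ext (@Function.update S (fun _ => ℕ → VR R) inst y a z)) F := by
    intro inst y a c z
    rw [hupd, hupd]
    exact mev_smul_MS S F hF (ext y) a a.2 c z
  refine ⟨MultilinearMap.mk (fun y => mev (ext y) F) (fun {inst} y a z z' => hadd inst y a z z')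
    (fun {inst} y a c z => hsmul inst y a c z), fun Y => ?_⟩
  refine mev_congr_MS S F hF Y _ fun a ha => ?_
  have h1 : ext (fun b : S => Y b) a = (fun b : S => Y b) ⟨a, ha⟩ := dif_pos ha
  exact h1.symm

/-- only letters of `F` matter -/
theorem mev_congr_letters (S : Finset ℕ) (F : U R) (hF : F ∈ MS R S) (T : Set ℕ)
    (hT : ∀ m ∈ F.support, ∀ p ∈ m.support, p.2 ∈ T) (Y Y' : ℕ → ℕ → VR R)
    (h : ∀ a ∈ S, ∀ i ∈ T, Y a i = Y' a i) : mev Y F = mev Y' F :=
  C1_sum Y Y' F fun m hm p hp => h p.1 (C1_mem_slot hF hm hp) p.2 (hT m hm p hp)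

private theorem C1_C_supported (T : Set (ℕ × ℕ)) (r : R) :
    (C r : MvPolynomial (ℕ × ℕ) R) ∈ supported R T := by
  rw [mem_supported, vars_C, Finset.coe_empty]
  exact Set.empty_subset _

private theorem C1_supported {T : Set ℕ} {f : U R} (hf : f ∈ LT R T) :
    f ∈ supported R {p : ℕ × ℕ | p.2 ∈ T} := by
  unfold LT at hf
  induction hf using Algebra.adjoin_induction with
  | mem x hx =>
    rcases hx with ⟨i, hi, j, hj, rfl⟩ | ⟨a, i, hi, rfl⟩
    · exact C1_C_supported _ _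
    · exact Algebra.subset_adjoin ⟨(a, i), hi, rfl⟩
  | algebraMap c =>
    have h : (algebraMap ℂ (U R) c) = C (algebraMap ℂ R c) := rfl
    rw [h]
    exact C1_C_supported _ _
  | add x y hx hy ihx ihy => exact Subalgebra.add_mem _ ihx ihy
  | mul x y hx hy ihx ihy => exact Subalgebra.mul_mem _ ihx ihy

theorem cfs_letters (ψ : ℕ → VR R) (T : Set ℕ) (f : U R) (hf : f ∈ LT R T) :
    ∀ m ∈ (cfs ψ f).support, ∀ p ∈ m.support, p.2 ∈ T := by
  intro m hm p hp
  have h1 := mem_supported.1 (C1_supported hf)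
  exact h1 ((mem_vars_iff_mem_support p).2 ⟨m, C1_cfs_support ψ f hm, hp⟩)

end MP50e386N
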