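import Mathlib
import Pool.Agent.Lib.MP_50e386_al.N.CDefs
import Pool.Agent.Lib.MP_50e386_al.N.T1
import Pool.Agent.Lib.MP_50e386_al.N.T2
import Pool.Agent.Lib.MP_50e386_al.N.C1

/-! The polarised derivatives `DDm` (paper 5.1). -/

namespace MP50e386N

open MvPolynomial Pool.Agent.Lib.MP50e386

variable {R : Type} [CommRing R] [Algebra ℂ R] [GLRing R]

/-- the condition on the assignments -/
private def C2_cond {S : Finset ℕ} {j : ℕ} (c : S → Option (Fin j)) : Prop :=
  ∀ t, ∃! a, c a = some t

open Classical in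
private theorem C2_DDm (S : Finset ℕ) (F : U R) (Φ : MultilinearMap R (fun _ : S => ℕ → VR R) (U R))
    (hΦ : ∀ Y : ℕ → ℕ → VR R, mev Y F = Φ (fun a => Y a)) (ψ' : ℕ → VR R) {j : ℕ}
    (φ : Fin j → ℕ → VR R) :
    DDm S F ψ' φ = ∑ c ∈ (Finset.univ : Finset (S → Option (Fin j))).filter C2_cond,
      Φ (fun a => Option.elim (c a) ψ' φ) := by
  unfold DDm
  apply Finset.sum_congr
  · ext c
    simp [C2_cond]
  · intro c _
    rw [hΦ]
    congr 1
    funext a
    rw [dif_pos a.2]

private theorem C2_upd {S : Finset ℕ} {j : ℕ} (c : S → Option (Fin j)) (hc : C2_cond c)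
    (ψ' : ℕ → VR R) (t : Fin j) :
    ∃ a : S, ∀ (φ : Fin j → ℕ → VR R) (z : ℕ → VR R),
      (fun b => Option.elim (c b) ψ' (Function.update φ t z)) =
        Function.update (fun b => Option.elim (c b) ψ' φ) a z := by
  obtain ⟨a, ha, hu⟩ := hc t
  refine ⟨a, fun φ z => ?_⟩
  funext b
  by_cases hb : b = a
  · subst hb
    rw [Function.update_self, ha, Option.elim_some, Function.update_self]
  · rw [Function.update_of_ne hb]
    cases hcb : c b with
    | none => rfl
    | some t' =>
      rw [Option.elim_some, Option.elim_some, Function.update_of_ne]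
      rintro rfl
      exact hb (hu b hcb)

theorem exists_DDm (S : Finset ℕ) (F : U R) (hF : F ∈ MS R S) (ψ' : ℕ → VR R) (j : ℕ) :
    ∃ Φ : MultilinearMap R (fun _ : Fin j => ℕ → VR R) (U R), ∀ φ, DDm S F ψ' φ = Φ φ := by
  classical
  obtain ⟨Φ, hΦ⟩ := exists_mevM S F hF
  refine ⟨{ toFun := fun φ => DDm S F ψ' φ, map_update_add' := ?_, map_update_smul' := ?_ },
    fun φ => rfl⟩
  · intro inst m t x y
    rw [Subsingleton.elim inst (instDecidableEqFin j)]
    simp only [C2_DDm S F Φ hΦ]
    rw [← Finset.sum_add_distrib]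
    apply Finset.sum_congr rfl
    intro c hc
    obtain ⟨a, ha⟩ := C2_upd (R := R) c (Finset.mem_filter.1 hc).2 ψ' t
    rw [ha, ha, ha, Φ.map_update_add]
  · intro inst m t r x
    rw [Subsingleton.elim inst (instDecidableEqFin j)]
    simp only [C2_DDm S F Φ hΦ]
    rw [Finset.smul_sum]
    apply Finset.sum_congr rfl
    intro c hc
    obtain ⟨a, ha⟩ := C2_upd (R := R) c (Finset.mem_filter.1 hc).2 ψ' t
    rw [ha, ha, Φ.map_update_smul]

open Classical in
/-- support of an assignment -/
private noncomputable def C2_sup {S : Finset ℕ} {j : ℕ} (c : S → Option (Fin j)) : Finset S :=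
  Finset.univ.filter (fun a => c a ≠ none)

private theorem C2_mem_sup {S : Finset ℕ} {j : ℕ} (c : S → Option (Fin j)) (a : S) :
    a ∈ C2_sup c ↔ c a ≠ none := by
  classical
  simp [C2_sup]

/-- the bijection attached to an assignment -/
private theorem C2_equiv {S : Finset ℕ} {j : ℕ} (c : S → Option (Fin j)) (hc : C2_cond c) :
    ∃ e : Fin j ≃ C2_sup c, ∀ t, c (e t) = some t := by
  choose a ha hu using hc
  have hm : ∀ t, a t ∈ C2_sup c := fun t => by
    rw [C2_mem_sup, ha]
    exact Option.some_ne_none t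
  refine ⟨Equiv.ofBijective (fun t => ⟨a t, hm t⟩) ⟨?_, ?_⟩, fun t => ha t⟩
  · intro t t' htt
    have h1 : a t = a t' := congrArg Subtype.val htt
    have h2 := ha t
    rw [h1, ha t'] at h2
    exact (Option.some.inj h2).symm
  · rintro ⟨b, hb⟩
    rw [C2_mem_sup] at hb
    obtain ⟨t, ht⟩ := Option.ne_none_iff_exists'.1 hb
    exact ⟨t, Subtype.ext (hu t b ht).symm⟩

open Classical in
private theorem C2_card {S : Finset ℕ} {j : ℕ} (s : Finset S) :
    (((Finset.univ : Finset (S → Option (Fin j))).filter C2_cond).filter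
      (fun c => C2_sup c = s)).card = if s.card = j then j.factorial else 0 := by
  split_ifs with h
  · have h1 : Fintype.card (Fin j ≃ s) = j.factorial := by
      rw [Fintype.card_equiv (Fintype.equivOfCardEq (by simp [h])), Fintype.card_fin]
    rw [← h1, ← Finset.card_univ]
    symm
    apply Finset.card_bij (fun (e : Fin j ≃ s) _ => fun a : S =>
      if ha : a ∈ s then some (e.symm ⟨a, ha⟩) else none)
    · intro e _
      rw [Finset.mem_filter, Finset.mem_filter]
      refine ⟨⟨Finset.mem_univ _, fun t => ⟨(e t : S), ?_, ?_⟩⟩, ?_⟩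
      · beta_reduce
        rw [dif_pos (e t).2]
        simp
      · intro b hb
        beta_reduce at hb
        split_ifs at hb with hbs
        have h2 := Option.some.inj hb
        rw [← h2]
        simp
      · ext a
        rw [C2_mem_sup]
        by_cases ha : a ∈ s
        · simp [ha]
        · simp [ha]
    · intro e _ e' _ hee
      apply Equiv.symm_bijective.injective
      apply Equiv.ext
      rintro ⟨a, ha⟩
      have h2 := congrFun hee a
      beta_reduce at h2
      rw [dif_pos ha, dif_pos ha] at h2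
      exact Option.some.inj h2
    · intro c hc
      rw [Finset.mem_filter, Finset.mem_filter] at hc
      obtain ⟨⟨-, hc1⟩, rfl⟩ := hc
      obtain ⟨e, he⟩ := C2_equiv c hc1
      refine ⟨e, Finset.mem_univ _, ?_⟩
      funext a
      by_cases ha : a ∈ C2_sup c
      · rw [dif_pos ha]
        have h2 := he (e.symm ⟨a, ha⟩)
        rw [Equiv.apply_symm_apply] at h2
        exact h2.symm
      · rw [dif_neg ha]
        rw [C2_mem_sup, not_not] at ha
        exact ha.symm
  · rw [Finset.card_eq_zero, Finset.filter_eq_empty_iff]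
    rintro c hc rfl
    obtain ⟨e, -⟩ := C2_equiv c (Finset.mem_filter.1 hc).2
    apply h
    have h1 := Fintype.card_congr e
    rw [Fintype.card_fin, Fintype.card_coe] at h1
    exact h1.symm

open Classical in
private theorem C2_DDm_const (S : Finset ℕ) (F : U R)
    (Φ : MultilinearMap R (fun _ : S => ℕ → VR R) (U R))
    (hΦ : ∀ Y : ℕ → ℕ → VR R, mev Y F = Φ (fun a => Y a)) (ψ' φ : ℕ → VR R) (j : ℕ) :
    DDm S F ψ' (fun _ : Fin j => φ) = ∑ s : Finset S,
      (if s.card = j then j.factorial else 0) • Φ (s.piecewise (fun _ => φ) (fun _ => ψ')) := by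
  rw [C2_DDm S F Φ hΦ, ← Finset.sum_fiberwise _ C2_sup]
  apply Finset.sum_congr rfl
  intro s _
  rw [← C2_card (S := S) (j := j) s, ← Finset.sum_const]
  apply Finset.sum_congr rfl
  intro c hc
  have h1 := (Finset.mem_filter.1 hc).2
  congr 1
  funext a
  by_cases ha : a ∈ s
  · rw [Finset.piecewise_eq_of_mem _ _ _ ha]
    rw [← h1, C2_mem_sup] at ha
    obtain ⟨t, ht⟩ := Option.ne_none_iff_exists'.1 ha
    rw [ht, Option.elim_some]
  · rw [Finset.piecewise_eq_of_notMem _ _ _ ha]
    rw [← h1, C2_mem_sup, not_not] at ha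
    rw [ha, Option.elim_none]

/-- Taylor formula -/
theorem taylor (S : Finset ℕ) (F : U R) (hF : F ∈ MS R S) (ψ' φ : ℕ → VR R) :
    mev (fun _ i => ψ' i + φ i) F = ∑ j ∈ Finset.range (S.card + 1),
      ((j.factorial : ℂ)⁻¹) • DDm S F ψ' (fun _ : Fin j => φ) := by
  classical
  obtain ⟨Φ, hΦ⟩ := exists_mevM S F hF
  have h1 : mev (fun _ i => ψ' i + φ i) F =
      ∑ s : Finset S, Φ (s.piecewise (fun _ => φ) (fun _ => ψ')) := by
    rw [hΦ, ← Φ.map_add_univ]
    congr 1
    funext a
    funext i
    simp only [Pi.add_apply]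
    rw [add_comm]
  rw [h1]
  simp only [C2_DDm_const S F Φ hΦ, Finset.smul_sum]
  rw [Finset.sum_comm]
  apply Finset.sum_congr rfl
  intro s _
  rw [Finset.sum_eq_single s.card]
  · rw [if_pos rfl, ← Nat.cast_smul_eq_nsmul ℂ, smul_smul, inv_mul_cancel₀, one_smul]
    exact_mod_cast Nat.factorial_ne_zero _
  · intro j _ hj
    rw [if_neg (Ne.symm hj), zero_smul, smul_zero]
  · intro h
    exfalso
    apply h
    rw [Finset.mem_range]
    have h2 := Finset.card_le_univ s
    rw [Fintype.card_coe] at h2
    omega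

/-- extraction of the multilinear coefficient -/
theorem DD_mem (S : Finset ℕ) (F : U R) (hF : F ∈ MS R S) (ψ' : ℕ → VR R) {j : ℕ}
    (φ : Fin j → ℕ → VR R) (N : Submodule ℂ (U R)) (E : R)
    (h : ∀ t : Fin j → ℂ, E • mev (fun _ i => ψ' i + ∑ k, t k • φ k i) F ∈ N) :
    E • DDm S F ψ' φ ∈ N := by
  classical
  obtain ⟨Φ, hΦ⟩ := exists_mevM S F hF
  let mc : (S → Option (Fin j)) → (Fin j →₀ ℕ) := fun c =>
    Finsupp.equivFunOnFinite.symm (fun k => (Finset.univ.filter (fun a => c a = some k)).card)
  let w : (Fin j → ℂ) → Option (Fin j) → ℂ := fun t o => o.elim 1 t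
  have hmc : ∀ (t : Fin j → ℂ) (c : S → Option (Fin j)),
      ((mc c).prod fun i k => t i ^ k) = ∏ a, w t (c a) := by
    intro t c
    rw [Finsupp.prod_fintype _ _ (fun i => pow_zero _),
      ← Finset.prod_fiberwise' Finset.univ c (w t), Fintype.prod_option]
    have e1 : ∏ a : S with c a = none, w t none = 1 := by
      apply Finset.prod_eq_one
      intro a _
      rfl
    rw [e1, one_mul]
    apply Finset.prod_congr rfl
    intro k _
    rw [Finset.prod_const]
    rfl
  have hexp : ∀ t : Fin j → ℂ, E • mev (fun _ i => ψ' i + ∑ k, t k • φ k i) F =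
      ∑ c : S → Option (Fin j), ((mc c).prod fun i k => t i ^ k) •
        (E • Φ (fun a => Option.elim (c a) ψ' φ)) := by
    intro t
    have h1 : (fun a : S => (fun i => ψ' i + ∑ k, t k • φ k i : ℕ → VR R)) =
        fun a : S => ∑ o : Option (Fin j), (algebraMap ℂ R (w t o)) • Option.elim o ψ' φ := by
      funext a
      rw [Fintype.sum_option]
      funext i
      simp only [w, Option.elim_none, Option.elim_some, map_one, one_smul, Pi.add_apply,
        Finset.sum_apply, Pi.smul_apply, algebraMap_smul]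
    have h2 : mev (fun _ i => ψ' i + ∑ k, t k • φ k i) F =
        ∑ c : S → Option (Fin j), (∏ a, w t (c a)) • Φ (fun a => Option.elim (c a) ψ' φ) := by
      rw [hΦ]
      change Φ (fun a : S => (fun i => ψ' i + ∑ k, t k • φ k i : ℕ → VR R)) = _
      rw [h1, Φ.map_sum]
      apply Finset.sum_congr rfl
      intro c _
      rw [Φ.map_smul_univ (fun a => algebraMap ℂ R (w t (c a))), ← map_prod, algebraMap_smul]
    rw [h2, Finset.smul_sum]
    apply Finset.sum_congr rfl
    intro c _
    rw [hmc, smul_comm]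
  let s : Finset (Fin j →₀ ℕ) := Finset.univ.image mc
  let f : (Fin j →₀ ℕ) → U R := fun m =>
    ∑ c ∈ (Finset.univ : Finset (S → Option (Fin j))).filter (fun c => mc c = m),
      E • Φ (fun a => Option.elim (c a) ψ' φ)
  have hv : ∀ m ∈ s, f m ∈ N := by
    apply vandM N s f
    intro t _
    have h1 := h t
    rw [hexp t] at h1
    have e : ∑ m ∈ s, (m.prod fun i k => t i ^ k) • f m =
        ∑ c : S → Option (Fin j), ((mc c).prod fun i k => t i ^ k) •
        (E • Φ (fun a => Option.elim (c a) ψ' φ)) := by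
      rw [← Finset.sum_fiberwise_of_maps_to (s := Finset.univ) (t := s) (g := mc)
        (fun c hc => Finset.mem_image_of_mem mc hc)]
      apply Finset.sum_congr rfl
      intro m _
      simp only [f, Finset.smul_sum]
      apply Finset.sum_congr rfl
      intro c hc
      rw [(Finset.mem_filter.1 hc).2]
    rw [e]
    exact h1
  let m1 : Fin j →₀ ℕ := Finsupp.equivFunOnFinite.symm (fun _ => 1)
  have hD : E • DDm S F ψ' φ = f m1 := by
    rw [C2_DDm S F Φ hΦ, Finset.smul_sum]
    apply Finset.sum_congr _ (fun _ _ => rfl)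
    ext c
    rw [Finset.mem_filter, Finset.mem_filter]
    apply and_congr_right
    intro _
    have e2 : mc c = m1 ↔ ∀ k, (Finset.univ.filter (fun a => c a = some k)).card = 1 := by
      simp only [mc, m1]
      rw [Equiv.apply_eq_iff_eq, funext_iff]
    rw [e2]
    apply forall_congr'
    intro k
    rw [Finset.card_eq_one]
    constructor
    · rintro ⟨a, ha, hu⟩
      refine ⟨a, ?_⟩
      ext b
      rw [Finset.mem_filter, Finset.mem_singleton]
      exact ⟨fun hb => hu b hb.2, fun hb => ⟨Finset.mem_univ _, hb ▸ ha⟩⟩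
    · rintro ⟨a, ha⟩
      refine ⟨a, ?_, fun b hb => ?_⟩
      · have h5 : a ∈ Finset.univ.filter (fun b => c b = some k) := by
          rw [ha]
          exact Finset.mem_singleton_self a
        exact (Finset.mem_filter.1 h5).2
      · have h5 : b ∈ Finset.univ.filter (fun b => c b = some k) :=
          Finset.mem_filter.2 ⟨Finset.mem_univ _, hb⟩
        rw [ha] at h5
        exact Finset.mem_singleton.1 h5
  rw [hD]
  by_cases hm : m1 ∈ s
  · exact hv m1 hm
  · have h0 : f m1 = 0 := by
      apply Finset.sum_eq_zero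
      intro c hc
      exfalso
      apply hm
      rw [← (Finset.mem_filter.1 hc).2]
      exact Finset.mem_image_of_mem mc (Finset.mem_univ c)
    rw [h0]
    exact N.zero_mem

end MP50e386N
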