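import Mathlib

/-! Averaging over signs (paper 5.3). -/

namespace MP50e386N

theorem sign_avg {j : ℕ} (r : Fin j → Fin j) :
    (∑ ε : Sym2 (Fin j) → ℤˣ, ∏ a, (if r a = a then (1 : ℂ) else ((ε s(a, r a) : ℤ) : ℂ))) =
      if ∀ a, r (r a) = a then (Fintype.card (Sym2 (Fin j) → ℤˣ) : ℂ) else 0 := by
  by_cases hr : ∀ a, r (r a) = a
  · rw [if_pos hr]
    have h1 : ∀ ε : Sym2 (Fin j) → ℤˣ,
        ∏ a, (if r a = a then (1 : ℂ) else ((ε s(a, r a) : ℤ) : ℂ)) = 1 := by
      intro ε
      refine Finset.prod_involution (fun a _ => r a) ?_ ?_ ?_ ?_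
      · intro a _
        by_cases h : r a = a
        · rw [if_pos h, if_pos (by rw [h, h]), mul_one]
        · have h' : ¬ r (r a) = r a := by
            rw [hr a]
            exact fun e => h e.symm
          rw [if_neg h, if_neg h', hr a, Sym2.eq_swap]
          have : ((ε s(r a, a) : ℤˣ) : ℤ) * (ε s(r a, a) : ℤˣ) = 1 := by
            rw [← Units.val_mul, Int.units_mul_self, Units.val_one]
          exact_mod_cast this
      · intro a _ h1 h2
        exact h1 (if_pos h2)
      · intro a _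
        exact Finset.mem_univ _
      · intro a _
        exact hr a
    rw [Finset.sum_congr rfl fun ε _ => h1 ε, Finset.sum_const, Finset.card_univ, nsmul_eq_mul,
      mul_one]
  · rw [if_neg hr]
    push Not at hr
    obtain ⟨a0, ha0⟩ := hr
    have hne : r a0 ≠ a0 := by
      intro h
      exact ha0 (by rw [h, h])
    let u : Sym2 (Fin j) → ℤˣ := fun e => if e = s(a0, r a0) then -1 else 1
    have hu : ∀ a, s(a, r a) = s(a0, r a0) ↔ a = a0 := by
      intro a
      constructor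
      · intro h
        rw [Sym2.eq_iff] at h
        rcases h with ⟨h, -⟩ | ⟨h, h'⟩
        · exact h
        · exfalso
          rw [h] at h'
          exact ha0 h'
      · rintro rfl
        rfl
    have hflip : ∀ ε : Sym2 (Fin j) → ℤˣ,
        ∏ a, (if r a = a then (1 : ℂ) else (((u * ε) s(a, r a) : ℤ) : ℂ)) =
          - ∏ a, (if r a = a then (1 : ℂ) else ((ε s(a, r a) : ℤ) : ℂ)) := by
      intro ε
      have hc : ∀ a, (if r a = a then (1 : ℂ) else (((u * ε) s(a, r a) : ℤ) : ℂ)) =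
          (if a = a0 then (-1 : ℂ) else 1) *
            (if r a = a then (1 : ℂ) else ((ε s(a, r a) : ℤ) : ℂ)) := by
        intro a
        by_cases h : a = a0
        · subst h
          rw [if_neg hne, if_pos rfl, if_neg hne, Pi.mul_apply]
          have : u s(a, r a) = -1 := if_pos rfl
          rw [this]
          simp
        · rw [if_neg h, one_mul]
          have : u s(a, r a) = 1 := if_neg (fun e => h ((hu a).1 e))
          rw [Pi.mul_apply, this, one_mul]
      rw [Finset.prod_congr rfl fun a _ => hc a, Finset.prod_mul_distrib, Finset.prod_ite_eq',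
        if_pos (Finset.mem_univ _), neg_one_mul]
    have hsum := Equiv.sum_comp (Equiv.mulLeft u) (fun ε : Sym2 (Fin j) → ℤˣ =>
      ∏ a, (if r a = a then (1 : ℂ) else ((ε s(a, r a) : ℤ) : ℂ)))
    have hsum2 : ∑ ε : Sym2 (Fin j) → ℤˣ,
        ∏ a, (if r a = a then (1 : ℂ) else (((u * ε) s(a, r a) : ℤ) : ℂ)) =
        ∑ ε : Sym2 (Fin j) → ℤˣ, ∏ a, (if r a = a then (1 : ℂ) else ((ε s(a, r a) : ℤ) : ℂ)) :=
      hsum
    rw [Finset.sum_congr rfl fun ε _ => hflip ε, Finset.sum_neg_distrib] at hsum2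
    exact CharZero.neg_eq_self_iff.1 hsum2

/-- the averaged expansion of a multilinear map -/
theorem avg_mem {K X W : Type} [CommRing K] [Algebra ℂ K] [AddCommGroup X] [Module K X]
    [Module ℂ X] [IsScalarTower ℂ K X] [AddCommGroup W] [Module K W] [Module ℂ W]
    [IsScalarTower ℂ K W] {j : ℕ} (Φ : MultilinearMap K (fun _ : Fin j => X) W)
    (C : Fin j → Fin j → X) (N : Submodule ℂ W) (E : K)
    (h : ∀ ε : Sym2 (Fin j) → ℤˣ,
      E • Φ (fun a => ∑ b, (if b = a then (1 : ℂ) else ((ε s(a, b) : ℤ) : ℂ)) • C a b) ∈ N) :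
    E • ∑ r ∈ (Finset.univ : Finset (Fin j → Fin j)).filter (fun r => ∀ a, r (r a) = a),
      Φ (fun a => C a (r a)) ∈ N := by
  have hexp : ∀ ε : Sym2 (Fin j) → ℤˣ,
      Φ (fun a => ∑ b, (if b = a then (1 : ℂ) else ((ε s(a, b) : ℤ) : ℂ)) • C a b) =
        ∑ r : Fin j → Fin j, (∏ a, (if r a = a then (1 : ℂ) else ((ε s(a, r a) : ℤ) : ℂ))) •
          Φ (fun a => C a (r a)) := by
    intro ε
    rw [MultilinearMap.map_sum]
    refine Finset.sum_congr rfl fun r _ => ?_
    have h1 : (fun a => (if r a = a then (1 : ℂ) else ((ε s(a, r a) : ℤ) : ℂ)) • C a (r a)) =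
        fun a => (algebraMap ℂ K (if r a = a then (1 : ℂ) else ((ε s(a, r a) : ℤ) : ℂ))) •
          C a (r a) := by
      funext a
      rw [algebraMap_smul]
    rw [h1, MultilinearMap.map_smul_univ, ← map_prod, algebraMap_smul]
  have hsum : ∑ ε : Sym2 (Fin j) → ℤˣ,
      E • Φ (fun a => ∑ b, (if b = a then (1 : ℂ) else ((ε s(a, b) : ℤ) : ℂ)) • C a b) ∈ N :=
    Submodule.sum_mem _ fun ε _ => h ε
  have heq : ∑ ε : Sym2 (Fin j) → ℤˣ,
      E • Φ (fun a => ∑ b, (if b = a then (1 : ℂ) else ((ε s(a, b) : ℤ) : ℂ)) • C a b) =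
      (Fintype.card (Sym2 (Fin j) → ℤˣ) : ℂ) •
        (E • ∑ r ∈ (Finset.univ : Finset (Fin j → Fin j)).filter (fun r => ∀ a, r (r a) = a),
          Φ (fun a => C a (r a))) := by
    rw [← Finset.smul_sum]
    simp_rw [hexp]
    rw [Finset.sum_comm]
    simp_rw [← Finset.sum_smul, sign_avg]
    rw [Finset.sum_filter, smul_comm (Fintype.card (Sym2 (Fin j) → ℤˣ) : ℂ) E]
    refine congrArg (fun w : W => E • w) ?_
    rw [Finset.smul_sum]
    refine Finset.sum_congr rfl fun r _ => ?_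
    split_ifs with hr
    · rfl
    · rw [zero_smul, smul_zero]
  rw [heq] at hsum
  have hcard : (Fintype.card (Sym2 (Fin j) → ℤˣ) : ℂ) ≠ 0 := by
    rw [Nat.cast_ne_zero]
    exact Fintype.card_ne_zero
  have := N.smul_mem ((Fintype.card (Sym2 (Fin j) → ℤˣ) : ℂ)⁻¹) hsum
  rwa [smul_smul, inv_mul_cancel₀ hcard, one_smul] at this

end MP50e386N
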