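import Mathlib
import Pool.Agent.Lib.MP_50e386_al.N.TDefs
import Pool.Agent.Lib.MP_50e386_al.N.T1
import Pool.Agent.Lib.MP_50e386_al.N.T2
import Pool.Agent.Lib.MP_50e386_al.N.T3

/-! Multidegrees and polarisation, (pol). -/

namespace MP50e386N

open MvPolynomial Pool.Agent.Lib.MP50e386

variable {R : Type} [CommRing R] [Algebra ℂ R] [GLRing R]

/-! ### the character of a multidegree -/

private noncomputable def chr (κ : ℕ →₀ ℕ) (t : ℕ → ℂ) : ℂ := κ.prod fun i k => t i ^ k

private theorem chr_zero (t : ℕ → ℂ) : chr 0 t = 1 := Finsupp.prod_zero_index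

private theorem chr_add (κ κ' : ℕ →₀ ℕ) (t : ℕ → ℂ) : chr (κ + κ') t = chr κ t * chr κ' t :=
  Finsupp.prod_add_index' (fun _ => pow_zero _) (fun _ _ _ => pow_add _ _ _)

private theorem chr_single (i k : ℕ) (t : ℕ → ℂ) : chr (Finsupp.single i k) t = t i ^ k :=
  Finsupp.prod_single_index (pow_zero _)

private theorem MW_iff {κ : ℕ →₀ ℕ} {f : U R} :
    MW κ f ↔ ∀ t : ℕ → ℂ, sbC (fun i => t i • ee i) f = chr κ t • f := Iff.rfl

theorem MW_add {κ : ℕ →₀ ℕ} {f g : U R} (hf : MW κ f) (hg : MW κ g) : MW κ (f + g) := by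
  intro t
  rw [map_add, hf t, hg t, smul_add]

private theorem MW_zero (κ : ℕ →₀ ℕ) : MW κ (0 : U R) := by
  intro t
  rw [map_zero, smul_zero]

private theorem MW_smul {κ : ℕ →₀ ℕ} {f : U R} (hf : MW κ f) (c : ℂ) : MW κ (c • f) := by
  intro t
  rw [sbC_smulC, hf t, smul_comm]

theorem MW_mul {κ κ' : ℕ →₀ ℕ} {f g : U R} (hf : MW κ f) (hg : MW κ' g) : MW (κ + κ') (f * g) := by
  rw [MW_iff] at hf hg ⊢
  intro t
  rw [map_mul, hf t, hg t, chr_add, smul_mul_smul_comm]

omit [GLRing R] in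
/-- Vandermonde for characters -/
private theorem MW_vand (N : Submodule ℂ (U R)) (s : Finset (ℕ →₀ ℕ)) (g : (ℕ →₀ ℕ) → U R)
    (h : ∀ t : ℕ → ℂ, (∀ i, t i ≠ 0) → ∑ κ ∈ s, chr κ t • g κ ∈ N) : ∀ κ ∈ s, g κ ∈ N :=
  vandM N s g h

theorem MW_unique {κ κ' : ℕ →₀ ℕ} {f : U R} (hf : MW κ f) (hf' : MW κ' f) (h : f ≠ 0) : κ = κ' := by
  classical
  by_contra hne
  apply h
  have h1 := MW_vand (R := R) ⊥ {κ, κ'} (fun m => if m = κ then f else -f) (by
    intro t _
    rw [Finset.sum_pair hne, if_pos rfl, if_neg (Ne.symm hne), smul_neg,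
      ← (MW_iff.1 hf) t, ← (MW_iff.1 hf') t, add_neg_cancel]
    exact Submodule.zero_mem _) κ (Finset.mem_insert_self _ _)
  simpa using h1

/-- components lie in torus stable subspaces -/
theorem MW_comp_mem (N : Submodule ℂ (U R))
    (hN : ∀ t : ℕ → ℂ, (∀ i, t i ≠ 0) → ∀ f ∈ N, sbC (fun i => t i • ee i) f ∈ N)
    (s : Finset (ℕ →₀ ℕ)) (g : (ℕ →₀ ℕ) → U R) (hg : ∀ κ ∈ s, MW κ (g κ))
    (h : ∑ κ ∈ s, g κ ∈ N) : ∀ κ ∈ s, g κ ∈ N := by
  refine MW_vand N s g ?_
  intro t ht
  have h1 := hN t ht _ h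
  rw [map_sum] at h1
  have h2 : ∑ κ ∈ s, sbC (fun i => t i • ee i) (g κ) = ∑ κ ∈ s, chr κ t • g κ :=
    Finset.sum_congr rfl fun κ hκ => hg κ hκ t
  rwa [h2] at h1

/-- the components of an element of a GL-stable submodule lie in it -/
theorem GLS_MW_comp {N : Submodule R (U R)} (hN : GLS N) (s : Finset (ℕ →₀ ℕ))
    (g : (ℕ →₀ ℕ) → U R) (hg : ∀ κ ∈ s, MW κ (g κ)) (h : ∑ κ ∈ s, g κ ∈ N) :
    ∀ κ ∈ s, g κ ∈ N := by
  have h1 := MW_comp_mem (N.restrictScalars ℂ) (fun t _ f hf => hN _ f hf) s g hg h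
  exact h1

/-! ### decomposition -/

private theorem supp_add_left (κ κ' : ℕ →₀ ℕ) : (κ.support : Set ℕ) ⊆ ((κ + κ').support : Set ℕ) := by
  intro i hi
  simp only [Finset.mem_coe, Finsupp.mem_support_iff, Finsupp.add_apply] at hi ⊢
  omega

private theorem supp_add_right (κ κ' : ℕ →₀ ℕ) :
    (κ'.support : Set ℕ) ⊆ ((κ + κ').support : Set ℕ) := by
  intro i hi
  simp only [Finset.mem_coe, Finsupp.mem_support_iff, Finsupp.add_apply] at hi ⊢
  omega

private theorem supp_add_sub {κ κ' : ℕ →₀ ℕ} {T : Set ℕ} (h : (κ.support : Set ℕ) ⊆ T)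
    (h' : (κ'.support : Set ℕ) ⊆ T) : ((κ + κ').support : Set ℕ) ⊆ T := by
  intro i hi
  simp only [Finset.mem_coe, Finsupp.mem_support_iff, Finsupp.add_apply] at hi
  by_cases h1 : κ i = 0
  · refine h' ?_
    simp only [Finset.mem_coe, Finsupp.mem_support_iff]
    omega
  · exact h (by simpa using h1)

/-- the homogeneous polynomials in the letters of `T` -/
private noncomputable def Wsub (T : Set ℕ) (κ : ℕ →₀ ℕ) : Submodule ℂ (U R) where
  carrier := {f | ((κ.support : Set ℕ) ⊆ T ∨ f = 0) ∧ MW κ f ∧ f ∈ LT R T ∧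
    f ∈ LT R (κ.support : Set ℕ)}
  zero_mem' := ⟨Or.inr rfl, MW_zero κ, Subalgebra.zero_mem _, Subalgebra.zero_mem _⟩
  add_mem' := by
    rintro a b ⟨ha1, ha2, ha3, ha4⟩ ⟨hb1, hb2, hb3, hb4⟩
    refine ⟨?_, MW_add ha2 hb2, Subalgebra.add_mem _ ha3 hb3, Subalgebra.add_mem _ ha4 hb4⟩
    rcases ha1 with h | h
    · exact Or.inl h
    · rcases hb1 with h' | h'
      · exact Or.inl h'
      · exact Or.inr (by rw [h, h', add_zero])
  smul_mem' := by
    rintro c a ⟨ha1, ha2, ha3, ha4⟩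
    refine ⟨?_, MW_smul ha2 c, Subalgebra.smul_mem _ ha3 c, Subalgebra.smul_mem _ ha4 c⟩
    rcases ha1 with h | h
    · exact Or.inl h
    · exact Or.inr (by rw [h, smul_zero])

private theorem Wsub_mul {T : Set ℕ} {κ κ' : ℕ →₀ ℕ} {f g : U R} (hf : f ∈ Wsub (R := R) T κ)
    (hg : g ∈ Wsub (R := R) T κ') : f * g ∈ Wsub (R := R) T (κ + κ') := by
  obtain ⟨ha1, ha2, ha3, ha4⟩ := hf
  obtain ⟨hb1, hb2, hb3, hb4⟩ := hg
  refine ⟨?_, MW_mul ha2 hb2, Subalgebra.mul_mem _ ha3 hb3,
    Subalgebra.mul_mem _ (LT_mono (supp_add_left _ _) ha4) (LT_mono (supp_add_right _ _) hb4)⟩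
  rcases ha1 with h | h
  · rcases hb1 with h' | h'
    · exact Or.inl (supp_add_sub h h')
    · exact Or.inr (by rw [h', mul_zero])
  · exact Or.inr (by rw [h, zero_mul])

private theorem MW_one (c : ℂ) : MW 0 (algebraMap ℂ (U R) c) := by
  intro t
  rw [Finsupp.prod_zero_index, one_smul, Algebra.algebraMap_eq_smul_one, sbC_smulC, map_one]

private theorem MW_X (a i : ℕ) : MW (Finsupp.single i 1) (X (a, i) : U R) := by
  rw [MW_iff]
  intro t
  rw [sbC_X, chr_single, pow_one]
  have h1 : (cst (t i • ee i) : VR R) = Finsupp.single i (algebraMap ℂ R (t i)) := by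
    unfold cst
    simp [Finsupp.mapRange.linearMap_apply, Finsupp.mapRange_single]
  rw [h1, zf_single, algebraMap_smul]

private theorem MW_x (i j : ℕ) :
    MW (Finsupp.single i 1 + Finsupp.single j 1) (C (GLRing.x i j) : U R) := by
  rw [MW_iff]
  intro t
  rw [sbC_C, chr_add, chr_single, chr_single, pow_one, pow_one]
  have h1 : ∀ i, (cst (t i • ee i) : VR R) = Finsupp.single i (algebraMap ℂ R (t i)) := by
    intro i
    unfold cst
    simp [Finsupp.mapRange.linearMap_apply, Finsupp.mapRange_single]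
  have h2 : sbR (fun i => t i • ee i) (GLRing.x i j : R) =
      (t i * t j) • (GLRing.x i j : R) := by
    unfold sbR
    rw [sb_x', h1, h1, xf_single, Algebra.smul_def, map_mul]
  rw [h2]
  rw [Algebra.smul_def, C_mul, Algebra.smul_def]
  rfl

private theorem LT_le_iSup (T : Set ℕ) (f : U R) (hf : f ∈ LT R T) :
    f ∈ ⨆ κ, Wsub (R := R) T κ := by
  unfold LT at hf
  induction hf using Algebra.adjoin_induction with
  | mem f h =>
    rcases h with ⟨i, hi, j, hj, rfl⟩ | ⟨a, i, hi, rfl⟩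
    · refine Submodule.mem_iSup_of_mem (Finsupp.single i 1 + Finsupp.single j 1) ?_
      refine ⟨Or.inl ?_, MW_x i j, ?_, ?_⟩
      · refine supp_add_sub ?_ ?_
        · intro k hk
          rw [Finset.mem_coe, Finsupp.mem_support_single] at hk
          rw [hk.1]
          exact hi
        · intro k hk
          rw [Finset.mem_coe, Finsupp.mem_support_single] at hk
          rw [hk.1]
          exact hj
      · exact Algebra.subset_adjoin (Or.inl ⟨i, hi, j, hj, rfl⟩)
      · refine Algebra.subset_adjoin (Or.inl ⟨i, ?_, j, ?_, rfl⟩)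
        · exact supp_add_left _ _ (by simp)
        · exact supp_add_right _ _ (by simp)
    · refine Submodule.mem_iSup_of_mem (Finsupp.single i 1) ?_
      refine ⟨Or.inl ?_, MW_X a i, ?_, ?_⟩
      · intro k hk
        rw [Finset.mem_coe, Finsupp.mem_support_single] at hk
        rw [hk.1]
        exact hi
      · exact Algebra.subset_adjoin (Or.inr ⟨a, i, hi, rfl⟩)
      · exact Algebra.subset_adjoin (Or.inr ⟨a, i, by simp, rfl⟩)
  | algebraMap c =>
    refine Submodule.mem_iSup_of_mem 0 ?_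
    exact ⟨Or.inl (by simp), MW_one c, Subalgebra.algebraMap_mem _ c,
      Subalgebra.algebraMap_mem _ c⟩
  | add f g _ _ hf hg => exact Submodule.add_mem _ hf hg
  | mul f g _ _ hf hg =>
    refine Submodule.iSup_induction (p := fun κ => Wsub (R := R) T κ)
      (motive := fun f => f * g ∈ ⨆ κ, Wsub (R := R) T κ) hf ?_ ?_ ?_
    · intro κ x hx
      refine Submodule.iSup_induction (p := fun κ => Wsub (R := R) T κ)
        (motive := fun g => x * g ∈ ⨆ κ, Wsub (R := R) T κ) hg ?_ ?_ ?_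
      · intro κ' y hy
        exact Submodule.mem_iSup_of_mem (κ + κ') (Wsub_mul hx hy)
      · rw [mul_zero]
        exact Submodule.zero_mem _
      · intro y z hy hz
        rw [mul_add]
        exact Submodule.add_mem _ hy hz
    · rw [zero_mul]
      exact Submodule.zero_mem _
    · intro y z hy hz
      rw [add_mul]
      exact Submodule.add_mem _ hy hz

/-- decomposition in multidegree components, which are polynomials in the given letters -/
theorem exists_MW_decomp {T : Set ℕ} {f : U R} (hf : f ∈ LT R T) :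
    ∃ (s : Finset (ℕ →₀ ℕ)) (g : (ℕ →₀ ℕ) → U R), f = ∑ κ ∈ s, g κ ∧
      (∀ κ ∈ s, MW κ (g κ) ∧ g κ ∈ LT R T ∧ g κ ∈ LT R (κ.support : Set ℕ)) ∧
      (∀ κ ∈ s, (κ.support : Set ℕ) ⊆ T) := by
  obtain ⟨g, hg, hs⟩ := (Submodule.mem_iSup_iff_exists_finsupp _ _).1 (LT_le_iSup T f hf)
  refine ⟨g.support, fun κ => g κ, ?_, ?_, ?_⟩
  · rw [← hs]
    rfl
  · intro κ _
    exact ⟨(hg κ).2.1, (hg κ).2.2.1, (hg κ).2.2.2⟩
  · intro κ hκ
    rcases (hg κ).1 with h | h
    · exact h
    · exact absurd h (Finsupp.mem_support_iff.1 hκ)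

/-- comparison of components -/
private theorem MW_compare {κ : ℕ →₀ ℕ} {f : U R} (hf : MW κ f) (s : Finset (ℕ →₀ ℕ))
    (g : (ℕ →₀ ℕ) → U R) (hg : ∀ κ ∈ s, MW κ (g κ)) (h : f = ∑ κ ∈ s, g κ) :
    f = 0 ∨ (κ ∈ s ∧ f = g κ) := by
  classical
  have h1 := MW_vand (R := R) ⊥ (insert κ s)
    (fun m => (if m ∈ s then g m else 0) - (if m = κ then f else 0)) (by
    intro t _
    have e1 : ∑ m ∈ insert κ s, chr m t • ((if m ∈ s then g m else 0) -
        (if m = κ then f else 0)) = ∑ m ∈ s, chr m t • g m - chr κ t • f := by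
      simp_rw [smul_sub, smul_ite, smul_zero]
      rw [Finset.sum_sub_distrib]
      congr 1
      · rw [← Finset.sum_filter]
        congr 1
        ext m
        simp only [Finset.mem_filter, Finset.mem_insert]
        tauto
      · rw [Finset.sum_ite_eq']
        simp
    rw [e1, ← (MW_iff.1 hf) t, h, map_sum]
    have e2 : ∑ m ∈ s, chr m t • g m = ∑ m ∈ s, sbC (fun i => t i • ee i) (g m) :=
      Finset.sum_congr rfl fun m hm => ((MW_iff.1 (hg m hm)) t).symm
    rw [e2, sub_self]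
    exact Submodule.zero_mem _) κ (Finset.mem_insert_self _ _)
  simp only [if_true, Submodule.mem_bot] at h1
  by_cases hκ : κ ∈ s
  · rw [if_pos hκ, sub_eq_zero] at h1
    exact Or.inr ⟨hκ, h1.symm⟩
  · rw [if_neg hκ, zero_sub, neg_eq_zero] at h1
    exact Or.inl h1

theorem MW_LT {κ : ℕ →₀ ℕ} {f : U R} (hf : MW κ f) : f ∈ LT R (κ.support : Set ℕ) := by
  have hfT : f ∈ LT R Set.univ := by
    rw [LT_univ]
    exact Algebra.mem_top
  obtain ⟨s, g, h1, h2, -⟩ := exists_MW_decomp hfT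
  rcases MW_compare hf s g (fun κ hκ => (h2 κ hκ).1) h1 with h | ⟨h, h'⟩
  · rw [h]
    exact Subalgebra.zero_mem _
  · rw [h']
    exact (h2 κ h).2.2

/-! ### polarisation -/

/-- every multidegree is the multidegree of a word -/
private theorem exists_word (κ : ℕ →₀ ℕ) :
    ∃ (D : ℕ) (b : ℕ → ℕ), κ = ∑ j ∈ Finset.range D, Finsupp.single (b j) 1 := by
  induction κ using Finsupp.induction_linear with
  | zero => exact ⟨0, fun _ => 0, by simp⟩
  | add κ κ' h h' =>
    obtain ⟨D, b, hb⟩ := h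
    obtain ⟨D', b', hb'⟩ := h'
    refine ⟨D + D', fun j => if j < D then b j else b' (j - D), ?_⟩
    rw [Finset.sum_range_add, hb, hb']
    congr 1
    · refine Finset.sum_congr rfl fun j hj => ?_
      simp only [Finset.mem_range.1 hj, if_true]
    · refine Finset.sum_congr rfl fun j hj => ?_
      have h1 : ¬ (D + j < D) := by omega
      simp only [h1, if_false, Nat.add_sub_cancel_left]
  | single i k =>
    refine ⟨k, fun _ => i, ?_⟩
    rw [Finset.sum_const, Finset.card_range, Finsupp.smul_single, smul_eq_mul, mul_one]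

/-- the coefficient of `t_0 ⋯ t_{D-1}` in a product of block sums does not vanish -/
private theorem block_coeff (D : ℕ) (b : ℕ → ℕ) :
    (∏ j ∈ Finset.range D, ∑ i ∈ (Finset.range D).filter (fun i => b i = b j),
      (X i : MvPolynomial ℕ ℂ)).coeff (∑ i ∈ Finset.range D, Finsupp.single i 1) ≠ 0 := by
  classical
  rw [Finset.prod_sum]
  have e1 : ∀ p ∈ (Finset.range D).pi fun j => (Finset.range D).filter (fun i => b i = b j),
      (∏ x ∈ (Finset.range D).attach, (X (p x.1 x.2) : MvPolynomial ℕ ℂ)) =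
        monomial (∑ x ∈ (Finset.range D).attach, Finsupp.single (p x.1 x.2) 1) 1 := by
    intro p _
    rw [monomial_sum_one]
    rfl
  rw [Finset.sum_congr rfl e1, coeff_sum]
  simp only [coeff_monomial]
  rw [Finset.sum_boole, Nat.cast_ne_zero, Finset.card_ne_zero]
  refine ⟨fun j _ => j, ?_⟩
  rw [Finset.mem_filter]
  constructor
  · rw [Finset.mem_pi]
    intro j hj
    rw [Finset.mem_filter]
    exact ⟨hj, rfl⟩
  · exact Finset.sum_attach (Finset.range D) (fun j => Finsupp.single j 1)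

/-- polarisation -/
theorem pol_one {N : Submodule R (U R)} (hN : GLS N) {κ : ℕ →₀ ℕ} {f : U R} (hf : f ∈ N)
    (hκ : MW κ f) : ∃ (n : ℕ) (g : U R) (b : ℕ → ℕ), g ∈ N ∧ ML n g ∧
      f = sbC (fun i => ee (b i)) g := by
  classical
  obtain ⟨D, b, hb⟩ := exists_word κ
  set φ1 : ℕ → V := fun i => ∑ j ∈ (Finset.range D).filter (fun j => b j = i), ee j with hφ1
  set F : U R := sbC φ1 f with hF
  have hFN : F ∈ N := hN φ1 f hf
  have hFT : F ∈ LT R Set.univ := by
    rw [LT_univ]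
    exact Algebra.mem_top
  obtain ⟨s, g, h1, h2, -⟩ := exists_MW_decomp hFT
  have hgN : ∀ m ∈ s, g m ∈ N := GLS_MW_comp hN s g (fun m hm => (h2 m hm).1) (h1 ▸ hFN)
  set κD : ℕ →₀ ℕ := ∑ i ∈ Finset.range D, Finsupp.single i 1 with hκD
  set Q : MvPolynomial ℕ ℂ := ∏ j ∈ Finset.range D,
    ∑ i ∈ (Finset.range D).filter (fun i => b i = b j), X i with hQ
  set σ : U R →+* U R := sbC (fun i => ee (b i)) with hσ
  -- the value of the substitution
  have key : ∀ t : ℕ → ℂ, σ (sbC (fun i => t i • ee i) F) = (eval t Q) • f := by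
    intro t
    rw [hF, hσ, sbC_sbC, sbC_sbC]
    have e1 : (fun i => linC (fun i => linC (fun i => ee (b i)) (t i • ee i)) (φ1 i)) =
        fun i => (∑ j ∈ (Finset.range D).filter (fun j => b j = i), t j) • ee i := by
      funext i
      rw [hφ1]
      simp only
      rw [map_sum, Finset.sum_smul]
      refine Finset.sum_congr rfl fun j hj => ?_
      rw [linC_ee, map_smul, linC_ee, (Finset.mem_filter.1 hj).2]
    rw [e1, hκ]
    congr 1
    have e2 : (κ.prod fun i k => (∑ j ∈ (Finset.range D).filter (fun j => b j = i), t j) ^ k) =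
        chr κ (fun i => ∑ j ∈ (Finset.range D).filter (fun j => b j = i), t j) := rfl
    rw [e2, hb]
    have e3 : ∀ u : ℕ → ℂ, chr (∑ j ∈ Finset.range D, Finsupp.single (b j) 1) u =
        ∏ j ∈ Finset.range D, u (b j) := by
      intro u
      unfold chr
      rw [← Finsupp.prod_finsetSum_index (fun _ => pow_zero _) (fun _ _ _ => pow_add _ _ _)]
      refine Finset.prod_congr rfl fun j _ => ?_
      have e4 := chr_single (b j) 1 u
      rw [pow_one] at e4
      exact e4
    rw [e3, hQ, map_prod]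
    refine Finset.prod_congr rfl fun j _ => ?_
    rw [map_sum]
    refine Finset.sum_congr rfl fun i _ => ?_
    rw [eval_X]
  have key2 : ∀ t : ℕ → ℂ, σ (sbC (fun i => t i • ee i) F) = ∑ m ∈ s, chr m t • σ (g m) := by
    intro t
    rw [h1, map_sum, map_sum]
    refine Finset.sum_congr rfl fun m hm => ?_
    rw [(MW_iff.1 (h2 m hm).1) t, hσ, sbC_smulC]
  have h3 := MW_vand (R := R) ⊥ (s ∪ Q.support ∪ {κD})
    (fun m => (if m ∈ s then σ (g m) else 0) - Q.coeff m • f) (by
    intro t _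
    have e1 : ∑ m ∈ s ∪ Q.support ∪ {κD}, chr m t • ((if m ∈ s then σ (g m) else 0) -
        Q.coeff m • f) = ∑ m ∈ s, chr m t • σ (g m) - (eval t Q) • f := by
      simp_rw [smul_sub, smul_ite, smul_zero]
      rw [Finset.sum_sub_distrib]
      congr 1
      · rw [← Finset.sum_filter]
        congr 1
        ext m
        simp only [Finset.mem_filter, Finset.mem_union, Finset.mem_singleton]
        tauto
      · rw [eval_eq, Finset.sum_smul]
        symm
        refine Finset.sum_subset_zero_on_sdiff ?_ ?_ ?_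
        · intro m hm
          simp only [Finset.mem_union]
          exact Or.inl (Or.inr hm)
        · intro m hm
          rw [Finset.mem_sdiff, notMem_support_iff] at hm
          rw [hm.2, zero_smul, smul_zero]
        · intro m _
          rw [smul_smul, mul_comm]
          rfl
    rw [e1, ← key, key2, sub_self]
    exact Submodule.zero_mem _) κD (by simp)
  simp only [Submodule.mem_bot] at h3
  have hc : Q.coeff κD ≠ 0 := block_coeff D b
  by_cases hs : κD ∈ s
  · rw [if_pos hs, sub_eq_zero] at h3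
    refine ⟨D, (Q.coeff κD)⁻¹ • g κD, b, smulC_mem N _ (hgN _ hs), MW_smul (h2 _ hs).1 _, ?_⟩
    rw [sbC_smulC, ← hσ, h3, smul_smul, inv_mul_cancel₀ hc, one_smul]
  · rw [if_neg hs, zero_sub, neg_eq_zero] at h3
    have hf0 : f = 0 := by
      rcases smul_eq_zero.1 h3 with h | h
      · exact absurd h hc
      · exact h
    exact ⟨D, 0, b, Submodule.zero_mem _, MW_zero _, by rw [hf0, map_zero]⟩

/-- every element is a sum of substitutions of multilinear elements -/
theorem pol_span {N : Submodule R (U R)} (hN : GLS N) {f : U R} (hf : f ∈ N) :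
    f ∈ Submodule.span ℂ {f' : U R | ∃ (n : ℕ) (g : U R) (b : ℕ → ℕ), g ∈ N ∧ ML n g ∧
      f' = sbC (fun i => ee (b i)) g} := by
  have hfT : f ∈ LT R Set.univ := by
    rw [LT_univ]
    exact Algebra.mem_top
  obtain ⟨s, g, h1, h2, -⟩ := exists_MW_decomp hfT
  have hgN : ∀ m ∈ s, g m ∈ N := GLS_MW_comp hN s g (fun m hm => (h2 m hm).1) (h1 ▸ hf)
  rw [h1]
  exact Submodule.sum_mem _ fun m hm =>
    Submodule.subset_span (pol_one hN (hgN m hm) (h2 m hm).1)

/-- a `GL`-stable submodule is determined by its multilinear elements -/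
theorem pol_le {N N' : Submodule R (U R)} (hN : GLS N) (hN' : GLS N')
    (h : ∀ n, ∀ f ∈ N, ML n f → f ∈ N') : N ≤ N' := by
  intro f hf
  have h1 := pol_span hN hf
  have h2 : Submodule.span ℂ {f' : U R | ∃ (n : ℕ) (g : U R) (b : ℕ → ℕ), g ∈ N ∧ ML n g ∧
      f' = sbC (fun i => ee (b i)) g} ≤ N'.restrictScalars ℂ := by
    rw [Submodule.span_le]
    rintro _ ⟨n, g, b, hg, hml, rfl⟩
    exact hN' _ g (h n g hg hml)
  exact h2 h1

theorem pol_gen {N : Submodule R (U R)} (hN : GLS N) :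
    N = Submodule.span R {f' : U R | ∃ (n : ℕ) (g : U R) (φ : ℕ → V), g ∈ N ∧ ML n g ∧
      f' = sbC φ g} := by
  apply le_antisymm
  · intro f hf
    have h1 := pol_span hN hf
    have h2 : Submodule.span ℂ {f' : U R | ∃ (n : ℕ) (g : U R) (b : ℕ → ℕ), g ∈ N ∧ ML n g ∧
        f' = sbC (fun i => ee (b i)) g} ≤ (Submodule.span R {f' : U R |
          ∃ (n : ℕ) (g : U R) (φ : ℕ → V), g ∈ N ∧ ML n g ∧
          f' = sbC φ g}).restrictScalars ℂ := by
      rw [Submodule.span_le]
      rintro _ ⟨n, g, b, hg, hml, rfl⟩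
      exact Submodule.subset_span ⟨n, g, _, hg, hml, rfl⟩
    exact h2 h1
  · rw [Submodule.span_le]
    rintro _ ⟨n, g, φ, hg, -, rfl⟩
    exact hN φ g hg

end MP50e386N
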