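import Mathlib
import Pool.Agent.Lib.MP_50e386_al.N.TDefs
import Pool.Agent.Lib.MP_50e386_al.N.T1
import Pool.Agent.Lib.MP_50e386_al.N.T2
import Pool.Agent.Lib.MP_50e386_al.N.T3
import Pool.Agent.Lib.MP_50e386_al.N.T6

/-! The sandwich `nn (M1 N) ≤ N ≤ M1 N`, and chain conditions. -/

namespace MP50e386N

open MvPolynomial Pool.Agent.Lib.MP50e386

variable {R : Type} [CommRing R] [Algebra ℂ R] [GLRing R]

/-- the symplectic form as a bilinear map -/
private noncomputable def omL : V →ₗ[ℂ] V →ₗ[ℂ] ℂ :=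
  Finsupp.linearCombination ℂ (fun i =>
    (if Even i then Finsupp.lapply (i + 1) else -Finsupp.lapply (i - 1) : V →ₗ[ℂ] ℂ))

private theorem omL_eq (u v : V) : omL u v = om u v := by
  unfold omL
  rw [Finsupp.linearCombination_apply]
  change _ = sympForm u v
  unfold sympForm Finsupp.sum
  rw [LinearMap.sum_apply]
  apply Finset.sum_congr rfl
  intro i _
  beta_reduce
  split_ifs
  · simp
  · simp

theorem Iso.lin {φ : ℕ → V} (h : Iso φ) (φ' : ℕ → V) : Iso (fun i => linC φ (φ' i)) := by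
  have h0 : omL.compl₁₂ (linC φ) (linC φ) = 0 := by
    apply Finsupp.lhom_ext'
    intro i
    apply LinearMap.ext_ring
    apply Finsupp.lhom_ext'
    intro j
    apply LinearMap.ext_ring
    change omL (linC φ (ee i)) (linC φ (ee j)) = 0
    rw [linC_ee, linC_ee, omL_eq]
    exact h i j
  intro i j
  have h1 := congrArg (fun f : V →ₗ[ℂ] V →ₗ[ℂ] ℂ => f (φ' i) (φ' j)) h0
  change omL (linC φ (φ' i)) (linC φ (φ' j)) = 0 at h1
  rw [omL_eq] at h1
  exact h1

theorem M1_le (S : Finset ℕ) (N : Submodule R (U R)) : M1 S N ≤ MS R S := fun _ hf => hf.1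

theorem M1_GLS (S : Finset ℕ) (N : Submodule R (U R)) : GLS (M1 S N) := by
  intro φ f hf
  refine ⟨GLS_MS S φ f hf.1, fun φ' hφ' => ?_⟩
  rw [sbC_sbC]
  exact hf.2 _ (hφ'.lin φ)

theorem M1_mono {S : Finset ℕ} {N N' : Submodule R (U R)} (h : N ≤ N') : M1 S N ≤ M1 S N' :=
  fun _ hf => ⟨hf.1, fun φ hφ => h (hf.2 φ hφ)⟩

theorem le_M1 {S : Finset ℕ} {N : Submodule R (U R)} (hN : GS N) (h : N ≤ MS R S) :
    N ≤ M1 S N := fun _ hf => ⟨h hf, fun φ hφ => witt2 hN hf φ hφ⟩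

theorem nn_mono {M M' : Submodule R (U R)} (h : M ≤ M') : nn M ≤ nn M' := by
  unfold nn
  apply Submodule.span_mono
  rintro f ⟨φ, hφ, g, hg, rfl⟩
  exact ⟨φ, hφ, g, h hg, rfl⟩

private theorem linC_smul_g (g : Cinf ≃ₗ[ℂ] Cinf) (c : ℂ) (v : V) :
    linC (fun i => c • g (ee i)) v = c • g v := by
  have h0 : linC (fun i => c • g (ee i)) = c • g.toLinearMap := by
    apply Finsupp.lhom_ext'
    intro i
    apply LinearMap.ext_ring
    change linC (fun i => c • g (ee i)) (ee i) = c • g (ee i)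
    rw [linC_ee]
  rw [h0]
  rfl

theorem nn_GS {M : Submodule R (U R)} (hM : GLS M) : GS (nn M) := by
  unfold nn
  apply GS_span
  rintro g hg c hc f ⟨φ, hφ, h, hh, rfl⟩
  apply Submodule.subset_span
  refine ⟨fun i => linC (fun i => c • g (ee i)) (φ i), ?_, h, hh, sbC_sbC _ _ _⟩
  intro i j
  simp only [linC_smul_g]
  rw [← omL_eq, map_smul, map_smul, LinearMap.smul_apply, omL_eq]
  change c • c • sympForm (g (φ i)) (g (φ j)) = 0
  rw [hg.2]
  have h3 : sympForm (φ i) (φ j) = 0 := hφ i j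
  rw [h3, smul_zero, smul_zero]

theorem nn_le {M : Submodule R (U R)} (hM : GLS M) : nn M ≤ M := by
  unfold nn
  rw [Submodule.span_le]
  rintro f ⟨φ, hφ, g, hg, rfl⟩
  exact hM φ g hg

theorem nn_M1_le (S : Finset ℕ) (N : Submodule R (U R)) : nn (M1 S N) ≤ N := by
  unfold nn
  rw [Submodule.span_le]
  rintro f ⟨φ, hφ, g, hg, rfl⟩
  exact hg.2 φ hφ

theorem mem_nn_of_iso_letters {M : Submodule R (U R)} {f : U R} (hf : f ∈ M) {T : Set ℕ}
    (hfT : f ∈ LT R T) (hT : ∀ i ∈ T, ∀ j ∈ T, om (ee i) (ee j) = 0) : f ∈ nn M := by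
  classical
  unfold nn
  apply Submodule.subset_span
  refine ⟨fun i => if i ∈ T then ee i else 0, ?_, f, hf, ?_⟩
  · intro i j
    by_cases hi : i ∈ T
    · by_cases hj : j ∈ T
      · simp only [if_pos hi, if_pos hj]
        exact hT i hi j hj
      · simp only [if_neg hj]
        rw [← omL_eq, map_zero]
    · simp only [if_neg hi]
      rw [← omL_eq, map_zero, LinearMap.zero_apply]
  · rw [← sbC_congr hfT ee (fun i => if i ∈ T then ee i else 0)
      (fun i hi => by simp only [if_pos hi]), sbC_id]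

theorem smul_mem_nn {M : Submodule R (U R)} {f : U R} (a : R) (hf : f ∈ nn M) : a • f ∈ nn M :=
  Submodule.smul_mem _ a hf

/-! chain conditions -/

/-- (n1) -/
theorem NoethInt.trans {P : Submodule R (U R) → Prop}
    (hsup : ∀ N N', P N → P N' → P (N ⊔ N')) (hinf : ∀ N N', P N → P N' → P (N ⊓ N'))
    {X Y Z : Submodule R (U R)} (hY : P Y) (hXY : X ≤ Y) (hYZ : Y ≤ Z)
    (h1 : NoethInt P X Y) (h2 : NoethInt P Y Z) : NoethInt P X Z := by
  intro N hmono hN
  obtain ⟨n1, hn1⟩ := h1 (fun i => N i ⊓ Y) (fun i j hij => inf_le_inf_right _ (hmono hij))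
    (fun i => ⟨hinf _ _ (hN i).1 hY, le_inf (hN i).2.1 hXY, inf_le_right⟩)
  obtain ⟨n2, hn2⟩ := h2 (fun i => N i ⊔ Y) (fun i j hij => sup_le_sup_right (hmono hij) _)
    (fun i => ⟨hsup _ _ (hN i).1 hY, le_sup_right, sup_le (hN i).2.2 hYZ⟩)
  refine ⟨max n1 n2, fun n hn => ?_⟩
  symm
  apply eq_of_le_of_inf_le_of_sup_le (z := Y)
  · exact hmono hn
  · exact le_of_eq ((hn1 n (le_trans (le_max_left _ _) hn)).trans (hn1 _ (le_max_left _ _)).symm)
  · exact le_of_eq ((hn2 n (le_trans (le_max_right _ _) hn)).trans (hn2 _ (le_max_right _ _)).symm)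

theorem NoethInt.mono {P : Submodule R (U R) → Prop} {X X' Y Y' : Submodule R (U R)}
    (hX : X ≤ X') (hY : Y' ≤ Y) (h : NoethInt P X Y) : NoethInt P X' Y' :=
  fun N hmono hN => h N hmono
    (fun i => ⟨(hN i).1, le_trans hX (hN i).2.1, le_trans (hN i).2.2 hY⟩)

theorem NoethInt.refl (P : Submodule R (U R) → Prop) (X : Submodule R (U R)) :
    NoethInt P X X := by
  intro N _ hN
  refine ⟨0, fun n _ => ?_⟩
  rw [le_antisymm (hN n).2.2 (hN n).2.1, le_antisymm (hN 0).2.2 (hN 0).2.1]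

/-- (n2): a chain between `X` and `Y` is controlled by its preimages under a family of additive
maps whose images together with `X` generate `Y`; here for one map -/
theorem NoethInt.of_map {R' : Type} [CommRing R'] [Algebra ℂ R'] [GLRing R']
    {P : Submodule R (U R) → Prop} {P' : Submodule R' (U R') → Prop}
    {X Y : Submodule R (U R)} {X' Y' : Submodule R' (U R')} (Th : U R' →+ U R)
    (hpre : ∀ N, P N → X ≤ N → N ≤ Y → ∃ N' : Submodule R' (U R'),
      (∀ f, f ∈ N' ↔ f ∈ Y' ∧ Th f ∈ N) ∧ P' N' ∧ X' ≤ N')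
    (hY : ∀ y ∈ Y, ∃ f ∈ Y', ∃ x ∈ X, y = Th f + x) (h : NoethInt P' X' Y') :
    NoethInt P X Y := by
  intro N hmono hN
  choose N' hN' using fun i => hpre (N i) (hN i).1 (hN i).2.1 (hN i).2.2
  obtain ⟨n0, hn0⟩ := h N' (fun i j hij f hf => by
      rw [(hN' j).1]
      rw [(hN' i).1] at hf
      exact ⟨hf.1, hmono hij hf.2⟩)
    (fun i => ⟨(hN' i).2.1, (hN' i).2.2, fun f hf => ((hN' i).1 f |>.1 hf).1⟩)
  refine ⟨n0, fun n hn => le_antisymm (fun y hy => ?_) (hmono hn)⟩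
  obtain ⟨f, hf, x, hx, rfl⟩ := hY y ((hN n).2.2 hy)
  have h1 : Th f ∈ N n := by
    have h2 := Submodule.sub_mem _ hy ((hN n).2.1 hx)
    rwa [add_sub_cancel_right] at h2
  have h3 : f ∈ N' n0 := by
    rw [← hn0 n hn]
    exact ((hN' n).1 f).2 ⟨hf, h1⟩
  exact Submodule.add_mem _ (((hN' n0).1 f).1 h3).2 ((hN n0).2.1 hx)

end MP50e386N
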