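import Mathlib
import Pool.Agent.Lib.MP_50e386_al.N.CDefs
import Pool.Agent.Lib.MP_50e386_al.N.T1
import Pool.Agent.Lib.MP_50e386_al.N.T2
import Pool.Agent.Lib.MP_50e386_al.N.T3
import Pool.Agent.Lib.MP_50e386_al.N.T6
import Pool.Agent.Lib.MP_50e386_al.N.T8
import Pool.Agent.Lib.MP_50e386_al.N.TR
import Pool.Agent.Lib.MP_50e386_al.N.Q1
import Pool.Agent.Lib.MP_50e386_al.N.C1
import Pool.Agent.Lib.MP_50e386_al.N.C2
import Pool.Agent.Lib.MP_50e386_al.N.C3
import Pool.Agent.Lib.MP_50e386_al.N.C4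

/-! Claim 0 (paper 5.3). -/

namespace MP50e386N

open MvPolynomial Pool.Agent.Lib.MP50e386

variable {R : Type} [CommRing R] [Algebra ℂ R] [GLRing R]

private theorem c5a_add_left (a b w : V) : om (a + b) w = om a w + om b w := by
  unfold om sympForm
  refine Finsupp.sum_add_index' (fun i => ?_) (fun i x y => ?_)
  · simp
  · split_ifs <;> ring

private theorem c5a_smul_left (c : ℂ) (a w : V) : om (c • a) w = c * om a w := by
  unfold om sympForm
  rw [Finsupp.sum_smul_index' (fun i => by simp), Finsupp.mul_sum]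
  refine Finsupp.sum_congr fun i _ => ?_
  rw [smul_eq_mul]
  split_ifs <;> ring

private theorem c5a_add_right (w a b : V) : om w (a + b) = om w a + om w b := by
  unfold om sympForm Finsupp.sum
  rw [← Finset.sum_add_distrib]
  refine Finset.sum_congr rfl fun i _ => ?_
  simp only [Finsupp.add_apply]
  split_ifs <;> ring

private theorem c5a_smul_right (c : ℂ) (w a : V) : om w (c • a) = c * om w a := by
  unfold om sympForm Finsupp.sum
  rw [Finset.mul_sum]
  refine Finset.sum_congr rfl fun i _ => ?_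
  simp only [Finsupp.smul_apply, smul_eq_mul]
  split_ifs <;> ring

private theorem c5a_om_span {s : Set V} (h : ∀ v ∈ s, ∀ w ∈ s, om v w = 0) :
    ∀ v ∈ Submodule.span ℂ s, ∀ w ∈ Submodule.span ℂ s, om v w = 0 := by
  intro v hv w hw
  induction hv using Submodule.span_induction with
  | mem v hv =>
    induction hw using Submodule.span_induction with
    | mem w hw => exact h v hv w hw
    | zero =>
      have := c5a_smul_right 0 v (0 : V)
      rwa [zero_smul, zero_mul] at this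
    | add a b _ _ ha hb => rw [c5a_add_right, ha, hb, add_zero]
    | smul c a _ ha => rw [c5a_smul_right, ha, mul_zero]
  | zero =>
    have := c5a_smul_left 0 (0 : V) w
    rwa [zero_smul, zero_mul] at this
  | add a b _ _ ha hb => rw [c5a_add_left, ha, hb, add_zero]
  | smul c a _ ha => rw [c5a_smul_left, ha, mul_zero]

/-- the elements `E • DDm (Y~)` lie in `nn M` for an isotropic family `(u, e_Z, Y)` -/
theorem DD_iso_mem {r : ℕ} (S : Finset ℕ) (M : Submodule R (U R)) (hMS : M ≤ MS R S)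
    (f : U R) (hf : f ∈ M) (n : ℕ) (Z : Set ℕ) (hZ : ∀ z ∈ Z, 2 * n ≤ z)
    (hfT : f ∈ LT R (Set.Iio (2 * n) ∪ Z)) (u : Fin r → V) (E : R)
    {j : ℕ} (I : Fin j → ℕ) (hI : ∀ t, I t < 2 * n) (Y : Fin j → V)
    (hiso : ∀ v ∈ Set.range u ∪ (fun z => (ee z : V)) '' Z ∪ Set.range Y,
      ∀ w ∈ Set.range u ∪ (fun z => (ee z : V)) '' Z ∪ Set.range Y, om v w = 0)
    (hE : ∀ t, (til u (Y t) : VR R) ∈ Rad E) (ψ' : ℕ → VR R)
    (hψT : ∀ i < 2 * n, ψ' i = pit u (ee i)) (hψZ : ∀ z ∈ Z, ψ' z = cst (ee z)) :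
    E • DDm S (cfs ψ' f) ψ' (fun t => Pi.single (I t) (til u (Y t))) ∈ nn M := by
  classical
  set s : Set V := Set.range u ∪ (fun z => (ee z : V)) '' Z ∪ Set.range Y with hs
  set W : Submodule ℂ V := Submodule.span ℂ s with hW
  have hWiso := c5a_om_span hiso
  set P : Submodule R (VR R) := Submodule.span R ((fun v => (cst v : VR R)) '' (W : Set V))
    with hP
  have hu : ∀ k, (cst (u k) : VR R) ∈ P := fun k =>
    Submodule.subset_span ⟨u k, Submodule.subset_span (Or.inl (Or.inl ⟨k, rfl⟩)), rfl⟩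
  have hY : ∀ k, (cst (Y k) : VR R) ∈ P := fun k =>
    Submodule.subset_span ⟨Y k, Submodule.subset_span (Or.inr ⟨k, rfl⟩), rfl⟩
  have hz : ∀ z ∈ Z, (cst (ee z) : VR R) ∈ P := fun z hz =>
    Submodule.subset_span ⟨ee z, Submodule.subset_span (Or.inl (Or.inr ⟨z, hz, rfl⟩)), rfl⟩
  have hpit : ∀ c : V, (pit u c : VR R) ∈ P := by
    intro c
    unfold pit
    exact Submodule.sum_mem _ fun k _ => Submodule.smul_mem _ _ (hu k)
  have htil : ∀ k, (til u (Y k) : VR R) ∈ P := by
    intro k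
    unfold til
    exact Submodule.sub_mem _ (Submodule.smul_mem _ _ (hY k)) (hpit _)
  have hF : cfs ψ' f ∈ MS R S := cfs_MS ψ' S f (hMS hf)
  refine DD_mem S (cfs ψ' f) hF ψ' (fun t => Pi.single (I t) (til u (Y t)))
    ((nn M).restrictScalars ℂ) E fun t => ?_
  set ψ : ℕ → VR R := fun i =>
    ψ' i + ∑ k, t k • (Pi.single (I k) (til u (Y k)) : ℕ → VR R) i with hψ
  -- membership of the increments in submodules
  have hinc : ∀ (Q : Submodule R (VR R)), (∀ k, (til u (Y k) : VR R) ∈ Q) → ∀ i,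
      ∑ k, t k • (Pi.single (I k) (til u (Y k)) : ℕ → VR R) i ∈ Q := by
    intro Q hQ i
    refine Submodule.sum_mem _ fun k _ => ?_
    refine Submodule.smul_of_tower_mem Q _ ?_
    by_cases h : i = I k
    · rw [h, Pi.single_eq_same]
      exact hQ k
    · rw [Pi.single_eq_of_ne h]
      exact Submodule.zero_mem _
  have h1 := smul_sbU_eq E (Set.Iio (2 * n) ∪ Z) ψ ψ' (fun i _ => by
    have h2 : ψ i - ψ' i = ∑ k, t k • (Pi.single (I k) (til u (Y k)) : ℕ → VR R) i := by
      rw [hψ]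
      exact add_sub_cancel_left _ _
    rw [h2]
    exact hinc _ hE i) f hfT
  change E • mev (fun _ => ψ) (cfs ψ' f) ∈ nn M
  rw [← h1]
  refine Submodule.smul_mem _ _ ?_
  -- cut off outside the letters
  rw [sbU_congr hfT ψ (fun i => if i ∈ Set.Iio (2 * n) ∪ Z then ψ i else 0)
    (fun i hi => by rw [if_pos hi])]
  refine rc_nn hf W hWiso _ fun i => ?_
  change (if i ∈ Set.Iio (2 * n) ∪ Z then ψ i else 0) ∈ P
  by_cases hi : i ∈ Set.Iio (2 * n) ∪ Z
  · rw [if_pos hi]
    refine Submodule.add_mem _ ?_ (hinc P htil i)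
    rcases hi with hi | hi
    · rw [hψT i hi]
      exact hpit _
    · rw [hψZ i hi]
      exact hz i hi
  · rw [if_neg hi]
    exact Submodule.zero_mem _

end MP50e386N
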