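import Mathlib
import Pool.Agent.Lib.MP_50e386_al.N.CDefs
import Pool.Agent.Lib.MP_50e386_al.N.T1
import Pool.Agent.Lib.MP_50e386_al.N.T2
import Pool.Agent.Lib.MP_50e386_al.N.T3
import Pool.Agent.Lib.MP_50e386_al.N.T6
import Pool.Agent.Lib.MP_50e386_al.N.T8
import Pool.Agent.Lib.MP_50e386_al.N.TR
import Pool.Agent.Lib.MP_50e386_al.N.Q1
import Pool.Agent.Lib.MP_50e386_al.N.C1
import Pool.Agent.Lib.MP_50e386_al.N.C2
import Pool.Agent.Lib.MP_50e386_al.N.C3
import Pool.Agent.Lib.MP_50e386_al.N.C4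
import Pool.Agent.Lib.MP_50e386_al.N.C5a

/-! Claim 0 (paper 5.3). -/

namespace MP50e386N

open MvPolynomial Pool.Agent.Lib.MP50e386

variable {R : Type} [CommRing R] [Algebra ℂ R] [GLRing R]

private theorem C5b_frm (x y : V) :
    om x y = _root_.MP50e386.frm _root_.MP50e386.pis _root_.MP50e386.sis x y :=
  _root_.MP50e386.sympForm_eq x y

private theorem C5b_skew (x y : V) : om x y = - om y x := by
  rw [C5b_frm, C5b_frm, _root_.MP50e386.frm_refl_eps _root_.MP50e386.gdata_sp x y]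
  ring

private theorem C5b_swap {x y : V} (h : om x y = 0) : om y x = 0 := by
  rw [C5b_skew, h, neg_zero]

private theorem C5b_smulr (c : ℂ) (x y : V) : om x (c • y) = c * om x y := by
  rw [C5b_frm, C5b_frm, map_smul, smul_eq_mul]

private theorem C5b_smull (c : ℂ) (x y : V) : om (c • x) y = c * om x y := by
  rw [C5b_frm, C5b_frm, map_smul, LinearMap.smul_apply, smul_eq_mul]

private theorem C5b_sumr {ι : Type} [Fintype ι] (x : V) (c : ι → ℂ) (y : ι → V) :
    om x (∑ i, c i • y i) = ∑ i, c i * om x (y i) := by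
  simp only [C5b_frm, map_sum, map_smul, smul_eq_mul]

private theorem C5b_suml {ι : Type} [Fintype ι] (x : V) (c : ι → ℂ) (y : ι → V) :
    om (∑ i, c i • y i) x = ∑ i, c i * om (y i) x := by
  simp only [C5b_frm, map_sum, map_smul, smul_eq_mul, LinearMap.sum_apply, LinearMap.smul_apply]

private theorem C5b_ee (n i z : ℕ) (hi : i < 2 * n) (hz : 2 * n ≤ z) : om (ee i) (ee z) = 0 := by
  rw [C5b_frm]
  have h1 := _root_.MP50e386.frm_ee (π := _root_.MP50e386.pis) (σ := _root_.MP50e386.sis) i z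
  have h2 := _root_.MP50e386.gam_zero_left _root_.MP50e386.gdata_sp (even_two_mul n) hi hz
  exact h1.trans h2

/-- the vectors -/
private noncomputable def C5b_y {j : ℕ} (p q : ℕ → ℕ → V) (I : Fin j → ℕ) (a b : Fin j) : V :=
  if b = a then ee (I a) else if a < b then p a b else (-(om (ee (I b)) (ee (I a)))) • q b a

private theorem C5b_cases {j : ℕ} {p q : ℕ → ℕ → V} (I : Fin j → ℕ) (x : V) (hx1 : ∀ t, om x (ee (I t)) = 0)
    (hxp : ∀ a b, om x (p a b) = 0) (hxq : ∀ a b, om x (q a b) = 0) (a b : Fin j) :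
    om x (C5b_y p q I a b) = 0 := by
  unfold C5b_y
  split_ifs
  · exact hx1 a
  · exact hxp _ _
  · rw [C5b_smulr, hxq, mul_zero]

private theorem C5b_om {r n j : ℕ} {Z : Set ℕ} {u : Fin r → V} {p q : ℕ → ℕ → V}
    (haux : Aux r n Z u p q) (I : Fin j → ℕ) (hI : ∀ t, I t < 2 * n) (a b c d : Fin j)
    (hab : a < b) : om (C5b_y p q I a c) (C5b_y p q I b d) =
      (if c = a then (if d = b then om (ee (I a)) (ee (I b)) else 0) else 0) +
        (if c = b then (if d = a then - om (ee (I a)) (ee (I b)) else 0) else 0) := by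
  have hIT : ∀ t, I t ∈ Set.Iio (2 * n) ∪ Z := fun t => Or.inl (hI t)
  have hab' : a ≠ b := ne_of_lt hab
  by_cases hca : c = a
  · subst hca
    rw [if_pos rfl, if_neg hab', add_zero]
    by_cases hdb : d = b
    · subst hdb
      rw [if_pos rfl]
      unfold C5b_y
      rw [if_pos rfl, if_pos rfl]
    · rw [if_neg hdb]
      unfold C5b_y
      rw [if_pos rfl, if_neg hdb]
      split_ifs
      · exact C5b_swap (haux.pT _ _ _ (hIT _))
      · rw [C5b_smulr, C5b_swap (haux.qT _ _ _ (hIT _)), mul_zero]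
  · rw [if_neg hca, zero_add]
    by_cases hdb : d = b
    · subst hdb
      rw [if_neg (Ne.symm hab')]
      have h1 : om (C5b_y p q I a c) (C5b_y p q I d d) = 0 := by
        unfold C5b_y
        rw [if_neg hca, if_pos rfl]
        split_ifs
        · exact haux.pT _ _ _ (hIT _)
        · rw [C5b_smull, haux.qT _ _ _ (hIT _), mul_zero]
      rw [h1, ite_self]
    · unfold C5b_y
      rw [if_neg hca, if_neg hdb]
      by_cases h1 : a < c
      · rw [if_pos h1]
        by_cases h2 : b < d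
        · rw [if_pos h2, haux.pp]
          split_ifs with h3 h4
          · exact absurd h2 (by rw [h4]; exact not_lt.2 hab.le)
          · rfl
          · rfl
        · rw [if_neg h2, C5b_smulr, haux.pq]
          by_cases h3 : c = b
          · subst h3
            rw [if_pos rfl]
            by_cases h4 : d = a
            · subst h4
              rw [if_pos ⟨rfl, rfl⟩, if_pos rfl, mul_one]
            · rw [if_neg h4, if_neg (fun h => h4 (Fin.ext h.1.symm)), mul_zero]
          · rw [if_neg h3, if_neg (fun h => h3 (Fin.ext h.2)), mul_zero]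
      · have h1' : c < a := lt_of_le_of_ne (not_lt.1 h1) hca
        have hcb : c ≠ b := ne_of_lt (h1'.trans hab)
        rw [if_neg h1, if_neg hcb, C5b_smull]
        by_cases h2 : b < d
        · rw [if_pos h2, C5b_skew (q c a), haux.pq, if_neg (fun h => hcb (Fin.ext h.1.symm)),
            neg_zero, mul_zero]
        · rw [if_neg h2, C5b_smulr, haux.qq, mul_zero, mul_zero]

/-- signs -/
private def C5b_s {j : ℕ} (ε : Sym2 (Fin j) → ℤˣ) (a b : Fin j) : ℂ :=
  if b = a then (1 : ℂ) else ((ε s(a, b) : ℤ) : ℂ)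

private theorem C5b_s_mul {j : ℕ} (ε : Sym2 (Fin j) → ℤˣ) (a b : Fin j) (h : a ≠ b) :
    C5b_s ε a b * C5b_s ε b a = 1 := by
  unfold C5b_s
  rw [if_neg (Ne.symm h), if_neg h, Sym2.eq_swap (a := b) (b := a), ← Int.cast_mul,
    ← Units.val_mul, Int.units_mul_self, Units.val_one, Int.cast_one]

private noncomputable def C5b_Y {j : ℕ} (p q : ℕ → ℕ → V) (I : Fin j → ℕ)
    (ε : Sym2 (Fin j) → ℤˣ) (a : Fin j) : V := ∑ b, C5b_s ε a b • C5b_y p q I a b

private theorem C5b_YY {r n j : ℕ} {Z : Set ℕ} {u : Fin r → V} {p q : ℕ → ℕ → V}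
    (haux : Aux r n Z u p q) (I : Fin j → ℕ) (hI : ∀ t, I t < 2 * n) (ε : Sym2 (Fin j) → ℤˣ)
    (a b : Fin j) : om (C5b_Y p q I ε a) (C5b_Y p q I ε b) = 0 := by
  have key : ∀ a b : Fin j, a < b → om (C5b_Y p q I ε a) (C5b_Y p q I ε b) = 0 := by
    intro a b hab
    have hab' : a ≠ b := ne_of_lt hab
    unfold C5b_Y
    rw [C5b_suml]
    have h1 : C5b_s ε a a = 1 := if_pos rfl
    have h2 : C5b_s ε b b = 1 := if_pos rfl
    have h3 := C5b_s_mul ε a b hab'
    have h4 : ∀ c, om (C5b_y p q I a c) (∑ d, C5b_s ε b d • C5b_y p q I b d) =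
        (if c = a then om (ee (I a)) (ee (I b)) else 0) +
          (if c = b then - (C5b_s ε b a * om (ee (I a)) (ee (I b))) else 0) := by
      intro c
      rw [C5b_sumr]
      simp only [C5b_om haux I hI a b c _ hab, mul_add, Finset.sum_add_distrib]
      congr 1
      · by_cases hc : c = a
        · simp only [hc, if_true, mul_ite, mul_zero, Finset.sum_ite_eq', Finset.mem_univ, h2,
            one_mul]
        · simp only [hc, if_false, mul_zero, Finset.sum_const_zero]
      · by_cases hc : c = b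
        · simp only [hc, if_true, mul_ite, mul_zero, Finset.sum_ite_eq', Finset.mem_univ,
            mul_neg]
        · simp only [hc, if_false, mul_zero, Finset.sum_const_zero]
    simp only [h4, mul_add, Finset.sum_add_distrib, mul_ite, mul_zero, Finset.sum_ite_eq',
      Finset.mem_univ, if_true, h1, one_mul]
    linear_combination (-om (ee (I a)) (ee (I b))) * h3
  rcases lt_trichotomy a b with h | h | h
  · exact key a b h
  · subst h
    have h1 := C5b_skew (C5b_Y p q I ε a) (C5b_Y p q I ε a)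
    have h2 : (2 : ℂ) * om (C5b_Y p q I ε a) (C5b_Y p q I ε a) = 0 := by
      linear_combination h1
    exact (mul_eq_zero.1 h2).resolve_left (by norm_num)
  · exact C5b_swap (key b a h)

private theorem C5b_iso {r n j : ℕ} {Z : Set ℕ} (hZ : ∀ z ∈ Z, 2 * n ≤ z)
    (hZi : ∀ z ∈ Z, ∀ z' ∈ Z, om (ee z) (ee z') = 0) {u : Fin r → V} {p q : ℕ → ℕ → V}
    (haux : Aux r n Z u p q) (I : Fin j → ℕ) (hI : ∀ t, I t < 2 * n) (ε : Sym2 (Fin j) → ℤˣ) :
    ∀ v ∈ Set.range u ∪ (fun z => (ee z : V)) '' Z ∪ Set.range (C5b_Y p q I ε),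
      ∀ w ∈ Set.range u ∪ (fun z => (ee z : V)) '' Z ∪ Set.range (C5b_Y p q I ε),
        om v w = 0 := by
  have huY : ∀ i a, om (u i) (C5b_Y p q I ε a) = 0 := by
    intro i a
    unfold C5b_Y
    rw [C5b_sumr]
    refine Finset.sum_eq_zero fun b _ => ?_
    rw [C5b_cases I (u i) (fun t => haux.uT i _ (Or.inl (hI t))) (haux.up i) (haux.uq i),
      mul_zero]
  have hzY : ∀ z ∈ Z, ∀ a, om (ee z) (C5b_Y p q I ε a) = 0 := by
    intro z hz a
    unfold C5b_Y
    rw [C5b_sumr]
    refine Finset.sum_eq_zero fun b _ => ?_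
    rw [C5b_cases I (ee z) (fun t => C5b_swap (C5b_ee n _ z (hI t) (hZ z hz)))
      (fun a b => C5b_swap (haux.pT a b z (Or.inr hz)))
      (fun a b => C5b_swap (haux.qT a b z (Or.inr hz))), mul_zero]
  rintro v ((⟨i, rfl⟩ | ⟨z, hz, rfl⟩) | ⟨a, rfl⟩) w ((⟨i', rfl⟩ | ⟨z', hz', rfl⟩) | ⟨a', rfl⟩)
  · exact haux.uu _ _
  · exact haux.uT _ _ (Or.inr hz')
  · exact huY _ _
  · exact C5b_swap (haux.uT _ _ (Or.inr hz))
  · exact hZi _ hz _ hz'
  · exact hzY _ hz _
  · exact C5b_swap (huY _ _)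
  · exact C5b_swap (hzY _ hz' _)
  · exact C5b_YY haux I hI ε _ _

private theorem C5b_upd {j m : ℕ} {W : Type} [AddCommGroup W] [Module ℂ W]
    (H : (Fin j → Fin m) → W) (t : Fin j) :
    ∑ I : Fin j → Fin m, ∑ i : Fin m, H (Function.update I t i) = (m : ℂ) • ∑ I, H I := by
  have hinv : Function.Involutive (fun x : (Fin j → Fin m) × Fin m =>
      ((Function.update x.1 t x.2, x.1 t) : (Fin j → Fin m) × Fin m)) := by
    rintro ⟨I, i⟩
    simp
  have h1 : ∑ x : (Fin j → Fin m) × Fin m, H (Function.update x.1 t x.2) =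
      ∑ x : (Fin j → Fin m) × Fin m, H x.1 :=
    Fintype.sum_equiv hinv.toPerm _ _ fun x => by rw [Function.Involutive.coe_toPerm]
  rw [Fintype.sum_prod_type, Fintype.sum_prod_type] at h1
  rw [h1, Finset.smul_sum]
  refine Finset.sum_congr rfl fun I _ => ?_
  change ∑ _y : Fin m, H I = _
  rw [Finset.sum_const, Finset.card_univ, Fintype.card_fin, Nat.cast_smul_eq_nsmul]

private theorem C5b_upd2 {j m : ℕ} {W : Type} [AddCommGroup W] [Module ℂ W]
    (H : (Fin j → Fin m) → W) (t t' : Fin j)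
    (h : ∀ I : Fin j → Fin m,
      ∑ i, ∑ i', H (Function.update (Function.update I t i) t' i') = 0) :
    ∑ I, H I = 0 := by
  rcases Nat.eq_zero_or_pos m with hm | hm
  · subst hm
    refine Finset.sum_eq_zero fun I _ => ?_
    exact (I t).elim0
  · have h1 := C5b_upd (fun I : Fin j → Fin m => ∑ i', H (Function.update I t' i')) t
    have h2 := C5b_upd H t'
    rw [Finset.sum_eq_zero fun I _ => h I, h2, smul_smul] at h1
    have h3 : ((m : ℂ) * (m : ℂ)) ≠ 0 := by
      have : (m : ℂ) ≠ 0 := Nat.cast_ne_zero.2 (by omega)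
      exact mul_ne_zero this this
    exact (smul_eq_zero.1 h1.symm).resolve_left h3

/-- the summands -/
private noncomputable def C5b_g (R : Type) [CommRing R] [Algebra ℂ R] [GLRing R] {r j : ℕ}
    (u : Fin r → V) (p q : ℕ → ℕ → V) (ρ : Fin j → Fin j)
    (I : Fin j → ℕ) (a : Fin j) : ℕ → VR R := Pi.single (I a) (til u (C5b_y p q I a (ρ a)))

private noncomputable def C5b_L (R : Type) [CommRing R] [Algebra ℂ R] [GLRing R] {r : ℕ}
    (u : Fin r → V) (i : ℕ) : V →ₗ[ℂ] (ℕ → VR R) :=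
  (LinearMap.single ℂ (fun _ : ℕ => VR R) i).comp
    ({ toFun := til u
       map_add' := til_add u
       map_smul' := til_smul u } : V →ₗ[ℂ] VR R)

private theorem C5b_L_apply {r : ℕ} (u : Fin r → V) (i : ℕ) (v : V) :
    C5b_L R u i v = Pi.single i (til u v) := rfl

private theorem C5b_g_upd {r j : ℕ} (u : Fin r → V) (p q : ℕ → ℕ → V) (ρ : Fin j → Fin j)
    (hρ : ∀ a, ρ (ρ a) = a) (t : Fin j) (ht : t < ρ t) {m : ℕ} (I : Fin j → Fin m)
    (i i' : Fin m) :
    C5b_g R u p q ρ (fun a => (Function.update (Function.update I t i) (ρ t) i' a : ℕ)) =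
      Function.update (Function.update (C5b_g R u p q ρ (fun a => (I a : ℕ))) t
        (Pi.single (i : ℕ) (til u (p t (ρ t))))) (ρ t)
        (algebraMap ℂ R (-om (ee i) (ee i')) • Pi.single (i' : ℕ) (til u (q t (ρ t)))) := by
  have htt : t ≠ ρ t := ne_of_lt ht
  funext a
  by_cases h1 : a = ρ t
  · subst h1
    rw [Function.update_self]
    unfold C5b_g C5b_y
    rw [hρ, if_neg htt, if_neg (not_lt.2 ht.le)]
    simp only [Function.update_self, Function.update_of_ne htt]
    rw [algebraMap_smul, ← C5b_L_apply, ← C5b_L_apply, map_smul]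
  · rw [Function.update_of_ne h1]
    by_cases h2 : a = t
    · subst h2
      rw [Function.update_self]
      unfold C5b_g C5b_y
      rw [if_neg (Ne.symm htt), if_pos ht]
      simp only [Function.update_self, Function.update_of_ne htt]
    · rw [Function.update_of_ne h2]
      have h3 : ρ a ≠ ρ t := fun h => h2 (by rw [← hρ a, h, hρ])
      have h4 : ρ a ≠ t := fun h => h1 (by rw [← hρ a, h])
      unfold C5b_g C5b_y
      simp only [Function.update_of_ne h1, Function.update_of_ne h2, Function.update_of_ne h3,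
        Function.update_of_ne h4]

omit [Algebra ℂ R] [GLRing R] in
private theorem C5b_dir {j n : ℕ} (y : ℕ → VR R) :
    (fun _ : Fin j => fun i : ℕ => if i < 2 * n then y i else 0) =
      fun _ : Fin j => ∑ i : Fin (2 * n), (Pi.single (i : ℕ) (y i) : ℕ → VR R) := by
  funext _ k
  rw [Finset.sum_apply]
  have h1 := Fin.sum_univ_eq_sum_range (fun i => (Pi.single i (y i) : ℕ → VR R) k) (2 * n)
  rw [h1]
  simp only [Pi.single_apply]
  rw [Finset.sum_ite_eq]
  simp only [Finset.mem_range]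

/-- the averaged statement: `E • ∑_I DDm(e~_I) ∈ nn M` -/
theorem DD_sum_mem {r : ℕ} (S : Finset ℕ) (M : Submodule R (U R)) (hMS : M ≤ MS R S)
    (f : U R) (hf : f ∈ M) (htr : TrZ S f) (n : ℕ) (Z : Set ℕ) (hZ : ∀ z ∈ Z, 2 * n ≤ z)
    (hZi : ∀ z ∈ Z, ∀ z' ∈ Z, om (ee z) (ee z') = 0)
    (hfT : f ∈ LT R (Set.Iio (2 * n) ∪ Z)) (u : Fin r → V) (p q : ℕ → ℕ → V)
    (haux : Aux r n Z u p q) (E : R) (j : ℕ)
    (hET : ∀ i < 2 * n, (til u (ee i) : VR R) ∈ Rad E)
    (hEp : ∀ a < j, ∀ b < j, (til u (p a b) : VR R) ∈ Rad E)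
    (hEq : ∀ a < j, ∀ b < j, (til u (q a b) : VR R) ∈ Rad E) (ψ' : ℕ → VR R)
    (hψT : ∀ i < 2 * n, ψ' i = pit u (ee i)) (hψZ : ∀ z ∈ Z, ψ' z = cst (ee z)) :
    E • DDm S (cfs ψ' f) ψ' (fun _ : Fin j => fun i => if i < 2 * n then til u (ee i) else 0) ∈
      nn M := by
  classical
  have hF : cfs ψ' f ∈ MS R S := cfs_MS ψ' S f (hMS hf)
  obtain ⟨Φ, hΦ⟩ := exists_DDm S (cfs ψ' f) hF ψ' j
  -- the vectors lie in the radical
  have hy : ∀ (I : Fin j → ℕ), (∀ t, I t < 2 * n) → ∀ a b : Fin j,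
      (til u (C5b_y p q I a b) : VR R) ∈ Rad E := by
    intro I hI a b
    unfold C5b_y
    split_ifs
    · exact hET _ (hI a)
    · exact hEp _ a.2 _ b.2
    · rw [til_smul, ← algebraMap_smul R]
      exact Submodule.smul_mem _ _ (hEq _ b.2 _ a.2)
  have hY : ∀ (I : Fin j → ℕ), (∀ t, I t < 2 * n) → ∀ (ε : Sym2 (Fin j) → ℤˣ) (a : Fin j),
      (til u (C5b_Y p q I ε a) : VR R) ∈ Rad E := by
    intro I hI ε a
    have h1 : (til u (C5b_Y p q I ε a) : VR R) =
        ∑ b, C5b_s ε a b • til u (C5b_y p q I a b) := by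
      have h2 := map_sum ({ toFun := til u
                            map_add' := til_add u
                            map_smul' := til_smul u } : V →ₗ[ℂ] VR R)
        (fun b => C5b_s ε a b • C5b_y p q I a b) Finset.univ
      refine h2.trans (Finset.sum_congr rfl fun b _ => ?_)
      exact til_smul u _ _
    rw [h1]
    refine Submodule.sum_mem _ fun b _ => ?_
    rw [← algebraMap_smul R]
    exact Submodule.smul_mem _ _ (hy I hI a b)
  -- the averaged statement for a fixed `I`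
  have hI1 : ∀ I : Fin j → Fin (2 * n),
      E • ∑ ρ ∈ (Finset.univ : Finset (Fin j → Fin j)).filter (fun ρ => ∀ a, ρ (ρ a) = a),
        Φ (C5b_g R u p q ρ (fun a => (I a : ℕ))) ∈ nn M := by
    intro I
    have hI : ∀ t, (I t : ℕ) < 2 * n := fun t => (I t).2
    refine avg_mem (K := R) Φ (fun a b => Pi.single (I a : ℕ)
      (til u (C5b_y p q (fun a => (I a : ℕ)) a b))) ((nn M).restrictScalars ℂ) E ?_
    intro ε
    have h1 := DD_iso_mem S M hMS f hf n Z hZ hfT u E (fun a => (I a : ℕ)) hI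
      (C5b_Y p q (fun a => (I a : ℕ)) ε) (C5b_iso hZ hZi haux (fun a => (I a : ℕ)) hI ε)
      (hY _ hI ε) ψ' hψT hψZ
    rw [hΦ] at h1
    have h2 : (fun t => Pi.single (I t : ℕ) (til u (C5b_Y p q (fun a => (I a : ℕ)) ε t)) :
        Fin j → ℕ → VR R) = fun a => ∑ b, (if b = a then (1 : ℂ) else ((ε s(a, b) : ℤ) : ℂ)) •
          (Pi.single (I a : ℕ) (til u (C5b_y p q (fun a => (I a : ℕ)) a b)) : ℕ → VR R) := by
      funext a
      rw [← C5b_L_apply]
      unfold C5b_Y
      rw [map_sum]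
      refine Finset.sum_congr rfl fun b _ => ?_
      rw [map_smul]
      rfl
    rw [h2] at h1
    exact h1
  -- sum over `I`
  have hsum := Submodule.sum_mem (nn M) (t := Finset.univ) fun I _ => hI1 I
  rw [← Finset.smul_sum, Finset.sum_comm] at hsum
  -- only `ρ = id` survives
  have hT : ∀ a ∈ S, ∀ b ∈ S, a ≠ b → ∑ i ∈ Finset.range (2 * n), ∑ k ∈ Finset.range (2 * n),
      om (ee i) (ee k) • pderiv (a, i) (pderiv (b, k) (cfs ψ' f)) = 0 := by
    refine contr_cfs S f (hMS hf) htr (Finset.range (2 * n)) Z ?_ ?_ ψ'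
    · rw [Finset.coe_range]
      exact hfT
    · rintro i (hi | hi) z hz _
      · exact C5b_ee n i z (by simpa using hi) (hZ z hz)
      · exact hZi i hi z hz
  have hvan : ∀ ρ ∈ (Finset.univ : Finset (Fin j → Fin j)).filter (fun ρ => ∀ a, ρ (ρ a) = a),
      ρ ≠ id → ∑ I : Fin j → Fin (2 * n), Φ (C5b_g R u p q ρ (fun a => (I a : ℕ))) = 0 := by
    intro ρ hρ hne
    have hρ' : ∀ a, ρ (ρ a) = a := (Finset.mem_filter.1 hρ).2
    obtain ⟨t, ht⟩ : ∃ t, t < ρ t := by
      by_contra hcon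
      push Not at hcon
      apply hne
      funext t
      have h1 := hcon t
      have h2 := hcon (ρ t)
      rw [hρ'] at h2
      exact le_antisymm h1 h2
    refine C5b_upd2 (fun I => Φ (C5b_g R u p q ρ (fun a => (I a : ℕ)))) t (ρ t) fun I => ?_
    have h1 := contraction S (cfs ψ' f) hF (Finset.range (2 * n)) hT ψ'
      (C5b_g R u p q ρ (fun a => (I a : ℕ))) t (ρ t) (ne_of_lt ht) (til u (p t (ρ t)))
      (til u (q t (ρ t)))
    have h2 : ∀ i i' : Fin (2 * n),
        Φ (C5b_g R u p q ρ (fun a => (Function.update (Function.update I t i) (ρ t) i' a : ℕ))) =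
        -(om (ee i) (ee i') • DDm S (cfs ψ' f) ψ' (Function.update (Function.update
          (C5b_g R u p q ρ (fun a => (I a : ℕ))) t (Pi.single (i : ℕ) (til u (p t (ρ t))))) (ρ t)
          (Pi.single (i' : ℕ) (til u (q t (ρ t)))))) := by
      intro i i'
      rw [C5b_g_upd u p q ρ hρ' t ht I i i', MultilinearMap.map_update_smul, algebraMap_smul,
        neg_smul, hΦ]
    simp only [h2]
    rw [Finset.sum_range] at h1
    simp only [Finset.sum_range, Finset.sum_neg_distrib] at h1 ⊢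
    rw [h1, neg_zero]
  rw [Finset.sum_eq_single_of_mem (id : Fin j → Fin j)
    (Finset.mem_filter.2 ⟨Finset.mem_univ _, fun a => rfl⟩) hvan] at hsum
  rw [hΦ, C5b_dir, MultilinearMap.map_sum]
  convert hsum using 4
  funext a
  unfold C5b_g C5b_y
  rw [id, if_pos rfl]

end MP50e386N
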