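import Mathlib
import Pool.Agent.Lib.MP_50e386_al.N.CDefs
import Pool.Agent.Lib.MP_50e386_al.N.T1
import Pool.Agent.Lib.MP_50e386_al.N.T2
import Pool.Agent.Lib.MP_50e386_al.N.T3
import Pool.Agent.Lib.MP_50e386_al.N.T6
import Pool.Agent.Lib.MP_50e386_al.N.T8
import Pool.Agent.Lib.MP_50e386_al.N.TR
import Pool.Agent.Lib.MP_50e386_al.N.Q1
import Pool.Agent.Lib.MP_50e386_al.N.C1
import Pool.Agent.Lib.MP_50e386_al.N.C2
import Pool.Agent.Lib.MP_50e386_al.N.C3
import Pool.Agent.Lib.MP_50e386_al.N.C4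
import Pool.Agent.Lib.MP_50e386_al.N.C5a
import Pool.Agent.Lib.MP_50e386_al.N.C5b

/-! Claim 0 (paper 5.3). -/

namespace MP50e386N

open MvPolynomial Pool.Agent.Lib.MP50e386

variable {R : Type} [CommRing R] [Algebra ℂ R] [GLRing R]

/-- homogeneity of degree `d` in the letters `< 2n`, scalars in `R` -/
private def ST (n d : ℕ) (f : U R) : Prop :=
  ∀ a : R, sbU (fun i => if i < 2 * n then a • (cst (ee i) : VR R) else cst (ee i)) f = a ^ d • f

omit [GLRing R] in
private theorem c5_cst_ee (i : ℕ) : (cst (ee i) : VR R) = Finsupp.single i 1 := by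
  unfold cst
  rw [Finsupp.mapRange.linearMap_apply, Finsupp.mapRange_single, Algebra.linearMap_apply, map_one]

private theorem c5_xf (i j : ℕ) : (xf (cst (ee i)) (cst (ee j)) : R) = GLRing.x i j := by
  rw [c5_cst_ee, c5_cst_ee, xf_single, one_mul, one_mul]

omit [GLRing R] in
private theorem c5_zf (a i : ℕ) : (zf a (cst (ee i)) : U R) = X (a, i) := by
  rw [c5_cst_ee]
  unfold zf
  rw [Finsupp.linearCombination_single, one_smul]

private theorem ST.zero (n d : ℕ) : ST n d (0 : U R) := by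
  intro a
  rw [map_zero, smul_zero]

private theorem ST.add {n d : ℕ} {f g : U R} (hf : ST n d f) (hg : ST n d g) :
    ST n d (f + g) := by
  intro a
  rw [map_add, hf a, hg a, smul_add]

private theorem ST.mul {n d e : ℕ} {f g : U R} (hf : ST n d f) (hg : ST n e g) :
    ST n (d + e) (f * g) := by
  intro a
  rw [map_mul, hf a, hg a, smul_mul_smul_comm, pow_add]

private theorem ST.sum {n : ℕ} {ι : Type} (s : Finset ι) (d : ℕ) (f : ι → U R)
    (h : ∀ i ∈ s, ST n d (f i)) : ST n d (∑ i ∈ s, f i) := by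
  classical
  induction s using Finset.induction_on with
  | empty => rw [Finset.sum_empty]; exact ST.zero n d
  | insert a s ha ih =>
    rw [Finset.sum_insert ha]
    exact (h a (Finset.mem_insert_self _ _)).add
      (ih fun i hi => h i (Finset.mem_insert_of_mem hi))

private theorem ST_C (n : ℕ) (c : ℂ) : ST n 0 (C (algebraMap ℂ R c) : U R) := by
  intro a
  rw [sbU_C, AlgHom.commutes, pow_zero, one_smul]

private theorem ST_x (n i j : ℕ) :
    ST n ((if i < 2 * n then 1 else 0) + (if j < 2 * n then 1 else 0))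
      (C (GLRing.x i j) : U R) := by
  intro a
  rw [sbU_C, sb_x', smul_eq_C_mul, ← map_mul]
  congr 1
  split_ifs with h1 h2 h2
  · rw [LinearMap.map_smul, LinearMap.map_smul, LinearMap.smul_apply, c5_xf, smul_eq_mul,
      smul_eq_mul]
    ring
  · rw [LinearMap.map_smul, LinearMap.smul_apply, c5_xf, smul_eq_mul]
    ring
  · rw [LinearMap.map_smul, c5_xf, smul_eq_mul]
    ring
  · rw [c5_xf]
    ring

private theorem ST_X (n b i : ℕ) : ST n (if i < 2 * n then 1 else 0) (X (b, i) : U R) := by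
  intro a
  rw [sbU_X]
  split_ifs with h1
  · rw [map_smul, c5_zf, pow_one]
  · rw [c5_zf, pow_zero, one_smul]

private theorem ST.decomp_pad {N n : ℕ} (m : ℕ) (hnm : n ≤ m) {f : U R} {g : ℕ → U R}
    (h : f = ∑ d ∈ Finset.range n, g d) (hg : ∀ d, ST N d (g d)) :
    ∃ g' : ℕ → U R, f = ∑ d ∈ Finset.range m, g' d ∧ ∀ d, ST N d (g' d) := by
  refine ⟨fun d => if d < n then g d else 0, ?_, ?_⟩
  · rw [h, ← Finset.sum_subset (Finset.range_mono hnm)]
    · refine Finset.sum_congr rfl fun d hd => ?_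
      rw [if_pos (Finset.mem_range.1 hd)]
    · intro d _ hd
      rw [if_neg (fun h => hd (Finset.mem_range.2 h))]
  · intro d
    dsimp only
    split_ifs
    · exact hg d
    · exact ST.zero N d

private theorem exists_ST_decomp (N : ℕ) (f : U R) :
    ∃ (n : ℕ) (g : ℕ → U R), f = ∑ d ∈ Finset.range n, g d ∧ ∀ d, ST N d (g d) := by
  have hf : f ∈ LT R Set.univ := by rw [LT_univ]; trivial
  have single : ∀ (e : ℕ) (u : U R), ST N e u →
      ∃ (n : ℕ) (g : ℕ → U R), u = ∑ d ∈ Finset.range n, g d ∧ ∀ d, ST N d (g d) := by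
    intro e u hu
    refine ⟨e + 1, fun d => if d = e then u else 0, ?_, ?_⟩
    · rw [Finset.sum_ite_eq' (Finset.range (e + 1)) e (fun _ => u),
        if_pos (Finset.mem_range.2 (Nat.lt_succ_self e))]
    · intro d
      dsimp only
      split_ifs with h
      · rw [h]; exact hu
      · exact ST.zero N d
  unfold LT at hf
  induction hf using Algebra.adjoin_induction with
  | mem u hu =>
    rcases hu with ⟨i, _, j, _, rfl⟩ | ⟨a, i, _, rfl⟩
    · exact single _ _ (ST_x N i j)
    · exact single _ _ (ST_X N a i)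
  | algebraMap c =>
    refine single 0 _ ?_
    have := ST_C (R := R) N c
    exact this
  | add u v _ _ hu hv =>
    obtain ⟨n, g, hg, hg'⟩ := hu
    obtain ⟨m, k, hk, hk'⟩ := hv
    obtain ⟨g1, h1, h1'⟩ := ST.decomp_pad (max n m) (le_max_left _ _) hg hg'
    obtain ⟨k1, h2, h2'⟩ := ST.decomp_pad (max n m) (le_max_right _ _) hk hk'
    refine ⟨max n m, fun d => g1 d + k1 d, ?_, fun d => (h1' d).add (h2' d)⟩
    rw [Finset.sum_add_distrib, ← h1, ← h2]
  | mul u v _ _ hu hv =>
    obtain ⟨n, g, hg, hg'⟩ := hu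
    obtain ⟨m, k, hk, hk'⟩ := hv
    refine ⟨n + m, fun d => ∑ p ∈ (Finset.range n ×ˢ Finset.range m).filter
      (fun p => p.1 + p.2 = d), g p.1 * k p.2, ?_, ?_⟩
    · rw [Finset.sum_fiberwise_of_maps_to (s := Finset.range n ×ˢ Finset.range m)
        (t := Finset.range (n + m)) (g := fun p => p.1 + p.2) ?_ (fun p => g p.1 * k p.2),
        hg, hk, Finset.sum_mul_sum, Finset.sum_product]
      intro p hp
      rw [Finset.mem_product, Finset.mem_range, Finset.mem_range] at hp
      rw [Finset.mem_range]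
      omega
    · intro d
      refine ST.sum _ _ _ fun p hp => ?_
      rw [Finset.mem_filter] at hp
      rw [← hp.2]
      exact (hg' _).mul (hk' _)

private theorem ST_of_deg {n D : ℕ} {f : U R} (hdeg : ∀ c : ℂ, sbC (scT n c) f = c ^ D • f) :
    ST n D f := by
  obtain ⟨m0, g0, h0, h0'⟩ := exists_ST_decomp n f
  obtain ⟨g, h, h'⟩ := ST.decomp_pad (max m0 (D + 1)) (le_max_left _ _) h0 h0'
  set m := max m0 (D + 1) with hm
  have hD : D < m := lt_of_lt_of_le (Nat.lt_succ_self D) (le_max_right _ _)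
  have hsc : ∀ c : ℂ, sbC (scT n c) f = ∑ d ∈ Finset.range m, c ^ d • g d := by
    intro c
    conv_lhs => rw [h]
    rw [map_sum]
    refine Finset.sum_congr rfl fun d _ => ?_
    have h1 := h' d (algebraMap ℂ R c)
    unfold sbC
    have e : (fun i => (cst (scT n c i) : VR R)) =
        fun i => if i < 2 * n then algebraMap ℂ R c • (cst (ee i) : VR R) else cst (ee i) := by
      funext i
      unfold scT
      split_ifs with hi
      · rw [map_smul]
        exact (algebraMap_smul R c _).symm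
      · rfl
    rw [e, h1, ← map_pow]
    exact algebraMap_smul R (c ^ d) (g d)
  have key := vand1 (⊥ : Submodule ℂ (U R)) m (fun e => g e - if e = D then f else 0) (by
    have : {t : ℂ | ∑ k ∈ Finset.range m, t ^ k • (g k - if k = D then f else 0) ∈
        (⊥ : Submodule ℂ (U R))} = Set.univ := by
      rw [Set.eq_univ_iff_forall]
      intro t
      show ∑ k ∈ Finset.range m, t ^ k • (g k - if k = D then f else 0) ∈
        (⊥ : Submodule ℂ (U R))
      rw [Submodule.mem_bot]
      simp only [smul_sub, Finset.sum_sub_distrib]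
      rw [← hsc t, hdeg t, sub_eq_zero]
      rw [Finset.sum_eq_single D]
      · rw [if_pos rfl]
      · intro b _ hb
        rw [if_neg hb, smul_zero]
      · intro hb
        exact absurd (Finset.mem_range.2 hD) hb
    rw [this]
    exact Set.infinite_univ) D hD
  rw [Submodule.mem_bot, if_pos rfl, sub_eq_zero] at key
  rw [← key]
  exact h' D

/-- claim 0 -/
theorem claim0 {r s k : ℕ} (h1 : HP1 R r s) (S : Finset ℕ) (M : Submodule R (U R)) (hM : GLS M)
    (hMS : M ≤ MS R S) (f : U R) (hf : f ∈ M) (htr : TrZ S f) (n D : ℕ) (Z : Set ℕ)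
    (hZ : ∀ z ∈ Z, 2 * n ≤ z) (hZi : ∀ z ∈ Z, ∀ z' ∈ Z, om (ee z) (ee z') = 0)
    (hfT : f ∈ LT R (Set.Iio (2 * n) ∪ Z)) (hdeg : ∀ c : ℂ, sbC (scT n c) f = c ^ D • f)
    (u : Fin r → V) (p q : ℕ → ℕ → V) (haux : Aux r n Z u p q) (c : Fin k → V)
    (hcT : ∀ i < 2 * n, ee i ∈ Submodule.span ℂ (Set.range u ∪ Set.range c))
    (hcp : ∀ a < S.card, ∀ b < S.card, p a b ∈ Submodule.span ℂ (Set.range u ∪ Set.range c))
    (hcq : ∀ a < S.card, ∀ b < S.card, q a b ∈ Submodule.span ℂ (Set.range u ∪ Set.range c)) :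
    ((Ek s u c : R) * Dl u ^ D) • f ∈ nn M := by
  set E : R := Ek s u c with hE
  set ψ' : ℕ → VR R := fun i => if i < 2 * n then pit u (ee i) else cst (ee i) with hψ'
  set φ : ℕ → VR R := fun i => if i < 2 * n then til u (ee i) else 0 with hφ
  set Ψ : ℕ → VR R := fun i => if i < 2 * n then (Dl u : R) • (cst (ee i) : VR R)
    else cst (ee i) with hΨ
  have hsum : ∀ i, ψ' i + φ i = Ψ i := by
    intro i
    rw [hψ', hφ, hΨ]
    dsimp only
    split_ifs with hi
    · unfold til
      rw [add_sub_cancel]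
    · rw [add_zero]
  have hrad : ∀ i < 2 * n, (til u (ee i) : VR R) ∈ Rad E := fun i hi =>
    til_mem_Rad h1 u c (ee i) (hcT i hi)
  have hψT : ∀ i < 2 * n, ψ' i = pit u (ee i) := fun i hi => by
    rw [hψ']
    exact if_pos hi
  have hψZ : ∀ z ∈ Z, ψ' z = cst (ee z) := fun z hz => by
    rw [hψ']
    exact if_neg (by have := hZ z hz; omega)
  -- the Taylor expansion
  have hmem : E • mev (fun _ i => ψ' i + φ i) (cfs ψ' f) ∈ nn M := by
    rw [taylor S (cfs ψ' f) (cfs_MS ψ' S f (hMS hf)) ψ' φ, Finset.smul_sum]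
    refine Submodule.sum_mem _ fun j hj => ?_
    have hj' : j ≤ S.card := Nat.lt_succ_iff.1 (Finset.mem_range.1 hj)
    have h2 := DD_sum_mem S M hMS f hf htr n Z hZ hZi hfT u p q haux E j hrad
      (fun a ha b hb => til_mem_Rad h1 u c _ (hcp a (by omega) b (by omega)))
      (fun a ha b hb => til_mem_Rad h1 u c _ (hcq a (by omega) b (by omega))) ψ' hψT hψZ
    have h3 := (nn M).smul_mem (algebraMap ℂ R ((j.factorial : ℂ)⁻¹)) h2
    rw [smul_comm, algebraMap_smul] at h3
    exact h3
  -- the substitution `Ψ`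
  have h4 := smul_sbU_eq E (Set.Iio (2 * n) ∪ Z) Ψ ψ' (by
    intro i _
    rw [← hsum i, add_sub_cancel_left, hφ]
    dsimp only
    split_ifs with hi
    · exact hrad i hi
    · exact Submodule.zero_mem _) f hfT
  have h5 : (fun _ : ℕ => Ψ) = fun (_ : ℕ) i => ψ' i + φ i := by
    funext _ i
    exact (hsum i).symm
  rw [h5] at h4
  rw [mul_smul, ← ST_of_deg hdeg (Dl u : R)]
  show E • sbU Ψ f ∈ nn M
  rw [h4]
  exact hmem

end MP50e386N
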