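import Mathlib
import Pool.Agent.Lib.MP_50e386_al.N.CDefs
import Pool.Agent.Lib.MP_50e386_al.N.T1
import Pool.Agent.Lib.MP_50e386_al.N.T2
import Pool.Agent.Lib.MP_50e386_al.N.T3
import Pool.Agent.Lib.MP_50e386_al.N.T4
import Pool.Agent.Lib.MP_50e386_al.N.T6
import Pool.Agent.Lib.MP_50e386_al.N.TR

/-! `T`-degrees. -/

namespace MP50e386N

open MvPolynomial Pool.Agent.Lib.MP50e386

variable {R : Type} [CommRing R] [Algebra ℂ R] [GLRing R]

/-- the `T`-degree of a multidegree -/
private noncomputable def c6deg (n : ℕ) (κ : ℕ →₀ ℕ) : ℕ :=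
  κ.sum fun i k => if i < 2 * n then k else 0

private theorem c6_scT (n : ℕ) (c : ℂ) :
    scT n c = fun i => (if i < 2 * n then c else 1) • ee i := by
  funext i
  unfold scT
  split_ifs
  · rfl
  · rw [one_smul]

private theorem c6_prod (n : ℕ) (c : ℂ) (κ : ℕ →₀ ℕ) :
    (κ.prod fun i k => (if i < 2 * n then c else 1 : ℂ) ^ k) = c ^ c6deg n κ := by
  unfold c6deg Finsupp.prod Finsupp.sum
  rw [← Finset.prod_pow_eq_pow_sum]
  refine Finset.prod_congr rfl fun i _ => ?_
  beta_reduce
  split_ifs
  · rfl
  · rw [one_pow, pow_zero]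

private theorem c6_MW {n : ℕ} {κ : ℕ →₀ ℕ} {f : U R} (hf : MW κ f) (c : ℂ) :
    sbC (scT n c) f = c ^ c6deg n κ • f := by
  rw [c6_scT, hf, c6_prod]

open Classical in
/-- collecting the components of a decomposition by the `T`-degree -/
private theorem c6_collect (n D : ℕ) (s : Finset (ℕ →₀ ℕ)) (g : (ℕ →₀ ℕ) → U R)
    (hg : ∀ κ ∈ s, MW κ (g κ)) (hD : ∀ κ ∈ s, c6deg n κ ≤ D) :
    TD n D (∑ κ ∈ s, g κ) := by
  refine ⟨fun d => ∑ κ ∈ s.filter (fun κ => c6deg n κ = d), g κ, ?_, ?_⟩
  · rw [Finset.sum_fiberwise_of_maps_to]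
    intro κ hκ
    rw [Finset.mem_range]
    exact Nat.lt_succ_of_le (hD κ hκ)
  · intro d c
    rw [map_sum, Finset.smul_sum]
    refine Finset.sum_congr rfl fun κ hκ => ?_
    rw [Finset.mem_filter] at hκ
    rw [c6_MW (hg κ hκ.1), hκ.2]

theorem exists_TD (n : ℕ) (f : U R) : ∃ D, TD n D f := by
  obtain ⟨N, hN⟩ := exists_LT f
  obtain ⟨s, g, hf, hg, -⟩ := exists_MW_decomp hN
  refine ⟨s.sup (c6deg n), ?_⟩
  rw [hf]
  exact c6_collect n _ s g (fun κ hκ => (hg κ hκ).1) (fun κ hκ => Finset.le_sup hκ)

theorem TD_mono {n D D' : ℕ} (h : D ≤ D') {f : U R} (hf : TD n D f) : TD n D' f := by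
  obtain ⟨g, hfg, hg⟩ := hf
  refine ⟨fun d => if d < D + 1 then g d else 0, ?_, ?_⟩
  · rw [hfg]
    have h1 : Finset.range (D + 1) ⊆ Finset.range (D' + 1) :=
      Finset.range_subset_range.2 (by omega)
    rw [← Finset.sum_subset h1]
    · refine Finset.sum_congr rfl fun d hd => ?_
      rw [if_pos (Finset.mem_range.1 hd)]
    · intro d _ hd
      rw [if_neg (fun h => hd (Finset.mem_range.2 h))]
  · intro d c
    beta_reduce
    split_ifs
    · exact hg d c
    · rw [map_zero, smul_zero]

private theorem c6_deg_le (n : ℕ) (κ : ℕ →₀ ℕ) : c6deg n κ ≤ κ.degree := by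
  unfold c6deg Finsupp.sum
  rw [Finsupp.degree_apply]
  refine Finset.sum_le_sum fun i _ => ?_
  beta_reduce
  split_ifs
  · exact le_rfl
  · exact Nat.zero_le _

private theorem c6_HW_of_MW {κ : ℕ →₀ ℕ} {f : U R} (hf : MW κ f) : HW κ.degree f := by
  intro c
  have h := hf (fun _ => c)
  rw [h]
  congr 1
  unfold Finsupp.prod
  rw [Finset.prod_pow_eq_pow_sum, Finsupp.degree_apply]

open Classical in
theorem TD_of_HW {n D : ℕ} {f : U R} (hf : HW D f) : TD n D f := by
  obtain ⟨N, hN⟩ := exists_LT f
  obtain ⟨s, g, hfs, hg, -⟩ := exists_MW_decomp hN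
  set G : ℕ → U R := fun d => ∑ κ ∈ s.filter (fun κ => κ.degree = d), g κ with hG
  have hGHW : ∀ d, HW d (G d) := by
    intro d c
    rw [hG]
    beta_reduce
    rw [map_sum, Finset.smul_sum]
    refine Finset.sum_congr rfl fun κ hκ => ?_
    rw [Finset.mem_filter] at hκ
    have := c6_HW_of_MW (hg κ hκ.1).1 c
    rw [hκ.2] at this
    exact this
  set M : ℕ := max (D + 1) ((s.sup fun κ => κ.degree) + 1) with hM
  have hsumG : f = ∑ d ∈ Finset.range M, G d := by
    rw [hG]
    conv_lhs => rw [hfs]
    rw [Finset.sum_fiberwise_of_maps_to]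
    intro κ hκ
    rw [Finset.mem_range]
    have h1 : κ.degree ≤ s.sup fun κ => κ.degree :=
      Finset.le_sup (f := fun κ : ℕ →₀ ℕ => κ.degree) hκ
    omega
  have hDM : D < M := by omega
  have hz : G D - f = 0 := by
    have h1 := HW_comp_mem (⊥ : Submodule ℂ (U R)) (by
        intro t _ f hf
        rw [Submodule.mem_bot] at hf ⊢
        rw [hf, map_zero]) M (fun d => if d = D then G d - f else G d) (by
        intro d c
        beta_reduce
        split_ifs with h
        · subst h
          rw [map_sub, hGHW d c, hf c, smul_sub]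
        · exact hGHW d c) (by
        rw [Submodule.mem_bot]
        have h2 : ∀ d, (if d = D then G d - f else G d) = G d - (if d = D then f else 0) := by
          intro d
          split_ifs
          · rfl
          · rw [sub_zero]
        simp only [h2]
        rw [Finset.sum_sub_distrib, ← hsumG, Finset.sum_ite_eq', if_pos (Finset.mem_range.2 hDM),
          sub_self]) D hDM
    beta_reduce at h1
    rw [if_pos rfl, Submodule.mem_bot] at h1
    exact h1
  have hfD : f = ∑ κ ∈ s.filter (fun κ => κ.degree = D), g κ := (sub_eq_zero.1 hz).symm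
  rw [hfD]
  refine c6_collect n D _ g (fun κ hκ => (hg κ (Finset.mem_filter.1 hκ).1).1) (fun κ hκ => ?_)
  rw [← (Finset.mem_filter.1 hκ).2]
  exact c6_deg_le n κ

private theorem c6_om_ee (k : ℕ) (y : V) :
    om (ee k) y = if Even k then y (k + 1) else -(y (k - 1)) := by
  change sympForm (Finsupp.single k 1) y = _
  unfold sympForm
  rw [Finsupp.sum_single_index]
  · split_ifs <;> simp
  · split_ifs <;> simp

private theorem c6_om_symm (i j : ℕ) : om (ee i) (ee j) = -om (ee j) (ee i) := by
  rw [c6_om_ee, c6_om_ee]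
  simp only [ee, Finsupp.single_apply]
  by_cases hi : Even i <;> by_cases hj : Even j
  · rw [if_pos hi, if_pos hj, if_neg, if_neg, neg_zero]
    · rintro rfl
      exact (Nat.not_even_iff_odd.2 hj.add_one) hi
    · rintro rfl
      exact (Nat.not_even_iff_odd.2 hi.add_one) hj
  · rw [if_pos hi, if_neg hj, neg_neg]
    rw [Nat.not_even_iff_odd] at hj
    have : 1 ≤ j := hj.pos
    by_cases h : j = i + 1
    · rw [if_pos h, if_pos (by omega)]
    · rw [if_neg h, if_neg (by omega)]
  · rw [if_neg hi, if_pos hj]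
    rw [Nat.not_even_iff_odd] at hi
    have : 1 ≤ i := hi.pos
    by_cases h : i = j + 1
    · rw [if_pos h, if_pos (by omega)]
    · rw [if_neg h, if_neg (by omega)]
  · rw [if_neg hi, if_neg hj, if_neg, if_neg, neg_neg, neg_zero]
    · rw [Nat.not_even_iff_odd] at hi hj
      intro h
      have h1 : 1 ≤ j := hj.pos
      have h2 : i + 1 = j := by omega
      rw [← h2] at hj
      exact (Nat.not_even_iff_odd.2 hj) hi.add_one
    · rw [Nat.not_even_iff_odd] at hi hj
      intro h
      have h1 : 1 ≤ i := hi.pos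
      have h2 : j + 1 = i := by omega
      rw [← h2] at hi
      exact (Nat.not_even_iff_odd.2 hi) hj.add_one

private theorem c6_om_smul_ee (a b : ℂ) (i j : ℕ) :
    om (a • ee i) (b • ee j) = a * b * om (ee i) (ee j) := by
  have e : ∀ (a : ℂ) (i : ℕ) (y : V), om (a • ee i) y = a * om (ee i) y := by
    intro a i y
    rw [c6_om_ee, show (a • ee i : V) = Finsupp.single i a by
      rw [ee, Finsupp.smul_single, smul_eq_mul, mul_one]]
    change sympForm (Finsupp.single i a) y = _
    unfold sympForm
    rw [Finsupp.sum_single_index]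
    · split_ifs <;> simp
    · split_ifs <;> simp
  rw [e, mul_assoc]
  congr 1
  rw [c6_om_ee, c6_om_ee]
  split_ifs
  · rw [Finsupp.smul_apply, smul_eq_mul]
  · rw [Finsupp.smul_apply, smul_eq_mul, mul_neg]

/-- the components of `f ∈ M` killed by the traces are of the same kind -/
theorem TD_comp (n D : ℕ) (S : Finset ℕ) (M : Submodule R (U R)) (hM : GLS M) (T : Set ℕ)
    (f : U R) (hf : f ∈ M) (hfT : f ∈ LT R T) (htr : TrZ S f)
    (htrn : ∀ i < 2 * n, ∀ j ≥ 2 * n, j ∈ T → om (ee i) (ee j) = 0)
    (htrZ : ∀ i ≥ 2 * n, ∀ j ≥ 2 * n, i ∈ T → j ∈ T → om (ee i) (ee j) = 0)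
    (hD : TD n D f) : ∃ g : ℕ → U R, f = ∑ d ∈ Finset.range (D + 1), g d ∧
      ∀ d, g d ∈ M ∧ g d ∈ LT R T ∧ TrZ S (g d) ∧ ∀ c : ℂ, sbC (scT n c) (g d) = c ^ d • g d := by
  obtain ⟨g, hfg, hg⟩ := hD
  have hexp : ∀ c : ℂ, sbC (scT n c) f = ∑ d ∈ Finset.range (D + 1), c ^ d • g d := by
    intro c
    conv_lhs => rw [hfg]
    rw [map_sum]
    exact Finset.sum_congr rfl fun d _ => hg d c
  have hinf : ∀ P : ℂ → Prop, (∀ c, P c) → {c : ℂ | P c}.Infinite := by
    intro P hP
    have : {c : ℂ | P c} = Set.univ := Set.eq_univ_of_forall hP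
    rw [this]
    exact Set.infinite_univ
  have h1 : ∀ d < D + 1, g d ∈ M.restrictScalars ℂ := by
    refine vand1 (M.restrictScalars ℂ) (D + 1) g (hinf _ fun c => ?_)
    rw [← hexp c]
    exact hM _ f hf
  have h2 : ∀ d < D + 1, g d ∈ Subalgebra.toSubmodule (LT R T) := by
    refine vand1 (Subalgebra.toSubmodule (LT R T)) (D + 1) g (hinf _ fun c => ?_)
    rw [← hexp c]
    refine sbC_LT hfT _ ?_
    intro i hi j hj
    have : j = i := by
      by_contra hne
      apply hj
      rw [c6_scT]
      beta_reduce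
      rw [Finsupp.smul_apply, ee, Finsupp.single_eq_of_ne hne, smul_zero]
    rw [this]
    exact hi
  have h3 : ∀ a ∈ S, ∀ b ∈ S, a ≠ b → ∀ d < D + 1, tr a b (g d) = 0 := by
    intro a ha b hb hab
    have h4 := vand1 (⊥ : Submodule ℂ (U R)) (D + 1) (fun d => tr a b (g d)) (hinf _ fun c => by
      rw [Submodule.mem_bot]
      have h5 : tr a b (sbC (scT n c) f) = c ^ 2 • sbC (scT n c) (tr a b f) := by
        refine tr_sbC_iso _ a b T f hfT _ ?_
        intro i hi j hj
        rw [c6_scT]
        beta_reduce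
        rw [c6_om_smul_ee]
        by_cases hi2 : i < 2 * n <;> by_cases hj2 : j < 2 * n
        · rw [if_pos hi2, if_pos hj2]; ring
        · rw [htrn i hi2 j (by omega) hj]; ring
        · rw [c6_om_symm, htrn j hj2 i (by omega) hi]; ring
        · rw [htrZ i (by omega) j (by omega) hi hj]; ring
      rw [htr a ha b hb hab, map_zero, smul_zero, hexp, map_sum] at h5
      rw [← h5]
      refine Finset.sum_congr rfl fun d _ => ?_
      rw [LinearMap.map_smul_of_tower])
    intro d hd
    have := h4 d hd
    rwa [Submodule.mem_bot] at this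
  refine ⟨fun d => if d < D + 1 then g d else 0, ?_, ?_⟩
  · rw [hfg]
    refine Finset.sum_congr rfl fun d hd => ?_
    beta_reduce
    rw [if_pos (Finset.mem_range.1 hd)]
  · intro d
    by_cases hd : d < D + 1
    · simp only [if_pos hd]
      exact ⟨h1 d hd, h2 d hd, fun a ha b hb hab => h3 a ha b hb hab d hd, hg d⟩
    · simp only [if_neg hd]
      refine ⟨Submodule.zero_mem _, Subalgebra.zero_mem _, fun a _ b _ _ => map_zero _, ?_⟩
      intro c
      rw [map_zero, smul_zero]

/-- elements of `T`-degree `0` have no letters in `T` -/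
theorem LT_of_TD_zero {n : ℕ} {T : Set ℕ} {f : U R} (hf : f ∈ LT R T)
    (h : ∀ c : ℂ, sbC (scT n c) f = c ^ 0 • f) : f ∈ LT R (T \ Set.Iio (2 * n)) := by
  have h0 := h 0
  rw [pow_zero, one_smul] at h0
  rw [← h0]
  refine sbC_LT hf _ ?_
  intro i hi j hj
  have hin : ¬ i < 2 * n := by
    intro hlt
    apply hj
    unfold scT
    rw [if_pos hlt, zero_smul]
    rfl
  have hji : j = i := by
    by_contra hne
    apply hj
    unfold scT
    rw [if_neg hin, ee, Finsupp.single_apply, if_neg (fun h => hne h.symm)]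
  rw [hji]
  exact ⟨hi, hin⟩

/-- homogeneity may be tested with `c ≠ 0`, also with a negative exponent -/
private theorem c6_hom (n : ℕ) (f : U R) (D e : ℕ)
    (h : ∀ c : ℂ, c ≠ 0 → c ^ e • sbC (scT n c) f = c ^ D • f) :
    (∀ c : ℂ, sbC (scT n c) f = c ^ (D - e) • f) ∧ (e ≤ D ∨ f = 0) := by
  obtain ⟨N, hN⟩ := exists_TD n f
  obtain ⟨g, hfg, hg⟩ := hN
  have hexp : ∀ c : ℂ, sbC (scT n c) f = ∑ d ∈ Finset.range (N + 1), c ^ d • g d := by
    intro c
    conv_lhs => rw [hfg]
    rw [map_sum]
    exact Finset.sum_congr rfl fun d _ => hg d c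
  -- the coefficients of `c ^ k`
  set F : ℕ → U R := fun k => (if e ≤ k ∧ k - e < N + 1 then g (k - e) else 0) -
    (if k = D then f else 0) with hF
  set B : ℕ := max (D + 1) (e + N + 1) with hB
  have h1 : ∀ c : ℂ, c ≠ 0 → ∑ k ∈ Finset.range B, c ^ k • F k = 0 := by
    intro c hc
    have h2 := h c hc
    rw [hexp] at h2
    rw [hF]
    simp only [smul_sub, Finset.sum_sub_distrib]
    rw [sub_eq_zero]
    have e1 : ∑ k ∈ Finset.range B, c ^ k • (if k = D then f else 0) = c ^ D • f := by
      rw [Finset.sum_eq_single D]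
      · rw [if_pos rfl]
      · intro k _ hk
        rw [if_neg hk, smul_zero]
      · intro hk
        exact absurd (Finset.mem_range.2 (by omega)) hk
    have e2 : ∑ k ∈ Finset.range B, c ^ k • (if e ≤ k ∧ k - e < N + 1 then g (k - e) else 0) =
        c ^ e • ∑ d ∈ Finset.range (N + 1), c ^ d • g d := by
      rw [Finset.smul_sum]
      have e3 : ∀ d ∈ Finset.range (N + 1), c ^ e • c ^ d • g d =
          (fun k => c ^ k • (if e ≤ k ∧ k - e < N + 1 then g (k - e) else 0)) (d + e) := by
        intro d hd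
        beta_reduce
        rw [if_pos ⟨by omega, by
          rw [Nat.add_sub_cancel]
          exact Finset.mem_range.1 hd⟩, Nat.add_sub_cancel, smul_smul, ← pow_add,
          add_comm e d]
      rw [Finset.sum_congr rfl e3]
      rw [← Finset.sum_image (s := Finset.range (N + 1)) (g := fun d => d + e)
        (f := fun k => c ^ k • (if e ≤ k ∧ k - e < N + 1 then g (k - e) else 0))]
      · symm
        apply Finset.sum_subset
        · intro k hk
          obtain ⟨d, hd, rfl⟩ := Finset.mem_image.1 hk
          have := Finset.mem_range.1 hd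
          exact Finset.mem_range.2 (by omega)
        · intro k _ hk
          rw [if_neg, smul_zero]
          rintro ⟨h3, h4⟩
          apply hk
          exact Finset.mem_image.2 ⟨k - e, Finset.mem_range.2 h4, by omega⟩
      · intro a _ b _ hab
        exact Nat.add_right_cancel hab
    rw [e1, e2, h2]
  have h3 : ∀ k < B, F k ∈ (⊥ : Submodule ℂ (U R)) := by
    refine vand1 ⊥ B F ?_
    have hsub : ({0}ᶜ : Set ℂ) ⊆ {t : ℂ | ∑ k ∈ Finset.range B, t ^ k • F k ∈
        (⊥ : Submodule ℂ (U R))} := by
      intro c hc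
      change ∑ k ∈ Finset.range B, c ^ k • F k ∈ (⊥ : Submodule ℂ (U R))
      rw [h1 c hc]
      exact Submodule.zero_mem _
    exact (Set.finite_singleton (0 : ℂ)).infinite_compl.mono hsub
  have h4 : ∀ k < B, F k = 0 := fun k hk => by
    have := h3 k hk
    rwa [Submodule.mem_bot] at this
  by_cases heD : e ≤ D
  · refine ⟨?_, Or.inl heD⟩
    -- `g d = 0` for `d ≠ D - e`, and the component `D - e` is `f`
    have h5 : ∀ d < N + 1, d ≠ D - e → g d = 0 := by
      intro d hd hne
      have := h4 (d + e) (by omega)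
      rw [hF] at this
      beta_reduce at this
      rw [if_pos ⟨by omega, by rw [Nat.add_sub_cancel]; exact hd⟩, Nat.add_sub_cancel,
        if_neg (by omega), sub_zero] at this
      exact this
    intro c
    rw [hexp]
    have h6 := h4 D (by omega)
    rw [hF] at h6
    beta_reduce at h6
    rw [if_pos rfl] at h6
    by_cases h7 : D - e < N + 1
    · rw [if_pos ⟨heD, h7⟩, sub_eq_zero] at h6
      rw [Finset.sum_eq_single (D - e)]
      · rw [h6]
      · intro d hd hne
        rw [h5 d (Finset.mem_range.1 hd) hne, smul_zero]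
      · intro h8
        exact absurd (Finset.mem_range.2 h7) h8
    · rw [if_neg (fun h => h7 h.2), zero_sub, neg_eq_zero] at h6
      rw [h6, smul_zero]
      refine Finset.sum_eq_zero fun d hd => ?_
      have := Finset.mem_range.1 hd
      rw [h5 d this (by omega), smul_zero]
  · have h6 := h4 D (by omega)
    rw [hF] at h6
    beta_reduce at h6
    rw [if_pos rfl, if_neg (fun h => heD h.1), zero_sub, neg_eq_zero] at h6
    refine ⟨fun c => ?_, Or.inr h6⟩
    rw [h6, map_zero, smul_zero]

private theorem c6_cst_single (i : ℕ) (a : ℂ) : (cst (Finsupp.single i a) : VR R) =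
    Finsupp.single i (algebraMap ℂ R a) := by
  simp [cst]

/-- the substitution of `replace_letters` -/
private noncomputable def c6ph (n : ℕ) (y : ℕ → ℕ) (lam : ℕ → ℂ) (i : ℕ) : V :=
  if i < 2 * n then ee i + lam i • ee (y i) else ee i

open Classical in
private theorem c6_poly (n : ℕ) (y : ℕ → ℕ) (f : U R) :
    ∃ P : MvPolynomial ℕ (U R), ∀ lam : ℕ → ℂ, sbC (c6ph n y lam) f =
      ∑ m ∈ P.support, (m.prod fun i k => lam i ^ k) • coeff m P := by
  obtain ⟨P, hP⟩ := exists_sbU_poly (R := R) (σ := ℕ)
    (fun i => if i < 2 * n then Finsupp.single i 1 + Finsupp.single (y i) (X i)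
      else Finsupp.single i 1) f
  refine ⟨P, fun lam => ?_⟩
  have h1 := hP (fun i => algebraMap ℂ R (lam i))
  have h2 : (fun i => ((if i < 2 * n then Finsupp.single i 1 + Finsupp.single (y i) (X i)
      else Finsupp.single i 1 : VR (MvPolynomial ℕ R)).mapRange
        (eval (fun i => algebraMap ℂ R (lam i))) (map_zero _) : VR R)) =
      fun i => cst (c6ph n y lam i) := by
    funext i
    unfold c6ph
    split_ifs
    · rw [Finsupp.mapRange_add (by intro a b; exact map_add _ a b), Finsupp.mapRange_single,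
        Finsupp.mapRange_single, map_one, eval_X, map_add, map_smul]
      simp only [ee]
      rw [c6_cst_single, c6_cst_single, map_one, Finsupp.smul_single, Algebra.smul_def, mul_one]
    · rw [Finsupp.mapRange_single, map_one]
      simp only [ee]
      rw [c6_cst_single, map_one]
  rw [h2] at h1
  unfold sbC
  rw [h1, eval_eq]
  refine Finset.sum_congr rfl fun m _ => ?_
  rw [mul_comm, Algebra.smul_def, Finsupp.prod, map_prod]
  congr 1
  refine Finset.prod_congr rfl fun i _ => ?_
  rw [map_pow]
  rfl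

private theorem c6_linC_add (φ : ℕ → V) (a : ℂ) (i j : ℕ) :
    linC φ (ee i + a • ee j) = φ i + a • φ j := by
  rw [map_add, map_smul, linC_ee, linC_ee]

open Classical in
/-- replacing letters: `e_i ↦ e_i + t w_i` for `i < 2n` and expansion in powers of `t`; the terms with
at least one replaced letter have smaller `T`-degree -/
theorem replace_letters (n D : ℕ) (f : U R)
    (hdeg : ∀ c : ℂ, sbC (scT n c) f = c ^ D • f) (y : ℕ → ℕ)
    (hy : ∀ i < 2 * n, 2 * n ≤ y i) :
    ∃ (s : Finset (ℕ →₀ ℕ)) (g : (ℕ →₀ ℕ) → U R),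
      (∀ lam : ℕ → ℂ, sbC (fun i => if i < 2 * n then ee i + lam i • ee (y i) else ee i) f =
        ∑ m ∈ s, (m.prod fun i k => lam i ^ k) • g m) ∧
      0 ∈ s ∧ g 0 = f ∧ (∀ m ∈ s, ∀ i ∈ m.support, i < 2 * n) ∧
      ∀ m ∈ s, ∀ c : ℂ, sbC (scT n c) (g m) = c ^ (D - m.degree) • g m ∧
        (m.degree ≤ D ∨ g m = 0) := by
  obtain ⟨P, hP⟩ := c6_poly n y f
  set s : Finset (ℕ →₀ ℕ) := (insert 0 P.support).filter (fun m => ∀ i ∈ m.support, i < 2 * n)
    with hs
  have hexp : ∀ lam : ℕ → ℂ, sbC (c6ph n y lam) f =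
      ∑ m ∈ s, (m.prod fun i k => lam i ^ k) • coeff m P := by
    intro lam
    set lam' : ℕ → ℂ := fun i => if i < 2 * n then lam i else 0 with hlam'
    have e1 : c6ph n y lam = c6ph n y lam' := by
      funext i
      unfold c6ph
      split_ifs with h
      · rw [hlam']
        simp only [if_pos h]
      · rfl
    rw [e1, hP lam']
    have e2 : ∑ m ∈ P.support, (m.prod fun i k => lam' i ^ k) • coeff m P =
        ∑ m ∈ insert 0 P.support, (m.prod fun i k => lam' i ^ k) • coeff m P := by
      apply Finset.sum_subset (Finset.subset_insert _ _)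
      intro m _ hm
      rw [notMem_support_iff.1 hm, smul_zero]
    rw [e2, hs, Finset.sum_filter]
    refine Finset.sum_congr rfl fun m _ => ?_
    split_ifs with h
    · congr 1
      refine Finset.prod_congr rfl fun i hi => ?_
      rw [hlam']
      simp only [if_pos (h i hi)]
    · push Not at h
      obtain ⟨i, hi, hin⟩ := h
      have : (m.prod fun i k => lam' i ^ k) = 0 := by
        unfold Finsupp.prod
        apply Finset.prod_eq_zero hi
        rw [hlam']
        beta_reduce
        rw [if_neg (by omega), zero_pow (Finsupp.mem_support_iff.1 hi)]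
      rw [this, zero_smul]
  have h0s : (0 : ℕ →₀ ℕ) ∈ s := by
    rw [hs, Finset.mem_filter]
    exact ⟨Finset.mem_insert_self _ _, by intro i hi; simp at hi⟩
  have hg0 : coeff 0 P = f := by
    have h1 := hexp (fun _ => 0)
    have h2 : c6ph n y (fun _ => 0) = ee := by
      funext i
      unfold c6ph
      split_ifs
      · rw [zero_smul, add_zero]
      · rfl
    rw [h2, sbC_id, Finset.sum_eq_single 0] at h1
    · rw [Finsupp.prod_zero_index, one_smul] at h1
      exact h1.symm
    · intro m _ hm
      obtain ⟨i, hi⟩ := Finsupp.support_nonempty_iff.2 hm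
      have : (m.prod fun i k => (0 : ℂ) ^ k) = 0 := by
        unfold Finsupp.prod
        apply Finset.prod_eq_zero hi
        beta_reduce
        rw [zero_pow (Finsupp.mem_support_iff.1 hi)]
      rw [this, zero_smul]
    · intro h
      exact absurd h0s h
  refine ⟨s, fun m => coeff m P, hexp, h0s, hg0, ?_, ?_⟩
  · intro m hm
    exact (Finset.mem_filter.1 hm).2
  · -- homogeneity
    have key : ∀ c : ℂ, c ≠ 0 → ∀ m ∈ s,
        c ^ m.degree • sbC (scT n c) (coeff m P) = c ^ D • coeff m P := by
      intro c hc m hm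
      have h1 : ∀ lam : ℕ → ℂ, sbC (scT n c) (sbC (c6ph n y (fun i => c * lam i)) f) =
          c ^ D • sbC (c6ph n y lam) f := by
        intro lam
        rw [← sbC_smulC, ← hdeg c, sbC_sbC, sbC_sbC]
        have hφ : ∀ i, linC (scT n c) (c6ph n y (fun i => c * lam i) i) =
            linC (c6ph n y lam) (scT n c i) := by
          intro i
          by_cases hi : i < 2 * n
          · have hyi : ¬ y i < 2 * n := by
              have := hy i hi
              omega
            have e1 : c6ph n y (fun i => c * lam i) i = ee i + (c * lam i) • ee (y i) := if_pos hi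
            have e2 : scT n c i = c • ee i := if_pos hi
            have e3 : scT n c (y i) = ee (y i) := if_neg hyi
            have e4 : c6ph n y lam i = ee i + lam i • ee (y i) := if_pos hi
            rw [e1, e2, c6_linC_add, map_smul, linC_ee, e2, e3, e4, smul_add, smul_smul]
          · have e1 : c6ph n y (fun i => c * lam i) i = ee i := if_neg hi
            have e2 : scT n c i = ee i := if_neg hi
            have e4 : c6ph n y lam i = ee i := if_neg hi
            rw [e1, e2, linC_ee, linC_ee, e2, e4]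
        exact congrArg (fun φ : ℕ → V => sbC φ f) (funext hφ)
      have h2 := vandM (⊥ : Submodule ℂ (U R)) s
        (fun m => c ^ m.degree • sbC (scT n c) (coeff m P) - c ^ D • coeff m P) (by
        intro lam _
        rw [Submodule.mem_bot]
        have h3 := h1 lam
        rw [hexp, hexp, map_sum, Finset.smul_sum] at h3
        simp only [smul_sub, Finset.sum_sub_distrib]
        rw [sub_eq_zero]
        have e1 : ∀ m : ℕ →₀ ℕ, sbC (scT n c) ((m.prod fun i k => (c * lam i) ^ k) • coeff m P) =
            (m.prod fun i k => lam i ^ k) • c ^ m.degree • sbC (scT n c) (coeff m P) := by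
          intro m
          rw [sbC_smulC, smul_smul]
          congr 1
          unfold Finsupp.prod
          simp only [mul_pow]
          rw [Finset.prod_mul_distrib, Finset.prod_pow_eq_pow_sum, Finsupp.degree_apply, mul_comm]
        rw [Finset.sum_congr rfl fun m _ => (e1 m).symm, h3]
        refine Finset.sum_congr rfl fun m _ => ?_
        rw [smul_comm]) m hm
      rw [Submodule.mem_bot, sub_eq_zero] at h2
      exact h2
    intro m hm c
    obtain ⟨h1, h2⟩ := c6_hom n (coeff m P) D m.degree (fun c hc => key c hc m hm)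
    exact ⟨h1 c, h2⟩

end MP50e386N
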