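import Mathlib
import Pool.Agent.Lib.MP_50e386_al.N.CDefs
import Pool.Agent.Lib.MP_50e386_al.N.T1
import Pool.Agent.Lib.MP_50e386_al.N.T2
import Pool.Agent.Lib.MP_50e386_al.N.T3
import Pool.Agent.Lib.MP_50e386_al.N.T5
import Pool.Agent.Lib.MP_50e386_al.N.T8
import Pool.Agent.Lib.MP_50e386_al.N.TR
import Pool.Agent.Lib.MP_50e386_al.N.Q1
import Pool.Agent.Lib.MP_50e386_al.N.C6
import Pool.Agent.Lib.MP_50e386_al.N.C7

/-! (A), paper 5.5. -/

namespace MP50e386N

open MvPolynomial Pool.Agent.Lib.MP50e386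

variable {R : Type} [CommRing R] [Algebra ℂ R] [GLRing R]

namespace C8

/-- one parameter families on `R` are polynomial -/
theorem sbR_poly (v w : ℕ → V) (a : R) :
    ∃ P : Polynomial R, ∀ t : ℂ, sbR (fun i => t • v i + w i) a = P.eval (algebraMap ℂ R t) := by
  have ha : a ∈ Algebra.adjoin ℂ (Set.range fun p : ℕ × ℕ => (GLRing.x p.1 p.2 : R)) := by
    rw [GLRing.gen]; exact Algebra.mem_top
  induction ha using Algebra.adjoin_induction with
  | mem x hx =>
    obtain ⟨⟨i, j⟩, rfl⟩ := hx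
    refine ⟨Polynomial.C (xv (v i) (v j)) * Polynomial.X ^ 2 +
      Polynomial.C (xv (v i) (w j) + xv (w i) (v j)) * Polynomial.X +
      Polynomial.C (xv (w i) (w j)), fun t => ?_⟩
    have h1 : sbR (fun i => t • v i + w i) (GLRing.x i j : R) =
        xf (cst (t • v i + w i)) (cst (t • v j + w j)) := sb_x' _ _ _
    simp only
    rw [h1]
    have h2 : ∀ u : V, (cst (t • u) : VR R) = (algebraMap ℂ R t) • cst u := by
      intro u
      rw [map_smul, algebraMap_smul]
    simp only [map_add, h2, LinearMap.add_apply, map_smul, LinearMap.smul_apply, smul_eq_mul,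
      Polynomial.eval_add, Polynomial.eval_mul, Polynomial.eval_C, Polynomial.eval_pow,
      Polynomial.eval_X, xv]
    ring
  | algebraMap c =>
    refine ⟨Polynomial.C (algebraMap ℂ R c), fun t => ?_⟩
    rw [AlgHom.commutes, Polynomial.eval_C]
  | add x y _ _ hx hy =>
    obtain ⟨P, hP⟩ := hx
    obtain ⟨Q, hQ⟩ := hy
    exact ⟨P + Q, fun t => by rw [map_add, hP, hQ, Polynomial.eval_add]⟩
  | mul x y _ _ hx hy =>
    obtain ⟨P, hP⟩ := hx
    obtain ⟨Q, hQ⟩ := hy
    exact ⟨P * Q, fun t => by rw [map_mul, hP, hQ, Polynomial.eval_mul]⟩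

theorem hh_LT {r k : ℕ} (T : Set ℕ) (s q : ℕ) (u : Fin r → ℕ) (b : Fin k → ℕ)
    (hu : ∀ i, u i ∈ T) (hb : ∀ j, b j ∈ T) :
    (C (hh s q (fun i => ee (u i)) (fun j => ee (b j))) : U R) ∈ LT R T := by
  classical
  have h1 : (C (hh s q (fun i => ee (u i)) (fun j => ee (b j))) : U R) =
      sbC (fun i => if i ∈ T then ee i else 0)
        (C (hh s q (fun i => ee (u i)) (fun j => ee (b j)))) := by
    rw [sbC_C, sbR_hh]
    congr 2
    · funext i
      rw [linC_ee, if_pos (hu i)]
    · funext j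
      rw [linC_ee, if_pos (hb j)]
  rw [h1]
  refine sbC_LT (T := Set.univ) (by rw [LT_univ]; exact Algebra.mem_top) _ ?_
  intro i _ j hij
  by_cases hi : i ∈ T
  · rw [if_pos hi] at hij
    by_cases h : i = j
    · exact h ▸ hi
    · exact absurd (Finsupp.single_eq_of_ne (Ne.symm h)) hij
  · rw [if_neg hi] at hij
    exact absurd rfl hij

theorem TD_of_hom {n D d : ℕ} {f : U R} (h : ∀ c : ℂ, sbC (scT n c) f = c ^ d • f) (hd : d ≤ D) :
    TD n D f := by
  classical
  refine ⟨fun e => if e = d then f else 0, ?_, ?_⟩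
  · rw [Finset.sum_ite_eq', if_pos (Finset.mem_range.2 (by omega))]
  · intro e c
    by_cases he : e = d
    · simp only [if_pos he]
      rw [h, he]
    · simp only [if_neg he]
      rw [map_zero, smul_zero]

/-- expansion of a one parameter replacement of the letters `< 2n` -/
theorem expand (n J : ℕ) (f : U R) (hdeg : ∀ c : ℂ, sbC (scT n c) f = c ^ J • f) (v : ℕ → V)
    (hv : ∀ i, ∀ l < 2 * n, v i l = 0) :
    ∃ f' : ℕ → U R, f' 0 = f ∧
      (∀ τ : ℂ, sbC (fun i => if i < 2 * n then ee i + τ • v i else ee i) f =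
        ∑ d ∈ Finset.range (J + 1), τ ^ d • f' d) ∧
      ∀ d, ∀ c : ℂ, sbC (scT n c) (f' d) = c ^ (J - d) • f' d := by
  classical
  obtain ⟨n', hn'⟩ := exists_LT f
  set L0 : ℕ := max (2 * n) n' with hL0
  obtain ⟨s, g, hg1, hg0, hg2, -, hg3⟩ := replace_letters n J f hdeg (fun i => L0 + i)
    (fun i _ => le_trans (le_max_left _ _) (Nat.le_add_right _ _))
  set β : ℕ → V := fun i => if L0 ≤ i ∧ i < L0 + 2 * n then v (i - L0) else ee i with hβ
  have hβlow : ∀ i < L0, β i = ee i := by
    intro i hi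
    simp only [hβ]
    rw [if_neg (by omega)]
  have hβf : sbC β f = f := by
    rw [sbC_congr hn' β ee (fun i hi => hβlow i (lt_of_lt_of_le hi (le_max_right _ _))), sbC_id]
  have hlinv : ∀ i (c : ℂ), linC (scT n c) (v i) = v i := by
    intro i c
    conv_rhs => rw [← linC_id (v i)]
    unfold linC
    rw [Finsupp.linearCombination_apply, Finsupp.linearCombination_apply]
    apply Finsupp.sum_congr
    intro l hl
    have hl' : ¬ l < 2 * n := fun h => (Finsupp.mem_support_iff.1 hl) (hv i l h)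
    unfold scT
    rw [if_neg hl']
  have hcomm : ∀ (c : ℂ) (h : U R), sbC (scT n c) (sbC β h) = sbC β (sbC (scT n c) h) := by
    intro c h
    have h0 : (fun i => linC (scT n c) (β i)) = fun i => linC β (scT n c i) := by
      funext i
      by_cases hi : L0 ≤ i ∧ i < L0 + 2 * n
      · have h1 : β i = v (i - L0) := by simp only [hβ]; rw [if_pos hi]
        have h2 : scT n c i = ee i := by
          unfold scT
          rw [if_neg (by omega)]
        rw [h1, hlinv, h2, linC_ee, h1]
      · have h1 : β i = ee i := by simp only [hβ]; rw [if_neg hi]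
        rw [h1, linC_ee]
        unfold scT
        by_cases hi2 : i < 2 * n
        · rw [if_pos hi2, map_smul, linC_ee, h1]
        · rw [if_neg hi2, linC_ee, h1]
    rw [sbC_sbC, sbC_sbC, h0]
  refine ⟨fun d => ∑ m ∈ s.filter (fun m => m.degree = d), sbC β (g m), ?_, ?_, ?_⟩
  · have h1 : s.filter (fun m => m.degree = 0) = {0} := by
      ext m
      rw [Finset.mem_filter, Finset.mem_singleton, Finsupp.degree_eq_zero_iff]
      constructor
      · exact fun h => h.2
      · rintro rfl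
        exact ⟨hg0, rfl⟩
    simp only
    rw [h1, Finset.sum_singleton, hg2, hβf]
  · intro τ
    have h1 := hg1 (fun _ => τ)
    have h2 := congrArg (sbC β) h1
    rw [sbC_sbC, map_sum] at h2
    have h3 : sbC (fun i => linC β (if i < 2 * n then ee i + τ • ee (L0 + i) else ee i)) f =
        sbC (fun i => if i < 2 * n then ee i + τ • v i else ee i) f := by
      apply sbC_congr hn'
      intro i hi
      have hi' : i < L0 := lt_of_lt_of_le hi (le_max_right _ _)
      by_cases hi2 : i < 2 * n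
      · rw [if_pos hi2, if_pos hi2, map_add, map_smul, linC_ee, linC_ee, hβlow i hi']
        congr 2
        simp only [hβ]
        rw [if_pos (by omega), Nat.add_sub_cancel_left]
      · rw [if_neg hi2, if_neg hi2, linC_ee, hβlow i hi']
    rw [h3] at h2
    rw [h2]
    have h4 : ∑ m ∈ s, sbC β ((m.prod fun _ k => τ ^ k) • g m) =
        ∑ m ∈ s.filter (fun m => m.degree ∈ Finset.range (J + 1)), τ ^ m.degree • sbC β (g m) := by
      rw [Finset.sum_filter]
      apply Finset.sum_congr rfl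
      intro m hm
      have h5 : (m.prod fun _ k => τ ^ k) = τ ^ m.degree := by
        rw [Finsupp.prod, Finset.prod_pow_eq_pow_sum, Finsupp.degree]
        rfl
      rw [sbC_smulC, h5]
      split_ifs with h6
      · rfl
      · have h7 : g m = 0 := by
          rcases (hg3 m hm 0).2 with h8 | h8
          · exact absurd (Finset.mem_range.2 (by omega)) h6
          · exact h8
        rw [h7, map_zero, smul_zero]
    have h4' := Finset.sum_fiberwise_of_maps_to
      (s := s.filter (fun m => m.degree ∈ Finset.range (J + 1))) (t := Finset.range (J + 1))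
      (g := fun m : ℕ →₀ ℕ => m.degree) (fun m hm => (Finset.mem_filter.1 hm).2)
      (fun m => τ ^ m.degree • sbC β (g m))
    rw [h4, ← h4']
    apply Finset.sum_congr rfl
    intro d hd
    rw [Finset.smul_sum, Finset.filter_filter]
    have h8 : s.filter (fun m => m.degree ∈ Finset.range (J + 1) ∧ m.degree = d) =
        s.filter (fun m => m.degree = d) := by
      apply Finset.filter_congr
      intro m _
      constructor
      · exact fun h => h.2
      · exact fun h => ⟨h ▸ hd, h⟩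
    rw [h8]
    apply Finset.sum_congr rfl
    intro m hm
    rw [(Finset.mem_filter.1 hm).2]
  · intro d c
    simp only
    rw [map_sum, Finset.smul_sum]
    apply Finset.sum_congr rfl
    intro m hm
    rw [hcomm, (hg3 m (Finset.mem_filter.1 hm).1 c).1, sbC_smulC, (Finset.mem_filter.1 hm).2]

/-- the induction step for homogeneous elements -/
theorem hom_step {r s k q n D : ℕ} (S : Finset ℕ) (M : Submodule R (U R)) (hM : GLS M)
    (hF : FProp r s k q n D S M) (j : ℕ) (hj : j + 1 ≤ D)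
    (IH : ∀ Z : Set ℕ, Z.Finite → (∀ z ∈ Z, 2 * n ≤ z) →
      (∀ z ∈ Z, ∀ z' ∈ Z, om (ee z) (ee z') = 0) →
      ∀ f ∈ M, TrZ S f → f ∈ LT R (Set.Iio (2 * n) ∪ Z) → TD n j f →
      ∀ w : Fin (j + 1) → (Fin r ⊕ Fin k) → V, (∀ i i' a a', om (w i a) (w i' a') = 0) →
      (∀ i a, ∀ z ∈ Z, om (w i a) (ee z) = 0) →
      (∏ i, hh s q (fun a => w i (Sum.inl a)) (fun b => w i (Sum.inr b)) : R) • f ∈ nn M)
    (Z : Set ℕ) (hZf : Z.Finite) (hZ : ∀ z ∈ Z, 2 * n ≤ z)
    (hZi : ∀ z ∈ Z, ∀ z' ∈ Z, om (ee z) (ee z') = 0)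
    (f : U R) (hf : f ∈ M) (htr : TrZ S f) (hfT : f ∈ LT R (Set.Iio (2 * n) ∪ Z))
    (J : ℕ) (hJ : J ≤ j + 1) (hdeg : ∀ c : ℂ, sbC (scT n c) f = c ^ J • f)
    (w : Fin (j + 2) → (Fin r ⊕ Fin k) → V)
    (hw : ∀ i i' a a', om (w i a) (w i' a') = 0) (hwZ : ∀ i a, ∀ z ∈ Z, om (w i a) (ee z) = 0) :
    (∏ i, hh s q (fun a => w i (Sum.inl a)) (fun b => w i (Sum.inr b)) : R) • f ∈ nn M := by
  classical
  -- a level
  obtain ⟨L, hL1, hL2⟩ : ∃ L : ℕ, (∀ i ∈ Set.Iio (2 * n) ∪ Z, i < 2 * L) ∧
      ∀ i a l, 2 * L ≤ l → w i a l = 0 := by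
    set T : Finset ℕ := (Finset.range (2 * n) ∪ hZf.toFinset) ∪
      Finset.univ.biUnion (fun i => Finset.univ.biUnion (fun a => (w i a).support)) with hT
    refine ⟨T.sup id + 1, ?_, ?_⟩
    · intro i hi
      have h1 : i ∈ T := by
        rw [hT, Finset.mem_union, Finset.mem_union, Finset.mem_range, hZf.mem_toFinset]
        rcases hi with hi | hi
        · exact Or.inl (Or.inl hi)
        · exact Or.inl (Or.inr hi)
      have h2 := Finset.le_sup (f := id) h1
      simp only [id] at h2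
      omega
    · intro i a l hl
      by_contra hne
      have h1 : l ∈ T := by
        rw [hT, Finset.mem_union, Finset.mem_biUnion]
        refine Or.inr ⟨i, Finset.mem_univ _, ?_⟩
        rw [Finset.mem_biUnion]
        exact ⟨a, Finset.mem_univ _, Finsupp.mem_support_iff.2 hne⟩
      have h2 := Finset.le_sup (f := id) h1
      simp only [id] at h2
      omega
  have hnL : n ≤ L := by
    rcases Nat.eq_zero_or_pos n with h | h
    · omega
    · have := hL1 (2 * n - 1) (Or.inl (by rw [Set.mem_Iio]; omega))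
      omega
  -- fresh letters
  set idx : Fin r ⊕ Fin k → ℕ := Sum.elim (fun i => (i : ℕ)) (fun i => r + (i : ℕ)) with hidx
  have idx_inj : Function.Injective idx := by
    rintro (a | a) (b | b) h
    · simp only [hidx, Sum.elim_inl] at h
      rw [Fin.ext h]
    · simp only [hidx, Sum.elim_inl, Sum.elim_inr] at h
      omega
    · simp only [hidx, Sum.elim_inl, Sum.elim_inr] at h
      omega
    · simp only [hidx, Sum.elim_inr] at h
      rw [Fin.ext (by omega : (a : ℕ) = b)]
  set y : Fin r ⊕ Fin k → ℕ := fun l => 2 * L + 2 * idx l with hy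
  set yd : Fin r ⊕ Fin k → ℕ := fun l => 2 * L + 2 * idx l + 1 with hyd
  have y_inj : Function.Injective y := by
    intro a b h
    apply idx_inj
    simp only [hy] at h
    omega
  set a : Fin r ⊕ Fin k → V := w 0 with ha
  -- the form on the vectors
  have Baa : ∀ l l', T5.B (a l) (a l') = 0 := fun l l' => by rw [← T5.om_eq]; exact hw 0 0 l l'
  have Bya : ∀ l l', T5.B (ee (y l)) (a l') = 0 := fun l l' =>
    T5.B_far (a l') (hL2 0 l') (by simp only [hy]; omega)
  have Bda : ∀ l l', T5.B (ee (yd l)) (a l') = 0 := fun l l' =>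
    T5.B_far (a l') (hL2 0 l') (by simp only [hyd]; omega)
  have hlow : ∀ i ∈ Set.Iio (2 * n) ∪ Z, ∀ l, 2 * L ≤ l → (ee i : V) l = 0 := by
    intro i hi l hl
    have := hL1 i hi
    exact Finsupp.single_eq_of_ne (by omega)
  have Bye : ∀ l, ∀ i ∈ Set.Iio (2 * n) ∪ Z, T5.B (ee (y l)) (ee i) = 0 := fun l i hi =>
    T5.B_far (ee i) (hlow i hi) (by simp only [hy]; omega)
  have Bde : ∀ l, ∀ i ∈ Set.Iio (2 * n) ∪ Z, T5.B (ee (yd l)) (ee i) = 0 := fun l i hi =>
    T5.B_far (ee i) (hlow i hi) (by simp only [hyd]; omega)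
  have Byy : ∀ l l', T5.B (ee (y l)) (ee (y l')) = 0 := fun l l' => T5.B_bb L (idx l) (idx l')
  have Bdd : ∀ l l', T5.B (ee (yd l)) (ee (yd l')) = 0 := fun l l' => T5.B_ss L (idx l) (idx l')
  have Bdy : ∀ l l', T5.B (ee (yd l)) (ee (y l')) = if l' = l then -1 else 0 := by
    intro l l'
    have h1 := T5.B_sb L (idx l) (idx l')
    simp only [hyd, hy]
    rw [h1]
    by_cases h : l' = l
    · rw [if_pos h, if_pos (by rw [h])]
    · rw [if_neg h, if_neg (fun h' => h (idx_inj h'))]
  -- the replacement vectors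
  set v : ℕ → V := fun i => ∑ l, (- om (a l) (ee i)) • ee (yd l) with hv
  have hvlow : ∀ i, ∀ l < 2 * n, v i l = 0 := by
    intro i l hl
    simp only [hv]
    rw [Finsupp.finsetSum_apply]
    apply Finset.sum_eq_zero
    intro l' _
    rw [Finsupp.smul_apply, Finsupp.single_eq_of_ne (by simp only [hyd]; omega), smul_zero]
  have hvZ : ∀ z ∈ Z, v z = 0 := by
    intro z hz
    simp only [hv]
    apply Finset.sum_eq_zero
    intro l _
    rw [ha, hwZ 0 l z hz, neg_zero, zero_smul]
  have Bve : ∀ i, ∀ i' ∈ Set.Iio (2 * n) ∪ Z, T5.B (v i) (ee i') = 0 := by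
    intro i i' hi'
    simp only [hv]
    rw [T5.B_suml]
    exact Finset.sum_eq_zero fun l _ => by rw [T5.B_sl, Bde l i' hi', mul_zero]
  have Bvv : ∀ i i', T5.B (v i) (v i') = 0 := by
    intro i i'
    simp only [hv]
    rw [T5.B_suml]
    refine Finset.sum_eq_zero fun l _ => ?_
    rw [T5.B_sl, T5.B_sumr, Finset.sum_eq_zero, mul_zero]
    intro l' _
    rw [T5.B_sr, Bdd, mul_zero]
  have Bva : ∀ i l, T5.B (v i) (a l) = 0 := by
    intro i l
    simp only [hv]
    rw [T5.B_suml]
    exact Finset.sum_eq_zero fun l' _ => by rw [T5.B_sl, Bda l' l, mul_zero]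
  have Bvy : ∀ i l, T5.B (v i) (ee (y l)) = T5.B (a l) (ee i) := by
    intro i l
    simp only [hv]
    rw [T5.B_suml, Finset.sum_eq_single l]
    · rw [T5.B_sl, Bdy, if_pos rfl, T5.om_eq]
      ring
    · intro l' _ hl'
      rw [T5.B_sl, Bdy, if_neg (Ne.symm hl'), mul_zero]
    · intro h
      exact absurd (Finset.mem_univ l) h
  -- expansion
  obtain ⟨f', hf'0, hf'1, hf'2⟩ := expand n J f hdeg v hvlow
  have hψgen : ∀ τ : ℂ, ∀ i ∈ Set.Iio (2 * n) ∪ Z,
      (if i < 2 * n then (ee i : V) + τ • v i else ee i) = ee i + τ • v i := by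
    intro τ i hi
    split_ifs with h
    · rfl
    · have hz : i ∈ Z := hi.resolve_left h
      rw [hvZ i hz, smul_zero, add_zero]
  set Z' : Set ℕ := Z ∪ Set.range yd with hZ'
  have hτinf : ∀ P : ℂ → Prop, (∀ τ, P τ) → {τ : ℂ | P τ}.Infinite := by
    intro P hP
    have : {τ : ℂ | P τ} = Set.univ := Set.eq_univ_of_forall hP
    rw [this]
    exact Set.infinite_univ
  have hmemM : ∀ d < J + 1, f' d ∈ M := by
    intro d hd
    refine vand1 (M.restrictScalars ℂ) (J + 1) f' (hτinf _ fun τ => ?_) d hd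
    rw [← hf'1 τ]
    exact hM _ f hf
  have htr' : ∀ d < J + 1, TrZ S (f' d) := by
    intro d hd b hb b' hb' hbb'
    refine vand1 ((LinearMap.ker (tr (R := R) b b')).restrictScalars ℂ) (J + 1) f'
      (hτinf _ fun τ => ?_) d hd
    rw [← hf'1 τ]
    change tr b b' _ = 0
    rw [tr_sbC_iso _ b b' _ f hfT 1 ?_, htr b hb b' hb' hbb', map_zero, smul_zero]
    intro i hi i' hi'
    rw [hψgen τ i hi, hψgen τ i' hi', T5.om_eq, T5.om_eq, T5.B_al, T5.B_ar, T5.B_ar, T5.B_sl,
      T5.B_sl, T5.B_sr, T5.B_sr, Bvv, Bve i i' hi', T5.B_anti (ee i) (v i'), Bve i' i hi]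
    ring
  have hLT' : ∀ d < J + 1, f' d ∈ LT R (Set.Iio (2 * n) ∪ Z') := by
    intro d hd
    refine vand1 (Subalgebra.toSubmodule (LT R (Set.Iio (2 * n) ∪ Z'))) (J + 1) f'
      (hτinf _ fun τ => ?_) d hd
    rw [← hf'1 τ]
    refine sbC_LT hfT _ ?_
    intro i hi l hil
    rw [hψgen τ i hi, Finsupp.add_apply, Finsupp.smul_apply] at hil
    by_cases h1 : i = l
    · rw [← h1]
      rcases hi with hi | hi
      · exact Or.inl hi
      · exact Or.inr (Or.inl hi)
    · rw [Finsupp.single_eq_of_ne (Ne.symm h1), zero_add] at hil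
      have h2 : v i l ≠ 0 := fun h => hil (by rw [h, smul_zero])
      simp only [hv] at h2
      rw [Finsupp.finsetSum_apply] at h2
      obtain ⟨l', -, hl'⟩ := Finset.exists_ne_zero_of_sum_ne_zero h2
      rw [Finsupp.smul_apply] at hl'
      by_cases h3 : yd l' = l
      · exact Or.inr (Or.inr ⟨l', h3⟩)
      · rw [Finsupp.single_eq_of_ne (Ne.symm h3), smul_zero] at hl'
        exact absurd rfl hl'
  -- (F)
  have hFf : (hh s q (fun i => ee (y (Sum.inl i))) (fun i => ee (y (Sum.inr i))) : R) • f ∈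
      nn M := by
    have hel : ∀ l, (Sum.elim (fun i => (ee (y (Sum.inl i)) : V))
        (fun i => ee (y (Sum.inr i)))) l = ee (y l) := by
      rintro (l | l) <;> rfl
    refine hF Z hZf hZ hZi f hf htr hfT (TD_of_hom hdeg (by omega)) _ _ ?_ ?_
    · intro l l'
      rw [hel, hel, T5.om_eq, Byy]
    · intro l z hz
      rw [hel, T5.om_eq, Bye l z hz]
  -- the polynomial
  obtain ⟨P, hP⟩ := sbR_poly (R := R) ee (Function.extend y a 0)
    (hh s q (fun i => ee (y (Sum.inl i))) (fun i => ee (y (Sum.inr i))))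
  have hP' : ∀ t : ℂ, P.eval (algebraMap ℂ R t) =
      hh s q (fun i => t • ee (y (Sum.inl i)) + a (Sum.inl i))
        (fun i => t • ee (y (Sum.inr i)) + a (Sum.inr i)) := by
    intro t
    rw [← hP, sbR_hh]
    congr 1
    · funext i
      rw [linC_ee, y_inj.extend_apply]
    · funext i
      rw [linC_ee, y_inj.extend_apply]
  have hP0 : P.coeff 0 = hh s q (fun i => a (Sum.inl i)) (fun i => a (Sum.inr i)) := by
    have h1 := hP' 0
    rw [map_zero, ← Polynomial.coeff_zero_eq_eval_zero] at h1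
    rw [h1]
    congr 1
    · funext i
      rw [zero_smul, zero_add]
    · funext i
      rw [zero_smul, zero_add]
  -- the main family
  have hmain : ∀ t : ℂ, t ≠ 0 →
      (P.eval (algebraMap ℂ R t)) • ∑ d ∈ Finset.range (J + 1), t ^ (J - d) • f' d ∈ nn M := by
    intro t ht
    set Φ : ℕ → V := Function.extend y (fun l => t • ee (y l) + a l)
      (fun i => if i < 2 * n then ee i + t⁻¹ • v i else ee i) with hΦ
    have Φy : ∀ l, Φ (y l) = t • ee (y l) + a l := fun l => by rw [hΦ, y_inj.extend_apply]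
    have Φe : ∀ i ∈ Set.Iio (2 * n) ∪ Z, Φ i = ee i + t⁻¹ • v i := by
      intro i hi
      have h1 : ¬ ∃ l, y l = i := by
        rintro ⟨l, hl⟩
        have h2 := hL1 i hi
        simp only [hy] at hl
        omega
      rw [hΦ, Function.extend_apply' _ _ _ h1]
      exact hψgen _ i hi
    have h1 := witt1 (nn_GS hM) hFf (T := (Set.Iio (2 * n) ∪ Z) ∪ Set.range y)
      (((Set.finite_Iio _).union hZf).union (Set.finite_range _)) (by
        rw [smul_eq_C_mul]
        refine Subalgebra.mul_mem _ ?_ (LT_mono Set.subset_union_left hfT)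
        exact hh_LT _ s q _ _ (fun i => Or.inr ⟨_, rfl⟩) (fun i => Or.inr ⟨_, rfl⟩)) Φ (by
        have hmix : ∀ i ∈ Set.Iio (2 * n) ∪ Z, ∀ l, T5.B (Φ i) (Φ (y l)) = 0 := by
          intro i hi l
          rw [Φe i hi, Φy, T5.B_al, T5.B_ar, T5.B_ar, T5.B_sl, T5.B_sl, T5.B_sr, T5.B_sr, Bva,
            Bvy, T5.B_anti (ee i) (ee (y l)), Bye l i hi, T5.B_anti (ee i) (a l)]
          field_simp
          ring
        rintro i (hi | ⟨l, rfl⟩) i' (hi' | ⟨l', rfl⟩)
        · rw [Φe i hi, Φe i' hi', T5.om_eq, T5.om_eq, T5.B_al, T5.B_ar, T5.B_ar, T5.B_sl,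
            T5.B_sl, T5.B_sr, T5.B_sr, Bvv, Bve i i' hi', T5.B_anti (ee i) (v i'), Bve i' i hi]
          ring
        · rw [T5.om_eq, T5.om_eq, hmix i hi l', T5.B_anti, Bye l' i hi, neg_zero]
        · rw [T5.om_eq, T5.om_eq, T5.B_anti, hmix i' hi' l, Bye l i' hi', neg_zero]
        · rw [Φy, Φy, T5.om_eq, T5.om_eq, T5.B_al, T5.B_ar, T5.B_ar, T5.B_sl, T5.B_sl, T5.B_sr,
            T5.B_sr, Byy, Bya, T5.B_anti (a l) (ee (y l')), Bya, Baa]
          ring)
    rw [sbC_smul, sbR_hh] at h1
    have h2 : sbC Φ f = ∑ d ∈ Finset.range (J + 1), t⁻¹ ^ d • f' d := by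
      rw [← hf'1 t⁻¹]
      apply sbC_congr hfT
      intro i hi
      rw [Φe i hi, hψgen _ i hi]
    have h3 : ∑ d ∈ Finset.range (J + 1), t ^ (J - d) • f' d = t ^ J • sbC Φ f := by
      rw [h2, Finset.smul_sum]
      apply Finset.sum_congr rfl
      intro d hd
      have hd' : d ≤ J := by
        have := Finset.mem_range.1 hd
        omega
      rw [smul_smul]
      congr 1
      rw [inv_pow, ← div_eq_mul_inv, pow_sub₀ _ ht hd', div_eq_mul_inv]
    rw [h3, hP', smul_comm]
    refine smulC_mem _ _ ?_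
    have h4 : (fun i => linC Φ (ee (y (Sum.inl i)))) =
        fun i => t • (ee (y (Sum.inl i)) : V) + a (Sum.inl i) := by
      funext i
      rw [linC_ee, Φy]
    have h5 : (fun i => linC Φ (ee (y (Sum.inr i)))) =
        fun i => t • (ee (y (Sum.inr i)) : V) + a (Sum.inr i) := by
      funext i
      rw [linC_ee, Φy]
    rw [h4, h5] at h1
    exact h1
  -- the coefficient of `t ^ J`
  have hcoef : ∑ d ∈ Finset.range (J + 1), P.coeff d • f' d ∈ nn M := by
    set Q : Polynomial (U R) := (P.map (C : R →+* U R)) *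
      ∑ d ∈ Finset.range (J + 1), Polynomial.C (f' d) * Polynomial.X ^ (J - d) with hQ
    have h1 := vand_poly ((nn M).restrictScalars ℂ) Q (by
      refine Set.Infinite.mono (s := {t : ℂ | t ≠ 0}) ?_ ?_
      · intro t ht
        have h2 := hmain t ht
        have h3 : Q.eval (algebraMap ℂ (U R) t) =
            (P.eval (algebraMap ℂ R t)) • ∑ d ∈ Finset.range (J + 1), t ^ (J - d) • f' d := by
          rw [hQ, Polynomial.eval_mul, smul_eq_C_mul]
          congr 1
          · have h4 : (algebraMap ℂ (U R) t) = (C : R →+* U R) (algebraMap ℂ R t) := rfl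
            rw [h4, Polynomial.eval_map_apply]
          · rw [Polynomial.eval_finsetSum]
            apply Finset.sum_congr rfl
            intro d _
            rw [Polynomial.eval_mul, Polynomial.eval_C, Polynomial.eval_pow, Polynomial.eval_X,
              ← map_pow, Algebra.smul_def, mul_comm]
        change Q.eval (algebraMap ℂ (U R) t) ∈ (nn M).restrictScalars ℂ
        rw [h3]
        exact h2
      · exact (Set.finite_singleton (0 : ℂ)).infinite_compl) J
    have h2 : Q.coeff J = ∑ d ∈ Finset.range (J + 1), P.coeff d • f' d := by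
      rw [hQ, Finset.mul_sum, Polynomial.finsetSum_coeff]
      apply Finset.sum_congr rfl
      intro d hd
      have hd' : d ≤ J := by
        have := Finset.mem_range.1 hd
        omega
      rw [← mul_assoc, Polynomial.coeff_mul_X_pow', if_pos (by omega), Polynomial.coeff_mul_C,
        Polynomial.coeff_map, smul_eq_C_mul]
      congr 3
      omega
    rw [h2] at h1
    exact h1
  -- the induction hypothesis
  set Pi : R := ∏ i : Fin (j + 1), hh s q (fun a => w i.succ (Sum.inl a))
    (fun b => w i.succ (Sum.inr b)) with hPi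
  have hIH : ∀ d ∈ Finset.range J, Pi • f' (d + 1) ∈ nn M := by
    intro d hd
    have hd' := Finset.mem_range.1 hd
    refine IH Z' (hZf.union (Set.finite_range _)) ?_ ?_ _ (hmemM _ (by omega))
      (htr' _ (by omega)) (hLT' _ (by omega)) (TD_of_hom (hf'2 (d + 1)) (by omega))
      (fun i => w i.succ) (fun i i' a a' => hw _ _ _ _) ?_
    · rintro z (hz | ⟨l, rfl⟩)
      · exact hZ z hz
      · simp only [hyd]
        omega
    · rintro z (hz | ⟨l, rfl⟩) z' (hz' | ⟨l', rfl⟩)
      · exact hZi z hz z' hz'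
      · rw [T5.om_eq, T5.B_anti, Bde l' z (Or.inr hz), neg_zero]
      · rw [T5.om_eq, Bde l z' (Or.inr hz')]
      · rw [T5.om_eq, Bdd]
    · rintro i b z (hz | ⟨l, rfl⟩)
      · exact hwZ _ _ z hz
      · rw [T5.om_eq, T5.B_anti, T5.B_far (w i.succ b) (hL2 _ _) (by simp only [hyd]; omega),
          neg_zero]
  have hfin := smul_mem_nn (M := M) Pi hcoef
  rw [Finset.sum_range_succ', smul_add, hf'0, hP0, Finset.smul_sum] at hfin
  have h6 : ∑ d ∈ Finset.range J, Pi • P.coeff (d + 1) • f' (d + 1) ∈ nn M := by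
    apply Submodule.sum_mem
    intro d hd
    rw [smul_comm]
    exact smul_mem_nn _ (hIH d hd)
  have h7 := (Submodule.add_mem_iff_right _ h6).1 hfin
  rw [smul_smul] at h7
  rw [Fin.prod_univ_succ, mul_comm]
  exact h7

end C8

/-- claim S(j) of paper 5.5 -/
theorem A_claim {r s k q n D : ℕ} (S : Finset ℕ) (M : Submodule R (U R)) (hM : GLS M)
    (hMS : M ≤ MS R S) (hF : FProp r s k q n D S M) (j : ℕ) (hj : j ≤ D) (Z : Set ℕ)
    (hZf : Z.Finite) (hZ : ∀ z ∈ Z, 2 * n ≤ z) (hZi : ∀ z ∈ Z, ∀ z' ∈ Z, om (ee z) (ee z') = 0)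
    (f : U R) (hf : f ∈ M) (htr : TrZ S f) (hfT : f ∈ LT R (Set.Iio (2 * n) ∪ Z))
    (hTD : TD n j f) (w : Fin (j + 1) → (Fin r ⊕ Fin k) → V)
    (hw : ∀ i i' a a', om (w i a) (w i' a') = 0) (hwZ : ∀ i a, ∀ z ∈ Z, om (w i a) (ee z) = 0) :
    (∏ i, hh s q (fun a => w i (Sum.inl a)) (fun b => w i (Sum.inr b)) : R) • f ∈ nn M := by
  induction j generalizing Z f with
  | zero =>
    obtain ⟨g, hfg, hg⟩ := hTD
    rw [zero_add, Finset.sum_range_one] at hfg
    have h1 := LT_of_TD_zero hfT (fun c => by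
      have h2 := hg 0 c
      rw [← hfg] at h2
      exact h2)
    refine smul_mem_nn _ (mem_nn_of_iso_letters hf h1 ?_)
    rintro i ⟨hi, hi2⟩ i' ⟨hi', hi2'⟩
    exact hZi i (hi.resolve_left hi2) i' (hi'.resolve_left hi2')
  | succ j IH =>
    obtain ⟨g, hfg, hg⟩ := TD_comp n (j + 1) S M hM (Set.Iio (2 * n) ∪ Z) f hf hfT htr (by
      intro i hi l hl _
      rw [T5.om_eq, T5.B_anti, T5.B_far (n := n) (ee i) (fun m hm =>
        Finsupp.single_eq_of_ne (by omega)) hl, neg_zero]) (by
      intro i hi l hl hiT hlT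
      refine hZi i (hiT.resolve_left ?_) l (hlT.resolve_left ?_)
      · rw [Set.mem_Iio]
        omega
      · rw [Set.mem_Iio]
        omega) hTD
    rw [hfg, Finset.smul_sum]
    apply Submodule.sum_mem
    intro d hd
    have hd' := Finset.mem_range.1 hd
    obtain ⟨hg1, hg2, hg3, hg4⟩ := hg d
    exact C8.hom_step S M hM hF j hj (fun Z hZf hZ hZi f hf htr hfT hTD w hw hwZ =>
      IH (by omega) Z hZf hZ hZi f hf htr hfT hTD w hw hwZ) Z hZf hZ hZi _ hg1 hg3 hg2 d
      (by omega) hg4 w hw hwZ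

/-- (A) -/
theorem A55 {r s k q n D : ℕ} (S : Finset ℕ) (M : Submodule R (U R)) (hM : GLS M)
    (hMS : M ≤ MS R S) (hF : FProp r s k q n D S M)
    (f : U R) (hf : f ∈ M) (htr : TrZ S f) (hfT : f ∈ LT R (Set.Iio (2 * n)))
    (hTD : TD n D f) (w : Fin (D + 1) → (Fin r ⊕ Fin k) → V)
    (hw : ∀ i i' a a', om (w i a) (w i' a') = 0) :
    (∏ i, hh s q (fun a => w i (Sum.inl a)) (fun b => w i (Sum.inr b)) : R) • f ∈ nn M :=
  A_claim S M hM hMS hF D le_rfl ∅ Set.finite_empty (fun _ h => absurd h (Set.notMem_empty _))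
    (fun _ h => absurd h (Set.notMem_empty _)) f hf htr
    (LT_mono Set.subset_union_left hfT) hTD w hw
    (fun _ _ _ h => absurd h (Set.notMem_empty _))

end MP50e386N
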