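import Mathlib
import Pool.Agent.Lib.MP_50e386_al.N.TDefs
import Pool.Agent.Lib.MP_50e386_al.N.T2
import Pool.Agent.Lib.MP_50e386_al.N.T3
import Pool.Agent.Lib.MP_50e386_al.N.T8
import Pool.Agent.Lib.MP_50e386_al.N.C6
import Pool.Agent.Lib.MP_50e386_al.N.C7
import Pool.Agent.Lib.MP_50e386_al.N.C8

/-! Block C (paper 5.1-5.6): interface. -/

namespace MP50e386N

open MvPolynomial Pool.Agent.Lib.MP50e386

variable {R : Type} [CommRing R] [Algebra ℂ R] [GLRing R]

private theorem cm_linC (g : Cinf ≃ₗ[ℂ] Cinf) (c : ℂ) (v : V) :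
    linC (fun i => c • g (ee i)) v = c • g v := by
  have h0 : linC (fun i => c • g (ee i)) = c • g.toLinearMap := by
    apply Finsupp.lhom_ext'
    intro i
    apply LinearMap.ext_ring
    change linC (fun i => c • g (ee i)) (ee i) = c • g (ee i)
    rw [linC_ee]
  rw [h0]
  rfl

private theorem cm_om_even (i j : ℕ) : om (ee (2 * i)) (ee (2 * j)) = 0 := by
  have h := T5.B_bb 0 i j
  rw [T5.om_eq]
  simpa only [Nat.mul_zero, Nat.zero_add] using h

private theorem cm_om_smul (g : Cinf ≃ₗ[ℂ] Cinf) (hg : IsSp g) (c : ℂ) (v w : V)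
    (h : om v w = 0) : om (c • g v) (c • g w) = 0 := by
  rw [T5.om_eq, T5.B_sl, T5.B_sr, ← T5.om_eq]
  change c * (c * sympForm (g v) (g w)) = 0
  rw [hg.2]
  have h' : sympForm v w = 0 := h
  rw [h', mul_zero, mul_zero]

/-- the ideal of 5.6 -/
private noncomputable def cmI (M : Submodule R (U R)) (f : U R) : Ideal R where
  carrier := {h | ∀ g : Cinf ≃ₗ[ℂ] Cinf, IsSp g → ∀ c : ℂ, c ≠ 0 →
    h • sbC (fun i => c • g (ee i)) f ∈ nn M}
  zero_mem' := fun g _ c _ => by
    rw [zero_smul]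
    exact Submodule.zero_mem _
  add_mem' := by
    intro a b ha hb g hg c hc
    rw [add_smul]
    exact Submodule.add_mem _ (ha g hg c hc) (hb g hg c hc)
  smul_mem' := by
    intro a b hb g hg c hc
    rw [smul_eq_mul, mul_smul]
    exact Submodule.smul_mem _ _ (hb g hg c hc)

private theorem cmI_GSI (M : Submodule R (U R)) (hM : GLS M) (f : U R) : GSI (cmI M f) := by
  intro g' hg' c' hc' h hh g hg c hc
  have h1 := hh (g.trans g'.symm) (isSp_mul (isSp_inv hg') hg) (c'⁻¹ * c)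
    (mul_ne_zero (inv_ne_zero hc') hc)
  have h2 := nn_GS hM g' hg' c' hc' _ h1
  rw [sbC_smul, sbC_sbC] at h2
  have h3 : (fun i => linC (fun i => c' • g' (ee i)) ((c'⁻¹ * c) • (g.trans g'.symm) (ee i))) =
      fun i => c • g (ee i) := by
    funext i
    rw [cm_linC, map_smul, LinearEquiv.trans_apply, LinearEquiv.apply_symm_apply, smul_smul,
      mul_inv_cancel_left₀ hc']
  rw [h3] at h2
  exact h2

private theorem cm_inj (r k D : ℕ) : Function.Injective
    (fun p : Fin D × (Fin r ⊕ Fin k) =>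
      Sum.elim (fun a : Fin r => 2 * ((p.1 : ℕ) * (r + k) + (a : ℕ)))
        (fun b : Fin k => 2 * ((p.1 : ℕ) * (r + k) + (r + (b : ℕ)))) p.2) := by
  have key : ∀ (i i' a a' : ℕ), a < r + k → a' < r + k →
      2 * (i * (r + k) + a) = 2 * (i' * (r + k) + a') → i = i' ∧ a = a' := by
    intro i i' a a' ha ha' h
    have h1 : i * (r + k) + a = i' * (r + k) + a' := by omega
    have h2 : (i * (r + k) + a) / (r + k) = i := by
      rw [mul_comm, Nat.mul_add_div (by omega), Nat.div_eq_of_lt ha, add_zero]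
    have h3 : (i' * (r + k) + a') / (r + k) = i' := by
      rw [mul_comm, Nat.mul_add_div (by omega), Nat.div_eq_of_lt ha', add_zero]
    have h4 : i = i' := by rw [← h2, ← h3, h1]
    subst h4
    exact ⟨rfl, by omega⟩
  rintro ⟨i, a | b⟩ ⟨i', a' | b'⟩ h
  · simp only [Sum.elim_inl] at h
    obtain ⟨h1, h2⟩ := key _ _ _ _ (by omega) (by omega) h
    rw [Fin.ext h1, Fin.ext h2]
  · simp only [Sum.elim_inl, Sum.elim_inr] at h
    obtain ⟨h1, h2⟩ := key _ _ _ _ (by omega) (by omega) h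
    exfalso
    have := a.2
    omega
  · simp only [Sum.elim_inl, Sum.elim_inr] at h
    obtain ⟨h1, h2⟩ := key _ _ _ _ (by omega) (by omega) h
    exfalso
    have := a'.2
    omega
  · simp only [Sum.elim_inr] at h
    obtain ⟨h1, h2⟩ := key _ _ _ _ (by omega) (by omega) h
    have h3 : (b : ℕ) = b' := by omega
    rw [Fin.ext h1, Fin.ext h3]

/-- 5.6: for `f ∈ M` homogeneous and killed by all traces there is a nonzero `GS` ideal `I` with
`I f ≤ nn M`. -/
theorem torsion56 (r s : ℕ) (hP1 : ∀ w : Fin (r + 1) → V, (Dl w : R) ^ (s + 1) = 0)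
    (hP3 : ∀ (D k q : ℕ) (v : Fin D → Fin r → ℕ) (c : Fin D → Fin k → ℕ),
      Function.Injective (fun p : Fin D × (Fin r ⊕ Fin k) => Sum.elim (v p.1) (c p.1) p.2) →
      (∏ d, hh s q (fun i => ee (v d i)) (fun j => ee (c d j)) : R) ≠ 0)
    (S : Finset ℕ) (M : Submodule R (U R)) (hM : GLS M) (hMS : M ≤ MS R S) (D : ℕ) (f : U R)
    (hf : f ∈ M) (hD : HW D f) (htr : ∀ a ∈ S, ∀ b ∈ S, a ≠ b → tr a b f = 0) :
    ∃ I : Ideal R, GSI I ∧ I ≠ ⊥ ∧ ∀ a ∈ I, a • f ∈ nn M := by
  refine ⟨cmI M f, cmI_GSI M hM f, ?_, ?_⟩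
  · obtain ⟨n, hn⟩ := exists_LT f
    have hfT : f ∈ LT R (Set.Iio (2 * n)) := LT_mono (Set.Iio_subset_Iio (by omega)) hn
    obtain ⟨k, q, hF⟩ := F54 (R := R) (r := r) (s := s) hP1 S M hM hMS n D
    have hne := hP3 (D + 1) k q
      (fun i a => 2 * ((i : ℕ) * (r + k) + (a : ℕ)))
      (fun i b => 2 * ((i : ℕ) * (r + k) + (r + (b : ℕ)))) (cm_inj r k (D + 1))
    intro hbot
    apply hne
    rw [← Ideal.mem_bot, ← hbot]
    intro g hg c hc
    -- the vectors `c⁻¹ g⁻¹ w`
    set w0 : Fin (D + 1) → (Fin r ⊕ Fin k) → V := fun i => Sum.elim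
      (fun a : Fin r => ee (2 * ((i : ℕ) * (r + k) + (a : ℕ))))
      (fun b : Fin k => ee (2 * ((i : ℕ) * (r + k) + (r + (b : ℕ))))) with hw0
    have hiso : ∀ i i' a a', om (w0 i a) (w0 i' a') = 0 := by
      intro i i' a a'
      rcases a with a | a <;> rcases a' with a' | a' <;> exact cm_om_even _ _
    have hA := A55 (R := R) (s := s) (q := q) S M hM hMS hF f hf htr hfT (TD_of_HW hD)
      (fun i a => c⁻¹ • g.symm (w0 i a))
      (fun i i' a a' => cm_om_smul g.symm (isSp_inv hg) c⁻¹ _ _ (hiso i i' a a'))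
    have h2 := nn_GS hM g hg c hc _ hA
    rw [sbC_smul, map_prod] at h2
    have h3 : (∏ i, sbR (fun i => c • g (ee i)) (hh s q
        (fun a => c⁻¹ • g.symm (w0 i (Sum.inl a))) (fun b => c⁻¹ • g.symm (w0 i (Sum.inr b))) : R)) =
        ∏ i : Fin (D + 1), hh s q (fun a : Fin r => ee (2 * ((i : ℕ) * (r + k) + (a : ℕ))))
          (fun b : Fin k => ee (2 * ((i : ℕ) * (r + k) + (r + (b : ℕ))))) := by
      refine Finset.prod_congr rfl fun i _ => ?_
      rw [sbR_hh]
      have h4 : ∀ v : V, linC (fun i => c • g (ee i)) (c⁻¹ • g.symm v) = v := by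
        intro v
        rw [cm_linC, map_smul, LinearEquiv.apply_symm_apply, smul_smul, mul_inv_cancel₀ hc,
          one_smul]
      simp only [h4]
      rfl
    rw [h3] at h2
    exact h2
  · intro a ha
    have h := ha (LinearEquiv.refl ℂ Cinf) T5.isSp_refl 1 one_ne_zero
    have h1 : (fun i => (1 : ℂ) • (LinearEquiv.refl ℂ Cinf) (ee i)) = ee := by
      funext i
      rw [one_smul, LinearEquiv.refl_apply]
    rw [h1, sbC_id] at h
    exact h

end MP50e386N
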