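import Mathlib
import Pool.Agent.Lib.MP_50e386_al.Bridge

/-!
Definitions for block HOOK (paper section 2) and the exterior evaluation ring `EB_{r|2s}`.
-/

namespace MP50e386N

open MvPolynomial

/-! ### the polynomial ring on symmetric `N × N` matrices -/

abbrev AN (N : ℕ) := MvPolynomial (Sym2 (Fin N)) ℂ

/-- Fischer weight of a variable: `1` on the diagonal, `1/2` off the diagonal -/
noncomputable def fw {N : ℕ} (v : Sym2 (Fin N)) : ℝ := if v.IsDiag then 1 else 1 / 2

/-- Fischer weight of a monomial -/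
noncomputable def fm {N : ℕ} (m : Sym2 (Fin N) →₀ ℕ) : ℝ :=
  ∏ v, ((m v).factorial : ℝ) * fw v ^ m v

/-- Fischer form, conjugate linear in the first variable -/
noncomputable def fis {N : ℕ} (f g : AN N) : ℂ :=
  ∑ m ∈ f.support, (starRingEnd ℂ) (f.coeff m) * g.coeff m * (fm m : ℂ)

/-- `E_ab`: the derivation replacing the letter `b` by `a` -/
noncomputable def Eop {N : ℕ} (a b : Fin N) : Derivation ℂ (AN N) (AN N) :=
  mkDerivation ℂ (Sym2.lift ⟨fun i j =>
    (if i = b then (X s(a, j) : AN N) else 0) + (if j = b then (X s(a, i) : AN N) else 0),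
    fun i j => add_comm _ _⟩)

/-- the leading minor of size `j + 1` -/
noncomputable def lead {N : ℕ} (j : Fin N) : AN N :=
  (Matrix.of fun a b : Fin (j.val + 1) =>
    (X s(Fin.castLE j.2 a, Fin.castLE j.2 b) : AN N)).det

/-- `Delta^alpha` -/
noncomputable def DelA {N : ℕ} (α : Fin N → ℕ) : AN N := ∏ j, lead j ^ α j

/-- substitution `e_i ↦ ∑_k g_ki e_k` on `AN N` -/
noncomputable def subN {N : ℕ} (g : Matrix (Fin N) (Fin N) ℂ) : AN N →ₐ[ℂ] AN N :=
  aeval (Sym2.lift ⟨fun i j => ∑ k, ∑ l, C (g k i * g l j) * (X s(k, l) : AN N),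
    fun i j => by
      show (∑ k, ∑ l, C (g k i * g l j) * (X s(k, l) : AN N)) =
        ∑ k, ∑ l, C (g k j * g l i) * (X s(k, l) : AN N)
      rw [Finset.sum_comm]
      refine Finset.sum_congr rfl fun k _ => Finset.sum_congr rfl fun l _ => ?_
      rw [mul_comm (g l i) (g k j), Sym2.eq_swap]⟩)

/-! ### the exterior evaluation -/

/-- even coordinates `g_{i,a}` -/
abbrev PG (r : ℕ) := MvPolynomial (ℕ × Fin r) ℂ

/-- `EB_{r|2s}` -/
abbrev EB (r s : ℕ) := ExteriorAlgebra (PG r) ((ℕ × (Fin s ⊕ Fin s)) →₀ PG r)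

/-- the odd coordinates `theta_{i,b}` -/
noncomputable def th {r s : ℕ} (i : ℕ) (b : Fin s ⊕ Fin s) : EB r s :=
  ExteriorAlgebra.ι (PG r) (Finsupp.single (i, b) 1)

/-- the even coordinates `g_{i,a}` in `EB` -/
noncomputable def gg {r s : ℕ} (i : ℕ) (a : Fin r) : EB r s := algebraMap (PG r) (EB r s) (X (i, a))

/-- the image of `x_ij` -/
noncomputable def xE (r s : ℕ) (i j : ℕ) : EB r s :=
  ∑ a, gg i a * gg j a + ∑ c : Fin s, (th i (Sum.inl c) * th j (Sum.inr c)
    - th i (Sum.inr c) * th j (Sum.inl c))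

theorem ext_mul_mem_center {K M : Type} [CommRing K] [AddCommGroup M] [Module K M] (m m' : M)
    (y : ExteriorAlgebra K M) :
    ExteriorAlgebra.ι K m * ExteriorAlgebra.ι K m' * y =
      y * (ExteriorAlgebra.ι K m * ExteriorAlgebra.ι K m') := by
  have key : ∀ a b : M, ExteriorAlgebra.ι K a * ExteriorAlgebra.ι K b =
      -(ExteriorAlgebra.ι K b * ExteriorAlgebra.ι K a) := by
    intro a b
    rw [eq_neg_iff_add_eq_zero]
    exact ExteriorAlgebra.ι_add_mul_swap a b
  induction y using ExteriorAlgebra.induction with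
  | algebraMap c => exact (Algebra.commutes c _).symm
  | ι n =>
    rw [mul_assoc, key m' n, mul_neg, ← mul_assoc, key m n, neg_mul, neg_neg, mul_assoc]
  | mul a b ha hb => rw [← mul_assoc, ha, mul_assoc, hb, mul_assoc]
  | add a b ha hb => rw [mul_add, ha, hb, add_mul]

theorem xE_mem_center (r s i j : ℕ) : xE r s i j ∈ Subalgebra.center ℂ (EB r s) := by
  rw [Subalgebra.mem_center_iff]
  intro y
  unfold xE
  rw [mul_add, add_mul]
  congr 1
  · rw [Finset.mul_sum, Finset.sum_mul]
    refine Finset.sum_congr rfl fun a _ => ?_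
    unfold gg
    rw [← map_mul]
    exact (Algebra.commutes _ _).symm
  · rw [Finset.mul_sum, Finset.sum_mul]
    refine Finset.sum_congr rfl fun c _ => ?_
    unfold th
    rw [mul_sub, sub_mul, ext_mul_mem_center, ext_mul_mem_center]

theorem xE_comm (r s i j : ℕ) : xE r s i j = xE r s j i := by
  have key : ∀ (i j : ℕ) (b b' : Fin s ⊕ Fin s), (th i b * th j b' : EB r s) =
      -(th j b' * th i b) := by
    intro i j b b'
    rw [eq_neg_iff_add_eq_zero]
    exact ExteriorAlgebra.ι_add_mul_swap _ _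
  unfold xE
  congr 1
  · refine Finset.sum_congr rfl fun a _ => ?_
    unfold gg
    rw [← map_mul, ← map_mul, mul_comm]
  · refine Finset.sum_congr rfl fun c _ => ?_
    rw [key i j (Sum.inl c) (Sum.inr c), key i j (Sum.inr c) (Sum.inl c)]
    abel

/-- the evaluation `A → center of EB_{r|2s}` -/
noncomputable def evE (r s : ℕ) : MP50e386.A →ₐ[ℂ] Subalgebra.center ℂ (EB r s) :=
  aeval (Sym2.lift ⟨fun i j => ⟨xE r s i j, xE_mem_center r s i j⟩, fun i j => by
    rw [Subtype.mk.injEq]; exact xE_comm r s i j⟩)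

/-- the ideal `J_{r|s}` -/
noncomputable def Jrs (r s : ℕ) : Ideal MP50e386.A := RingHom.ker (evE r s)

end MP50e386N
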