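import Mathlib
import Pool.Agent.Lib.MP_50e386_al.N.HDefs

/-! Tools on the exterior algebra `EB_{r|2s}` (used by `H6`, `H7`). -/

namespace MP50e386N

open MvPolynomial

/-! ### semilinear algebra maps out of `EB` -/

theorem xa_sq {K T X : Type} [CommRing K] [Ring T] [Algebra K T] (τ : X → T)
    (hτ : ∀ x y, τ x * τ y = -(τ y * τ x)) (hτ2 : ∀ x, τ x * τ x = 0) (m : X →₀ K) :
    Finsupp.linearCombination K τ m * Finsupp.linearCombination K τ m = 0 := by
  set L := Finsupp.linearCombination K τ with hL
  have h1 : ∀ (x : X) (a : K) (y : X) (b : K), L (Finsupp.single x a) * L (Finsupp.single y b) =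
      -(L (Finsupp.single y b) * L (Finsupp.single x a)) := by
    intro x a y b
    rw [hL, Finsupp.linearCombination_single, Finsupp.linearCombination_single,
      smul_mul_smul_comm, smul_mul_smul_comm, hτ, smul_neg, mul_comm]
  have h2 : ∀ (x : X) (a : K) (m : X →₀ K), L (Finsupp.single x a) * L m =
      -(L m * L (Finsupp.single x a)) := by
    intro x a m
    induction m using Finsupp.induction_linear with
    | zero => rw [map_zero, mul_zero, zero_mul, neg_zero]
    | add f g hf hg => rw [map_add, mul_add, hf, hg, add_mul, neg_add]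
    | single y b => exact h1 x a y b
  have h3 : ∀ m m' : X →₀ K, L m * L m' = -(L m' * L m) := by
    intro m m'
    induction m using Finsupp.induction_linear with
    | zero => rw [map_zero, mul_zero, zero_mul, neg_zero]
    | add f g hf hg => rw [map_add, add_mul, hf, hg, mul_add, neg_add]
    | single y b => exact h2 y b m'
  induction m using Finsupp.induction_linear with
  | zero => rw [map_zero, mul_zero]
  | add f g hf hg =>
    rw [map_add, add_mul, mul_add, mul_add, hf, hg, h3 f g]
    abel
  | single x a =>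
    rw [hL, Finsupp.linearCombination_single, smul_mul_smul_comm, hτ2, smul_zero]

/-- semilinear extension -/
theorem exists_lift {r s : ℕ} {T : Type} [Ring T] [Algebra ℂ T] (φ : PG r →ₐ[ℂ] T)
    (hφ : ∀ (p : PG r) (x : T), φ p * x = x * φ p) (τ : ℕ × (Fin s ⊕ Fin s) → T)
    (hτ : ∀ x y, τ x * τ y = -(τ y * τ x)) :
    ∃ Ψ : EB r s →+* T, (∀ p, Ψ (algebraMap (PG r) (EB r s) p) = φ p) ∧
      ∀ i b, Ψ (th i b) = τ (i, b) := by
  letI : Algebra (PG r) T := φ.toRingHom.toAlgebra' hφ
  have hτ2 : ∀ x, τ x * τ x = 0 := by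
    intro x
    have h := hτ x x
    have h2 : (2 : ℂ) • (τ x * τ x) = 0 := by
      rw [two_smul]
      nth_rewrite 1 [h]
      exact neg_add_cancel _
    exact (smul_eq_zero.1 h2).resolve_left two_ne_zero
  let F := ExteriorAlgebra.lift (PG r) ⟨Finsupp.linearCombination (PG r) τ, xa_sq τ hτ hτ2⟩
  refine ⟨F.toRingHom, ?_, ?_⟩
  · intro p
    exact F.commutes p
  · intro i b
    change F (ExteriorAlgebra.ι (PG r) (Finsupp.single (i, b) 1)) = τ (i, b)
    rw [ExteriorAlgebra.lift_ι_apply, Finsupp.linearCombination_single, one_smul]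

/-! ### torsion freeness -/

theorem EB_smul_eq_zero {r s : ℕ} {c : PG r} {x : EB r s}
    (h : algebraMap (PG r) (EB r s) c * x = 0) (hc : c ≠ 0) : x = 0 := by
  letI : LinearOrder (ℕ × (Fin s ⊕ Fin s)) := IsWellOrder.linearOrder WellOrderingRel
  let B : Module.Basis (Finset (ℕ × (Fin s ⊕ Fin s))) (PG r) (EB r s) :=
    Module.Basis.ExteriorAlgebra (Finsupp.basisSingleOne (R := PG r) (ι := ℕ × (Fin s ⊕ Fin s)))
  rw [← Algebra.smul_def] at h
  apply B.repr.injective
  rw [map_zero]
  have h1 : c • B.repr x = 0 := by rw [← map_smul, h, map_zero]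
  ext1 t
  have h2 := congrArg (fun f : Finset (ℕ × (Fin s ⊕ Fin s)) →₀ PG r => f t) h1
  simp only [Finsupp.smul_apply, smul_eq_mul, Finsupp.zero_apply] at h2
  exact (mul_eq_zero.1 h2).resolve_left hc

/-! ### products of distinct odd variables -/

theorem xa_multi_ne {K X : Type} [CommRing K] [Nontrivial K] {n : ℕ} (x : Fin n → X)
    (hx : Function.Injective x) :
    ExteriorAlgebra.ιMulti K n (fun i => (Finsupp.single (x i) 1 : X →₀ K)) ≠ 0 := by
  classical
  intro h
  let g : AlternatingMap K (X →₀ K) K (Fin n) :=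
    (Matrix.detRowAlternating (n := Fin n) (R := K)).compLinearMap
      (LinearMap.pi fun j => Finsupp.lapply (x j))
  let f : (i : ℕ) → AlternatingMap K (X →₀ K) K (Fin i) := Function.update (fun _ => 0) n g
  have h1 := congrArg (ExteriorAlgebra.liftAlternating (R := K) f) h
  rw [ExteriorAlgebra.liftAlternating_apply_ιMulti, map_zero] at h1
  have h2 : f n = g := Function.update_self _ _ _
  rw [h2] at h1
  have h3 : g (fun i => (Finsupp.single (x i) 1 : X →₀ K)) = 1 := by
    change Matrix.det (fun i j => (Finsupp.single (x i) (1 : K)) (x j)) = 1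
    have h4 : (fun i j => (Finsupp.single (x i) (1 : K)) (x j)) = (1 : Matrix (Fin n) (Fin n) K) := by
      ext i j
      rw [Matrix.one_apply, Finsupp.single_apply]
      by_cases hij : i = j
      · rw [if_pos hij, if_pos (congrArg x hij)]
      · rw [if_neg hij, if_neg (fun h' => hij (hx h'))]
    rw [h4, Matrix.det_one]
  rw [h3] at h1
  exact one_ne_zero h1

theorem th_prod_ne_zero {r s : ℕ} (L : List (ℕ × (Fin s ⊕ Fin s))) (hL : L.Nodup) :
    (L.map (fun x => (th x.1 x.2 : EB r s))).prod ≠ 0 := by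
  have h := xa_multi_ne (K := PG r) (fun i : Fin L.length => L.get i)
    (List.nodup_iff_injective_get.1 hL)
  rw [ExteriorAlgebra.ιMulti_apply] at h
  have h1 : (List.ofFn fun i : Fin L.length => ExteriorAlgebra.ι (PG r)
      (Finsupp.single (L.get i) (1 : PG r))) = L.map (fun x => (th x.1 x.2 : EB r s)) := by
    conv_rhs => rw [← List.ofFn_get L]
    rw [List.map_ofFn]
    rfl
  rw [h1] at h
  exact h

/-- the even element `theta_{i,c} theta'_{j,c}` -/
noncomputable def zz {r s : ℕ} (c : Fin s) (i j : ℕ) : Subalgebra.center ℂ (EB r s) :=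
  ⟨th i (Sum.inl c) * th j (Sum.inr c), by
    rw [Subalgebra.mem_center_iff]
    intro y
    unfold th
    exact (ext_mul_mem_center _ _ y).symm⟩

theorem zz_coe {r s : ℕ} (c : Fin s) (i j : ℕ) :
    ((zz c i j : Subalgebra.center ℂ (EB r s)) : EB r s) =
      th i (Sum.inl c) * th j (Sum.inr c) := rfl

theorem th_swap {r s : ℕ} (i j : ℕ) (b b' : Fin s ⊕ Fin s) :
    (th i b * th j b' : EB r s) = -(th j b' * th i b) := by
  rw [eq_neg_iff_add_eq_zero]
  exact ExteriorAlgebra.ι_add_mul_swap _ _

theorem zz_rel {r s : ℕ} (c : Fin s) (i j k l : ℕ) :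
    (zz c i j * zz c k l : Subalgebra.center ℂ (EB r s)) = -(zz c i l * zz c k j) := by
  apply Subtype.ext
  rw [Subalgebra.coe_neg, Subalgebra.coe_mul, Subalgebra.coe_mul, zz_coe, zz_coe, zz_coe, zz_coe]
  have h1 : (th j (Sum.inr c) * (th k (Sum.inl c) * th l (Sum.inr c)) : EB r s) =
      -(th l (Sum.inr c) * (th k (Sum.inl c) * th j (Sum.inr c))) := by
    rw [← mul_assoc, th_swap j k, neg_mul, mul_assoc, th_swap j l, mul_neg, neg_neg,
      ← mul_assoc, th_swap k l, neg_mul, mul_assoc]
  rw [mul_assoc, h1, mul_neg, mul_assoc]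

theorem zz_prod_ne_zero {r s : ℕ} (S : Finset (ℕ × Fin s)) :
    (∏ p ∈ S, zz p.2 p.1 p.1 : Subalgebra.center ℂ (EB r s)) ≠ 0 := by
  intro h
  have h1 : ∀ L : List (ℕ × Fin s),
      (((L.map (fun p => zz p.2 p.1 p.1)).prod : Subalgebra.center ℂ (EB r s)) : EB r s) =
      ((L.flatMap (fun p => [(p.1, Sum.inl p.2), (p.1, Sum.inr p.2)])).map
        (fun x => (th x.1 x.2 : EB r s))).prod := by
    intro L
    induction L with
    | nil => simp
    | cons a L ih =>
      rw [List.map_cons, List.prod_cons, Subalgebra.coe_mul, ih, List.flatMap_cons,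
        List.map_append, List.prod_append, zz_coe]
      congr 1
      simp
  have h2 : (S.toList.flatMap (fun p => [((p.1, Sum.inl p.2) : ℕ × (Fin s ⊕ Fin s)),
      (p.1, Sum.inr p.2)])).Nodup := by
    rw [List.nodup_flatMap]
    constructor
    · intro p _
      simp
    · refine (Finset.nodup_toList S).imp ?_
      intro a b hab
      rw [Function.onFun, List.disjoint_left]
      intro x hx hx'
      apply hab
      simp only [List.mem_cons, List.not_mem_nil, or_false] at hx hx'
      rcases hx with rfl | rfl <;> rcases hx' with h | h <;>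
        simp only [Prod.mk.injEq, Sum.inl.injEq, Sum.inr.injEq, reduceCtorEq, and_false] at h
      · exact Prod.ext h.1 h.2
      · exact Prod.ext h.1 h.2
  apply th_prod_ne_zero (r := r) _ h2
  rw [← h1, Finset.prod_map_toList, h]
  rfl

end MP50e386N
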