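import Mathlib
import Pool.Agent.Lib.MP_50e386_al.N.TDefs

/-! Definitions for block G: the maps `Th`. -/

namespace MP50e386N

open MvPolynomial Pool.Agent.Lib.MP50e386

variable {R : Type} [CommRing R] [Algebra ℂ R] [GLRing R]

/-- `Th_g : ∏_k z_{lab k, j_k} ↦ g(e_{j_0}, …, e_{j_{n-1}})`, `R`-linear -/
noncomputable def Th (g : U R) (lab : ℕ → ℕ) : U R →ₗ[R] U R :=
  (basisMonomials (ℕ × ℕ) R).constr R
    (fun m => sbC (fun k => m.sum fun p e => if p.1 = lab k then (e : ℂ) • ee p.2 else 0) g)

/-- the set of labels -/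
def labS (n : ℕ) (lab : ℕ → ℕ) : Finset ℕ := (Finset.range n).image lab

/-- the `R`-span of all substitutions of `g` -/
noncomputable def spn (g : U R) : Submodule R (U R) :=
  Submodule.span R (Set.range fun φ : ℕ → V => sbC φ g)

end MP50e386N
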