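import Mathlib
import Pool.Agent.Lib.MP_50e386_al.N.GDefs
import Pool.Agent.Lib.MP_50e386_al.N.T1
import Pool.Agent.Lib.MP_50e386_al.N.T2
import Pool.Agent.Lib.MP_50e386_al.N.T3
import Pool.Agent.Lib.MP_50e386_al.N.T4

/-! Multilinear elements and the maps `Th` (paper section 4, GL MODULES ARE GOOD). -/

namespace MP50e386N

open MvPolynomial Pool.Agent.Lib.MP50e386

variable {R : Type} [CommRing R] [Algebra ℂ R] [GLRing R]

/-! ### auxiliary facts -/

private theorem g1_cst_ee (j : ℕ) : (cst (ee j) : VR R) = Finsupp.single j 1 := by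
  unfold cst
  simp [Finsupp.mapRange.linearMap_apply, Finsupp.mapRange_single]

private theorem g1_cst_smul_ee (j : ℕ) (c : ℂ) : (cst (c • ee j) : VR R) =
    (algebraMap ℂ R c) • Finsupp.single j 1 := by
  rw [map_smul, g1_cst_ee, algebraMap_smul]

private theorem g1_supp (n : ℕ) :
    ((∑ i ∈ Finset.range n, Finsupp.single i 1 : ℕ →₀ ℕ).support : Set ℕ) ⊆ Set.Iio n := by
  intro k hk
  rw [Finset.mem_coe, Finsupp.mem_support_iff, Finsupp.finsetSum_apply] at hk
  by_contra hn
  apply hk
  refine Finset.sum_eq_zero fun i hi => ?_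
  rw [Finsupp.single_apply, if_neg]
  intro h
  apply hn
  rw [Set.mem_Iio, ← h]
  exact Finset.mem_range.1 hi

private theorem g1_congr {n : ℕ} {g : U R} (hg : ML n g) (ψ ψ' : ℕ → VR R)
    (h : ∀ k < n, ψ k = ψ' k) : sbU ψ g = sbU ψ' g :=
  sbU_congr (MW_LT hg) ψ ψ' fun i hi => h i (g1_supp n hi)

private theorem g1_actR_single (ψ : ℕ → VR R) (i : ℕ) (a : R) :
    actR ψ (Finsupp.single i a) = GLRing.sb ψ a • ψ i := by
  unfold actR
  rw [Finsupp.sum_single_index]
  rw [map_zero, zero_smul]

/-- homogeneity of degree `1` -/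
private theorem g1_homog {n : ℕ} {g : U R} (hg : ML n g) (ψ : ℕ → VR R) (k : ℕ) (hk : k < n)
    (y : VR R) (c : ℂ) :
    sbU (Function.update ψ k ((algebraMap ℂ R c) • y)) g = c • sbU (Function.update ψ k y) g := by
  have h1 := hg (Function.update (fun _ => (1 : ℂ)) k c)
  have h2 : (∑ i ∈ Finset.range n, Finsupp.single i 1 : ℕ →₀ ℕ).prod
      (fun i e => (Function.update (fun _ => (1 : ℂ)) k c) i ^ e) = c := by
    rw [← Finsupp.prod_finsetSum_index (fun _ => pow_zero _) (fun _ _ _ => pow_add _ _ _)]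
    have hs : ∀ b : ℕ, (Finsupp.single b 1 : ℕ →₀ ℕ).prod
        (fun i e => (Function.update (fun _ => (1 : ℂ)) k c) i ^ e) =
        Function.update (fun _ => (1 : ℂ)) k c b := fun b =>
      (Finsupp.prod_single_index
        (h := fun i e => (Function.update (fun _ => (1 : ℂ)) k c) i ^ e) (pow_zero _)).trans
        (pow_one _)
    refine (Finset.prod_congr rfl fun b _ => hs b).trans ?_
    rw [Finset.prod_eq_single_of_mem k (Finset.mem_range.2 hk)]
    · rw [Function.update_self]
    · intro b _ hb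
      rw [Function.update_of_ne hb]
  rw [h2] at h1
  have h3 := congrArg (sbU (Function.update ψ k y)) h1
  rw [sbU_smulC] at h3
  rw [← h3]
  unfold sbC
  rw [sbU_sbU]
  congr 2
  funext i
  rw [g1_cst_smul_ee, Finsupp.smul_single, smul_eq_mul, mul_one, g1_actR_single]
  have h4 : GLRing.sb (Function.update ψ k y)
      (algebraMap ℂ R (Function.update (fun _ => (1 : ℂ)) k c i)) =
      algebraMap ℂ R (Function.update (fun _ => (1 : ℂ)) k c i) := AlgHom.commutes _ _
  rw [h4]
  by_cases hi : i = k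
  · subst hi
    rw [Function.update_self, Function.update_self, Function.update_self]
  · rw [Function.update_of_ne hi, Function.update_of_ne hi, Function.update_of_ne hi, map_one,
      one_smul]

private theorem g1_poly (g : U R) (ψ : ℕ → VR R) (k : ℕ) (y y' : VR R) :
    ∃ P : MvPolynomial (Fin 2) (U R), ∀ t : Fin 2 → R,
      sbU (Function.update ψ k (t 0 • y + t 1 • y')) g = eval (fun i => C (t i)) P := by
  obtain ⟨P, hP⟩ := exists_sbU_poly (σ := Fin 2)
    (Function.update (fun i => (ψ i).mapRange (C : R → MvPolynomial (Fin 2) R) (map_zero _)) k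
      ((X 0 : MvPolynomial (Fin 2) R) • y.mapRange (C : R → MvPolynomial (Fin 2) R) (map_zero _) +
        (X 1 : MvPolynomial (Fin 2) R) • y'.mapRange (C : R → MvPolynomial (Fin 2) R)
          (map_zero _))) g
  refine ⟨P, fun t => ?_⟩
  rw [← hP t]
  congr 2
  funext i
  by_cases hi : i = k
  · subst hi
    rw [Function.update_self, Function.update_self]
    ext l
    simp
  · rw [Function.update_of_ne hi, Function.update_of_ne hi]
    ext l
    simp

private theorem g1_evalC {σ : Type} (P : MvPolynomial σ (U R)) (t : σ → ℂ) :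
    eval (fun i => (C (algebraMap ℂ R (t i)) : U R)) P =
      ∑ m ∈ P.support, (m.prod fun i k => t i ^ k) • coeff m P := by
  rw [eval_eq]
  refine Finset.sum_congr rfl fun m _ => ?_
  rw [Algebra.smul_def, mul_comm]
  congr 1
  rw [Finsupp.prod, map_prod]
  refine Finset.prod_congr rfl fun i _ => ?_
  rw [map_pow]
  rfl

private theorem g1_lin {n : ℕ} {g : U R} (hg : ML n g) (ψ : ℕ → VR R) (k : ℕ) (hk : k < n)
    (y y' : VR R) : ∃ p q : U R, ∀ a b : R,
      sbU (Function.update ψ k (a • y + b • y')) g = C a * p + C b * q := by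
  obtain ⟨P, hP⟩ := g1_poly g ψ k y y'
  have h1 : ∀ m ∈ P.support, ((2 : ℂ) ^ m.degree - 2) • coeff m P ∈ (⊥ : Submodule ℂ (U R)) := by
    apply vandM
    intro t _
    rw [Submodule.mem_bot]
    have e1 := hP (fun i => algebraMap ℂ R (t i))
    have e2 := hP (fun i => algebraMap ℂ R (2 * t i))
    rw [g1_evalC P t] at e1
    rw [g1_evalC P (fun i => 2 * t i)] at e2
    have e3 : algebraMap ℂ R (2 * t 0) • y + algebraMap ℂ R (2 * t 1) • y' =
        algebraMap ℂ R 2 • (algebraMap ℂ R (t 0) • y + algebraMap ℂ R (t 1) • y') := by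
      rw [map_mul, map_mul, smul_add, mul_smul, mul_smul]
    rw [e3, g1_homog hg ψ k hk, e1, Finset.smul_sum] at e2
    simp_rw [smul_smul, mul_sub, sub_smul]
    rw [Finset.sum_sub_distrib, sub_eq_zero]
    refine Eq.trans ?_ (Eq.trans e2.symm ?_)
    · refine Finset.sum_congr rfl fun m _ => ?_
      congr 1
      rw [Finsupp.prod, Finsupp.prod]
      simp_rw [mul_pow]
      rw [Finset.prod_mul_distrib, mul_comm, Finset.prod_pow_eq_pow_sum]
      rfl
    · refine Finset.sum_congr rfl fun m _ => ?_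
      rw [mul_comm, smul_smul]
  have h2 : ∀ m : Fin 2 →₀ ℕ, m.degree ≠ 1 → coeff m P = 0 := by
    intro m hm
    by_cases hs : m ∈ P.support
    · have h3 := h1 m hs
      rw [Submodule.mem_bot, smul_eq_zero] at h3
      rcases h3 with h3 | h3
      · exfalso
        rw [sub_eq_zero] at h3
        have h4 : (2 : ℕ) ^ m.degree = 2 ^ 1 := by
          rw [pow_one]
          exact_mod_cast h3
        exact hm (Nat.pow_right_injective le_rfl h4)
      · exact h3
    · exact notMem_support_iff.1 hs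
  have hdeg : ∀ m : Fin 2 →₀ ℕ, m.degree = 1 → m = Finsupp.single 0 1 ∨ m = Finsupp.single 1 1 := by
    intro m hm
    have h3 : m.degree = m 0 + m 1 := by
      rw [Finsupp.degree_eq_sum, Fin.sum_univ_two]
    rw [h3] at hm
    rcases Nat.eq_zero_or_pos (m 0) with h0 | h0
    · right
      ext i
      fin_cases i
      · simpa using h0
      · simp
        omega
    · left
      ext i
      fin_cases i
      · simp
        omega
      · simp
        omega
  refine ⟨coeff (Finsupp.single 0 1) P, coeff (Finsupp.single 1 1) P, fun a b => ?_⟩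
  have h3 := hP ![a, b]
  simp only [Matrix.cons_val_zero, Matrix.cons_val_one] at h3
  rw [h3, eval_eq]
  have h4 : P.support ⊆ {Finsupp.single 0 1, Finsupp.single 1 1} := by
    intro m hm
    rw [Finset.mem_insert, Finset.mem_singleton]
    apply hdeg
    by_contra h
    exact (mem_support_iff.1 hm) (h2 m h)
  rw [Finset.sum_subset h4 (fun m _ hm => by rw [notMem_support_iff.1 hm, zero_mul])]
  have h5 : (Finsupp.single (0 : Fin 2) 1 : Fin 2 →₀ ℕ) ≠ Finsupp.single 1 1 := by
    intro h
    have := DFunLike.congr_fun h 0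
    simp at this
  rw [Finset.sum_pair h5]
  rw [Finsupp.support_single_ne_zero _ one_ne_zero, Finsupp.support_single_ne_zero _ one_ne_zero]
  simp [mul_comm]

/-- a multilinear element is `R`-multilinear in the substituted vectors -/
theorem ML_add {n : ℕ} {g : U R} (hg : ML n g) (ψ : ℕ → VR R) (k : ℕ) (hk : k < n) (y y' : VR R) :
    sbU (Function.update ψ k (y + y')) g =
      sbU (Function.update ψ k y) g + sbU (Function.update ψ k y') g := by
  obtain ⟨p, q, h⟩ := g1_lin hg ψ k hk y y'
  have h1 := h 1 1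
  have h2 := h 1 0
  have h3 := h 0 1
  simp only [one_smul, zero_smul, add_zero, zero_add, map_one, map_zero, one_mul, zero_mul]
    at h1 h2 h3
  rw [h1, h2, h3]

theorem ML_smul {n : ℕ} {g : U R} (hg : ML n g) (ψ : ℕ → VR R) (k : ℕ) (hk : k < n) (a : R)
    (y : VR R) : sbU (Function.update ψ k (a • y)) g = a • sbU (Function.update ψ k y) g := by
  obtain ⟨p, q, h⟩ := g1_lin hg ψ k hk y 0
  have h1 := h a 0
  have h2 := h 1 0
  simp only [one_smul, zero_smul, add_zero, map_one, map_zero, one_mul, zero_mul] at h1 h2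
  rw [h1, h2, smul_eq_C_mul]

/-- the vector of a slot in a monomial -/
private noncomputable def g1_w (a : ℕ) (m : ℕ × ℕ →₀ ℕ) : V :=
  m.sum fun p e => if p.1 = a then (e : ℂ) • ee p.2 else 0

private theorem g1_w_add (a : ℕ) (m m' : ℕ × ℕ →₀ ℕ) : g1_w a (m + m') = g1_w a m + g1_w a m' := by
  unfold g1_w
  refine Finsupp.sum_add_index' ?_ ?_
  · intro p
    simp
  · intro p e e'
    split_ifs
    · rw [Nat.cast_add, add_smul]
    · rw [add_zero]

private theorem g1_w_zero (a : ℕ) : g1_w a 0 = 0 := by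
  unfold g1_w
  exact Finsupp.sum_zero_index

private theorem g1_w_single (a : ℕ) (p : ℕ × ℕ) :
    g1_w a (Finsupp.single p 1) = if p.1 = a then ee p.2 else 0 := by
  unfold g1_w
  rw [Finsupp.sum_single_index]
  · split_ifs
    · rw [Nat.cast_one, one_smul]
    · rfl
  · simp

private theorem g1_w_sum (a : ℕ) (s : Finset ℕ) (f : ℕ → (ℕ × ℕ →₀ ℕ)) :
    g1_w a (∑ k ∈ s, f k) = ∑ k ∈ s, g1_w a (f k) := by
  classical
  induction s using Finset.induction_on with
  | empty => rw [Finset.sum_empty, Finset.sum_empty, g1_w_zero]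
  | insert k s hk ih => rw [Finset.sum_insert hk, Finset.sum_insert hk, g1_w_add, ih]

private theorem g1_Th_monomial (g : U R) (lab : ℕ → ℕ) (m : ℕ × ℕ →₀ ℕ) :
    Th g lab (monomial m 1) = sbC (fun k => g1_w (lab k) m) g := by
  have h1 : (monomial m (1 : R) : U R) = basisMonomials (ℕ × ℕ) R m := by
    rw [coe_basisMonomials]
  rw [h1]
  unfold Th
  rw [Module.Basis.constr_basis]
  rfl

private theorem g1_prod_X (n : ℕ) (lab j : ℕ → ℕ) :
    (∏ k ∈ Finset.range n, X (lab k, j k) : U R) =
      monomial (∑ k ∈ Finset.range n, Finsupp.single (lab k, j k) 1) 1 := by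
  rw [monomial_sum_one]
  rfl

theorem Th_mono (g : U R) {n : ℕ} (hg : ML n g) (lab : ℕ → ℕ) (hlab : Set.InjOn lab (Set.Iio n))
    (j : ℕ → ℕ) : Th g lab (∏ k ∈ Finset.range n, X (lab k, j k)) = sbC (fun k => ee (j k)) g := by
  rw [g1_prod_X, g1_Th_monomial]
  unfold sbC
  refine g1_congr hg _ _ fun k hk => ?_
  congr 1
  simp only [g1_w_sum, g1_w_single]
  rw [Finset.sum_eq_single_of_mem k (Finset.mem_range.2 hk)]
  · rw [if_pos rfl]
  · intro k' hk' hne
    rw [if_neg]
    intro h
    exact hne (hlab (Finset.mem_range.1 hk') hk h)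

theorem Th_self (g : U R) {n : ℕ} (hg : ML n g) (lab : ℕ → ℕ) (hlab : Set.InjOn lab (Set.Iio n)) :
    Th g lab (∏ k ∈ Finset.range n, X (lab k, k)) = g := by
  have h1 := Th_mono g hg lab hlab (fun k => k)
  rw [h1]
  exact sbC_id g

private theorem g1_prod_update (n : ℕ) (lab : ℕ → ℕ) (y : ℕ → VR R) (K : ℕ) (hK : K < n)
    (v : VR R) :
    (∏ k ∈ Finset.range n, zf (lab k) (Function.update y K v k) : U R) =
      zf (lab K) v * ∏ k ∈ (Finset.range n).erase K, zf (lab k) (y k) := by
  rw [← Finset.mul_prod_erase _ _ (Finset.mem_range.2 hK), Function.update_self]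
  congr 1
  refine Finset.prod_congr rfl fun k hk => ?_
  rw [Function.update_of_ne (Finset.ne_of_mem_erase hk)]

private theorem g1_Th_prod (g : U R) {n : ℕ} (hg : ML n g) (lab : ℕ → ℕ)
    (hlab : Set.InjOn lab (Set.Iio n)) (K : ℕ) : ∀ y : ℕ → VR R,
    (∀ k, K ≤ k → k < n → ∃ j : ℕ, y k = Finsupp.single j 1) →
    Th g lab (∏ k ∈ Finset.range n, zf (lab k) (y k)) = sbU y g := by
  induction K with
  | zero =>
    intro y hy
    choose! j hj using fun k (hk : k < n) => hy k (Nat.zero_le _) hk
    have e1 : (∏ k ∈ Finset.range n, zf (lab k) (y k) : U R) =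
        ∏ k ∈ Finset.range n, X (lab k, j k) := by
      refine Finset.prod_congr rfl fun k hk => ?_
      rw [hj k (Finset.mem_range.1 hk), zf_single, one_smul]
    rw [e1, Th_mono g hg lab hlab]
    unfold sbC
    refine g1_congr hg _ _ fun k hk => ?_
    rw [g1_cst_ee, hj k hk]
  | succ K ih =>
    intro y hy
    by_cases hK : K < n
    · have key : ∀ v : VR R, Th g lab (∏ k ∈ Finset.range n,
          zf (lab k) (Function.update y K v k)) = sbU (Function.update y K v) g := by
        intro v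
        induction v using Finsupp.induction_linear with
        | zero =>
          have h1 := ML_smul hg y K hK 0 0
          rw [smul_zero, zero_smul] at h1
          rw [h1, g1_prod_update n lab y K hK, map_zero, zero_mul, map_zero]
        | add v v' hv hv' =>
          rw [ML_add hg y K hK, ← hv, ← hv', g1_prod_update n lab y K hK,
            g1_prod_update n lab y K hK, g1_prod_update n lab y K hK, map_add, add_mul, map_add]
        | single i a =>
          have e1 : (Finsupp.single i a : VR R) = a • Finsupp.single i 1 := by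
            rw [Finsupp.smul_single, smul_eq_mul, mul_one]
          have h2 := ih (Function.update y K (Finsupp.single i 1)) (by
            intro k hk1 hk2
            by_cases h : k = K
            · subst h
              exact ⟨i, by rw [Function.update_self]⟩
            · rw [Function.update_of_ne h]
              exact hy k (by omega) hk2)
          rw [e1, ML_smul hg y K hK, ← h2, g1_prod_update n lab y K hK,
            g1_prod_update n lab y K hK, map_smul, smul_mul_assoc, map_smul]
      have h3 := key (y K)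
      rwa [Function.update_eq_self] at h3
    · exact ih y fun k hk1 hk2 => absurd hk2 (by omega)

private theorem g1_Th_all (g : U R) {n : ℕ} (hg : ML n g) (lab : ℕ → ℕ)
    (hlab : Set.InjOn lab (Set.Iio n)) (y : ℕ → VR R) :
    Th g lab (∏ k ∈ Finset.range n, zf (lab k) (y k)) = sbU y g :=
  g1_Th_prod g hg lab hlab n y fun k h1 h2 => absurd h2 (by omega)

/-! ### the structure of the multilinear monomials -/

private theorem g1_sdeg_pos {a : ℕ} {m : ℕ × ℕ →₀ ℕ} (h : sdeg a m = 1) :
    ∃ j : ℕ, m (a, j) = 1 ∧ ∀ j', m (a, j') ≠ 0 → j' = j := by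
  classical
  unfold sdeg at h
  rw [Finsupp.sum] at h
  have h1 : ∃ p ∈ m.support, (if p.1 = a then m p else 0) ≠ 0 := by
    by_contra hc
    push Not at hc
    rw [Finset.sum_eq_zero hc] at h
    exact zero_ne_one h
  obtain ⟨p, hp, hne⟩ := h1
  have hpa : p.1 = a := by
    by_contra hc
    rw [if_neg hc] at hne
    exact hne rfl
  rw [← Finset.add_sum_erase _ _ hp, if_pos hpa] at h
  rw [if_pos hpa] at hne
  have hp' : p = (a, p.2) := Prod.ext hpa rfl
  have h2 : m p = 1 := by omega
  have h3 : ∑ q ∈ m.support.erase p, (if q.1 = a then m q else 0) = 0 := by omega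
  refine ⟨p.2, by rw [← hp']; exact h2, fun j' hj' => ?_⟩
  by_contra hc
  rw [Finset.sum_eq_zero_iff] at h3
  have h4 := h3 (a, j') (by
    rw [Finset.mem_erase, Finsupp.mem_support_iff]
    refine ⟨fun he => hc ?_, hj'⟩
    rw [← he])
  rw [if_pos rfl] at h4
  exact hj' h4

private theorem g1_struct {n : ℕ} {lab : ℕ → ℕ} (hlab : Set.InjOn lab (Set.Iio n))
    {m : ℕ × ℕ →₀ ℕ} (hm : ∀ a, sdeg a m = if a ∈ labS n lab then 1 else 0) :
    ∃ j : ℕ → ℕ, m = ∑ k ∈ Finset.range n, Finsupp.single (lab k, j k) 1 := by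
  classical
  have h1 : ∀ k, k < n → ∃ j : ℕ, m (lab k, j) = 1 ∧ ∀ j', m (lab k, j') ≠ 0 → j' = j := by
    intro k hk
    apply g1_sdeg_pos
    rw [hm, if_pos]
    exact Finset.mem_image_of_mem _ (Finset.mem_range.2 hk)
  choose! j hj using h1
  refine ⟨j, ?_⟩
  ext ⟨a, i⟩
  rw [Finsupp.finsetSum_apply]
  by_cases ha : a ∈ labS n lab
  · obtain ⟨k, hk, rfl⟩ := Finset.mem_image.1 ha
    have hk' := Finset.mem_range.1 hk
    rw [Finset.sum_eq_single_of_mem k hk]
    · by_cases hi : i = j k
      · rw [hi, Finsupp.single_eq_same, (hj k hk').1]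
      · rw [Finsupp.single_apply, if_neg]
        · by_contra hc
          exact hi ((hj k hk').2 i hc)
        · intro h
          exact hi (Prod.ext_iff.1 h).2.symm
    · intro k' hk'' hne
      rw [Finsupp.single_apply, if_neg]
      intro h
      exact hne (hlab (Finset.mem_range.1 hk'') hk' (Prod.ext_iff.1 h).1)
  · have h2 : m (a, i) = 0 := by
      by_contra hc
      have h3 := hm a
      rw [if_neg ha] at h3
      unfold sdeg at h3
      rw [Finsupp.sum, Finset.sum_eq_zero_iff] at h3
      have h4 := h3 (a, i) (Finsupp.mem_support_iff.2 hc)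
      rw [if_pos rfl] at h4
      exact hc h4
    rw [h2]
    symm
    refine Finset.sum_eq_zero fun k hk => ?_
    rw [Finsupp.single_apply, if_neg]
    intro h
    apply ha
    have h' : lab k = a := (Prod.ext_iff.1 h).1
    rw [← h']
    exact Finset.mem_image_of_mem _ hk

private theorem g1_MS_ind {n : ℕ} {lab : ℕ → ℕ} (hlab : Set.InjOn lab (Set.Iio n))
    (p : U R → Prop) (h0 : p 0) (hadd : ∀ f f', p f → p f' → p (f + f'))
    (hs : ∀ (a : R) f, p f → p (a • f))
    (hm : ∀ j : ℕ → ℕ, p (∏ k ∈ Finset.range n, X (lab k, j k)))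
    (f : U R) (hf : f ∈ MS R (labS n lab)) : p f := by
  classical
  have h1 : ∀ m ∈ f.support, p (monomial m (coeff m f)) := by
    intro m hmf
    have h2 : m ∈ {m : ℕ × ℕ →₀ ℕ | ∀ a, sdeg a m = if a ∈ labS n lab then 1 else 0} :=
      ((mem_restrictSupport_iff R).1 hf) (by exact_mod_cast hmf)
    obtain ⟨j, hj⟩ := g1_struct hlab h2
    have h3 : (monomial m (coeff m f) : U R) = coeff m f • monomial m 1 := by
      rw [smul_monomial, smul_eq_mul, mul_one]
    have h4 : (monomial m (1 : R) : U R) = ∏ k ∈ Finset.range n, X (lab k, j k) := by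
      rw [g1_prod_X, ← hj]
    rw [h3, h4]
    exact hs _ _ (hm j)
  rw [f.as_sum]
  exact Finset.sum_induction _ p hadd h0 h1

theorem Th_sbU (g : U R) {n : ℕ} (hg : ML n g) (lab : ℕ → ℕ) (hlab : Set.InjOn lab (Set.Iio n))
    (ψ : ℕ → VR R) (f : U R) (hf : f ∈ MS R (labS n lab)) :
    Th g lab (sbU ψ f) = sbU ψ (Th g lab f) := by
  refine g1_MS_ind hlab (fun f => Th g lab (sbU ψ f) = sbU ψ (Th g lab f)) ?_ ?_ ?_ ?_ f hf
  · simp only [map_zero]
  · intro f f' h h'
    simp only [map_add, h, h']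
  · intro a f h
    simp only [map_smul, sbU_smul, h]
  · intro j
    rw [Th_mono g hg lab hlab, map_prod]
    simp_rw [sbU_X]
    rw [g1_Th_all g hg lab hlab (fun k => ψ (j k))]
    unfold sbC
    rw [sbU_sbU]
    congr 2
    funext i
    rw [g1_cst_ee, g1_actR_single, map_one, one_smul]

theorem Th_sbC (g : U R) {n : ℕ} (hg : ML n g) (lab : ℕ → ℕ) (hlab : Set.InjOn lab (Set.Iio n))
    (φ : ℕ → V) (f : U R) (hf : f ∈ MS R (labS n lab)) :
    Th g lab (sbC φ f) = sbC φ (Th g lab f) := Th_sbU g hg lab hlab _ f hf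

theorem Th_mem {N : Submodule R (U R)} (hN : GLS N) {g : U R} (hg : g ∈ N) (lab : ℕ → ℕ)
    (f : U R) : Th g lab f ∈ N := by
  rw [f.as_sum, map_sum]
  refine Submodule.sum_mem _ fun m _ => ?_
  have h3 : (monomial m (coeff m f) : U R) = coeff m f • monomial m 1 := by
    rw [smul_monomial, smul_eq_mul, mul_one]
  rw [h3, map_smul, g1_Th_monomial]
  exact Submodule.smul_mem _ _ (hN _ g hg)

theorem GLS_spn (g : U R) : GLS (spn g) := by
  unfold spn
  refine GLS_span _ ?_
  rintro φ _ ⟨φ', rfl⟩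
  refine Submodule.subset_span ⟨fun i => linC φ (φ' i), ?_⟩
  simp only
  rw [sbC_sbC]

theorem self_mem_spn (g : U R) : g ∈ spn g := by
  unfold spn
  refine Submodule.subset_span ⟨ee, ?_⟩
  simp only
  exact sbC_id g

theorem spn_le {N : Submodule R (U R)} (hN : GLS N) {g : U R} (hg : g ∈ N) : spn g ≤ N := by
  unfold spn
  rw [Submodule.span_le]
  rintro _ ⟨φ, rfl⟩
  exact hN φ g hg

private theorem g1_sdeg_add (a : ℕ) (m m' : ℕ × ℕ →₀ ℕ) :
    sdeg a (m + m') = sdeg a m + sdeg a m' := by
  unfold sdeg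
  refine Finsupp.sum_add_index' ?_ ?_
  · intro p
    simp
  · intro p e e'
    split_ifs
    · rfl
    · rfl

private theorem g1_sdeg_sum (a : ℕ) (s : Finset ℕ) (f : ℕ → (ℕ × ℕ →₀ ℕ)) :
    sdeg a (∑ k ∈ s, f k) = ∑ k ∈ s, sdeg a (f k) := by
  classical
  induction s using Finset.induction_on with
  | empty =>
    rw [Finset.sum_empty, Finset.sum_empty]
    unfold sdeg
    exact Finsupp.sum_zero_index
  | insert k s hk ih => rw [Finset.sum_insert hk, Finset.sum_insert hk, g1_sdeg_add, ih]

private theorem g1_prod_mem (n : ℕ) (lab j : ℕ → ℕ) (hlab : Set.InjOn lab (Set.Iio n)) :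
    (∏ k ∈ Finset.range n, X (lab k, j k) : U R) ∈ MS R (labS n lab) := by
  classical
  rw [g1_prod_X]
  unfold MS
  rw [mem_restrictSupport_iff]
  intro m hm
  have hm' : m = ∑ k ∈ Finset.range n, Finsupp.single (lab k, j k) 1 := by
    have := support_monomial_subset (Finset.mem_coe.1 hm)
    exact Finset.mem_singleton.1 this
  subst hm'
  intro a
  rw [g1_sdeg_sum]
  have h1 : ∀ k, sdeg a (Finsupp.single (lab k, j k) 1) = if lab k = a then 1 else 0 := by
    intro k
    unfold sdeg
    rw [Finsupp.sum_single_index]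
    simp
  simp_rw [h1]
  by_cases ha : a ∈ labS n lab
  · rw [if_pos ha]
    obtain ⟨k, hk, rfl⟩ := Finset.mem_image.1 ha
    rw [Finset.sum_eq_single_of_mem k hk]
    · rw [if_pos rfl]
    · intro k' hk' hne
      rw [if_neg]
      intro h
      exact hne (hlab (Finset.mem_range.1 hk') (Finset.mem_range.1 hk) h)
  · rw [if_neg ha]
    refine Finset.sum_eq_zero fun k hk => ?_
    rw [if_neg]
    intro h
    apply ha
    rw [← h]
    exact Finset.mem_image_of_mem _ hk

theorem map_Th (g : U R) {n : ℕ} (hg : ML n g) (lab : ℕ → ℕ) (hlab : Set.InjOn lab (Set.Iio n)) :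
    (MS R (labS n lab)).map (Th g lab) = spn g := by
  apply le_antisymm
  · rintro _ ⟨f, _, rfl⟩
    exact Th_mem (GLS_spn g) (self_mem_spn g) lab f
  · unfold spn
    rw [Submodule.span_le]
    rintro _ ⟨φ, rfl⟩
    have h1 := g1_prod_mem (R := R) n lab (fun k => k) hlab
    refine ⟨sbC φ (∏ k ∈ Finset.range n, X (lab k, k)), GLS_MS _ φ _ h1, ?_⟩
    rw [Th_sbC g hg lab hlab φ _ h1, Th_self g hg lab hlab]

/-- elements of multidegree `0` are constants -/
theorem ML_zero {g : U R} (hg : ML 0 g) : ∃ c : ℂ, g = C (algebraMap ℂ R c) := by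
  have h1 := MW_LT hg
  have h2 : ((∑ i ∈ Finset.range 0, Finsupp.single i 1 : ℕ →₀ ℕ).support : Set ℕ) = ∅ := by simp
  rw [h2] at h1
  unfold LT at h1
  have h3 : (({f | ∃ i ∈ (∅ : Set ℕ), ∃ j ∈ (∅ : Set ℕ), f = C (GLRing.x i j)} ∪
    {f | ∃ a, ∃ i ∈ (∅ : Set ℕ), f = X (a, i)}) : Set (U R)) = ∅ := by
    ext f
    simp
  rw [h3, Algebra.adjoin_empty, Algebra.mem_bot] at h1
  obtain ⟨c, hc⟩ := h1
  exact ⟨c, hc.symm⟩

end MP50e386N
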