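import Mathlib
import Pool.Agent.Lib.MP_50e386_al.N.GDefs
import Pool.Agent.Lib.MP_50e386_al.N.T2
import Pool.Agent.Lib.MP_50e386_al.N.T3
import Pool.Agent.Lib.MP_50e386_al.N.T4
import Pool.Agent.Lib.MP_50e386_al.N.T8
import Pool.Agent.Lib.MP_50e386_al.N.G1

/-! (cov): `GL`-stable submodules are finitely generated up to substitutions. -/

namespace MP50e386N

open MvPolynomial Pool.Agent.Lib.MP50e386

variable {R : Type} [CommRing R] [Algebra ℂ R] [GLRing R]

/-- the submodule generated by a list of elements -/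
private noncomputable def covN (l : List (ℕ × U R)) : Submodule R (U R) :=
  l.foldr (fun p N => spn p.2 ⊔ N) ⊥

private theorem covN_cons (p : ℕ × U R) (l : List (ℕ × U R)) :
    covN (p :: l) = spn p.2 ⊔ covN l := rfl

private theorem covN_le (l : List (ℕ × U R)) (X : Submodule R (U R)) :
    covN l ≤ X ↔ ∀ p ∈ l, spn p.2 ≤ X := by
  induction l with
  | nil => simp [covN]
  | cons p l ih =>
    rw [covN_cons, sup_le_iff, ih, List.forall_mem_cons]

private theorem covN_GLS (l : List (ℕ × U R)) : GLS (covN l) := by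
  induction l with
  | nil =>
    intro φ f hf
    rw [covN, List.foldr_nil, Submodule.mem_bot] at hf
    rw [hf, map_zero]
    exact Submodule.zero_mem _
  | cons p l ih => exact GLS.sup (GLS_spn p.2) ih

/-- a good list: multilinear elements of `Y`, at most one constant -/
private def covG (Y : Submodule R (U R)) (l : List (ℕ × U R)) : Prop :=
  (∀ p ∈ l, p.2 ∈ Y ∧ ML p.1 p.2 ∧ p.2 ≠ 0) ∧ l.Pairwise fun p q => ¬ (p.1 = 0 ∧ q.1 = 0)

private theorem cov_step {Y : Submodule R (U R)} (hY : GLS Y) (l : List (ℕ × U R))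
    (hl : covG Y l) (hne : covN l ≠ Y) : ∃ p, covG Y (p :: l) ∧ covN l < covN (p :: l) := by
  have hle : covN l ≤ Y := (covN_le l Y).2 fun p hp => spn_le hY (hl.1 p hp).1
  have h1 : ¬ Y ≤ covN l := fun h => hne (le_antisymm hle h)
  have h2 : ∃ n, ∃ f ∈ Y, ML n f ∧ f ∉ covN l := by
    by_contra hcon
    push Not at hcon
    exact h1 (pol_le hY (covN_GLS l) fun n f hf hml => hcon n f hf hml)
  obtain ⟨n, f, hfY, hml, hf⟩ := h2
  have hf0 : f ≠ 0 := by
    rintro rfl
    exact hf (Submodule.zero_mem _)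
  refine ⟨(n, f), ⟨?_, ?_⟩, ?_⟩
  · intro p hp
    rcases List.mem_cons.1 hp with rfl | hp
    · exact ⟨hfY, hml, hf0⟩
    · exact hl.1 p hp
  · rw [List.pairwise_cons]
    refine ⟨fun q hq h0 => ?_, hl.2⟩
    obtain ⟨h3, h4⟩ := h0
    simp only at h3
    obtain ⟨hq1, hq2, hq3⟩ := hl.1 q hq
    rw [h4] at hq2
    rw [h3] at hml
    obtain ⟨c, hc⟩ := ML_zero hq2
    obtain ⟨c', hc'⟩ := ML_zero hml
    have hc0 : c ≠ 0 := by
      rintro rfl
      apply hq3
      rw [hc, map_zero, map_zero]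
    apply hf
    have h5 : f = (c' * c⁻¹) • q.2 := by
      rw [hc, hc', Algebra.smul_def]
      have e1 : (algebraMap ℂ (U R)) (c' * c⁻¹) = C (algebraMap ℂ R (c' * c⁻¹)) := rfl
      rw [e1, ← C_mul, ← map_mul, inv_mul_cancel_right₀ hc0]
    rw [h5]
    apply smulC_mem
    have h6 : spn q.2 ≤ covN l := (covN_le l (covN l)).1 le_rfl q hq
    exact h6 (self_mem_spn q.2)
  · rw [covN_cons]
    refine lt_of_le_of_ne le_sup_right fun h => ?_
    apply hf
    rw [h]
    exact Submodule.mem_sup_left (self_mem_spn f)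

private theorem cov_exists {L D : ℕ} (h6 : NoethInt (R := R) GLS ⊥ (BD R L D))
    {Y : Submodule R (U R)} (hY : GLS Y) (hYD : Y ≤ BD R L D) : ∃ l, covG Y l ∧ covN l = Y := by
  by_contra hcon
  push Not at hcon
  have hstep : ∀ l : {l : List (ℕ × U R) // covG Y l}, ∃ l' : {l : List (ℕ × U R) // covG Y l},
      covN l.1 < covN l'.1 := by
    rintro ⟨l, hl⟩
    obtain ⟨p, hp, hlt⟩ := cov_step hY l hl (hcon l hl)
    exact ⟨⟨p :: l, hp⟩, hlt⟩
  choose st hst using hstep
  have h0 : covG Y ([] : List (ℕ × U R)) := ⟨by simp, List.Pairwise.nil⟩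
  let s : ℕ → {l : List (ℕ × U R) // covG Y l} := fun n => st^[n] ⟨[], h0⟩
  have hs : ∀ n, covN (s n).1 < covN (s (n + 1)).1 := by
    intro n
    have : s (n + 1) = st (s n) := Function.iterate_succ_apply' st n _
    rw [this]
    exact hst (s n)
  obtain ⟨n0, hn0⟩ := h6 (fun n => covN (s n).1) (monotone_nat_of_le_succ fun n => (hs n).le)
    (fun n => ⟨covN_GLS _, bot_le, ((covN_le _ Y).2 fun p hp =>
      spn_le hY ((s n).2.1 p hp).1).trans hYD⟩)
  have h1 := hn0 (n0 + 1) (Nat.le_succ n0)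
  exact absurd h1 (hs n0).ne'

/-- (cov); at most one generator has degree `0` -/
theorem cov (L D : ℕ) (h6 : NoethInt (R := R) GLS ⊥ (BD R L D)) (Y : Submodule R (U R))
    (hY : GLS Y) (hYD : Y ≤ BD R L D) :
    ∃ (m : ℕ) (d : Fin m → ℕ) (g : Fin m → U R), (∀ i, ML (d i) (g i)) ∧
      Y = ⨆ i, spn (g i) ∧ ∀ i j, d i = 0 → d j = 0 → i = j := by
  obtain ⟨l, hl, hlY⟩ := cov_exists h6 hY hYD
  refine ⟨l.length, fun i => (l.get i).1, fun i => (l.get i).2, ?_, ?_, ?_⟩
  · intro i
    exact (hl.1 _ (List.get_mem l i)).2.1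
  · rw [← hlY]
    apply le_antisymm
    · rw [covN_le]
      intro p hp
      obtain ⟨i, hi⟩ := List.mem_iff_get.1 hp
      rw [← hi]
      exact le_iSup (fun i => spn (l.get i).2) i
    · apply iSup_le
      intro i
      exact (covN_le l (covN l)).1 le_rfl _ (List.get_mem l i)
  · intro i j hi hj
    have h1 := List.pairwise_iff_get.1 hl.2
    rcases lt_trichotomy i j with h | h | h
    · exact absurd ⟨hi, hj⟩ (h1 i j h)
    · exact h
    · exact absurd ⟨hj, hi⟩ (h1 j i h)

end MP50e386N
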