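import Mathlib
import Pool.Agent.Lib.MP_50e386_al.N.GoodDefs
import Pool.Agent.Lib.MP_50e386_al.N.GoodCore

namespace MP50e386N

variable {A : Type} [CommRing A] (h : Ideal A)

private theorem ar_top_iff {M : Type} [AddCommGroup M] [Module A M] (X : Submodule A M) :
    AR h X ⊤ ↔ GC.ARm h X.subtype := by
  constructor
  · intro H K
    obtain ⟨K', hK'⟩ := H K
    refine ⟨K', fun x hx => ?_⟩
    exact (GC.mem_smul_top_iff h X K x).2 (hK' ⟨x.2, hx⟩)
  · intro H K
    obtain ⟨K', hK'⟩ := H K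
    refine ⟨K', ?_⟩
    rintro x ⟨hx, hx'⟩
    exact (GC.mem_smul_top_iff h X K _).1 (hK' ⟨x, hx⟩ hx')

theorem good_iff_goodN : ∀ (n : ℕ) (Q : Type) [AddCommGroup Q] [Module A Q],
    Good h n Q ↔ GC.GoodN h n Q
  | 0, _, _, _ => Iff.rfl
  | n + 1, Q, _, _ => by
    constructor
    · rintro ⟨ι, π, hπ, har, hg⟩
      exact ⟨ι →₀ A, _, _, π, inferInstance, hπ, (ar_top_iff h _).1 har,
        (good_iff_goodN n _).1 hg⟩
    · intro hQ
      obtain ⟨h1, h2⟩ := GC.goodN_indep h hQ (F := Q →₀ A) inferInstance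
        (Finsupp.linearCombination A id) (Finsupp.linearCombination_id_surjective A Q)
      exact ⟨Q, Finsupp.linearCombination A id, Finsupp.linearCombination_id_surjective A Q,
        (ar_top_iff h _).2 h1, (good_iff_goodN n _).2 h2⟩

theorem good_iso {n : ℕ} {Q Q' : Type} [AddCommGroup Q] [Module A Q] [AddCommGroup Q']
    [Module A Q'] (e : Q ≃ₗ[A] Q') (hQ : Good h n Q) : Good h n Q' :=
  (good_iff_goodN h n Q').2 (GC.goodN_iso h n e ((good_iff_goodN h n Q).1 hQ))

theorem good_mono {n m : ℕ} (hmn : m ≤ n) {Q : Type} [AddCommGroup Q] [Module A Q]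
    (hQ : Good h n Q) : Good h m Q := by
  induction n, hmn using Nat.le_induction with
  | base => exact hQ
  | succ n hn ih =>
    exact ih ((good_iff_goodN h n Q).2 (GC.goodN_of_succ h n ((good_iff_goodN h (n + 1) Q).1 hQ)))

theorem good_finsupp {n : ℕ} {Q : Type} [AddCommGroup Q] [Module A Q] (ι : Type)
    (hQ : Good h n Q) : Good h n (ι →₀ Q) :=
  (good_iff_goodN h n _).2 (GC.goodN_finsupp h ι n ((good_iff_goodN h n Q).1 hQ))

theorem good_prod_free {n : ℕ} {Q : Type} [AddCommGroup Q] [Module A Q] (ι : Type)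
    (hQ : Good h n Q) : Good h n (Q × (ι →₀ A)) :=
  (good_iff_goodN h n _).2 (GC.goodN_prod_free h inferInstance n ((good_iff_goodN h n Q).1 hQ))

theorem good_of_prod_free {n : ℕ} {Q : Type} [AddCommGroup Q] [Module A Q] (ι : Type)
    (hQ : Good h n (Q × (ι →₀ A))) : Good h n Q :=
  (good_iff_goodN h n _).2 (GC.goodN_of_prod_free h (F' := ι →₀ A) inferInstance n
    ((good_iff_goodN h n _).1 hQ))

theorem good_free (n : ℕ) (ι : Type) : Good h n (ι →₀ A) :=
  (good_iff_goodN h n _).2 (GC.goodN_free h n inferInstance)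

/-- independence of the free cover -/
theorem good_indep {n : ℕ} {Q : Type} [AddCommGroup Q] [Module A Q] (hQ : Good h (n + 1) Q)
    {ι : Type} (π : (ι →₀ A) →ₗ[A] Q) (hπ : Function.Surjective π) :
    AR h (LinearMap.ker π) ⊤ ∧ Good h n (LinearMap.ker π) := by
  obtain ⟨h1, h2⟩ := GC.goodN_indep h ((good_iff_goodN h (n + 1) Q).1 hQ) inferInstance π hπ
  exact ⟨(ar_top_iff h _).2 h1, (good_iff_goodN h n _).2 h2⟩

end MP50e386N
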