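import Mathlib
import Pool.Agent.Lib.MP_50e386_al.N.GoodDefs
import Pool.Agent.Lib.MP_50e386_al.N.GoodCore
import Pool.Agent.Lib.MP_50e386_al.N.Good1

namespace MP50e386N

variable {A : Type} [CommRing A] (h : Ideal A)
variable {X Y Q : Type} [AddCommGroup X] [Module A X] [AddCommGroup Y] [Module A Y]
  [AddCommGroup Q] [Module A Q]

private theorem exact_iff (f : X →ₗ[A] Y) (g : Y →ₗ[A] Q)
    (hfg : LinearMap.range f = LinearMap.ker g) (y : Y) : g y = 0 ↔ ∃ x, f x = y := by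
  rw [← LinearMap.mem_ker, ← hfg, LinearMap.mem_range]

theorem good_ext {n : ℕ} (f : X →ₗ[A] Y) (g : Y →ₗ[A] Q) (hf : Function.Injective f)
    (hg : Function.Surjective g) (hfg : LinearMap.range f = LinearMap.ker g)
    (hX : Good h n X) (hQ : Good h n Q) : Good h n Y :=
  (good_iff_goodN h n _).2 (GC.goodN_ext h n f g hf hg (exact_iff f g hfg)
    ((good_iff_goodN h n _).1 hX) ((good_iff_goodN h n _).1 hQ))

theorem good_quot {n : ℕ} (f : X →ₗ[A] Y) (g : Y →ₗ[A] Q) (hf : Function.Injective f)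
    (hg : Function.Surjective g) (hfg : LinearMap.range f = LinearMap.ker g)
    (hX : Good h n X) (hY : Good h (n + 1) Y) (har : AR h (LinearMap.range f) ⊤) :
    Good h (n + 1) Q := by
  refine (good_iff_goodN h (n + 1) _).2 (GC.goodN_quot h f g hf hg (exact_iff f g hfg)
    ((good_iff_goodN h (n + 1) _).1 hY) ((good_iff_goodN h n _).1 hX) ?_)
  intro K
  obtain ⟨K', hK'⟩ := har K
  refine ⟨K', fun x hx => ?_⟩
  have h1 : f x ∈ h ^ K • LinearMap.range f := hK' ⟨⟨x, rfl⟩, hx⟩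
  rw [← Submodule.map_top, ← Submodule.map_smul''] at h1
  obtain ⟨x', hx', hxx⟩ := h1
  rwa [hf hxx] at hx'

theorem good_sub {n : ℕ} (f : X →ₗ[A] Y) (g : Y →ₗ[A] Q) (hf : Function.Injective f)
    (hg : Function.Surjective g) (hfg : LinearMap.range f = LinearMap.ker g)
    (hY : Good h n Y) (hQ : Good h (n + 1) Q) : Good h n X :=
  (good_iff_goodN h n _).2 (GC.goodN_sub h f g hf hg (exact_iff f g hfg)
    ((good_iff_goodN h n _).1 hY) ((good_iff_goodN h (n + 1) _).1 hQ))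

theorem ar_of_good (g : Y →ₗ[A] Q) (hg : Function.Surjective g) (hQ : Good h 1 Q) :
    AR h (LinearMap.ker g) ⊤ := by
  have h1 := GC.arm_of_goodN_quot h (LinearMap.ker g).subtype g
    (Submodule.injective_subtype _) hg (fun y => ⟨fun hy => ⟨⟨y, hy⟩, rfl⟩, by
      rintro ⟨x, rfl⟩
      exact x.2⟩) ((good_iff_goodN h 1 _).1 hQ)
  intro K
  obtain ⟨K', hK'⟩ := h1 K
  refine ⟨K', ?_⟩
  rintro x ⟨hx, hx'⟩
  exact (GC.mem_smul_top_iff h (LinearMap.ker g) K _).1 (hK' ⟨x, hx⟩ hx')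

end MP50e386N
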