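import Mathlib
import Pool.Agent.Lib.MP_50e386_al.N.GoodDefs
import Pool.Agent.Lib.MP_50e386_al.N.GoodCore
import Pool.Agent.Lib.MP_50e386_al.N.Good2

namespace MP50e386N

variable {A : Type} [CommRing A] (h : Ideal A) {M : Type} [AddCommGroup M] [Module A M]

/-- (g5) -/
theorem ar_of_pow_smul_le {X Y : Submodule A M} {a : ℕ} (_hXY : X ≤ Y) (ha : h ^ a • Y ≤ X) :
    AR h X Y := GC.ar_of_pow_le h a ha

/-- (g8) -/
theorem ar_trans {X Y Z : Submodule A M} (hXY : X ≤ Y) (_hYZ : Y ≤ Z) (h1 : AR h X Y)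
    (h2 : AR h Y Z) : AR h X Z := GC.ar_trans h hXY h1 h2

/-- (g6) -/
theorem good_of_pow_smul_eq_bot {a : ℕ} (hh : ∀ n, Good h n (h ^ a : Ideal A)) {Q : Type}
    [AddCommGroup Q] [Module A Q] (hQ : ∀ c ∈ h ^ a, ∀ q : Q, c • q = 0) :
    ∀ n, Good h n Q := fun n =>
  (good_iff_goodN h n _).2 (GC.good_of_killed h a (fun k => (good_iff_goodN h k _).1 (hh k)) n hQ)

/-- (g7) -/
theorem good_of_pow_smul_le {X Y : Submodule A M} {a : ℕ} (hh : ∀ n, Good h n (h ^ a : Ideal A))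
    (hXY : X ≤ Y) (ha : h ^ a • Y ≤ X) (hY : ∀ n, Good h n Y) : ∀ n, Good h n X := fun n =>
  (good_iff_goodN h n _).2 (GC.good_sandwich h a (fun k => (good_iff_goodN h k _).1 (hh k)) hXY ha
    (fun k => (good_iff_goodN h k _).1 (hY k)) n)

/-- kernel and image of a linear map restricted to a submodule -/
theorem good_ker_of_map {M' : Type} [AddCommGroup M'] [Module A M'] (t : M →ₗ[A] M')
    {Y : Submodule A M} (hY : ∀ n, Good h n Y) (ht : ∀ n, Good h n (Y.map t)) :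
    (∀ n, Good h n (Y ⊓ LinearMap.ker t : Submodule A M)) ∧
      AR h (Y ⊓ LinearMap.ker t) Y := by
  obtain ⟨h1, h2⟩ := GC.good_ker h t (X := Y ⊓ LinearMap.ker t) rfl
    (fun k => (good_iff_goodN h k _).1 (hY k)) (fun k => (good_iff_goodN h k _).1 (ht k))
  exact ⟨fun n => (good_iff_goodN h n _).2 (h1 n), h2⟩

theorem good_of_ker_map {M' : Type} [AddCommGroup M'] [Module A M'] (t : M →ₗ[A] M')
    {Y : Submodule A M} (hk : ∀ n, Good h n (Y ⊓ LinearMap.ker t : Submodule A M))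
    (ht : ∀ n, Good h n (Y.map t)) : ∀ n, Good h n Y := fun n =>
  (good_iff_goodN h n _).2 (GC.good_ker_ext h t (X := Y ⊓ LinearMap.ker t) rfl
    (fun k => (good_iff_goodN h k _).1 (hk k)) (fun k => (good_iff_goodN h k _).1 (ht k)) n)

end MP50e386N
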