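import Mathlib
import Pool.Agent.Lib.MP_50e386_al.N.GoodCore
import Pool.Agent.Lib.MP_50e386_al.N.Good3
import Pool.Agent.Lib.MP_50e386_al.N.GDefs
import Pool.Agent.Lib.MP_50e386_al.N.T2
import Pool.Agent.Lib.MP_50e386_al.N.T3
import Pool.Agent.Lib.MP_50e386_al.N.G1
import Pool.Agent.Lib.MP_50e386_al.N.G2

/-! GL modules are good (paper section 4). -/

namespace MP50e386N

open MvPolynomial Pool.Agent.Lib.MP50e386

variable {R : Type} [CommRing R] [Algebra ℂ R] [GLRing R]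

omit [Algebra ℂ R] [GLRing R] in
private theorem g3_MS (S : Finset ℕ) : MS R S =
    restrictSupport R {m | ∀ a, sdeg a m = if a ∈ S then 1 else 0} := rfl

private theorem g3_labS (i n a : ℕ) :
    a ∈ labS n (fun k => Nat.pair i k) ↔ ∃ k < n, Nat.pair i k = a := by
  simp [labS]

/-- the label sets are different -/
private theorem g3_disj {N : ℕ} (d : Fin N → ℕ) (h0 : ∀ i j, d i = 0 → d j = 0 → i = j)
    (i j : Fin N) (m : ℕ × ℕ →₀ ℕ)
    (hi : ∀ a, sdeg a m = if a ∈ labS (d i) (fun k => Nat.pair i k) then 1 else 0)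
    (hj : ∀ a, sdeg a m = if a ∈ labS (d j) (fun k => Nat.pair j k) then 1 else 0) : i = j := by
  have h1 : ∀ a, a ∈ labS (d i) (fun k => Nat.pair i k) ↔
      a ∈ labS (d j) (fun k => Nat.pair j k) := by
    intro a
    have h2 := (hi a).symm.trans (hj a)
    by_cases h3 : a ∈ labS (d i) (fun k => Nat.pair i k) <;>
      by_cases h4 : a ∈ labS (d j) (fun k => Nat.pair j k) <;> simp_all
  by_cases hdi : d i = 0
  · by_cases hdj : d j = 0
    · exact h0 i j hdi hdj
    · have h5 := (h1 (Nat.pair j 0)).2 ((g3_labS _ _ _).2 ⟨0, Nat.pos_of_ne_zero hdj, rfl⟩)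
      obtain ⟨k, hk, -⟩ := (g3_labS _ _ _).1 h5
      omega
  · have h5 := (h1 (Nat.pair i 0)).1 ((g3_labS _ _ _).2 ⟨0, Nat.pos_of_ne_zero hdi, rfl⟩)
    obtain ⟨k, hk, hk2⟩ := (g3_labS _ _ _).1 h5
    have h6 := (Nat.pair_eq_pair.1 hk2).1
    exact (Fin.ext h6).symm

open Classical in
/-- the cover -/
private noncomputable def g3_pi {N : ℕ} (d : Fin N → ℕ) (g : Fin N → U R) : U R →ₗ[R] U R :=
  (basisMonomials (ℕ × ℕ) R).constr R (fun m => ∑ i : Fin N,
    if (∀ a, sdeg a m = if a ∈ labS (d i) (fun k => Nat.pair i k) then 1 else 0) then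
      Th (g i) (fun k => Nat.pair i k) (monomial m 1) else 0)

private theorem g3_pi_eq {N : ℕ} (d : Fin N → ℕ) (g : Fin N → U R)
    (h0 : ∀ i j, d i = 0 → d j = 0 → i = j) (i : Fin N) (f : U R)
    (hf : f ∈ MS R (labS (d i) (fun k => Nat.pair i k))) :
    g3_pi d g f = Th (g i) (fun k => Nat.pair i k) f := by
  rw [g3_MS, restrictSupport_eq_span] at hf
  refine LinearMap.eqOn_span (f := g3_pi d g) (g := Th (g i) (fun k => Nat.pair i k)) ?_ hf
  rintro _ ⟨m, hm, rfl⟩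
  have h1 : (monomial m (1 : R)) = basisMonomials (ℕ × ℕ) R m := by simp
  change g3_pi d g (monomial m 1) = Th (g i) (fun k => Nat.pair i k) (monomial m 1)
  conv_lhs => rw [h1]
  unfold g3_pi
  rw [Module.Basis.constr_basis]
  rw [Finset.sum_eq_single i]
  · exact if_pos hm
  · intro j _ hj
    rw [if_neg]
    intro hm'
    exact hj (g3_disj d h0 j i m hm' hm)
  · intro h
    exact absurd (Finset.mem_univ i) h

omit [Algebra ℂ R] [GLRing R] in
private theorem g3_BD_mono (L D D' : ℕ) (h : D ≤ D') : BD R L D ≤ BD R L D' := by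
  refine restrictSupport_mono R ?_
  rintro m ⟨h1, h2⟩
  exact ⟨h1, h2.trans h⟩

/-- a free cover of a `GL`-stable submodule inside `U_R` -/
theorem exists_cover (h : Ideal R) (h6 : ∀ L D, NoethInt (R := R) GLS ⊥ (BD R L D))
    (h7 : ∀ L D, ∀ N Y : Submodule R (U R), GLS N → GLS Y → N ≤ Y → Y ≤ BD R L D → AR h N Y)
    (L D : ℕ) (Y : Submodule R (U R)) (hY : GLS Y) (hYD : Y ≤ BD R L D) :
    ∃ (L' D' : ℕ) (F W : Submodule R (U R)) (π : U R →ₗ[R] U R), GLS F ∧ GLS W ∧ F ≤ BD R L' D' ∧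
      Module.Free R F ∧ W = F ⊓ LinearMap.ker π ∧ F.map π = Y ∧ AR h W F := by
  obtain ⟨N, d, g, hg, hYs, h0⟩ := cov L D (h6 L D) Y hY hYD
  set S : Fin N → Finset ℕ := fun i => labS (d i) (fun k => Nat.pair i k) with hS
  have hlab : ∀ i : Fin N, Set.InjOn (fun k => Nat.pair (i : ℕ) k) (Set.Iio (d i)) := by
    intro i a _ b _ hab
    exact (Nat.pair_eq_pair.1 hab).2
  set T : Fin N → Set (ℕ × ℕ →₀ ℕ) := fun i => {m | ∀ a, sdeg a m = if a ∈ S i then 1 else 0}
    with hT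
  have hF : restrictSupport R (⋃ i, T i) = ⨆ i, MS R (S i) := by
    rw [restrictSupport_eq_span, Set.image_iUnion, Submodule.span_iUnion]
    refine iSup_congr fun i => ?_
    rw [g3_MS, restrictSupport_eq_span]
  set F : Submodule R (U R) := restrictSupport R (⋃ i, T i) with hFdef
  set π := g3_pi d g with hπ
  have hpi : ∀ i, ∀ f ∈ MS R (S i), π f = Th (g i) (fun k => Nat.pair i k) f :=
    fun i f hf => g3_pi_eq d g h0 i f hf
  have hFG : GLS F := by
    intro φ f hf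
    rw [hF] at hf ⊢
    refine Submodule.iSup_induction (fun i => MS R (S i)) (motive := fun f =>
      sbC φ f ∈ ⨆ i, MS R (S i)) hf ?_ ?_ ?_
    · intro i x hx
      exact Submodule.mem_iSup_of_mem i (GLS_MS _ φ x hx)
    · rw [map_zero]
      exact Submodule.zero_mem _
    · intro x y hx hy
      rw [map_add]
      exact Submodule.add_mem _ hx hy
  have hcomm : ∀ φ : ℕ → V, ∀ f ∈ F, π (sbC φ f) = sbC φ (π f) := by
    intro φ f hf
    rw [hF] at hf
    refine Submodule.iSup_induction (fun i => MS R (S i)) (motive := fun f =>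
      π (sbC φ f) = sbC φ (π f)) hf ?_ ?_ ?_
    · intro i x hx
      rw [hpi i x hx, hpi i _ (GLS_MS _ φ x hx)]
      exact Th_sbC (g i) (hg i) _ (hlab i) φ x hx
    · rw [map_zero, map_zero, map_zero]
    · intro x y hx hy
      rw [map_add, map_add, map_add, map_add, hx, hy]
  have hWG : GLS (F ⊓ LinearMap.ker π) := by
    rintro φ f ⟨hf1, hf2⟩
    refine ⟨hFG φ f hf1, ?_⟩
    rw [SetLike.mem_coe, LinearMap.mem_ker] at hf2 ⊢
    rw [hcomm φ f hf1, hf2, map_zero]
  obtain ⟨L', hL'⟩ : ∃ L', ∀ i, ∀ a ∈ S i, a < L' := by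
    refine ⟨(Finset.univ.biUnion S).sup id + 1, fun i a ha => ?_⟩
    refine Nat.lt_succ_of_le ?_
    exact Finset.le_sup (f := id) (Finset.mem_biUnion.2 ⟨i, Finset.mem_univ i, ha⟩)
  have hFD : F ≤ BD R L' (∑ j, d j) := by
    rw [hF]
    refine iSup_le fun i => ?_
    refine (MS_le_BD (S i) L' (hL' i)).trans (g3_BD_mono _ _ _ ?_)
    refine (Finset.card_image_le).trans ?_
    rw [Finset.card_range]
    exact Finset.single_le_sum (f := d) (fun j _ => Nat.zero_le _) (Finset.mem_univ i)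
  refine ⟨L', ∑ j, d j, F, F ⊓ LinearMap.ker π, π, hFG, hWG, hFD,
    Module.Free.of_basis (basisRestrictSupport R (⋃ i, T i)), rfl, ?_,
    h7 L' _ _ _ hWG hFG inf_le_left hFD⟩
  rw [hF, Submodule.map_iSup, hYs]
  refine iSup_congr fun i => ?_
  rw [← map_Th (g i) (hg i) _ (hlab i)]
  ext f
  constructor
  · rintro ⟨x, hx, rfl⟩
    exact ⟨x, hx, (hpi i x hx).symm⟩
  · rintro ⟨x, hx, rfl⟩
    exact ⟨x, hx, hpi i x hx⟩

theorem good_GLS (h : Ideal R) (h6 : ∀ L D, NoethInt (R := R) GLS ⊥ (BD R L D))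
    (h7 : ∀ L D, ∀ N Y : Submodule R (U R), GLS N → GLS Y → N ≤ Y → Y ≤ BD R L D → AR h N Y)
    (L D : ℕ) (Y : Submodule R (U R)) (hY : GLS Y) (hYD : Y ≤ BD R L D) : ∀ n, Good h n Y := by
  intro n
  rw [good_iff_goodN]
  refine GC.good_of_class h (fun (Q : Type) [AddCommGroup Q] [Module R Q] =>
    ∃ (L D : ℕ) (Y : Submodule R (U R)), GLS Y ∧ Y ≤ BD R L D ∧ Nonempty (Y ≃ₗ[R] Q)) ?_ n Y
    ⟨L, D, Y, hY, hYD, ⟨LinearEquiv.refl R Y⟩⟩
  rintro Q _ _ ⟨L1, D1, Y1, hY1, hYD1, ⟨e⟩⟩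
  obtain ⟨L', D', F, W, π, hF, hW, hFD, hfree, hWF, hmap, har⟩ :=
    exists_cover h h6 h7 L1 D1 Y1 hY1 hYD1
  have hWle : W ≤ F := by rw [hWF]; exact inf_le_left
  have hmem : ∀ x : F, π.domRestrict F x ∈ Y1 := fun x => by
    rw [← hmap]
    exact ⟨x.1, x.2, rfl⟩
  refine ⟨W, F, inferInstance, inferInstance, inferInstance, inferInstance,
    Submodule.inclusion hWle, e.toLinearMap ∘ₗ (π.domRestrict F).codRestrict Y1 hmem, hfree,
    Submodule.inclusion_injective _, ?_, ?_, (GC.ar_iff_arm h hWle).1 har,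
    ⟨L', D', W, hW, hWle.trans hFD, ⟨LinearEquiv.refl R W⟩⟩⟩
  · intro q
    have h1 : (e.symm q).1 ∈ F.map π := by
      rw [hmap]
      exact (e.symm q).2
    obtain ⟨x, hx, hxq⟩ := h1
    refine ⟨⟨x, hx⟩, ?_⟩
    have h2 : (π.domRestrict F).codRestrict Y1 hmem ⟨x, hx⟩ = e.symm q := Subtype.ext hxq
    rw [LinearMap.comp_apply, h2]
    exact e.apply_symm_apply q
  · intro x
    constructor
    · intro hx
      rw [LinearMap.comp_apply] at hx
      have h1 : (π.domRestrict F).codRestrict Y1 hmem x = 0 :=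
        e.injective (hx.trans (map_zero e).symm)
      have h2 : π x.1 = 0 := congrArg Subtype.val h1
      have h3 : x.1 ∈ W := by
        rw [hWF]
        exact ⟨x.2, h2⟩
      exact ⟨⟨x.1, h3⟩, rfl⟩
    · rintro ⟨w, rfl⟩
      have h3 : w.1 ∈ F ⊓ LinearMap.ker π := by
        rw [← hWF]
        exact w.2
      have h1 : (π.domRestrict F).codRestrict Y1 hmem (Submodule.inclusion hWle w) = 0 :=
        Subtype.ext h3.2
      rw [LinearMap.comp_apply, h1, map_zero]

/-- powers of `h` are good modules -/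
theorem good_pow (h : Ideal R) (hh : GLSI h) (h6 : ∀ L D, NoethInt (R := R) GLS ⊥ (BD R L D))
    (h7 : ∀ L D, ∀ N Y : Submodule R (U R), GLS N → GLS Y → N ≤ Y → Y ≤ BD R L D → AR h N Y)
    (a : ℕ) : ∀ n, Good h n (h ^ a : Ideal R) := by
  intro n
  have h1 : ofI (h ^ a : Ideal R) ≤ BD R 0 0 := by
    rw [BD_zero]
    exact (ofI_le _ _).2 le_top
  have h2 := good_GLS h h6 h7 0 0 (ofI (h ^ a : Ideal R)) ((GLS_ofI _).2 (hh.pow a)) h1 n
  have hinj : Function.Injective (Algebra.linearMap R (U R)) := C_injective _ _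
  exact good_iso h (Submodule.equivMapOfInjective (Algebra.linearMap R (U R)) hinj
    (h ^ a : Ideal R)).symm h2

end MP50e386N
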