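import Mathlib
import Pool.Agent.Lib.MP_50e386_al.N.HDefs

/-! (f1), (f2): the Fischer form. -/

namespace MP50e386N

open MvPolynomial

variable {N : ℕ}

private theorem h1_fw_pos (v : Sym2 (Fin N)) : 0 < fw v := by
  unfold fw; split <;> norm_num

theorem fm_pos (m : Sym2 (Fin N) →₀ ℕ) : 0 < fm m := by
  unfold fm
  exact Finset.prod_pos fun v _ => mul_pos (by positivity) (pow_pos (h1_fw_pos v) _)

private theorem h1_fis_eq (f g : AN N) {S : Finset (Sym2 (Fin N) →₀ ℕ)} (h : f.support ⊆ S) :
    fis f g = ∑ m ∈ S, (starRingEnd ℂ) (f.coeff m) * g.coeff m * (fm m : ℂ) := by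
  unfold fis
  refine Finset.sum_subset h fun m _ hm => ?_
  rw [notMem_support_iff.1 hm]; simp

theorem fis_add_right (f g g' : AN N) : fis f (g + g') = fis f g + fis f g' := by
  unfold fis
  rw [← Finset.sum_add_distrib]
  exact Finset.sum_congr rfl fun m _ => by rw [coeff_add]; ring

theorem fis_smul_right (f g : AN N) (c : ℂ) : fis f (c • g) = c * fis f g := by
  unfold fis
  rw [Finset.mul_sum]
  exact Finset.sum_congr rfl fun m _ => by rw [coeff_smul, smul_eq_mul]; ring

theorem fis_conj (f g : AN N) : fis g f = (starRingEnd ℂ) (fis f g) := by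
  classical
  rw [h1_fis_eq f g (S := f.support ∪ g.support) Finset.subset_union_left,
    h1_fis_eq g f (S := f.support ∪ g.support) Finset.subset_union_right, map_sum]
  refine Finset.sum_congr rfl fun m _ => ?_
  simp only [map_mul, Complex.conj_conj, Complex.conj_ofReal]
  ring

theorem fis_self_pos (f : AN N) (hf : f ≠ 0) : 0 < (fis f f).re := by
  unfold fis
  rw [Complex.re_sum]
  refine Finset.sum_pos (fun m hm => ?_) (support_nonempty.2 hf)
  have h1 : (starRingEnd ℂ) (f.coeff m) * f.coeff m = ((Complex.normSq (f.coeff m) : ℝ) : ℂ) := by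
    rw [mul_comm, Complex.mul_conj]
  rw [h1, ← Complex.ofReal_mul, Complex.ofReal_re]
  exact mul_pos (Complex.normSq_pos.2 (mem_support_iff.1 hm)) (fm_pos m)

private theorem h1_fm_add (v : Sym2 (Fin N)) (m : Sym2 (Fin N) →₀ ℕ) :
    fm (Finsupp.single v 1 + m) = fm m * (m v + 1) * fw v := by
  classical
  unfold fm
  rw [← Finset.mul_prod_erase Finset.univ _ (Finset.mem_univ v),
    ← Finset.mul_prod_erase Finset.univ (fun v => ((m v).factorial : ℝ) * fw v ^ m v)
      (Finset.mem_univ v)]
  set m' : Sym2 (Fin N) →₀ ℕ := Finsupp.single v 1 + m with hm'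
  have h1 : ∏ x ∈ Finset.univ.erase v, ((m' x).factorial : ℝ) *
      fw x ^ m' x = ∏ x ∈ Finset.univ.erase v, ((m x).factorial : ℝ) *
      fw x ^ m x := by
    refine Finset.prod_congr rfl fun x hx => ?_
    have : x ≠ v := (Finset.mem_erase.1 hx).1
    have h2 : m' x = m x := by
      rw [hm', Finsupp.add_apply, Finsupp.single_eq_of_ne this, zero_add]
    rw [h2]
  have h3 : m' v = m v + 1 := by
    rw [hm', Finsupp.add_apply, Finsupp.single_eq_same, add_comm]
  rw [h1, h3, Nat.factorial_succ, pow_succ]
  push_cast
  ring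

/-- adjoint of the multiplication by a variable -/
theorem fis_X_mul (v : Sym2 (Fin N)) (f g : AN N) :
    fis (X v * f) g = (fw v : ℂ) * fis f (pderiv v g) := by
  unfold fis
  rw [support_X_mul, Finset.sum_map, Finset.mul_sum]
  refine Finset.sum_congr rfl fun m _ => ?_
  simp only [addLeftEmbedding_apply]
  rw [coeff_X_mul, coeff_pderiv, h1_fm_add, add_comm m]
  push_cast
  ring

private theorem h1_fis_sum_right {ι : Type*} (s : Finset ι) (f : AN N) (g : ι → AN N) :
    fis f (∑ i ∈ s, g i) = ∑ i ∈ s, fis f (g i) := by
  classical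
  induction s using Finset.induction_on with
  | empty => simp [fis]
  | insert a s ha ih => rw [Finset.sum_insert ha, Finset.sum_insert ha, fis_add_right, ih]

private theorem h1_X_mul_right (v : Sym2 (Fin N)) (f g : AN N) :
    fis f (X v * g) = (fw v : ℂ) * fis (pderiv v f) g := by
  rw [fis_conj, fis_X_mul, map_mul, Complex.conj_ofReal, ← fis_conj]

private theorem h1_sum_apply {ι : Type*} (s : Finset ι) (D : ι → Derivation ℂ (AN N) (AN N))
    (f : AN N) : (∑ i ∈ s, D i) f = ∑ i ∈ s, D i f := by
  classical
  induction s using Finset.induction_on with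
  | empty => simp
  | insert a s ha ih => rw [Finset.sum_insert ha, Finset.sum_insert ha, Derivation.add_apply, ih]

private theorem h1_Eop (a b : Fin N) (f : AN N) :
    Eop a b f = ∑ j, (2 * fw s(b, j) : ℂ) • (X s(a, j) * pderiv s(b, j) f) := by
  classical
  let D : Derivation ℂ (AN N) (AN N) :=
    ∑ j, (2 * fw s(b, j) : ℂ) • ((X s(a, j) : AN N) • pderiv s(b, j))
  have h : Eop a b = D := by
    refine derivation_ext fun v => ?_
    induction v using Sym2.ind with
    | _ k l =>
      simp only [D, Eop, mkDerivation_X, Sym2.lift_mk, h1_sum_apply,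
        Derivation.coe_smul, Pi.smul_apply, pderiv_X, smul_eq_mul]
      have hne : ∀ j : Fin N, s(b, j) ≠ s(k, l) → (2 * fw s(b, j) : ℂ) •
          ((X s(a, j) : AN N) * (Pi.single s(b, j) 1 : Sym2 (Fin N) → AN N) s(k, l)) = 0 := by
        intro j hj
        rw [Pi.single_eq_of_ne (Ne.symm hj)]; simp
      have heq : ∀ j : Fin N, s(b, j) = s(k, l) → (2 * fw s(b, j) : ℂ) •
          ((X s(a, j) : AN N) * (Pi.single s(b, j) 1 : Sym2 (Fin N) → AN N) s(k, l)) =
          (2 * fw s(b, j) : ℂ) • (X s(a, j) : AN N) := by
        intro j hj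
        rw [← hj, Pi.single_eq_same, mul_one]
      by_cases hk : k = b
      · subst hk
        rw [Finset.sum_eq_single l (fun j _ hj => hne j (by
          intro h
          rcases Sym2.eq_iff.1 h with ⟨_, h⟩ | ⟨h1, h2⟩
          · exact hj h
          · exact hj (h2.trans h1))) (fun h => absurd (Finset.mem_univ _) h), heq l rfl]
        by_cases hl : l = k
        · subst hl
          simp only [if_true, fw, Sym2.isDiag_iff_proj_eq]
          norm_num
          rw [two_smul]
        · have : ¬ (k = l) := fun h => hl h.symm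
          simp [hl, fw, this]
      · by_cases hl : l = b
        · subst hl
          rw [Finset.sum_eq_single k (fun j _ hj => hne j (by
            intro h
            rcases Sym2.eq_iff.1 h with ⟨h1, h2⟩ | ⟨h1, h2⟩
            · exact hk h1.symm
            · exact hj h2)) (fun h => absurd (Finset.mem_univ _) h), heq k Sym2.eq_swap]
          have : ¬ (l = k) := fun h => hk h.symm
          simp [hk, fw, this]
        · rw [Finset.sum_eq_zero fun j _ => hne j (by
            intro h
            rcases Sym2.eq_iff.1 h with ⟨h1, h2⟩ | ⟨h1, h2⟩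
            · exact hk h1.symm
            · exact hl h1.symm)]
          simp [hk, hl]
  rw [h]
  simp [D, h1_sum_apply]

theorem fis_Eop (a b : Fin N) (f g : AN N) : fis (Eop a b f) g = fis f (Eop b a g) := by
  have h1 : fis (Eop a b f) g = ∑ j, (2 * fw s(b, j) * fw s(a, j) : ℂ) *
      fis (pderiv s(b, j) f) (pderiv s(a, j) g) := by
    rw [fis_conj, h1_Eop, h1_fis_sum_right, map_sum]
    refine Finset.sum_congr rfl fun j _ => ?_
    rw [fis_smul_right, map_mul, ← fis_conj, fis_X_mul]
    simp only [map_mul, Complex.conj_ofReal, map_ofNat]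
    ring
  have h2 : fis f (Eop b a g) = ∑ j, (2 * fw s(b, j) * fw s(a, j) : ℂ) *
      fis (pderiv s(b, j) f) (pderiv s(a, j) g) := by
    rw [h1_Eop, h1_fis_sum_right]
    refine Finset.sum_congr rfl fun j _ => ?_
    rw [fis_smul_right, h1_X_mul_right]
    ring
  rw [h1, h2]

private theorem h1_proj (L : Submodule ℂ (AN N)) (hL : L.FG) :
    ∀ f : AN N, ∃ u ∈ L, ∀ g ∈ L, fis g (f - u) = 0 := by
  classical
  have hneg : ∀ f g : AN N, fis f (-g) = -fis f g := by
    intro f g
    have := fis_smul_right f g (-1)
    simpa using this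
  have hsub : ∀ f g g' : AN N, fis f (g - g') = fis f g - fis f g' := by
    intro f g g'
    rw [sub_eq_add_neg, fis_add_right, hneg, sub_eq_add_neg]
  have hzero : ∀ f g : AN N, fis f g = 0 → fis g f = 0 := by
    intro f g h
    rw [fis_conj, h, map_zero]
  obtain ⟨S, rfl⟩ := hL
  induction S using Finset.induction_on with
  | empty =>
    intro f
    refine ⟨0, Submodule.zero_mem _, fun g hg => ?_⟩
    have : g = 0 := by simpa using hg
    subst this
    simp [fis]
  | insert x S hx ih =>
    intro f
    obtain ⟨y, hy, hy'⟩ := ih x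
    obtain ⟨u, hu, hu'⟩ := ih f
    have hS : Submodule.span ℂ (S : Set (AN N)) ≤
        Submodule.span ℂ ((insert x S : Finset (AN N)) : Set (AN N)) :=
      Submodule.span_mono (by simp)
    have hxm : x ∈ Submodule.span ℂ ((insert x S : Finset (AN N)) : Set (AN N)) :=
      Submodule.subset_span (by simp)
    by_cases h0 : x - y = 0
    · have hxS : x ∈ Submodule.span ℂ (S : Set (AN N)) := by
        rw [sub_eq_zero.1 h0]; exact hy
      refine ⟨u, hS hu, fun g hg => hu' g ?_⟩
      have : Submodule.span ℂ ((insert x S : Finset (AN N)) : Set (AN N)) ≤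
          Submodule.span ℂ (S : Set (AN N)) := by
        rw [Submodule.span_le]
        intro z hz
        rcases Finset.mem_insert.1 (Finset.mem_coe.1 hz) with rfl | hz
        · exact hxS
        · exact Submodule.subset_span hz
      exact this hg
    · have hp : fis (x - y) (x - y) ≠ 0 := by
        intro h
        have := fis_self_pos _ h0
        rw [h] at this
        simp at this
      set c : ℂ := fis (x - y) f / fis (x - y) (x - y) with hc
      refine ⟨u + c • (x - y), Submodule.add_mem _ (hS hu)
        (Submodule.smul_mem _ _ (Submodule.sub_mem _ hxm (hS hy))), fun g hg => ?_⟩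
      have h1 : fis (x - y) (f - (u + c • (x - y))) = 0 := by
        rw [hsub, fis_add_right, fis_smul_right, hzero _ _ (hy' u hu), hc,
          div_mul_cancel₀ _ hp]
        ring
      have h2 : ∀ g ∈ Submodule.span ℂ (S : Set (AN N)), fis g (f - (u + c • (x - y))) = 0 := by
        intro g hg
        rw [← sub_sub, hsub, hu' g hg, fis_smul_right, hy' g hg]
        ring
      have h3 : fis x (f - (u + c • (x - y))) = 0 := by
        apply hzero
        have h4 := hzero _ _ h1
        have h5 := hzero _ _ (h2 y hy)
        rw [hsub] at h4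
        rw [h5, sub_zero] at h4
        exact h4
      apply hzero
      have h6 : Submodule.span ℂ ((insert x S : Finset (AN N)) : Set (AN N)) ≤
          ({ carrier := {g | fis (f - (u + c • (x - y))) g = 0}
             add_mem' := fun {a b} ha hb => by
               show fis _ (a + b) = 0
               rw [fis_add_right, ha, hb, add_zero]
             zero_mem' := by
               show fis _ 0 = 0
               simp [fis]
             smul_mem' := fun r a ha => by
               show fis _ (r • a) = 0
               rw [fis_smul_right, ha, mul_zero] } : Submodule ℂ (AN N)) := by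
        rw [Submodule.span_le]
        intro z hz
        rcases Finset.mem_insert.1 (Finset.mem_coe.1 hz) with rfl | hz
        · exact hzero _ _ h3
        · exact hzero _ _ (h2 z (Submodule.subset_span hz))
      exact h6 hg

/-- orthogonal complement of a finite dimensional graded piece -/
theorem fis_decomp (d : ℕ) (L : Submodule ℂ (AN N)) (hL : L ≤ homogeneousSubmodule _ ℂ d)
    (f : AN N) (hf : f ∈ homogeneousSubmodule (Sym2 (Fin N)) ℂ d) :
    ∃ u ∈ L, f - u ∈ homogeneousSubmodule (Sym2 (Fin N)) ℂ d ∧ ∀ g ∈ L, fis g (f - u) = 0 := by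
  have hfg : L.FG := by
    have h1 : (homogeneousSubmodule (Sym2 (Fin N)) ℂ d).FG := homogeneousSubmodule_fg _ _ _
    exact Submodule.FG.of_le h1 hL
  obtain ⟨u, hu, h⟩ := h1_proj L hfg f
  exact ⟨u, hu, Submodule.sub_mem _ hf (hL hu), h⟩

end MP50e386N
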