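import Mathlib
import Pool.Agent.Lib.MP_50e386_al.N.HDefs

/-! (h1): existence of highest weight vectors; substitution stable implies `Eop` stable. -/

namespace MP50e386N

open MvPolynomial

variable {N : ℕ}

private theorem H2_Eop_X (a b i j : Fin N) : Eop a b (X s(i, j) : AN N) =
    (if i = b then (X s(a, j) : AN N) else 0) + (if j = b then (X s(a, i) : AN N) else 0) := by
  unfold Eop
  rw [mkDerivation_X, Sym2.lift_mk]

private theorem H2_Eop_X_homog (a b : Fin N) (v : Sym2 (Fin N)) :
    (Eop a b (X v : AN N)).IsHomogeneous 1 := by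
  induction v using Sym2.ind with
  | _ i j =>
    rw [H2_Eop_X]
    refine IsHomogeneous.add ?_ ?_
    · split_ifs
      · exact isHomogeneous_X _ _
      · exact isHomogeneous_zero _ _ _
    · split_ifs
      · exact isHomogeneous_X _ _
      · exact isHomogeneous_zero _ _ _

theorem Eop_homog (a b : Fin N) {d : ℕ} {f : AN N}
    (hf : f ∈ homogeneousSubmodule (Sym2 (Fin N)) ℂ d) :
    Eop a b f ∈ homogeneousSubmodule (Sym2 (Fin N)) ℂ d := by
  rw [mem_homogeneousSubmodule] at hf
  rw [f.as_sum, map_sum]
  refine Submodule.sum_mem _ fun m hm => ?_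
  have hd : m.degree = d := by
    have := hf (mem_support_iff.1 hm)
    rw [Finsupp.weight_apply] at this
    rw [← this, Finsupp.degree_apply, Finsupp.sum]
    refine Finset.sum_congr rfl fun i _ => ?_
    simp
  have h1 : Eop a b (monomial m (coeff m f)) = coeff m f • m.sum fun i k =>
      (monomial (m - Finsupp.single i 1) (k : ℂ) : AN N) • Eop a b (X i) := by
    unfold Eop
    rw [mkDerivation_monomial]
    simp only [mkDerivation_X]
  rw [h1]
  refine Submodule.smul_mem _ _ ?_
  unfold Finsupp.sum
  refine Submodule.sum_mem _ fun i hi => ?_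
  beta_reduce
  rw [smul_eq_mul, mem_homogeneousSubmodule]
  have h2 : (m - Finsupp.single i 1).degree = d - 1 := by
    have h3 : Finsupp.single i 1 ≤ m := by
      rw [Finsupp.single_le_iff]
      exact Nat.one_le_iff_ne_zero.2 (Finsupp.mem_support_iff.1 hi)
    have h4 : (m - Finsupp.single i 1 + Finsupp.single i 1).degree = d := by
      rw [tsub_add_cancel_of_le h3, hd]
    rw [map_add, Finsupp.degree_single] at h4
    omega
  have h5 : 1 ≤ d := by
    rw [← hd]
    have h6 : m i ≤ m.degree := Finsupp.le_degree i m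
    have h7 := Nat.one_le_iff_ne_zero.2 (Finsupp.mem_support_iff.1 hi)
    omega
  have h8 : (monomial (m - Finsupp.single i 1) ((m i : ℕ) : ℂ) : AN N).IsHomogeneous (d - 1) :=
    isHomogeneous_monomial _ h2
  have h9 := h8.mul (H2_Eop_X_homog a b i)
  rwa [Nat.sub_add_cancel h5] at h9

/-- multiplicity of a letter in a variable -/
private def H2_mu (a : Fin N) : Sym2 (Fin N) → ℕ :=
  Sym2.lift ⟨fun i j => (if i = a then 1 else 0) + (if j = a then 1 else 0),
    fun _ _ => add_comm _ _⟩

/-- multiplicity of a letter in a monomial -/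
private def H2_wt (a : Fin N) (m : Sym2 (Fin N) →₀ ℕ) : ℕ := m.sum fun v k => k * H2_mu a v

private theorem H2_mu_mk (a i j : Fin N) :
    H2_mu a s(i, j) = (if i = a then 1 else 0) + (if j = a then 1 else 0) := rfl

private theorem H2_Eop_diag_X (a : Fin N) (v : Sym2 (Fin N)) :
    Eop a a (X v : AN N) = (H2_mu a v : ℂ) • X v := by
  induction v using Sym2.ind with
  | _ i j =>
    rw [H2_Eop_X, H2_mu_mk]
    push_cast
    rw [add_smul]
    congr 1
    · split_ifs with h
      · rw [h, one_smul]
      · rw [zero_smul]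
    · split_ifs with h
      · rw [h, one_smul, Sym2.eq_swap]
      · rw [zero_smul]

private theorem H2_Eop_diag_monomial (a : Fin N) (m : Sym2 (Fin N) →₀ ℕ) (c : ℂ) :
    Eop a a (monomial m c : AN N) = (H2_wt a m : ℂ) • monomial m c := by
  have h1 : Eop a a (monomial m c : AN N) = c • m.sum fun i k =>
      (monomial (m - Finsupp.single i 1) (k : ℂ) : AN N) • Eop a a (X i) := by
    unfold Eop
    rw [mkDerivation_monomial]
    simp only [mkDerivation_X]
  rw [h1]
  unfold H2_wt Finsupp.sum
  rw [Nat.cast_sum, Finset.sum_smul, Finset.smul_sum]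
  refine Finset.sum_congr rfl fun i hi => ?_
  beta_reduce
  rw [H2_Eop_diag_X]
  have h3 : Finsupp.single i 1 ≤ m := by
    rw [Finsupp.single_le_iff]
    exact Nat.one_le_iff_ne_zero.2 (Finsupp.mem_support_iff.1 hi)
  have h4 : (monomial (m - Finsupp.single i 1) ((m i : ℕ) : ℂ) : AN N) * X i =
      monomial m ((m i : ℕ) : ℂ) := by
    rw [X, monomial_mul, tsub_add_cancel_of_le h3, mul_one]
  rw [smul_eq_mul, mul_smul_comm, h4, smul_monomial, smul_monomial, smul_monomial]
  congr 1
  push_cast
  simp only [smul_eq_mul]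
  ring

private theorem H2_coeff_diag (a : Fin N) (f : AN N) (m : Sym2 (Fin N) →₀ ℕ) :
    coeff m (Eop a a f) = (H2_wt a m : ℂ) * coeff m f := by
  induction f using MvPolynomial.induction_on' with
  | monomial u c =>
    rw [H2_Eop_diag_monomial, coeff_smul, smul_eq_mul, coeff_monomial]
    split_ifs with h
    · rw [h]
    · rw [mul_zero, mul_zero]
  | add p q hp hq => rw [map_add, coeff_add, hp, hq, coeff_add, mul_add]

private def H2_dl (i j : Fin N) : ℂ := if i = j then 1 else 0

private theorem H2_dl_mul (i b c : Fin N) :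
    H2_dl i c * H2_dl c b = H2_dl i b * H2_dl c b := by
  unfold H2_dl
  by_cases h : c = b
  · subst h
    rfl
  · simp [h]

private theorem H2_dl_comm (i j : Fin N) : H2_dl i j = H2_dl j i := by
  unfold H2_dl
  simp only [eq_comm]

private theorem H2_Eop_X' (a b i j : Fin N) : Eop a b (X s(i, j) : AN N) =
    C (H2_dl i b) * X s(a, j) + C (H2_dl j b) * X s(a, i) := by
  rw [H2_Eop_X]
  unfold H2_dl
  congr 1
  · split_ifs <;> simp
  · split_ifs <;> simp

private theorem H2_Eop_C (a b : Fin N) (r : ℂ) (f : AN N) :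
    Eop a b (C r * f) = C r * Eop a b f := by
  rw [C_mul', C_mul', Derivation.map_smul]

private theorem H2_comm (c a b : Fin N) (f : AN N) :
    Eop c c (Eop a b f) = Eop a b (Eop c c f) + (H2_dl c a - H2_dl c b) • Eop a b f := by
  have h : ⁅(Eop c c : Derivation ℂ (AN N) (AN N)), Eop a b⁆ =
      (H2_dl c a - H2_dl c b) • Eop a b := by
    apply MvPolynomial.derivation_ext
    intro v
    induction v using Sym2.ind with
    | _ i j =>
      rw [Derivation.commutator_apply, Derivation.smul_apply]
      simp only [H2_Eop_X', map_add, H2_Eop_C, smul_eq_C_mul]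
      have e1 := congrArg (C : ℂ → AN N) (H2_dl_mul i b c)
      have e2 := congrArg (C : ℂ → AN N) (H2_dl_mul j b c)
      simp only [map_mul] at e1 e2
      rw [H2_dl_comm c a]
      simp only [map_sub]
      have s1 : (X s(c, j) : AN N) * C (H2_dl a c) = X s(a, j) * C (H2_dl a c) := by
        unfold H2_dl
        split_ifs with h
        · rw [h]
        · simp
      have s2 : (X s(c, i) : AN N) * C (H2_dl a c) = X s(a, i) * C (H2_dl a c) := by
        unfold H2_dl
        split_ifs with h
        · rw [h]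
        · simp
      have s3 : (X s(a, c) : AN N) * C (H2_dl j c) = X s(a, j) * C (H2_dl j c) := by
        unfold H2_dl
        split_ifs with h
        · rw [h]
        · simp
      have s4 : (X s(a, c) : AN N) * C (H2_dl i c) = X s(a, i) * C (H2_dl i c) := by
        unfold H2_dl
        split_ifs with h
        · rw [h]
        · simp
      have s5 : s(c, a) = s(a, c) := Sym2.eq_swap
      rw [s5]
      linear_combination C (H2_dl i b) * s1 + C (H2_dl i b) * s3 + C (H2_dl j b) * s2 +
        C (H2_dl j b) * s4 - C (H2_dl i b) * s3 - C (H2_dl j b) * s4 - X s(a, j) * e1 -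
        X s(a, i) * e2
  have h1 := congrArg (fun D : Derivation ℂ (AN N) (AN N) => D f) h
  simp only [Derivation.commutator_apply, Derivation.smul_apply] at h1
  rw [← h1]
  abel

private theorem H2_weights {f : AN N} {κ : Fin N → ℕ} :
    (∀ m ∈ f.support, ∀ a, H2_wt a m = κ a) ↔ ∀ a, Eop a a f = (κ a : ℂ) • f := by
  constructor
  · intro h a
    ext m
    rw [H2_coeff_diag, coeff_smul, smul_eq_mul]
    by_cases hm : m ∈ f.support
    · rw [h m hm a]
    · rw [notMem_support_iff.1 hm, mul_zero, mul_zero]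
  · intro h m hm a
    have h1 := congrArg (coeff m) (h a)
    rw [H2_coeff_diag, coeff_smul, smul_eq_mul] at h1
    have h2 := mul_right_cancel₀ (mem_support_iff.1 hm) h1
    exact_mod_cast h2

private theorem H2_mu_le (a : Fin N) (v : Sym2 (Fin N)) : H2_mu a v ≤ 2 := by
  induction v using Sym2.ind with
  | _ i j =>
    rw [H2_mu_mk]
    split_ifs <;> omega

private theorem H2_wt_le (a : Fin N) (m : Sym2 (Fin N) →₀ ℕ) : H2_wt a m ≤ 2 * m.degree := by
  unfold H2_wt Finsupp.sum
  rw [Finsupp.degree_apply, Finset.mul_sum]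
  refine Finset.sum_le_sum fun v _ => ?_
  have := Nat.mul_le_mul_left (m v) (H2_mu_le a v)
  linarith

private theorem H2_exists_weight (L : Submodule ℂ (AN N)) (hne : L ≠ ⊥)
    (hE : ∀ a b : Fin N, ∀ f ∈ L, Eop a b f ∈ L) :
    ∃ f ∈ L, f ≠ 0 ∧ ∃ κ : Fin N → ℕ, ∀ a, Eop a a f = (κ a : ℂ) • f := by
  classical
  obtain ⟨f0, hf0, hf00⟩ := Submodule.exists_mem_ne_zero_of_ne_bot hne
  have hex : ∃ n : ℕ, ∃ f ∈ L, f ≠ 0 ∧ f.support.card = n := ⟨_, f0, hf0, hf00, rfl⟩
  obtain ⟨f, hf, hf0', hfc⟩ := Nat.find_spec hex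
  have hmin : ∀ g ∈ L, g ≠ 0 → f.support.card ≤ g.support.card := by
    intro g hg hg0
    rw [hfc]
    exact Nat.find_min' hex ⟨g, hg, hg0, rfl⟩
  refine ⟨f, hf, hf0', ?_⟩
  obtain ⟨m, hm⟩ := support_nonempty.2 hf0'
  refine ⟨fun a => H2_wt a m, ?_⟩
  rw [← H2_weights]
  intro m' hm' a
  by_contra hne'
  set g : AN N := Eop a a f - (H2_wt a m : ℂ) • f with hg
  have hgL : g ∈ L := L.sub_mem (hE a a f hf) (L.smul_mem _ hf)
  have hgc : ∀ u, coeff u g = ((H2_wt a u : ℂ) - (H2_wt a m : ℂ)) * coeff u f := by
    intro u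
    rw [hg, coeff_sub, H2_coeff_diag, coeff_smul, smul_eq_mul]
    ring
  have hg0 : g ≠ 0 := by
    intro h0
    have h1 := hgc m'
    rw [h0, coeff_zero] at h1
    rcases mul_eq_zero.1 h1.symm with h2 | h2
    · rw [sub_eq_zero] at h2
      exact hne' (by exact_mod_cast h2)
    · exact mem_support_iff.1 hm' h2
  have hsub : g.support ⊂ f.support := by
    rw [Finset.ssubset_iff_of_subset]
    · refine ⟨m, hm, ?_⟩
      rw [notMem_support_iff, hgc, sub_self, zero_mul]
    · intro u hu
      rw [mem_support_iff, hgc] at hu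
      exact mem_support_iff.2 (right_ne_zero_of_mul hu)
  exact absurd (hmin g hgL hg0) (not_le.2 (Finset.card_lt_card hsub))

theorem exists_hw (d : ℕ) (L : Submodule ℂ (AN N))
    (hL : L ≤ homogeneousSubmodule (Sym2 (Fin N)) ℂ d) (hne : L ≠ ⊥)
    (hE : ∀ a b : Fin N, ∀ f ∈ L, Eop a b f ∈ L) :
    ∃ f ∈ L, f ≠ 0 ∧ (∃ κ : Fin N → ℕ, ∀ a, Eop a a f = (κ a : ℂ) • f) ∧
      ∀ a b : Fin N, a < b → Eop a b f = 0 := by
  classical
  obtain ⟨f0, hf0, hf00, κ0, hκ0⟩ := H2_exists_weight L hne hE
  -- the set of values of the potential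
  let Φ : (Fin N → ℕ) → ℕ := fun κ => ∑ a : Fin N, κ a * (N - a.val)
  let P : ℕ → Prop := fun n => ∃ f ∈ L, f ≠ 0 ∧ ∃ κ : Fin N → ℕ,
    (∀ a, Eop a a f = (κ a : ℂ) • f) ∧ Φ κ = n
  have hbd : ∀ n, P n → n ≤ ∑ a : Fin N, 2 * d * (N - a.val) := by
    rintro n ⟨f, hf, hf0, κ, hκ, rfl⟩
    refine Finset.sum_le_sum fun a _ => Nat.mul_le_mul_right _ ?_
    obtain ⟨m, hm⟩ := support_nonempty.2 hf0
    rw [← H2_weights.2 hκ m hm a]
    have hd : m.degree = d := by
      have h1 := hL hf
      rw [mem_homogeneousSubmodule] at h1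
      have h2 := h1 (mem_support_iff.1 hm)
      rw [Finsupp.weight_apply] at h2
      rw [← h2, Finsupp.degree_apply, Finsupp.sum]
      refine Finset.sum_congr rfl fun i _ => ?_
      simp
    rw [← hd]
    exact H2_wt_le a m
  have hP0 : P (Φ κ0) := ⟨f0, hf0, hf00, κ0, hκ0, rfl⟩
  set B := ∑ a : Fin N, 2 * d * (N - a.val) with hB
  set n0 := Nat.findGreatest P B with hn0
  have hPn : P n0 := Nat.findGreatest_spec (hbd _ hP0) hP0
  have hmax : ∀ n, P n → n ≤ n0 := fun n hn => Nat.le_findGreatest (hbd n hn) hn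
  obtain ⟨f, hf, hf0', κ, hκ, hΦ⟩ := hPn
  refine ⟨f, hf, hf0', ⟨κ, hκ⟩, ?_⟩
  intro a b hab
  by_contra hg0
  set g := Eop a b f with hg
  have hgL : g ∈ L := hE a b f hf
  obtain ⟨m, hm⟩ := support_nonempty.2 hg0
  have hgc : ∀ c, Eop c c g = ((κ c : ℂ) + (H2_dl c a - H2_dl c b)) • g := by
    intro c
    rw [hg, H2_comm, hκ, Derivation.map_smul, add_smul]
  have hw : ∀ c, (H2_wt c m : ℂ) = (κ c : ℂ) + (H2_dl c a - H2_dl c b) := by
    intro c
    have h1 := congrArg (coeff m) (hgc c)
    rw [H2_coeff_diag, coeff_smul, smul_eq_mul] at h1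
    exact mul_right_cancel₀ (mem_support_iff.1 hm) h1
  have hgP : P (Φ fun c => H2_wt c m) := by
    refine ⟨g, hgL, hg0, fun c => H2_wt c m, fun c => ?_, rfl⟩
    rw [hgc c, hw c]
  have h1 := hmax _ hgP
  rw [← hΦ] at h1
  have h2 : ((Φ fun c => H2_wt c m : ℕ) : ℂ) = ((Φ κ : ℕ) : ℂ) + ((N - a.val : ℕ) : ℂ) -
      ((N - b.val : ℕ) : ℂ) := by
    simp only [Φ]
    push_cast
    simp only [hw]
    have e1 : ∑ c : Fin N, H2_dl c a * ((N - c.val : ℕ) : ℂ) = ((N - a.val : ℕ) : ℂ) := by
      unfold H2_dl
      rw [Finset.sum_eq_single a]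
      · simp
      · intro c _ hc
        rw [if_neg hc, zero_mul]
      · intro h
        exact absurd (Finset.mem_univ _) h
    have e2 : ∑ c : Fin N, H2_dl c b * ((N - c.val : ℕ) : ℂ) = ((N - b.val : ℕ) : ℂ) := by
      unfold H2_dl
      rw [Finset.sum_eq_single b]
      · simp
      · intro c _ hc
        rw [if_neg hc, zero_mul]
      · intro h
        exact absurd (Finset.mem_univ _) h
    rw [← e1, ← e2, ← Finset.sum_add_distrib, ← Finset.sum_sub_distrib]
    refine Finset.sum_congr rfl fun c _ => ?_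
    ring
  have h3 : (Φ fun c => H2_wt c m) + (N - b.val) = Φ κ + (N - a.val) := by
    have : (((Φ fun c => H2_wt c m) + (N - b.val) : ℕ) : ℂ) = ((Φ κ + (N - a.val) : ℕ) : ℂ) := by
      rw [Nat.cast_add, Nat.cast_add, h2]
      ring
    exact_mod_cast this
  have ha := a.2
  have hb := b.2
  have hab' : a.val < b.val := hab
  omega

/-- the generic one parameter substitution `e_b ↦ e_b + T e_a` -/
private noncomputable def H2_psi (a b : Fin N) : AN N →ₐ[ℂ] Polynomial (AN N) :=
  aeval (Sym2.lift ⟨fun i j => Polynomial.C (X s(i, j) : AN N) +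
      Polynomial.X * Polynomial.C (Eop a b (X s(i, j))) +
      Polynomial.X ^ 2 * Polynomial.C ((if i = b then 1 else 0) * (if j = b then 1 else 0) *
        (X s(a, a) : AN N)), fun i j => by
      show Polynomial.C (X s(i, j) : AN N) + Polynomial.X * Polynomial.C (Eop a b (X s(i, j))) +
        Polynomial.X ^ 2 * Polynomial.C ((if i = b then 1 else 0) * (if j = b then 1 else 0) *
          (X s(a, a) : AN N)) = Polynomial.C (X s(j, i) : AN N) +
        Polynomial.X * Polynomial.C (Eop a b (X s(j, i))) +
        Polynomial.X ^ 2 * Polynomial.C ((if j = b then 1 else 0) * (if i = b then 1 else 0) *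
          (X s(a, a) : AN N))
      rw [Sym2.eq_swap, mul_comm (if i = b then (1 : AN N) else 0)]⟩)

private theorem H2_psi_X (a b i j : Fin N) : H2_psi a b (X s(i, j)) =
    Polynomial.C (X s(i, j) : AN N) + Polynomial.X * Polynomial.C (Eop a b (X s(i, j))) +
      Polynomial.X ^ 2 * Polynomial.C ((if i = b then 1 else 0) * (if j = b then 1 else 0) *
        (X s(a, a) : AN N)) := by
  unfold H2_psi
  rw [aeval_X, Sym2.lift_mk]

private theorem H2_psi_coeff (a b : Fin N) (f : AN N) :
    (H2_psi a b f).coeff 0 = f ∧ (H2_psi a b f).coeff 1 = Eop a b f := by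
  induction f using MvPolynomial.induction_on with
  | C r =>
    rw [← algebraMap_eq, AlgHom.commutes, Derivation.map_algebraMap]
    rw [IsScalarTower.algebraMap_apply ℂ (AN N) (Polynomial (AN N))]
    rw [Polynomial.algebraMap_eq]
    constructor
    · rw [Polynomial.coeff_C_zero]
    · rw [Polynomial.coeff_C, if_neg one_ne_zero]
  | add p q hp hq =>
    rw [map_add, Polynomial.coeff_add, Polynomial.coeff_add, hp.1, hp.2, hq.1, hq.2, map_add]
    exact ⟨rfl, rfl⟩
  | mul_X p v hp =>
    have hX : (H2_psi a b (X v)).coeff 0 = X v ∧ (H2_psi a b (X v)).coeff 1 = Eop a b (X v) := by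
      induction v using Sym2.ind with
      | _ i j =>
        rw [H2_psi_X]
        constructor
        · simp [Polynomial.coeff_X_pow]
        · simp [Polynomial.coeff_X_pow, Polynomial.coeff_C]
    rw [map_mul, Polynomial.mul_coeff_zero, Polynomial.mul_coeff_one, hp.1, hp.2, hX.1, hX.2,
      Derivation.leibniz]
    refine ⟨rfl, ?_⟩
    rw [smul_eq_mul, smul_eq_mul]
    ring

private theorem H2_psi_eval (a b : Fin N) (t : ℂ) (f : AN N) :
    (H2_psi a b f).eval (algebraMap ℂ (AN N) t) =
      subN (1 + t • Matrix.single a b (1 : ℂ)) f := by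
  have h : ((Polynomial.evalRingHom (algebraMap ℂ (AN N) t)).comp
      (H2_psi a b).toRingHom) = (subN (1 + t • Matrix.single a b (1 : ℂ))).toRingHom := by
    apply MvPolynomial.ringHom_ext
    · intro r
      have e1 : (H2_psi a b) (C r) = Polynomial.C (C r) := by
        rw [← algebraMap_eq, AlgHom.commutes,
          IsScalarTower.algebraMap_apply ℂ (AN N) (Polynomial (AN N)), Polynomial.algebraMap_eq]
      have e2 : (subN (1 + t • Matrix.single a b (1 : ℂ))) (C r : AN N) = C r := by
        rw [← algebraMap_eq, AlgHom.commutes]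
      simp only [RingHom.comp_apply, AlgHom.toRingHom_eq_coe, RingHom.coe_coe]
      rw [e1, e2, Polynomial.coe_evalRingHom, Polynomial.eval_C]
    · intro v
      induction v using Sym2.ind with
      | _ i j =>
        simp only [RingHom.comp_apply, AlgHom.toRingHom_eq_coe, RingHom.coe_coe]
        rw [H2_psi_X, Polynomial.coe_evalRingHom]
        simp only [Polynomial.eval_add, Polynomial.eval_mul, Polynomial.eval_C,
          Polynomial.eval_X, Polynomial.eval_pow]
        unfold subN
        rw [aeval_X, Sym2.lift_mk]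
        have hg : ∀ k i : Fin N, (1 + t • Matrix.single a b (1 : ℂ)) k i =
            H2_dl k i + t * (H2_dl k a * H2_dl i b) := by
          intro k i
          rw [Matrix.add_apply, Matrix.smul_apply, Matrix.one_apply, smul_eq_mul,
            Matrix.single_apply]
          unfold H2_dl
          congr 2
          by_cases h1 : k = a
          · by_cases h2 : i = b
            · simp [h1, h2]
            · simp [h1, h2, Ne.symm h2]
          · simp [h1, Ne.symm h1]
        have hs : ∀ (k : Fin N) (F : Fin N → AN N), ∑ l, C (H2_dl l k) * F l = F k := by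
          intro k F
          unfold H2_dl
          rw [Finset.sum_eq_single k]
          · simp
          · intro l _ hl
            rw [if_neg hl, map_zero, zero_mul]
          · intro h
            exact absurd (Finset.mem_univ _) h
        have hin : ∀ k : Fin N, ∑ l, C ((1 + t • Matrix.single a b (1 : ℂ)) k i *
            (1 + t • Matrix.single a b (1 : ℂ)) l j) * (X s(k, l) : AN N) =
            C (H2_dl k i + t * (H2_dl k a * H2_dl i b)) *
              (X s(k, j) + C (t * H2_dl j b) * X s(k, a)) := by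
          intro k
          rw [← hs j fun l => (X s(k, l) : AN N), ← hs a fun l => (X s(k, l) : AN N),
            Finset.mul_sum, ← Finset.sum_add_distrib, Finset.mul_sum]
          refine Finset.sum_congr rfl fun l _ => ?_
          rw [hg, hg]
          simp only [map_mul, map_add]
          ring
        simp only [hin]
        have hout : ∑ k, C (H2_dl k i + t * (H2_dl k a * H2_dl i b)) *
              ((X s(k, j) : AN N) + C (t * H2_dl j b) * X s(k, a)) =
            (X s(i, j) + C (t * H2_dl j b) * X s(i, a)) +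
              C (t * H2_dl i b) * (X s(a, j) + C (t * H2_dl j b) * X s(a, a)) := by
          rw [← hs i fun k => ((X s(k, j) : AN N) + C (t * H2_dl j b) * X s(k, a)),
            ← hs a fun k => ((X s(k, j) : AN N) + C (t * H2_dl j b) * X s(k, a)),
            Finset.mul_sum, ← Finset.sum_add_distrib]
          refine Finset.sum_congr rfl fun k _ => ?_
          simp only [map_mul, map_add]
          ring
        rw [hout, H2_Eop_X', algebraMap_eq]
        have e1 : (if i = b then (1 : AN N) else 0) = C (H2_dl i b) := by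
          unfold H2_dl
          split_ifs <;> simp
        have e2 : (if j = b then (1 : AN N) else 0) = C (H2_dl j b) := by
          unfold H2_dl
          split_ifs <;> simp
        have e3 : s(i, a) = s(a, i) := Sym2.eq_swap
        rw [e1, e2, e3]
        simp only [map_mul]
        ring
  have h1 := congrArg (fun F : AN N →+* AN N => F f) h
  simpa using h1

/-- a subspace stable under all linear substitutions is `Eop` stable -/
theorem Eop_mem_of_subN (L : Submodule ℂ (AN N))
    (h : ∀ g : Matrix (Fin N) (Fin N) ℂ, ∀ f ∈ L, subN g f ∈ L) (a b : Fin N) (f : AN N)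
    (hf : f ∈ L) : Eop a b f ∈ L := by
  rw [← (H2_psi_coeff a b f).2]
  refine MP50e386.coeff_mem_of_infinite L (H2_psi a b f) Set.univ Set.infinite_univ ?_ 1
  intro t _
  rw [H2_psi_eval]
  exact h _ f hf

end MP50e386N
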