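import Mathlib
import Pool.Agent.Lib.MP_50e386_al.N.HDefs

/-! (h2): highest weight vectors are monomials in the leading minors. -/

namespace MP50e386N

open MvPolynomial

variable {N : ℕ}

private lemma h3_prod {A : Type*} [CommRing A] [Algebra ℂ A] (D : Derivation ℂ A A) {ι : Type*}
    [DecidableEq ι] (s : Finset ι) (f : ι → A) :
    D (∏ i ∈ s, f i) = ∑ i ∈ s, (∏ j ∈ s.erase i, f j) * D (f i) := by
  induction s using Finset.induction_on with
  | empty => simp
  | insert a s ha ih =>
    rw [Finset.prod_insert ha, Derivation.leibniz, ih, Finset.sum_insert ha,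
      Finset.erase_insert ha, smul_eq_mul, smul_eq_mul, add_comm]
    congr 1
    rw [Finset.mul_sum]
    apply Finset.sum_congr rfl
    intro i hi
    have hia : i ≠ a := fun h => ha (h ▸ hi)
    rw [Finset.erase_insert_of_ne hia.symm, Finset.prod_insert (by
      simp [ha]), mul_assoc]

private lemma h3_det {A : Type*} [CommRing A] [Algebra ℂ A] (D : Derivation ℂ A A) {n : Type*}
    [Fintype n] [DecidableEq n] (M : Matrix n n A) :
    D M.det = (M.adjugate * M.map D).trace := by
  have h1 : D M.det = ∑ i, (M.updateCol i (fun k => D (M k i))).det := by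
    rw [Matrix.det_apply', map_sum]
    simp_rw [Matrix.det_apply']
    rw [Finset.sum_comm]
    apply Finset.sum_congr rfl
    intro σ _
    rw [Derivation.leibniz, Derivation.map_intCast, smul_zero, add_zero, smul_eq_mul, h3_prod,
      Finset.mul_sum]
    apply Finset.sum_congr rfl
    intro i _
    congr 1
    rw [← Finset.mul_prod_erase Finset.univ _ (Finset.mem_univ i), mul_comm]
    congr 1
    · simp
    · apply Finset.prod_congr rfl
      intro j hj
      rw [Matrix.updateCol_ne (Finset.ne_of_mem_erase hj)]
  rw [h1, Matrix.trace]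
  apply Finset.sum_congr rfl
  intro i _
  rw [← Matrix.cramer_apply, Matrix.cramer_eq_adjugate_mulVec, Matrix.diag_apply, Matrix.mul_apply,
    Matrix.mulVec, dotProduct]
  simp

private lemma h3_Eop_X (a b i j : Fin N) : Eop a b (X s(i, j) : AN N) =
    (if i = b then (X s(a, j) : AN N) else 0) + (if j = b then (X s(a, i) : AN N) else 0) := by
  unfold Eop
  rw [mkDerivation_X, Sym2.lift_mk]

private lemma h3_lead (a b : Fin N) (hab : a ≤ b) (j : Fin N) :
    Eop a b (lead j) = (if a = b ∧ a ≤ j then (2 : ℂ) else 0) • lead j := by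
  unfold lead
  rw [h3_det]
  by_cases hb : b.val < j.val + 1
  · have ha : a.val < j.val + 1 := lt_of_le_of_lt hab hb
    obtain ⟨a', ha'⟩ : ∃ a' : Fin (j.val + 1), Fin.castLE j.2 a' = a := ⟨⟨a.val, ha⟩, by ext; simp⟩
    obtain ⟨b', hb'⟩ : ∃ b' : Fin (j.val + 1), Fin.castLE j.2 b' = b := ⟨⟨b.val, hb⟩, by ext; simp⟩
    set M : Matrix (Fin (j.val + 1)) (Fin (j.val + 1)) (AN N) :=
      Matrix.of fun a b : Fin (j.val + 1) => (X s(Fin.castLE j.2 a, Fin.castLE j.2 b) : AN N)
      with hM
    have hD : M.map (Eop a b) = Matrix.single b' a' 1 * M + M * Matrix.single a' b' 1 := by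
      refine Matrix.ext fun k l => ?_
      rw [Matrix.map_apply, Matrix.add_apply, hM, Matrix.of_apply, h3_Eop_X]
      refine congrArg₂ _ ?_ ?_
      · rw [← hb', ← ha']
        by_cases hk : k = b'
        · subst hk
          simp [Matrix.single_mul_apply_same]
        · rw [if_neg (fun h => hk (Fin.castLE_injective _ h)),
            Matrix.single_mul_apply_of_ne _ _ _ _ _ hk]
      · rw [← hb', ← ha']
        by_cases hk : l = b'
        · subst hk
          simp [Matrix.mul_single_apply_same, Sym2.eq_swap]
        · rw [if_neg (fun h => hk (Fin.castLE_injective _ h)),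
            Matrix.mul_single_apply_of_ne _ _ _ _ _ hk]
    have hD' : M.map ⇑(Eop a b) = Matrix.single b' a' 1 * M + M * Matrix.single a' b' 1 := hD
    rw [hD', mul_add, Matrix.trace_add, ← mul_assoc, Matrix.trace_mul_comm, ← mul_assoc,
      Matrix.mul_adjugate, ← mul_assoc, Matrix.adjugate_mul, Matrix.smul_mul, Matrix.smul_mul,
      one_mul, one_mul, Matrix.trace_smul, Matrix.trace_smul]
    by_cases h : a = b
    · have h' : a' = b' := by
        apply Fin.castLE_injective j.2
        rw [ha', hb', h]
      have haj : a ≤ j := Nat.lt_succ_iff.1 ha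
      rw [if_pos ⟨h, haj⟩, h', Matrix.trace_single_eq_same, two_smul, smul_eq_mul, mul_one]
    · have h' : a' ≠ b' := by
        intro h'
        apply h
        rw [← ha', ← hb', h']
      rw [if_neg (fun h1 => h h1.1), Matrix.trace_single_eq_of_ne _ _ _ h',
        Matrix.trace_single_eq_of_ne _ _ _ h'.symm]
      simp
  · have hz : (Matrix.of fun a b : Fin (j.val + 1) =>
        (X s(Fin.castLE j.2 a, Fin.castLE j.2 b) : AN N)).map (Eop a b) = 0 := by
      refine Matrix.ext fun k l => ?_
      rw [Matrix.map_apply, Matrix.of_apply, h3_Eop_X, if_neg, if_neg, add_zero]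
      · rfl
      · intro h
        apply hb
        rw [← h]
        exact l.2
      · intro h
        apply hb
        rw [← h]
        exact k.2
    rw [hz, Matrix.mul_zero, Matrix.trace_zero, if_neg, zero_smul]
    rintro ⟨h1, h2⟩
    apply hb
    rw [← h1]
    exact Nat.lt_succ_of_le h2

private lemma h3_pow {A : Type*} [CommRing A] [Algebra ℂ A] (D : Derivation ℂ A A) {ι : Type*}
    [DecidableEq ι] (s : Finset ι) (f : ι → A) (c : ι → ℂ) (α : ι → ℕ)
    (h : ∀ i, D (f i) = c i • f i) :
    D (∏ i ∈ s, f i ^ α i) = (∑ i ∈ s, (α i : ℂ) * c i) • ∏ i ∈ s, f i ^ α i := by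
  induction s using Finset.induction_on with
  | empty => simp
  | insert a s ha ih =>
    have hp : ∀ n : ℕ, D (f a ^ n) = ((n : ℂ) * c a) • f a ^ n := by
      intro n
      rcases n with _ | n
      · simp
      · rw [Derivation.leibniz_pow, h, Nat.add_sub_cancel, smul_comm (f a ^ n) (c a) (f a),
          smul_eq_mul, ← pow_succ, mul_smul, Nat.cast_smul_eq_nsmul]
    rw [Finset.prod_insert ha, Derivation.leibniz, ih, hp, Finset.sum_insert ha, add_smul,
      smul_eq_mul, smul_eq_mul, add_comm]
    congr 1
    · rw [mul_smul_comm, mul_comm (∏ x ∈ s, f x ^ α x)]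
    · rw [mul_smul_comm]

theorem Eop_DelA (α : Fin N → ℕ) (a b : Fin N) (hab : a < b) : Eop a b (DelA α) = 0 := by
  unfold DelA
  rw [h3_pow (Eop a b) Finset.univ (fun j => lead j) (fun _ => 0) α]
  · simp
  · intro j
    rw [h3_lead a b hab.le j, if_neg (fun h => hab.ne h.1)]

theorem Eop_self_DelA (α : Fin N → ℕ) (a : Fin N) :
    Eop a a (DelA α) = ((2 * ∑ j ∈ Finset.univ.filter (fun j => a ≤ j), α j : ℕ) : ℂ) • DelA α := by
  unfold DelA
  rw [h3_pow (Eop a a) Finset.univ (fun j => lead j) (fun j => if a ≤ j then 2 else 0) α]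
  · congr 1
    push_cast
    rw [Finset.sum_filter, Finset.mul_sum]
    apply Finset.sum_congr rfl
    intro j _
    split_ifs
    · ring
    · ring
  · intro j
    rw [h3_lead a a le_rfl j]
    simp

private lemma h3_lead_homog (j : Fin N) :
    (lead j : AN N).IsHomogeneous (j.val + 1) := by
  unfold lead
  rw [Matrix.det_apply']
  apply IsHomogeneous.sum
  intro σ _
  have h1 : (∏ i, (Matrix.of fun a b : Fin (j.val + 1) =>
      (X s(Fin.castLE j.2 a, Fin.castLE j.2 b) : AN N)) (σ i) i).IsHomogeneous (j.val + 1) := by
    have := IsHomogeneous.prod Finset.univ (fun i => (Matrix.of fun a b : Fin (j.val + 1) =>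
      (X s(Fin.castLE j.2 a, Fin.castLE j.2 b) : AN N)) (σ i) i) (fun _ => 1)
      (fun i _ => isHomogeneous_X ℂ _)
    simpa using this
  have h2 : (((Equiv.Perm.sign σ : ℤ) : ℤ) : AN N).IsHomogeneous 0 := by
    have : (((Equiv.Perm.sign σ : ℤ) : ℤ) : AN N) = C ((Equiv.Perm.sign σ : ℤ) : ℂ) := by
      simp
    rw [this]
    exact isHomogeneous_C _ _
  have := h2.mul h1
  rwa [zero_add] at this

theorem DelA_homog (α : Fin N → ℕ) :
    DelA α ∈ homogeneousSubmodule (Sym2 (Fin N)) ℂ (∑ j, (j.val + 1) * α j) := by
  rw [mem_homogeneousSubmodule]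
  unfold DelA
  apply IsHomogeneous.prod
  intro j _
  exact (h3_lead_homog j).pow _

private noncomputable def h3one : Sym2 (Fin N) → ℂ :=
  Sym2.lift ⟨fun i j => if i = j then 1 else 0, fun i j => by
    by_cases h : i = j
    · simp [h]
    · simp [h, Ne.symm h]⟩

private lemma h3_lead_one (j : Fin N) : eval h3one (lead j : AN N) = 1 := by
  unfold lead
  rw [RingHom.map_det]
  have : (RingHom.mapMatrix (eval (h3one : Sym2 (Fin N) → ℂ))) (Matrix.of fun a b :
      Fin (j.val + 1) => (X s(Fin.castLE j.2 a, Fin.castLE j.2 b) : AN N)) = 1 := by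
    ext k l
    rw [RingHom.mapMatrix_apply, Matrix.map_apply, Matrix.of_apply, eval_X, h3one, Sym2.lift_mk,
      Matrix.one_apply]
    simp only [(Fin.castLE_injective _).eq_iff]
  rw [this, Matrix.det_one]

private lemma h3_DelA_one (α : Fin N → ℕ) : eval h3one (DelA α : AN N) = 1 := by
  unfold DelA
  rw [map_prod]
  simp [h3_lead_one]

theorem DelA_ne_zero (α : Fin N → ℕ) : DelA α ≠ 0 := by
  intro h
  have := h3_DelA_one α
  rw [h] at this
  simp at this

/-! ### points and one-parameter groups -/

/-- the substitution `e_b ↦ e_b + t e_a` on points -/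
private noncomputable def h3act {R : Type*} [CommRing R] (a b : Fin N) (t : R)
    (s : Sym2 (Fin N) → R) : Sym2 (Fin N) → R :=
  Sym2.lift ⟨fun i j => s s(i, j) + t * (if i = b then s s(a, j) else 0) +
    t * (if j = b then s s(a, i) else 0) + t ^ 2 * (if i = b ∧ j = b then s s(a, a) else 0),
    fun i j => by
      beta_reduce
      rw [show s(i, j) = s(j, i) from Sym2.eq_swap]
      simp only [and_comm (a := i = b)]
      ring⟩

private lemma h3act_mk {R : Type*} [CommRing R] (a b : Fin N) (t : R)
    (s : Sym2 (Fin N) → R) (i j : Fin N) : h3act a b t s s(i, j) =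
    s s(i, j) + t * (if i = b then s s(a, j) else 0) +
    t * (if j = b then s s(a, i) else 0) + t ^ 2 * (if i = b ∧ j = b then s s(a, a) else 0) := rfl

/-- the substitution `e_a ↦ t e_a` on points -/
private noncomputable def h3sc {R : Type*} [CommRing R] (a : Fin N) (t : R)
    (s : Sym2 (Fin N) → R) : Sym2 (Fin N) → R :=
  Sym2.lift ⟨fun i j => (if i = a then t else 1) * (if j = a then t else 1) * s s(i, j),
    fun i j => by
      beta_reduce
      rw [show s(i, j) = s(j, i) from Sym2.eq_swap]
      ring⟩

private lemma h3sc_mk {R : Type*} [CommRing R] (a : Fin N) (t : R)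
    (s : Sym2 (Fin N) → R) (i j : Fin N) : h3sc a t s s(i, j) =
    (if i = a then t else 1) * (if j = a then t else 1) * s s(i, j) := rfl

private lemma h3_der_act (a b : Fin N) (hab : a ≠ b) (s : Sym2 (Fin N) → ℂ) (f : AN N) :
    Polynomial.derivative (aeval (h3act a b Polynomial.X (fun v => Polynomial.C (s v))) f) =
      aeval (h3act a b Polynomial.X (fun v => Polynomial.C (s v))) (Eop a b f) := by
  induction f using MvPolynomial.induction_on with
  | C c =>
    rw [show (C c : AN N) = algebraMap ℂ (AN N) c from rfl, Derivation.map_algebraMap]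
    simp
  | add p q hp hq => rw [map_add, map_add, hp, hq, map_add, map_add]
  | mul_X p v hp =>
    rw [map_mul, Polynomial.derivative_mul, hp, Derivation.leibniz, map_add, smul_eq_mul,
      smul_eq_mul, map_mul, map_mul, add_comm, mul_comm (aeval _ (Eop a b p)), aeval_X]
    congr 2
    induction v using Sym2.ind with
    | _ i j =>
      rw [h3_Eop_X, map_add, h3act_mk]
      by_cases hi : i = b
      · by_cases hj : j = b
        · simp only [hi, hj, if_true, and_self, aeval_X, h3act_mk, hab, false_and, if_false]
          simp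
          ring
        · simp only [hi, hj, if_true, and_false, aeval_X, h3act_mk, hab, if_false, map_zero]
          simp
      · by_cases hj : j = b
        · simp only [hi, hj, if_true, and_false, aeval_X, h3act_mk, hab,
            false_and, if_false, map_zero]
          simp
        · simp [hi, hj]

private lemma h3_der_sc (a : Fin N) (s : Sym2 (Fin N) → ℂ) (f : AN N) :
    Polynomial.X * Polynomial.derivative (aeval (h3sc a Polynomial.X
      (fun v => Polynomial.C (s v))) f) =
      aeval (h3sc a Polynomial.X (fun v => Polynomial.C (s v))) (Eop a a f) := by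
  induction f using MvPolynomial.induction_on with
  | C c =>
    rw [show (C c : AN N) = algebraMap ℂ (AN N) c from rfl, Derivation.map_algebraMap]
    simp
  | add p q hp hq => rw [map_add, map_add, mul_add, hp, hq, map_add, map_add]
  | mul_X p v hp =>
    have key : Polynomial.X * Polynomial.derivative (h3sc a Polynomial.X
        (fun v => Polynomial.C (s v)) v) =
        aeval (h3sc a Polynomial.X (fun v => Polynomial.C (s v))) (Eop a a (X v)) := by
      induction v using Sym2.ind with
      | _ i j =>
        rw [h3_Eop_X, map_add, h3sc_mk]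
        by_cases hi : i = a
        · by_cases hj : j = a
          · simp only [hi, hj, if_true, aeval_X, h3sc_mk]
            simp
            ring
          · simp only [hi, hj, if_true, aeval_X, h3sc_mk, if_false, map_zero]
            simp
        · by_cases hj : j = a
          · simp only [hi, hj, if_true, aeval_X, h3sc_mk, if_false, map_zero]
            simp
            rw [show s(i, a) = s(a, i) from Sym2.eq_swap]
          · simp [hi, hj]
    rw [map_mul, Polynomial.derivative_mul, Derivation.leibniz, map_add, smul_eq_mul,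
      smul_eq_mul, map_mul, map_mul, ← hp, aeval_X]
    linear_combination (aeval (h3sc a Polynomial.X (fun v => Polynomial.C (s v))) p) * key

private lemma h3_eval_act (a b : Fin N) (s : Sym2 (Fin N) → ℂ) (f : AN N) (t : ℂ) :
    Polynomial.eval t (aeval (h3act a b Polynomial.X (fun v => Polynomial.C (s v))) f) =
      eval (h3act a b t s) f := by
  have h : (Polynomial.evalRingHom t).comp ((aeval (h3act a b Polynomial.X
      (fun v => Polynomial.C (s v))) : AN N →ₐ[ℂ] Polynomial ℂ) : AN N →+* Polynomial ℂ) =
      eval (h3act a b t s) := by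
    apply MvPolynomial.ringHom_ext
    · intro c
      simp
    · intro v
      induction v using Sym2.ind with
      | _ i j =>
        simp only [RingHom.comp_apply, RingHom.coe_coe, aeval_X, eval_X, h3act_mk]
        split_ifs <;> simp <;> ring
  have := RingHom.congr_fun h f
  simpa using this

private lemma h3_eval_sc (a : Fin N) (s : Sym2 (Fin N) → ℂ) (f : AN N) (t : ℂ) :
    Polynomial.eval t (aeval (h3sc a Polynomial.X (fun v => Polynomial.C (s v))) f) =
      eval (h3sc a t s) f := by
  have h : (Polynomial.evalRingHom t).comp ((aeval (h3sc a Polynomial.X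
      (fun v => Polynomial.C (s v))) : AN N →ₐ[ℂ] Polynomial ℂ) : AN N →+* Polynomial ℂ) =
      eval (h3sc a t s) := by
    apply MvPolynomial.ringHom_ext
    · intro c
      simp
    · intro v
      induction v using Sym2.ind with
      | _ i j =>
        simp only [RingHom.comp_apply, RingHom.coe_coe, aeval_X, eval_X, h3sc_mk]
        split_ifs <;> simp <;> ring
  have := RingHom.congr_fun h f
  simpa using this

private lemma h3_act_zero (a b : Fin N) (s : Sym2 (Fin N) → ℂ) : h3act a b 0 s = s := by
  funext v
  induction v using Sym2.ind with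
  | _ i j =>
    rw [h3act_mk]
    simp

private lemma h3_sc_one (a : Fin N) (s : Sym2 (Fin N) → ℂ) : h3sc a 1 s = s := by
  funext v
  induction v using Sym2.ind with
  | _ i j =>
    rw [h3sc_mk]
    simp

/-- invariance under unipotent substitutions -/
private lemma h3_inv (a b : Fin N) (hab : a ≠ b) (s : Sym2 (Fin N) → ℂ) (f : AN N)
    (hf : Eop a b f = 0) (t : ℂ) : eval (h3act a b t s) f = eval s f := by
  have h1 := h3_der_act a b hab s f
  rw [hf, map_zero] at h1
  have h2 := Polynomial.eq_C_of_derivative_eq_zero h1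
  have h3 := h3_eval_act a b s f t
  have h4 := h3_eval_act a b s f 0
  rw [h2, Polynomial.eval_C] at h3 h4
  rw [← h3, h4, h3_act_zero]

/-- the weights -/
private lemma h3_wt (a : Fin N) (s : Sym2 (Fin N) → ℂ) (f : AN N) (k : ℕ)
    (hf : Eop a a f = (k : ℂ) • f) (t : ℂ) : eval (h3sc a t s) f = t ^ k * eval s f := by
  have h1 := h3_der_sc a s f
  rw [hf, map_smul] at h1
  obtain ⟨P, hP⟩ : ∃ P : Polynomial ℂ, P = aeval (h3sc a Polynomial.X
    (fun v => Polynomial.C (s v))) f := ⟨_, rfl⟩
  rw [← hP] at h1
  have h2 : P = Polynomial.C (P.coeff k) * Polynomial.X ^ k := by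
    ext n
    rw [Polynomial.coeff_C_mul, Polynomial.coeff_X_pow]
    by_cases hn : n = k
    · rw [if_pos hn, hn, mul_one]
    · rw [if_neg hn, mul_zero]
      have h3 := congrArg (fun Q => Polynomial.coeff Q n) h1
      rcases n with _ | n
      · simp only [Polynomial.mul_coeff_zero, Polynomial.coeff_X_zero, zero_mul,
          Polynomial.coeff_smul, smul_eq_mul] at h3
        have hk : (k : ℂ) ≠ 0 := by
          intro h
          exact hn (by exact_mod_cast h.symm)
        exact (mul_eq_zero.1 h3.symm).resolve_left hk
      · simp only [Polynomial.coeff_X_mul, Polynomial.coeff_derivative, Polynomial.coeff_smul,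
          smul_eq_mul] at h3
        have hk : ((n : ℂ) + 1 - k) ≠ 0 := by
          intro h
          apply hn
          have : ((n + 1 : ℕ) : ℂ) = (k : ℂ) := by
            push_cast
            linear_combination h
          exact_mod_cast this
        have h4 : P.coeff (n + 1) * ((n : ℂ) + 1 - k) = 0 := by
          linear_combination h3
        exact (mul_eq_zero.1 h4).resolve_right hk
  have h3 := h3_eval_sc a s f t
  have h4 := h3_eval_sc a s f 1
  rw [← hP, h2] at h3 h4
  simp only [Polynomial.eval_mul, Polynomial.eval_C, Polynomial.eval_pow, Polynomial.eval_X,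
    one_pow, mul_one] at h3 h4
  rw [← h3, h4, h3_sc_one, mul_comm]

/-- diagonal points -/
private noncomputable def h3dg (d : Fin N → ℂ) : Sym2 (Fin N) → ℂ :=
  Sym2.lift ⟨fun i j => if i = j then d i else 0, fun i j => by
    beta_reduce
    by_cases h : i = j
    · rw [h]
    · rw [if_neg h, if_neg (Ne.symm h)]⟩

private lemma h3dg_mk (d : Fin N → ℂ) (i j : Fin N) :
    h3dg d s(i, j) = if i = j then d i else 0 := rfl

private lemma h3_one_eq : (h3one : Sym2 (Fin N) → ℂ) = h3dg (fun _ => 1) := rfl

private lemma h3_sc_dg (a : Fin N) (t : ℂ) (d : Fin N → ℂ) :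
    h3sc a t (h3dg d) = h3dg (Function.update d a (t ^ 2 * d a)) := by
  funext v
  induction v using Sym2.ind with
  | _ i j =>
    rw [h3sc_mk, h3dg_mk, h3dg_mk]
    by_cases h : i = j
    · subst h
      rw [if_pos rfl, if_pos rfl]
      by_cases hi : i = a
      · subst hi
        rw [Function.update_self, if_pos rfl]
        ring
      · simp [hi]
    · simp [h]

private lemma h3_dg_val (f : AN N) (κ : Fin N → ℕ) (hκ : ∀ a, Eop a a f = (κ a : ℂ) • f)
    (r : Fin N → ℂ) :
    eval (h3dg (fun i => r i ^ 2)) f = (∏ i, r i ^ κ i) * eval h3one f := by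
  have key : ∀ T : Finset (Fin N), eval (h3dg (fun i => if i ∈ T then r i ^ 2 else 1)) f =
      (∏ i ∈ T, r i ^ κ i) * eval h3one f := by
    intro T
    induction T using Finset.induction_on with
    | empty =>
      rw [h3_one_eq]
      simp
    | insert a T ha ih =>
      have h1 : h3dg (fun i => if i ∈ insert a T then r i ^ 2 else 1) =
          h3sc a (r a) (h3dg (fun i => if i ∈ T then r i ^ 2 else 1)) := by
        rw [h3_sc_dg]
        congr 1
        funext i
        by_cases hi : i = a
        · subst hi
          simp [ha]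
        · simp [hi]
      rw [h1, h3_wt a _ f (κ a) (hκ a), ih, Finset.prod_insert ha, mul_assoc]
  have := key Finset.univ
  simpa using this

private lemma h3_star (f : AN N) (κ : Fin N → ℕ) (hκ : ∀ a, Eop a a f = (κ a : ℂ) • f)
    (hE : ∀ a b : Fin N, a < b → Eop a b f = 0) (h0 : eval h3one f = 0) : f = 0 := by
  have hdiag : ∀ d : Fin N → ℂ, eval (h3dg d) f = 0 := by
    intro d
    have hex : ∀ i, ∃ r : ℂ, r ^ 2 = d i := fun i =>
      IsAlgClosed.exists_pow_nat_eq (d i) (by norm_num)
    choose r hr using hex
    have h := h3_dg_val f κ hκ r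
    simp_rw [hr] at h
    rw [h, h0, mul_zero]
  let K : ℕ → ℕ → (Sym2 (Fin N) → ℂ) → Prop := fun k j s =>
    ∀ a b : Fin N, a < b → (a.val < k ∨ (a.val = k ∧ b.val < j)) → s s(a, b) = 0
  let V : ℕ → ℕ → Prop := fun k j => ∀ s, K k j s → eval s f = 0
  have hN : V N 0 := by
    intro s hs
    have : s = h3dg (fun i => s s(i, i)) := by
      funext v
      induction v using Sym2.ind with
      | _ i j =>
        rw [h3dg_mk]
        rcases lt_trichotomy i j with h | h | h
        · rw [if_neg h.ne]
          exact hs i j h (Or.inl i.2)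
        · subst h
          simp
        · rw [if_neg h.ne', Sym2.eq_swap]
          exact hs j i h (Or.inl j.2)
    rw [this]
    exact hdiag _
  have step1 : ∀ k j, k < N → j < N → V k (j + 1) → V k j := by
    intro k j hk hj h s hs
    rcases Nat.lt_or_ge k j with hkj | hkj
    · obtain ⟨a0, ha0⟩ : ∃ a0 : Fin N, a0.val = k := ⟨⟨k, hk⟩, rfl⟩
      obtain ⟨b0, hb0⟩ : ∃ b0 : Fin N, b0.val = j := ⟨⟨j, hj⟩, rfl⟩
      have hab : a0 < b0 := by
        rw [Fin.lt_def]
        omega
      have claim : ∀ s, K k j s → s s(a0, a0) ≠ 0 → eval s f = 0 := by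
        intro s hs hne
        rw [← h3_inv a0 b0 hab.ne s f (hE a0 b0 hab) (-s s(a0, b0) / s s(a0, a0))]
        apply h
        intro a b hab' hh
        rw [h3act_mk]
        rcases hh with hh | ⟨hh, hh2⟩
        · have h1 : a ≠ b0 := by
            intro h1
            rw [h1] at hh
            omega
          have h2 : s s(a0, a) = 0 := by
            rw [Sym2.eq_swap]
            refine hs a a0 ?_ (Or.inl hh)
            rw [Fin.lt_def]
            omega
          rw [hs a b hab' (Or.inl hh), if_neg h1, h2,
            if_neg (fun h3 : a = b0 ∧ b = b0 => h1 h3.1)]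
          simp
        · have h1 : a = a0 := Fin.ext (by omega)
          have h2 : ¬ (a0 = b0) := hab.ne
          rw [h1]
          rw [if_neg h2, if_neg (fun h3 : a0 = b0 ∧ b = b0 => h2 h3.1)]
          by_cases hb : b = b0
          · rw [if_pos hb, hb]
            field_simp
            ring
          · rw [if_neg hb]
            have h3 : b.val < j := by
              have : b.val ≠ b0.val := fun h4 => hb (Fin.ext h4)
              omega
            rw [← h1, hs a b hab' (Or.inr ⟨hh, h3⟩)]
            simp
      have hcont : Continuous (fun ε : ℂ => eval (Function.update s s(a0, a0) ε) f) :=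
        (MvPolynomial.continuous_eval f).comp (continuous_const.update _ continuous_id)
      have hz : (fun ε : ℂ => eval (Function.update s s(a0, a0) ε) f) = fun _ => 0 := by
        apply Continuous.ext_on (dense_compl_singleton (0 : ℂ)) hcont continuous_const
        intro ε hε
        apply claim
        · intro a b hab' hh
          have hne : s(a, b) ≠ s(a0, a0) := by
            intro h1
            rw [Sym2.eq_iff] at h1
            rcases h1 with ⟨h1, h2⟩ | ⟨h1, h2⟩ <;> exact hab'.ne (h1.trans h2.symm)
          rw [Function.update_of_ne hne]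
          exact hs a b hab' hh
        · rw [Function.update_self]
          exact hε
      have h5 := congrFun hz (s s(a0, a0))
      simp only [Function.update_eq_self] at h5
      exact h5
    · apply h
      intro a b hab hh
      rcases hh with hh | ⟨hh, hh2⟩
      · exact hs a b hab (Or.inl hh)
      · exfalso
        rw [Fin.lt_def] at hab
        omega
  have step2 : ∀ k, V (k + 1) 0 → V k N := by
    intro k h s hs
    apply h
    intro a b hab hh
    rcases hh with hh | ⟨_, hh⟩
    · rcases Nat.lt_succ_iff_lt_or_eq.1 hh with h1 | h1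
      · exact hs a b hab (Or.inl h1)
      · exact hs a b hab (Or.inr ⟨h1, b.2⟩)
    · exact absurd hh (Nat.not_lt_zero _)
  have step3 : ∀ k, k < N → V k N → V k 0 := by
    intro k hk h
    have h1 : ∀ m ≤ N, V k (N - m) := by
      intro m
      induction m with
      | zero =>
        intro _
        exact h
      | succ m ih =>
        intro hm
        apply step1 k _ hk (by omega)
        have h2 := ih (by omega)
        rwa [show N - (m + 1) + 1 = N - m by omega]
    have h3 := h1 N le_rfl
    rwa [Nat.sub_self] at h3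
  have all : ∀ m ≤ N, V (N - m) 0 := by
    intro m
    induction m with
    | zero =>
      intro _
      exact hN
    | succ m ih =>
      intro hm
      apply step3 _ (by omega)
      apply step2
      have h2 := ih (by omega)
      rwa [show N - (m + 1) + 1 = N - m by omega]
  have h00 : V 0 0 := by
    have h3 := all N le_rfl
    rwa [Nat.sub_self] at h3
  apply MvPolynomial.funext
  intro s
  rw [map_zero]
  apply h00 s
  intro a b _ h
  rcases h with h | ⟨_, h⟩ <;> exact absurd h (Nat.not_lt_zero _)

private lemma h3_even (f : AN N) (κ : Fin N → ℕ) (hκ : ∀ a, Eop a a f = (κ a : ℂ) • f)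
    (h0 : eval h3one f ≠ 0) (j : Fin N) : Even (κ j) := by
  have h1 := h3_wt j h3one f (κ j) (hκ j) (-1)
  have h2 : h3sc j (-1) (h3one : Sym2 (Fin N) → ℂ) = h3one := by
    rw [h3_one_eq, h3_sc_dg]
    congr 1
    funext i
    by_cases hi : i = j
    · subst hi
      simp
    · simp [hi]
  rw [h2] at h1
  have h3 : (-1 : ℂ) ^ κ j = 1 := by
    have : (1 - (-1 : ℂ) ^ κ j) * eval h3one f = 0 := by linear_combination h1
    rcases mul_eq_zero.1 this with h | h
    · linear_combination -h
    · exact absurd h h0
  exact (neg_one_pow_eq_one_iff_even (by norm_num)).1 h3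

/-- the test points for the monotonicity of the weight -/
private noncomputable def h3q {R : Type*} [CommRing R] (a b : Fin N) (x : R) :
    Sym2 (Fin N) → R :=
  Sym2.lift ⟨fun i j => if i = j then (if i = a then x else if i = b then 0 else 1) else
    if (i = a ∧ j = b) ∨ (i = b ∧ j = a) then 1 else 0, fun i j => by
    beta_reduce
    by_cases h : i = j
    · rw [h]
    · rw [if_neg h, if_neg (Ne.symm h)]
      have : ((i = a ∧ j = b) ∨ (i = b ∧ j = a)) ↔ ((j = a ∧ i = b) ∨ (j = b ∧ i = a)) := by
        tauto
      simp only [this]⟩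

private lemma h3q_mk {R : Type*} [CommRing R] (a b : Fin N) (x : R) (i j : Fin N) :
    h3q a b x s(i, j) = if i = j then (if i = a then x else if i = b then 0 else 1) else
    if (i = a ∧ j = b) ∨ (i = b ∧ j = a) then 1 else 0 := rfl

private lemma h3_q_act (a b : Fin N) (hab : a ≠ b) (x : ℂ) (hx : x ≠ 0) :
    h3act a b (-1 / x) (h3q a b x) =
      h3dg (fun i => if i = a then x else if i = b then -1 / x else 1) := by
  funext v
  induction v using Sym2.ind with
  | _ i j =>
    rw [h3act_mk, h3dg_mk]
    simp only [h3q_mk]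
    have hba : ¬ (b = a) := hab.symm
    by_cases h1 : i = a
    · by_cases h2 : j = a
      · simp [h1, h2, hab]
      · by_cases h3 : j = b
        · simp [h1, h3, hab, hba, hx]
        · simp [h1, h2, h3, hab, Ne.symm h2]
    · by_cases h2 : j = a
      · by_cases h3 : i = b
        · simp [h2, h3, hab, hba, hx]
        · simp [h1, h2, h3, hab]
      · by_cases h3 : i = b
        · by_cases h4 : j = b
          · simp [h3, h4, hab, hba]
            field_simp
            ring
          · simp [h2, h3, h4, hab, hba, Ne.symm h2, Ne.symm h4]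
        · by_cases h4 : j = b
          · simp [h1, h3, h4, hab, hba, Ne.symm h1]
          · simp [h1, h2, h3, h4]

private lemma h3_mono (f : AN N) (κ : Fin N → ℕ) (hκ : ∀ a, Eop a a f = (κ a : ℂ) • f)
    (hE : ∀ a b : Fin N, a < b → Eop a b f = 0) (h0 : eval h3one f ≠ 0) (a b : Fin N)
    (hab : a < b) : κ b ≤ κ a := by
  obtain ⟨p, hp⟩ := h3_even f κ hκ h0 a
  obtain ⟨q, hq⟩ := h3_even f κ hκ h0 b
  obtain ⟨P, hP⟩ : ∃ P : Polynomial ℂ, P = aeval (h3q a b Polynomial.X) f := ⟨_, rfl⟩
  have hPe : ∀ x : ℂ, P.eval x = eval (h3q a b x) f := by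
    intro x
    rw [hP]
    have h : (Polynomial.evalRingHom x).comp ((aeval (h3q a b Polynomial.X) :
        AN N →ₐ[ℂ] Polynomial ℂ) : AN N →+* Polynomial ℂ) = eval (h3q a b x) := by
      apply MvPolynomial.ringHom_ext
      · intro c
        simp
      · intro v
        induction v using Sym2.ind with
        | _ i j =>
          simp only [RingHom.comp_apply, RingHom.coe_coe, aeval_X, eval_X, h3q_mk]
          split_ifs <;> simp
    have := RingHom.congr_fun h f
    simpa using this
  have hval : ∀ x : ℂ, x ≠ 0 → x ^ q * P.eval x = x ^ p * ((-1) ^ q * eval h3one f) := by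
    intro x hx
    obtain ⟨r, hr⟩ := IsAlgClosed.exists_pow_nat_eq x (n := 2) (by norm_num)
    obtain ⟨r', hr'⟩ := IsAlgClosed.exists_pow_nat_eq (-1 / x) (n := 2) (by norm_num)
    have h1 : h3act a b (-1 / x) (h3q a b x) = h3sc a r (h3sc b r' h3one) := by
      rw [h3_q_act a b hab.ne x hx, h3_one_eq, h3_sc_dg, h3_sc_dg]
      congr 1
      funext i
      by_cases h2 : i = a
      · subst h2
        simp [hab.ne, hr]
      · by_cases h3 : i = b
        · subst h3
          simp [h2, hr']
        · simp [h2, h3]
    rw [hPe, ← h3_inv a b hab.ne (h3q a b x) f (hE a b hab) (-1 / x), h1,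
      h3_wt a _ f (κ a) (hκ a), h3_wt b _ f (κ b) (hκ b), hp, hq, ← two_mul, ← two_mul, pow_mul,
      pow_mul, hr, hr']
    have : x ^ q * (-1 / x) ^ q = (-1) ^ q := by
      rw [← mul_pow]
      congr 1
      field_simp
    linear_combination (x ^ p * eval h3one f) * this
  have hpoly : Polynomial.X ^ q * P =
      Polynomial.C ((-1) ^ q * eval h3one f) * Polynomial.X ^ p := by
    apply Polynomial.eq_of_infinite_eval_eq
    apply Set.Infinite.mono _ (Set.finite_singleton (0 : ℂ)).infinite_compl
    intro x hx
    have hx' : x ≠ 0 := hx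
    simp only [Set.mem_ofPred_eq, Polynomial.eval_mul, Polynomial.eval_pow, Polynomial.eval_X,
      Polynomial.eval_C]
    rw [hval x hx']
    ring
  by_contra hcon
  have hpq : p < q := by omega
  have h1 := congrArg (fun Q => Polynomial.coeff Q p) hpoly
  simp only [Polynomial.coeff_X_pow_mul', Polynomial.coeff_C_mul, Polynomial.coeff_X_pow] at h1
  rw [if_neg (by omega)] at h1
  simp at h1
  exact h0 h1

theorem hw_form (f : AN N) (hf : f ≠ 0) (κ : Fin N → ℕ)
    (hκ : ∀ a, Eop a a f = (κ a : ℂ) • f) (hE : ∀ a b : Fin N, a < b → Eop a b f = 0) :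
    ∃ (α : Fin N → ℕ) (c : ℂ), c ≠ 0 ∧ f = c • DelA α ∧
      ∀ a, κ a = 2 * ∑ j ∈ Finset.univ.filter (fun j => a ≤ j), α j := by
  have h0 : eval h3one f ≠ 0 := fun h => hf (h3_star f κ hκ hE h)
  obtain ⟨κ', hκ'⟩ : ∃ κ' : ℕ → ℕ, κ' = fun n => if h : n < N then κ ⟨n, h⟩ else 0 := ⟨_, rfl⟩
  have hk1 : ∀ a : Fin N, κ' a.val = κ a := by
    intro a
    rw [hκ']
    simp
  have hk2 : κ' N = 0 := by
    rw [hκ']
    simp
  have hev : ∀ n, Even (κ' n) := by
    intro n
    rw [hκ']
    by_cases h : n < N
    · simp only [h, dite_true]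
      exact h3_even f κ hκ h0 _
    · simp [h]
  have hmo : ∀ n, κ' (n + 1) ≤ κ' n := by
    intro n
    rw [hκ']
    by_cases h : n + 1 < N
    · have h' : n < N := by omega
      simp only [h, h', dite_true]
      apply h3_mono f κ hκ hE h0
      rw [Fin.lt_def]
      simp
    · simp [h]
  obtain ⟨α, hα⟩ : ∃ α : Fin N → ℕ, α = fun j => (κ' j.val - κ' (j.val + 1)) / 2 := ⟨_, rfl⟩
  have hα2 : ∀ j : Fin N, 2 * α j + κ' (j.val + 1) = κ' j.val := by
    intro j
    obtain ⟨x, hx⟩ := hev j.val
    obtain ⟨y, hy⟩ := hev (j.val + 1)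
    have h1 := hmo j.val
    rw [hα]
    beta_reduce
    omega
  have hsum : ∀ m ≤ N, 2 * ∑ j ∈ Finset.univ.filter (fun j : Fin N => N - m ≤ j.val), α j =
      κ' (N - m) := by
    intro m
    induction m with
    | zero =>
      intro _
      rw [Nat.sub_zero, hk2, Finset.filter_false_of_mem (by
        intro j _
        have := j.2
        omega)]
      simp
    | succ m ih =>
      intro hm
      have h1 := ih (by omega)
      have h2 : (Finset.univ.filter (fun j : Fin N => N - (m + 1) ≤ j.val)) =
          insert (⟨N - (m + 1), by omega⟩ : Fin N)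
            (Finset.univ.filter (fun j : Fin N => N - m ≤ j.val)) := by
        ext j
        simp only [Finset.mem_filter, Finset.mem_univ, true_and, Finset.mem_insert, Fin.ext_iff]
        omega
      rw [h2, Finset.sum_insert (by
        simp only [Finset.mem_filter, Finset.mem_univ, true_and]
        omega), mul_add, h1]
      have h3 := hα2 ⟨N - (m + 1), by omega⟩
      simp only at h3
      rw [show N - (m + 1) + 1 = N - m by omega] at h3
      exact h3
  have hsum' : ∀ a : Fin N, κ a = 2 * ∑ j ∈ Finset.univ.filter (fun j => a ≤ j), α j := by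
    intro a
    have h1 := hsum (N - a.val) (by omega)
    have ha := a.2
    rw [show N - (N - a.val) = a.val by omega, hk1] at h1
    rw [← h1]
    rfl
  refine ⟨α, eval h3one f, h0, ?_, hsum'⟩
  have hg : f - eval h3one f • DelA α = 0 := by
    apply h3_star _ κ
    · intro a
      rw [map_sub, Derivation.map_smul, hκ a, Eop_self_DelA, ← hsum' a, smul_sub]
      congr 1
      rw [smul_comm]
    · intro a b hab
      rw [map_sub, Derivation.map_smul, hE a b hab, Eop_DelA α a b hab]
      simp
    · rw [map_sub, smul_eval, h3_DelA_one]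
      simp
  exact sub_eq_zero.1 hg

end MP50e386N
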