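import Mathlib
import Pool.Agent.Lib.MP_50e386_al.N.HDefs
import Pool.Agent.Lib.MP_50e386_al.N.H1
import Pool.Agent.Lib.MP_50e386_al.N.H2
import Pool.Agent.Lib.MP_50e386_al.N.H3

/-! (h3): dichotomy. -/

namespace MP50e386N

open MvPolynomial

variable {N : ℕ}

/-- the orthogonal of `L` for the Fischer form -/
private noncomputable def h4perp (L : Submodule ℂ (AN N)) : Submodule ℂ (AN N) where
  carrier := {f | ∀ g ∈ L, fis g f = 0}
  add_mem' := by
    intro a b ha hb g hg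
    rw [fis_add_right, ha g hg, hb g hg, add_zero]
  zero_mem' := by
    intro g _
    have := fis_smul_right g (0 : AN N) 0
    rwa [zero_smul, zero_mul] at this
  smul_mem' := by
    intro c f hf g hg
    rw [fis_smul_right, hf g hg, mul_zero]

private theorem h4_mem {L : Submodule ℂ (AN N)} {f : AN N} :
    f ∈ h4perp L ↔ ∀ g ∈ L, fis g f = 0 := Iff.rfl

private theorem h4_perp_Eop {L : Submodule ℂ (AN N)}
    (hE : ∀ a b : Fin N, ∀ f ∈ L, Eop a b f ∈ L) (a b : Fin N) {f : AN N} (hf : f ∈ h4perp L) :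
    Eop a b f ∈ h4perp L := by
  intro g hg
  rw [← fis_Eop b a g f]
  exact hf _ (hE b a g hg)

private theorem h4_inter {L : Submodule ℂ (AN N)} {f : AN N} (hf : f ∈ L) (hf' : f ∈ h4perp L) :
    f = 0 := by
  by_contra hne
  have h := fis_self_pos f hne
  rw [hf' f hf] at h
  simp at h

private theorem h4_alpha {α α' : Fin N → ℕ}
    (h : ∀ a, 2 * ∑ j ∈ Finset.univ.filter (fun j => a ≤ j), α j =
      2 * ∑ j ∈ Finset.univ.filter (fun j => a ≤ j), α' j) : α = α' := by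
  have key : ∀ a : Fin N, ∀ β : Fin N → ℕ, ∑ j ∈ Finset.univ.filter (fun j => a ≤ j), β j =
      β a + ∑ j ∈ Finset.univ.filter (fun j => a < j), β j := by
    intro a β
    have : (Finset.univ.filter (fun j : Fin N => a ≤ j)) =
        insert a (Finset.univ.filter (fun j => a < j)) := by
      ext j
      simp only [Finset.mem_filter, Finset.mem_univ, true_and, Finset.mem_insert]
      rw [le_iff_eq_or_lt, eq_comm]
    rw [this, Finset.sum_insert (by simp)]
  funext a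
  induction a using WellFoundedGT.induction with
  | ind a ih =>
    have h1 := h a
    rw [key a α, key a α'] at h1
    have h2 : ∑ j ∈ Finset.univ.filter (fun j => a < j), α j =
        ∑ j ∈ Finset.univ.filter (fun j => a < j), α' j :=
      Finset.sum_congr rfl fun j hj => ih j (Finset.mem_filter.1 hj).2
    omega

theorem hw_dichotomy (d : ℕ) (L : Submodule ℂ (AN N))
    (hL : L ≤ homogeneousSubmodule (Sym2 (Fin N)) ℂ d)
    (hE : ∀ a b : Fin N, ∀ f ∈ L, Eop a b f ∈ L) (α : Fin N → ℕ)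
    (hα : DelA α ∈ homogeneousSubmodule (Sym2 (Fin N)) ℂ d) :
    DelA α ∈ L ∨ ∀ g ∈ L, fis g (DelA α) = 0 := by
  obtain ⟨u, hu, -, hperp⟩ := fis_decomp d L hL (DelA α) hα
  have hu' : DelA α - u ∈ h4perp L := hperp
  by_cases hu0 : u = 0
  · right
    intro g hg
    have := hperp g hg
    rwa [hu0, sub_zero] at this
  left
  have key : ∀ (a b : Fin N) (c : ℂ), Eop a b (DelA α) = c • DelA α → Eop a b u = c • u := by
    intro a b c hc
    have h1 : Eop a b u - c • u ∈ L := L.sub_mem (hE a b u hu) (L.smul_mem c hu)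
    have h2 : Eop a b u - c • u = -(Eop a b (DelA α - u) - c • (DelA α - u)) := by
      rw [map_sub, hc, smul_sub]; abel
    have h3 : Eop a b u - c • u ∈ h4perp L := by
      rw [h2]
      exact (h4perp L).neg_mem ((h4perp L).sub_mem (h4_perp_Eop hE a b hu')
        ((h4perp L).smul_mem c hu'))
    exact sub_eq_zero.1 (h4_inter h1 h3)
  obtain ⟨α', c, hc, hf, hκ⟩ := hw_form u hu0
    (fun a => 2 * ∑ j ∈ Finset.univ.filter (fun j => a ≤ j), α j)
    (fun a => key a a _ (Eop_self_DelA α a))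
    (fun a b hab => by
      have := key a b 0 (by rw [zero_smul]; exact Eop_DelA α a b hab)
      rwa [zero_smul] at this)
  have hαα : α = α' := h4_alpha hκ
  subst hαα
  have : DelA α = c⁻¹ • u := by rw [hf, smul_smul, inv_mul_cancel₀ hc, one_smul]
  rw [this]
  exact L.smul_mem _ hu

/-- two `Eop`-stable subspaces of the degree `d` part with the same monomials in the leading minors:
if `L` is not contained in `L'` there is `DelA α ∈ L`, `DelA α ∉ L'`. -/
theorem exists_DelA (d : ℕ) (L L' : Submodule ℂ (AN N))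
    (hL : L ≤ homogeneousSubmodule (Sym2 (Fin N)) ℂ d)
    (hL' : L' ≤ homogeneousSubmodule (Sym2 (Fin N)) ℂ d)
    (hE : ∀ a b : Fin N, ∀ f ∈ L, Eop a b f ∈ L) (hE' : ∀ a b : Fin N, ∀ f ∈ L', Eop a b f ∈ L')
    (hLL : ¬ L ≤ L') : ∃ α : Fin N → ℕ, DelA α ∈ L ∧ DelA α ∉ L' := by
  have hKE : ∀ a b : Fin N, ∀ f ∈ L ⊓ L', Eop a b f ∈ L ⊓ L' :=
    fun a b f hf => ⟨hE a b f hf.1, hE' a b f hf.2⟩
  obtain ⟨f, hfL, hfL'⟩ := Set.not_subset.1 hLL
  obtain ⟨u, hu, -, hperp⟩ := fis_decomp d (L ⊓ L') (inf_le_left.trans hL) f (hL hfL)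
  have hne : L ⊓ h4perp (L ⊓ L') ≠ ⊥ := by
    intro h
    have hm : f - u ∈ L ⊓ h4perp (L ⊓ L') := ⟨L.sub_mem hfL hu.1, hperp⟩
    rw [h, Submodule.mem_bot, sub_eq_zero] at hm
    exact hfL' (hm ▸ hu.2)
  obtain ⟨v, hv, hv0, ⟨κ, hκ⟩, hvE⟩ := exists_hw d (L ⊓ h4perp (L ⊓ L'))
    (inf_le_left.trans hL) hne
    (fun a b g hg => ⟨hE a b g hg.1, h4_perp_Eop hKE a b hg.2⟩)
  obtain ⟨α, c, hc, hf, -⟩ := hw_form v hv0 κ hκ hvE
  have hD : DelA α = c⁻¹ • v := by rw [hf, smul_smul, inv_mul_cancel₀ hc, one_smul]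
  have hDm : DelA α ∈ L ⊓ h4perp (L ⊓ L') := by
    rw [hD]; exact Submodule.smul_mem _ _ hv
  refine ⟨α, hDm.1, fun hD' => DelA_ne_zero α ?_⟩
  exact h4_inter (L := L ⊓ L') ⟨hDm.1, hD'⟩ hDm.2

end MP50e386N
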