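import Mathlib
import Pool.Agent.Lib.MP_50e386_al.N.HDefs
import Pool.Agent.Lib.MP_50e386_al.N.H1
import Pool.Agent.Lib.MP_50e386_al.N.H3
import Pool.Agent.Lib.MP_50e386_al.N.H4

/-! BOX (paper section 2). -/

namespace MP50e386N

open MvPolynomial

variable {N : ℕ}

/-! ### left additivity of the Fischer form -/

theorem h5_add_left (f f' g : AN N) : fis (f + f') g = fis f g + fis f' g := by
  rw [fis_conj g (f + f'), fis_add_right, map_add, ← fis_conj, ← fis_conj]

theorem h5_smul_left (c : ℂ) (f g : AN N) : fis (c • f) g = (starRingEnd ℂ) c * fis f g := by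
  rw [fis_conj g (c • f), fis_smul_right, map_mul, ← fis_conj]

/-! ### the specialisation -/

/-- images of the variables -/
noncomputable def h5F (j0 : Fin N) (i j : Fin N) : AN N :=
  if i ≤ j0 ∧ j ≤ j0 then X s(i, j) else if i = j then 1 else 0

theorem h5F_comm (j0 i j : Fin N) : h5F j0 i j = h5F j0 j i := by
  unfold h5F
  rw [Sym2.eq_swap]
  by_cases h1 : i ≤ j0 ∧ j ≤ j0
  · rw [if_pos h1, if_pos h1.symm]
  · rw [if_neg h1]
    symm
    rw [if_neg (fun h' : j ≤ j0 ∧ i ≤ j0 => h1 h'.symm)]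
    by_cases h : i = j
    · rw [if_pos h, if_pos h.symm]
    · rw [if_neg h, if_neg (fun h' => h h'.symm)]

/-- the specialisation -/
noncomputable def h5s (j0 : Fin N) : AN N →ₐ[ℂ] AN N :=
  aeval (Sym2.lift ⟨fun i j => h5F j0 i j, fun i j => h5F_comm j0 i j⟩)

theorem h5s_X (j0 i j : Fin N) : h5s j0 (X s(i, j)) = h5F j0 i j := by
  unfold h5s
  rw [aeval_X]
  rfl

/-- the small variables -/
def h5S (j0 : Fin N) (v : Sym2 (Fin N)) : Prop := ∀ a ∈ v, a ≤ j0

theorem h5S_mk (j0 i j : Fin N) : h5S j0 s(i, j) ↔ i ≤ j0 ∧ j ≤ j0 := by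
  unfold h5S
  constructor
  · intro h
    exact ⟨h i (Sym2.mem_mk_left i j), h j (Sym2.mem_mk_right i j)⟩
  · rintro ⟨h1, h2⟩ a ha
    rw [Sym2.mem_iff] at ha
    rcases ha with rfl | rfl
    · exact h1
    · exact h2

theorem h5s_pderiv (j0 : Fin N) (v : Sym2 (Fin N)) (hv : h5S j0 v) (g : AN N) :
    h5s j0 (pderiv v g) = pderiv v (h5s j0 g) := by
  induction g using MvPolynomial.induction_on with
  | C a =>
    rw [pderiv_C, map_zero]
    have : h5s j0 (C a) = C a := by
      rw [← algebraMap_eq, AlgHom.commutes]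
    rw [this, pderiv_C]
  | add p q hp hq => rw [map_add, map_add, hp, hq, map_add, map_add]
  | mul_X p w hp =>
    rw [pderiv_mul, map_mul, pderiv_mul, map_add, map_mul, map_mul, hp]
    refine congrArg₂ (· + ·) rfl (congrArg₂ (· * ·) rfl ?_)
    induction w using Sym2.ind with
    | _ i j =>
    rw [h5s_X]
    by_cases hw : h5S j0 s(i, j)
    · have h1 : h5F j0 i j = X s(i, j) := by
        unfold h5F
        rw [if_pos ((h5S_mk j0 i j).1 hw)]
      rw [h1]
      by_cases hvw : v = s(i, j)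
      · subst hvw
        rw [pderiv_X_self, map_one]
      · rw [pderiv_X_of_ne (fun h => hvw h.symm), map_zero]
    · have hvw : s(i, j) ≠ v := by
        rintro rfl
        exact hw hv
      rw [pderiv_X_of_ne hvw, map_zero]
      have h1 : h5F j0 i j = if i = j then 1 else 0 := by
        unfold h5F
        rw [if_neg (fun h => hw ((h5S_mk j0 i j).2 h))]
      rw [h1]
      split_ifs
      · rw [pderiv_one]
      · rw [map_zero]

/-! ### adjoints -/

/-- `f` has an adjoint commuting with the specialisation -/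
def h5P (j0 : Fin N) (f : AN N) : Prop :=
  ∃ T : AN N → AN N, (∀ h g, fis (f * h) g = fis h (T g)) ∧ ∀ g, h5s j0 (T g) = T (h5s j0 g)

theorem h5P_C (j0 : Fin N) (c : ℂ) : h5P j0 (C c) := by
  refine ⟨fun g => (starRingEnd ℂ) c • g, ?_, ?_⟩
  · intro h g
    rw [C_mul', h5_smul_left, fis_smul_right]
  · intro g
    rw [map_smul]

theorem h5P_add (j0 : Fin N) {f f' : AN N} (h : h5P j0 f) (h' : h5P j0 f') :
    h5P j0 (f + f') := by
  obtain ⟨T, h1, h2⟩ := h
  obtain ⟨T', h1', h2'⟩ := h'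
  refine ⟨fun g => T g + T' g, ?_, ?_⟩
  · intro h g
    rw [add_mul, h5_add_left, fis_add_right, h1, h1']
  · intro g
    rw [map_add, h2, h2']

theorem h5P_mul (j0 : Fin N) {f f' : AN N} (h : h5P j0 f) (h' : h5P j0 f') :
    h5P j0 (f * f') := by
  obtain ⟨T, h1, h2⟩ := h
  obtain ⟨T', h1', h2'⟩ := h'
  refine ⟨fun g => T' (T g), ?_, ?_⟩
  · intro h g
    rw [mul_assoc, h1, h1']
  · intro g
    rw [h2', h2]

theorem h5P_X (j0 : Fin N) (v : Sym2 (Fin N)) (hv : h5S j0 v) : h5P j0 (X v) := by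
  refine ⟨fun g => (fw v : ℂ) • pderiv v g, ?_, ?_⟩
  · intro h g
    rw [fis_X_mul, fis_smul_right]
  · intro g
    rw [map_smul, h5s_pderiv j0 v hv]

theorem h5P_one (j0 : Fin N) : h5P j0 1 := by
  have := h5P_C j0 (1 : ℂ)
  rwa [C_1] at this

theorem h5P_sum (j0 : Fin N) {ι : Type} (s : Finset ι) (f : ι → AN N)
    (h : ∀ i ∈ s, h5P j0 (f i)) : h5P j0 (∑ i ∈ s, f i) := by
  classical
  induction s using Finset.induction_on with
  | empty =>
    rw [Finset.sum_empty]
    have := h5P_C j0 (0 : ℂ)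
    rwa [C_0] at this
  | insert a t ha ih =>
    rw [Finset.sum_insert ha]
    exact h5P_add j0 (h a (Finset.mem_insert_self a t))
      (ih fun i hi => h i (Finset.mem_insert_of_mem hi))

theorem h5P_prod (j0 : Fin N) {ι : Type} (s : Finset ι) (f : ι → AN N)
    (h : ∀ i ∈ s, h5P j0 (f i)) : h5P j0 (∏ i ∈ s, f i) := by
  classical
  induction s using Finset.induction_on with
  | empty =>
    rw [Finset.prod_empty]
    exact h5P_one j0
  | insert a t ha ih =>
    rw [Finset.prod_insert ha]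
    exact h5P_mul j0 (h a (Finset.mem_insert_self a t))
      (ih fun i hi => h i (Finset.mem_insert_of_mem hi))

theorem h5P_pow (j0 : Fin N) {f : AN N} (h : h5P j0 f) (k : ℕ) : h5P j0 (f ^ k) := by
  induction k with
  | zero => rw [pow_zero]; exact h5P_one j0
  | succ k ih => rw [pow_succ]; exact h5P_mul j0 ih h

theorem h5P_lead (j0 : Fin N) : h5P j0 (lead j0) := by
  unfold lead
  rw [Matrix.det_apply]
  apply h5P_sum
  intro σ _
  have h1 : h5P j0 (∏ i, (Matrix.of fun a b : Fin (j0.val + 1) =>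
      (X s(Fin.castLE j0.2 a, Fin.castLE j0.2 b) : AN N)) (σ i) i) := by
    apply h5P_prod
    intro i _
    rw [Matrix.of_apply]
    apply h5P_X
    rw [h5S_mk]
    constructor
    · rw [Fin.le_def]
      exact Nat.lt_succ_iff.1 (σ i).2
    · rw [Fin.le_def]
      exact Nat.lt_succ_iff.1 i.2
  have h2 : (Equiv.Perm.sign σ) • (∏ i, (Matrix.of fun a b : Fin (j0.val + 1) =>
      (X s(Fin.castLE j0.2 a, Fin.castLE j0.2 b) : AN N)) (σ i) i) =
      C (((Equiv.Perm.sign σ : ℤˣ) : ℤ) : ℂ) * (∏ i, (Matrix.of fun a b : Fin (j0.val + 1) =>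
      (X s(Fin.castLE j0.2 a, Fin.castLE j0.2 b) : AN N)) (σ i) i) := by
    rw [Units.smul_def, zsmul_eq_mul, map_intCast]
  rw [h2]
  exact h5P_mul j0 (h5P_C j0 _) h1

/-! ### the specialised minors -/

/-- the minor of size `m` of the specialised matrix -/
noncomputable def h5D (j0 : Fin N) (m : ℕ) (hm : m ≤ N) : AN N :=
  (Matrix.of fun a b : Fin m => h5F j0 (Fin.castLE hm a) (Fin.castLE hm b)).det

theorem h5s_lead (j0 j : Fin N) : h5s j0 (lead j) = h5D j0 (j.val + 1) j.2 := by
  unfold lead h5D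
  rw [AlgHom.map_det]
  congr 1
  ext1 a b
  rw [AlgHom.mapMatrix_apply, Matrix.map_apply, Matrix.of_apply, Matrix.of_apply, h5s_X]

theorem h5D_succ (j0 : Fin N) (m : ℕ) (hm : m + 1 ≤ N) (hj : j0.val < m) :
    h5D j0 (m + 1) hm = h5D j0 m (Nat.le_of_succ_le hm) := by
  unfold h5D
  rw [Matrix.det_succ_row _ (Fin.last m)]
  rw [Finset.sum_eq_single (Fin.last m)]
  · have h1 : (Matrix.of fun a b : Fin (m + 1) => h5F j0 (Fin.castLE hm a) (Fin.castLE hm b))
        (Fin.last m) (Fin.last m) = 1 := by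
      rw [Matrix.of_apply]
      unfold h5F
      rw [if_neg, if_pos rfl]
      rintro ⟨h, -⟩
      rw [Fin.le_def] at h
      simp at h
      omega
    rw [h1, ← two_mul, pow_mul]
    simp only [even_two, Even.neg_pow, one_pow, mul_one, one_mul]
    congr 1
    ext1 a b
    rw [Matrix.submatrix_apply, Matrix.of_apply, Matrix.of_apply, Fin.succAbove_last]
    rfl
  · intro b _ hb
    have h1 : (Matrix.of fun a b : Fin (m + 1) => h5F j0 (Fin.castLE hm a) (Fin.castLE hm b))
        (Fin.last m) b = 0 := by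
      rw [Matrix.of_apply]
      unfold h5F
      rw [if_neg, if_neg]
      · intro h
        apply hb
        apply Fin.ext
        have := congrArg Fin.val h
        simpa using this.symm
      · rintro ⟨h, -⟩
        rw [Fin.le_def] at h
        simp at h
        omega
    rw [h1, mul_zero, zero_mul]
  · intro h
    exact absurd (Finset.mem_univ _) h

theorem h5D_le (j0 j : Fin N) (hj : j ≤ j0) : h5D j0 (j.val + 1) j.2 = lead j := by
  unfold h5D lead
  congr 1
  ext1 a b
  rw [Matrix.of_apply, Matrix.of_apply]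
  unfold h5F
  rw [if_pos]
  have hj' : j.val ≤ j0.val := hj
  constructor
  · rw [Fin.le_def]
    have := a.2
    simp only [Fin.val_castLE]
    omega
  · rw [Fin.le_def]
    have := b.2
    simp only [Fin.val_castLE]
    omega

theorem h5D_ge (j0 : Fin N) (m : ℕ) (hm : m ≤ N) (hj : j0.val + 1 ≤ m) :
    h5D j0 m hm = lead j0 := by
  induction m, hj using Nat.le_induction with
  | base => exact h5D_le j0 j0 le_rfl
  | succ m hm' ih =>
    rw [h5D_succ j0 m hm (by omega)]
    exact ih (Nat.le_of_succ_le hm)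

theorem h5s_DelA (j0 : Fin N) (α : Fin N → ℕ) :
    h5s j0 (DelA α) = (∏ j ∈ Finset.univ.filter (fun j => ¬ j0 ≤ j), lead j ^ α j) *
      lead j0 ^ (∑ j ∈ Finset.univ.filter (fun j => j0 ≤ j), α j) := by
  unfold DelA
  rw [map_prod, ← Finset.prod_filter_mul_prod_filter_not Finset.univ (fun j => j0 ≤ j), mul_comm]
  congr 1
  · refine Finset.prod_congr rfl fun j hj => ?_
    rw [Finset.mem_filter] at hj
    rw [map_pow, h5s_lead, h5D_le j0 j (le_of_lt (not_le.1 hj.2))]
  · rw [← Finset.prod_pow_eq_pow_sum]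
    refine Finset.prod_congr rfl fun j hj => ?_
    rw [Finset.mem_filter] at hj
    have h : j0.val ≤ j.val := hj.2
    rw [map_pow, h5s_lead, h5D_ge j0 (j.val + 1) j.2 (by omega)]

theorem h5_lead_ne_zero (j : Fin N) : lead j ≠ 0 := by
  intro h
  apply DelA_ne_zero (fun _ : Fin N => 1)
  unfold DelA
  apply Finset.prod_eq_zero (Finset.mem_univ j)
  rw [h, pow_one]

/-- `fis (p * lead j ^ k) (DelA α) = 0` for all `p` is impossible if `α` has at least `k` columns of
size `> j`. -/
theorem box_nonvanishing (j0 : Fin N) (k : ℕ) (α : Fin N → ℕ)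
    (hα : k ≤ ∑ j ∈ Finset.univ.filter (fun j => j0 ≤ j), α j)
    (h : ∀ p : AN N, fis (p * lead j0 ^ k) (DelA α) = 0) : False := by
  obtain ⟨T, h1, h2⟩ := h5P_pow j0 (h5P_lead j0) k
  have h3 : T (DelA α) = 0 := by
    by_contra hne
    have h4 := fis_self_pos _ hne
    rw [← h1, mul_comm, h] at h4
    simp at h4
  have hz : h5s j0 (DelA α) = lead j0 ^ k *
      ((∏ j ∈ Finset.univ.filter (fun j => ¬ j0 ≤ j), lead j ^ α j) *
      lead j0 ^ ((∑ j ∈ Finset.univ.filter (fun j => j0 ≤ j), α j) - k)) := by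
    rw [h5s_DelA, mul_left_comm, ← pow_add, Nat.add_sub_cancel' hα]
  have hne : h5s j0 (DelA α) ≠ 0 := by
    rw [hz]
    refine mul_ne_zero (pow_ne_zero _ (h5_lead_ne_zero j0)) (mul_ne_zero ?_
      (pow_ne_zero _ (h5_lead_ne_zero j0)))
    exact Finset.prod_ne_zero_iff.2 fun j _ => pow_ne_zero _ (h5_lead_ne_zero j)
  have h4 := fis_self_pos _ hne
  have h5 : fis (h5s j0 (DelA α)) (h5s j0 (DelA α)) = 0 := by
    conv_lhs => enter [1]; rw [hz]
    rw [h1, ← h2, h3, map_zero]
    have := fis_smul_right ((∏ j ∈ Finset.univ.filter (fun j => ¬ j0 ≤ j), lead j ^ α j) *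
      lead j0 ^ ((∑ j ∈ Finset.univ.filter (fun j => j0 ≤ j), α j) - k)) (0 : AN N) 0
    rw [zero_smul, zero_mul] at this
    exact this
  rw [h5] at h4
  simp at h4

theorem h5_fis_comp (d : ℕ) (f g : AN N) (hg : g ∈ homogeneousSubmodule (Sym2 (Fin N)) ℂ d) :
    fis f g = fis (homogeneousComponent d f) g := by
  rw [mem_homogeneousSubmodule] at hg
  unfold fis
  symm
  apply Finset.sum_subset_zero_on_sdiff
  · intro m hm
    rw [mem_support_iff, coeff_homogeneousComponent] at hm
    rw [mem_support_iff]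
    intro h
    rw [h, ite_self] at hm
    exact hm rfl
  · intro m hm
    rw [Finset.mem_sdiff] at hm
    have h1 : g.coeff m = 0 := by
      by_contra hne
      apply hm.2
      rw [mem_support_iff, coeff_homogeneousComponent, if_pos]
      · exact mem_support_iff.1 hm.1
      · rw [Finsupp.degree_eq_weight_one]
        exact hg hne
    rw [h1, mul_zero, zero_mul]
  · intro m hm
    rw [mem_support_iff, coeff_homogeneousComponent] at hm
    rw [coeff_homogeneousComponent]
    by_cases h : m.degree = d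
    · rw [if_pos h]
    · rw [if_neg h] at hm
      exact absurd rfl hm

theorem box (I : Ideal (AN N)) (hhom : ∀ f ∈ I, ∀ d, homogeneousComponent d f ∈ I)
    (hE : ∀ a b : Fin N, ∀ f ∈ I, Eop a b f ∈ I) (j0 : Fin N) (k : ℕ) (hI : lead j0 ^ k ∈ I)
    (α : Fin N → ℕ) (hα : k ≤ ∑ j ∈ Finset.univ.filter (fun j => j0 ≤ j), α j) :
    DelA α ∈ I := by
  set d := ∑ j : Fin N, (j.val + 1) * α j with hd
  let L : Submodule ℂ (AN N) := I.restrictScalars ℂ ⊓ homogeneousSubmodule (Sym2 (Fin N)) ℂ d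
  have hmem : ∀ f, f ∈ L ↔ f ∈ I ∧ f ∈ homogeneousSubmodule (Sym2 (Fin N)) ℂ d := by
    intro f
    exact Iff.rfl
  rcases hw_dichotomy d L inf_le_right (fun a b f hf => by
    rw [hmem] at hf ⊢
    exact ⟨hE a b f hf.1, Eop_homog a b hf.2⟩) α (DelA_homog α) with h | h
  · exact ((hmem _).1 h).1
  · exfalso
    apply box_nonvanishing j0 k α hα
    intro p
    rw [h5_fis_comp d _ _ (DelA_homog α)]
    apply h
    rw [hmem]
    exact ⟨hhom _ (I.mul_mem_left p hI) d, homogeneousComponent_mem d _⟩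

end MP50e386N
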