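import Mathlib
import Pool.Agent.Lib.MP_50e386_al.N.HDefs
import Pool.Agent.Lib.MP_50e386_al.N.ExtA

/-! NONVANISHING (paper section 2). -/

namespace MP50e386N

open MvPolynomial

/-! ### commutative algebra -/

theorem h6_add_pow {R : Type} [CommRing R] (q x : R) (hq : q * q = 0) (n : ℕ) :
    (q + x) ^ (n + 1) = x ^ (n + 1) + (n + 1 : ℕ) * (q * x ^ n) := by
  induction n with
  | zero => simp [add_comm]
  | succ n ih =>
    rw [pow_succ (q + x), ih]
    push_cast
    linear_combination (n + 1 : R) * x ^ n * hq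

theorem h6_sum_pow {R ι : Type} [CommRing R] [DecidableEq ι] (S : Finset ι) (q : ι → R)
    (hq : ∀ k, q k * q k = 0) :
    (∑ k ∈ S, q k) ^ S.card = (S.card.factorial : R) * ∏ k ∈ S, q k ∧
      (∑ k ∈ S, q k) ^ (S.card + 1) = 0 := by
  induction S using Finset.induction_on with
  | empty => simp
  | insert a S ha ih =>
    obtain ⟨h1, h2⟩ := ih
    rw [Finset.sum_insert ha, Finset.card_insert_of_notMem ha, Finset.prod_insert ha]
    constructor
    · rw [h6_add_pow _ _ (hq a), h2, h1, Nat.factorial_succ]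
      push_cast
      ring
    · rw [h6_add_pow _ _ (hq a), h2, pow_succ _ (S.card + 1), h2]
      ring

theorem h6_prod_perm {R : Type} [CommRing R] {n : ℕ} (z : Fin n → Fin n → R)
    (hz : ∀ i j k l, z i j * z k l = -(z i l * z k j)) (σ : Equiv.Perm (Fin n)) :
    ∏ i, z i (σ i) = ((Equiv.Perm.sign σ : ℤˣ) : ℤ) * ∏ i, z i i := by
  have hsw : ∀ (f : Fin n → Fin n) (a b : Fin n), a ≠ b →
      ∏ i, z i (f (Equiv.swap a b i)) = -∏ i, z i (f i) := by
    intro f a b hab
    rw [← Finset.mul_prod_erase _ _ (Finset.mem_univ a),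
      ← Finset.mul_prod_erase _ (fun i => z i (f i)) (Finset.mem_univ a)]
    have hb : b ∈ Finset.univ.erase a := Finset.mem_erase.2 ⟨hab.symm, Finset.mem_univ _⟩
    rw [← Finset.mul_prod_erase _ _ hb, ← Finset.mul_prod_erase _ (fun i => z i (f i)) hb,
      ← mul_assoc, ← mul_assoc, Equiv.swap_apply_left, Equiv.swap_apply_right, hz, neg_mul]
    congr 2
    refine Finset.prod_congr rfl fun i hi => ?_
    rw [Finset.mem_erase, Finset.mem_erase] at hi
    rw [Equiv.swap_apply_of_ne_of_ne hi.2.1 hi.1]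
  induction σ using Equiv.Perm.swap_induction_on' with
  | one => simp
  | mul_swap f a b hab ih =>
    have h1 := hsw (fun i => f i) a b hab
    simp only [Equiv.Perm.coe_mul, Function.comp_apply]
    rw [h1, ih, Equiv.Perm.sign_mul, Equiv.Perm.sign_swap hab]
    simp

theorem h6_prod_rel {R : Type} [CommRing R] {n : ℕ} (z : Fin n → Fin n → R)
    (hz : ∀ i j k l, z i j * z k l = -(z i l * z k j)) (hz0 : ∀ i j k, z i j * z k j = 0)
    (t : Matrix (Fin n) (Fin n) R) :
    ∏ i, (∑ j, t i j * z i j) = t.det * ∏ i, z i i := by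
  rw [Finset.prod_univ_sum, Fintype.piFinset_univ, ← Matrix.det_transpose, Matrix.det_apply',
    Finset.sum_mul]
  symm
  apply Finset.sum_of_injOn (fun σ : Equiv.Perm (Fin n) => (σ : Fin n → Fin n))
  · intro σ _ σ' _ h
    exact DFunLike.coe_injective h
  · intro σ _
    exact Finset.mem_coe.2 (Finset.mem_univ _)
  · intro f _ hf
    rw [Finset.prod_mul_distrib]
    have hni : ¬ Function.Injective f := by
      intro hinj
      apply hf
      exact ⟨Equiv.ofBijective f (Finite.injective_iff_bijective.1 hinj),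
        Finset.mem_coe.2 (Finset.mem_univ _), rfl⟩
    rw [Function.Injective] at hni
    push Not at hni
    obtain ⟨a, b, hab, hne⟩ := hni
    have hb : b ∈ Finset.univ.erase a := Finset.mem_erase.2 ⟨hne.symm, Finset.mem_univ _⟩
    have h1 : ∏ i, z i (f i) = 0 := by
      rw [← Finset.mul_prod_erase _ _ (Finset.mem_univ a), ← Finset.mul_prod_erase _ _ hb,
        ← mul_assoc, hab, hz0, zero_mul]
    rw [h1, mul_zero]
  · intro σ _
    rw [Finset.prod_mul_distrib, h6_prod_perm z hz σ]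
    simp only [Matrix.transpose_apply]
    ring

/-- coefficients of the power of a linear form -/
theorem h6_coeff {R σ : Type} [CommRing R] [Fintype σ] [DecidableEq σ] (u : σ → R) (M : ℕ)
    (μ : σ →₀ ℕ) (hμ : ∑ v, μ v = M) :
    coeff μ ((∑ v, C (u v) * (X v : MvPolynomial σ R)) ^ M) =
      (Nat.multinomial Finset.univ μ : R) * ∏ v, u v ^ μ v := by
  rw [Finset.sum_pow_eq_sum_piAntidiag, coeff_sum]
  have h1 : ∀ k : σ → ℕ, ((Nat.multinomial Finset.univ k : MvPolynomial σ R) *
      ∏ a, (C (u a) * (X a : MvPolynomial σ R)) ^ k a) =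
      monomial (Finsupp.equivFunOnFinite.symm k)
        ((Nat.multinomial Finset.univ k : R) * ∏ v, u v ^ k v) := by
    intro k
    simp only [mul_pow, Finset.prod_mul_distrib]
    rw [← map_natCast (C : R →+* MvPolynomial σ R)]
    simp only [← C_pow]
    rw [← map_prod, ← mul_assoc, ← C_mul]
    have h2 : ∏ v, (X v : MvPolynomial σ R) ^ k v =
        monomial (Finsupp.equivFunOnFinite.symm k) 1 := by
      rw [monomial_eq, C_1, one_mul, Finsupp.prod_fintype]
      · rfl
      · intro i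
        rw [pow_zero]
    rw [h2, C_mul_monomial, mul_one]
  simp only [h1, coeff_monomial]
  rw [Finset.sum_eq_single (μ : σ → ℕ)]
  · rw [if_pos]
    exact Finsupp.equivFunOnFinite.symm_apply_apply μ
  · intro k _ hk
    rw [if_neg]
    intro h
    apply hk
    rw [← h]
    rfl
  · intro h
    exfalso
    apply h
    rw [Finset.mem_piAntidiag]
    exact ⟨hμ, fun i _ => Finset.mem_univ i⟩

/-! ### the odd case -/

theorem EB_algebraMap {r s : ℕ} (c : ℂ) :
    algebraMap ℂ (EB r s) c = algebraMap (PG r) (EB r s) (algebraMap ℂ (PG r) c) :=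
  IsScalarTower.algebraMap_apply ℂ (PG r) (EB r s) c

/-- index of an odd coordinate -/
def h6i {s : ℕ} (b : Fin s ⊕ Fin s) : Fin s := Sum.elim id id b

/-- truncated odd coordinates -/
noncomputable def h6t {s N : ℕ} (n : Fin s → Fin N) (x : ℕ × (Fin s ⊕ Fin s)) : EB 0 s :=
  if x.1 ≤ (n (h6i x.2)).val then th x.1 x.2 else 0

theorem h6t_anti {s N : ℕ} (n : Fin s → Fin N) (x y : ℕ × (Fin s ⊕ Fin s)) :
    h6t n x * h6t n y = -(h6t n y * h6t n x) := by
  unfold h6t
  split_ifs
  · exact th_swap _ _ _ _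
  · rw [mul_zero, zero_mul, neg_zero]
  · rw [mul_zero, zero_mul, neg_zero]
  · rw [mul_zero, neg_zero]

theorem h6_exists_trunc {s N : ℕ} (n : Fin s → Fin N) : ∃ Ψ : EB 0 s →+* EB 0 s,
    (∀ c : ℂ, Ψ (algebraMap ℂ (EB 0 s) c) = algebraMap ℂ (EB 0 s) c) ∧
    ∀ i b, Ψ (th i b) = h6t n (i, b) := by
  obtain ⟨Ψ, h1, h2⟩ := exists_lift (r := 0) (s := s)
    (IsScalarTower.toAlgHom ℂ (PG 0) (EB 0 s)) (fun p x => Algebra.commutes p x) (h6t n)
    (h6t_anti n)
  refine ⟨Ψ, ?_, h2⟩
  intro c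
  rw [EB_algebraMap, h1]
  rfl

theorem h6_xE_zero (s i j : ℕ) : xE 0 s i j =
    ∑ c : Fin s, ((th i (Sum.inl c) * th j (Sum.inr c) : EB 0 s) +
      th j (Sum.inl c) * th i (Sum.inr c)) := by
  unfold xE
  rw [Finset.univ_eq_empty, Finset.sum_empty, zero_add]
  refine Finset.sum_congr rfl fun c _ => ?_
  rw [th_swap i j (Sum.inr c) (Sum.inl c), sub_neg_eq_add]

theorem h6_trunc_xE {s N : ℕ} (n : Fin s → Fin N) (Ψ : EB 0 s →+* EB 0 s)
    (h : ∀ i b, Ψ (th i b) = h6t n (i, b)) (i j : ℕ) :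
    Ψ (xE 0 s i j) = ((∑ c : Fin s, if i ≤ (n c).val ∧ j ≤ (n c).val then
      (zz c i j + zz c j i : Subalgebra.center ℂ (EB 0 s)) else 0 :
        Subalgebra.center ℂ (EB 0 s)) : EB 0 s) := by
  rw [h6_xE_zero, map_sum]
  rw [← Subalgebra.coe_val, map_sum]
  refine Finset.sum_congr rfl fun c _ => ?_
  rw [map_add, map_mul, map_mul, h, h, h, h]
  have e1 : ∀ k, h6t n (k, Sum.inl c) = if k ≤ (n c).val then th k (Sum.inl c) else 0 :=
    fun k => rfl
  have e2 : ∀ k, h6t n (k, Sum.inr c) = if k ≤ (n c).val then th k (Sum.inr c) else 0 :=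
    fun k => rfl
  rw [e1, e2, e1, e2]
  by_cases hi : i ≤ (n c).val
  · by_cases hj : j ≤ (n c).val
    · have hij : i ≤ (n c).val ∧ j ≤ (n c).val := ⟨hi, hj⟩
      simp only [if_pos hi, if_pos hj, if_pos hij, map_add]
      rfl
    · have hij : ¬ (i ≤ (n c).val ∧ j ≤ (n c).val) := fun h => hj h.2
      simp only [if_neg hj, if_neg hij, mul_zero, zero_mul, add_zero, map_zero]
  · have hij : ¬ (i ≤ (n c).val ∧ j ≤ (n c).val) := fun h => hi h.1
    simp only [if_neg hi, if_neg hij, mul_zero, zero_mul, add_zero, map_zero]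

section odd

variable {s N : ℕ} (n : Fin s → Fin N)

/-- shorthand for the center -/
noncomputable abbrev ZC (s : ℕ) := Subalgebra.center ℂ (EB 0 s)

theorem zz_mul_self_left {r s : ℕ} (c : Fin s) (i j k : ℕ) :
    (zz c i j * zz c i k : Subalgebra.center ℂ (EB r s)) = 0 := by
  have h := zz_rel (r := r) c i j i k
  have h2 : (2 : ℂ) • (zz c i j * zz c i k : Subalgebra.center ℂ (EB r s)) = 0 := by
    rw [two_smul]
    nth_rewrite 1 [h]
    rw [mul_comm (zz c i k)]
    exact neg_add_cancel _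
  exact (smul_eq_zero.1 h2).resolve_left two_ne_zero

theorem zz_mul_self_right {r s : ℕ} (c : Fin s) (i j k : ℕ) :
    (zz c i j * zz c k j : Subalgebra.center ℂ (EB r s)) = 0 := by
  have h := zz_rel (r := r) c i j k j
  have h2 : (2 : ℂ) • (zz c i j * zz c k j : Subalgebra.center ℂ (EB r s)) = 0 := by
    rw [two_smul]
    nth_rewrite 1 [h]
    exact neg_add_cancel _
  exact (smul_eq_zero.1 h2).resolve_left two_ne_zero

/-- the summands of `Q` -/
noncomputable def h6q (p : Σ c : Fin s, Fin ((n c).val + 1)) :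
    MvPolynomial (Sym2 (Fin N)) (ZC s) :=
  ∑ j : Fin ((n p.1).val + 1), X s(Fin.castLE (n p.1).2 p.2, Fin.castLE (n p.1).2 j) *
    C (zz p.1 p.2.val j.val)

theorem h6q_sq (p : Σ c : Fin s, Fin ((n c).val + 1)) : h6q n p * h6q n p = 0 := by
  unfold h6q
  rw [Finset.sum_mul_sum]
  refine Finset.sum_eq_zero fun i _ => Finset.sum_eq_zero fun j _ => ?_
  rw [mul_mul_mul_comm, ← C_mul, zz_mul_self_left, C_0, mul_zero]

/-- the top element -/
noncomputable def h6T : ZC s := ∏ p : (Σ c : Fin s, Fin ((n c).val + 1)), zz p.1 p.2.val p.2.val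

theorem h6T_ne_zero : h6T n ≠ 0 := by
  have h := zz_prod_ne_zero (r := 0) (Finset.univ.image
    (fun p : (Σ c : Fin s, Fin ((n c).val + 1)) => (p.2.val, p.1)))
  rw [Finset.prod_image] at h
  · exact h
  · rintro ⟨c, i⟩ _ ⟨c', i'⟩ _ hh
    rw [Prod.mk.injEq] at hh
    obtain ⟨h1, h2⟩ := hh
    dsimp only at h1 h2
    subst h2
    rw [Fin.val_inj] at h1
    rw [h1]

theorem h6_Q1 : (∑ p, h6q n p) ^ (Fintype.card (Σ c : Fin s, Fin ((n c).val + 1))) =
    (((Fintype.card (Σ c : Fin s, Fin ((n c).val + 1))).factorial : ℕ) :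
      MvPolynomial (Sym2 (Fin N)) (ZC s)) *
      (map (algebraMap ℂ (ZC s)) (∏ c, lead (n c)) * C (h6T n)) := by
  classical
  have h := (h6_sum_pow Finset.univ (h6q n) (h6q_sq n)).1
  rw [Finset.card_univ] at h
  rw [h]
  congr 1
  rw [Fintype.prod_sigma, map_prod]
  unfold h6T
  rw [Fintype.prod_sigma, map_prod, ← Finset.prod_mul_distrib]
  refine Finset.prod_congr rfl fun c _ => ?_
  have h2 := h6_prod_rel (R := MvPolynomial (Sym2 (Fin N)) (ZC s)) (n := (n c).val + 1)
    (fun i j => C (zz c i.val j.val)) (by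
      intro i j k l
      rw [← C_mul, zz_rel, map_neg, C_mul]
      rfl) (by
      intro i j k
      rw [← C_mul, zz_mul_self_right, C_0])
    (Matrix.of fun i j => X s(Fin.castLE (n c).2 i, Fin.castLE (n c).2 j))
  simp only [Matrix.of_apply] at h2
  unfold h6q
  rw [h2, map_prod]
  congr 1
  unfold lead
  rw [RingHom.map_det]
  congr 1
  ext1 a b
  rw [RingHom.mapMatrix_apply, Matrix.map_apply, Matrix.of_apply, Matrix.of_apply, map_X]

/-- coefficients of `Q` -/
noncomputable def h6u (v : Sym2 (Fin N)) : ZC s :=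
  ∑ c : Fin s, ∑ i : Fin ((n c).val + 1), ∑ j : Fin ((n c).val + 1),
    if s(Fin.castLE (n c).2 i, Fin.castLE (n c).2 j) = v then zz c i.val j.val else 0

theorem h6_Q2 : ∑ p, h6q n p =
    ∑ v, C (h6u n v) * (X v : MvPolynomial (Sym2 (Fin N)) (ZC s)) := by
  unfold h6u
  rw [Fintype.sum_sigma]
  have h1 : ∀ v : Sym2 (Fin N), C (∑ c : Fin s, ∑ i : Fin ((n c).val + 1),
      ∑ j : Fin ((n c).val + 1), if s(Fin.castLE (n c).2 i, Fin.castLE (n c).2 j) = v then
        (zz c i.val j.val : ZC s) else 0) * (X v : MvPolynomial (Sym2 (Fin N)) (ZC s)) =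
      ∑ c : Fin s, ∑ i : Fin ((n c).val + 1), ∑ j : Fin ((n c).val + 1),
        if s(Fin.castLE (n c).2 i, Fin.castLE (n c).2 j) = v then
          C (zz c i.val j.val) * X v else 0 := by
    intro v
    rw [map_sum, Finset.sum_mul]
    refine Finset.sum_congr rfl fun c _ => ?_
    rw [map_sum, Finset.sum_mul]
    refine Finset.sum_congr rfl fun i _ => ?_
    rw [map_sum, Finset.sum_mul]
    refine Finset.sum_congr rfl fun j _ => ?_
    split_ifs
    · rfl
    · rw [C_0, zero_mul]
  simp only [h1]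
  rw [Finset.sum_comm]
  refine Finset.sum_congr rfl fun c _ => ?_
  rw [Finset.sum_comm]
  refine Finset.sum_congr rfl fun i _ => ?_
  unfold h6q
  rw [Finset.sum_comm]
  refine Finset.sum_congr rfl fun j _ => ?_
  rw [Finset.sum_ite_eq, if_pos (Finset.mem_univ _), mul_comm]

theorem h6_Q3 (μ : Sym2 (Fin N) →₀ ℕ)
    (hμ : ∑ v, μ v = Fintype.card (Σ c : Fin s, Fin ((n c).val + 1))) :
    (Nat.multinomial Finset.univ μ : ZC s) * ∏ v, h6u n v ^ μ v =
      (((Fintype.card (Σ c : Fin s, Fin ((n c).val + 1))).factorial : ℕ) : ZC s) *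
        (algebraMap ℂ (ZC s) (coeff μ (∏ c, lead (n c))) * h6T n) := by
  rw [← h6_coeff (h6u n) _ μ hμ, ← h6_Q2, h6_Q1, ← map_natCast (C : ZC s →+* _), coeff_C_mul,
    mul_comm (map _ _), coeff_C_mul, coeff_map, mul_comm (h6T n)]

/-- weights -/
def h6w {N : ℕ} (v : Sym2 (Fin N)) : ℕ := if v.IsDiag then 2 else 1

theorem h6w_pos {N : ℕ} (v : Sym2 (Fin N)) : 0 < h6w v := by
  unfold h6w
  split_ifs <;> norm_num

theorem h6_ite (m i j : ℕ) {R : Type} [AddCommMonoid R] (F : ℕ → ℕ → R) :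
    (∑ a : Fin (m + 1), ∑ b : Fin (m + 1), if a.val = i ∧ b.val = j then F a.val b.val else 0) =
      if i ≤ m ∧ j ≤ m then F i j else 0 := by
  rw [Fin.sum_univ_eq_sum_range (fun a => ∑ b : Fin (m + 1),
    if a = i ∧ b.val = j then F a b.val else 0) (m + 1)]
  have h1 : ∀ a, (∑ b : Fin (m + 1), if a = i ∧ b.val = j then F a b.val else 0) =
      if a = i then (if j ≤ m then F a j else 0) else 0 := by
    intro a
    rw [Fin.sum_univ_eq_sum_range (fun b => if a = i ∧ b = j then F a b else 0) (m + 1)]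
    by_cases ha : a = i
    · simp only [ha, true_and, if_true]
      rw [Finset.sum_ite_eq']
      simp only [Finset.mem_range, Nat.lt_succ_iff]
    · simp only [ha, false_and, if_false, Finset.sum_const_zero]
  simp only [h1]
  rw [Finset.sum_ite_eq']
  simp only [Finset.mem_range, Nat.lt_succ_iff]
  by_cases hi : i ≤ m
  · simp [hi]
  · simp [hi]

theorem h6_ybar (i j : Fin N) : (h6w s(i, j) • h6u n s(i, j) : ZC s) =
    ∑ c : Fin s, if i.val ≤ (n c).val ∧ j.val ≤ (n c).val then
      (zz c i.val j.val + zz c j.val i.val : ZC s) else 0 := by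
  unfold h6u
  rw [Finset.smul_sum]
  refine Finset.sum_congr rfl fun c _ => ?_
  have h1 := h6_ite (n c).val i.val j.val (fun a b => (zz c a b : ZC s))
  have h2 := h6_ite (n c).val j.val i.val (fun a b => (zz c a b : ZC s))
  have h3 : (if i.val ≤ (n c).val ∧ j.val ≤ (n c).val then
      (zz c i.val j.val + zz c j.val i.val : ZC s) else 0) =
      (if i.val ≤ (n c).val ∧ j.val ≤ (n c).val then (zz c i.val j.val : ZC s) else 0) +
      (if j.val ≤ (n c).val ∧ i.val ≤ (n c).val then (zz c j.val i.val : ZC s) else 0) := by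
    by_cases hi : i.val ≤ (n c).val
    · by_cases hj : j.val ≤ (n c).val
      · simp [hi, hj]
      · simp [hj]
    · simp [hi]
  rw [h3, ← h1, ← h2, ← Finset.sum_add_distrib, Finset.smul_sum]
  refine Finset.sum_congr rfl fun a _ => ?_
  rw [← Finset.sum_add_distrib, Finset.smul_sum]
  refine Finset.sum_congr rfl fun b _ => ?_
  have e1 : (s(Fin.castLE (n c).2 a, Fin.castLE (n c).2 b) = s(i, j)) ↔
      ((a.val = i.val ∧ b.val = j.val) ∨ (a.val = j.val ∧ b.val = i.val)) := by
    rw [Sym2.eq_iff]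
    simp only [Fin.ext_iff, Fin.val_castLE]
  unfold h6w
  by_cases hij : i = j
  · subst hij
    have e2 : (s(i, i) : Sym2 (Fin N)).IsDiag := Sym2.mk_isDiag_iff.2 rfl
    rw [if_pos e2]
    by_cases hab : a.val = i.val ∧ b.val = i.val
    · rw [if_pos (e1.2 (Or.inl hab)), if_pos hab, two_smul]
    · rw [if_neg (fun h => hab ((e1.1 h).elim id id)), if_neg hab, smul_zero, add_zero]
  · have e2 : ¬ (s(i, j) : Sym2 (Fin N)).IsDiag := fun h => hij (Sym2.mk_isDiag_iff.1 h)
    rw [if_neg e2, one_smul]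
    by_cases hab : a.val = i.val ∧ b.val = j.val
    · have hab' : ¬ (a.val = j.val ∧ b.val = i.val) := by
        rintro ⟨h, -⟩
        exact hij (Fin.ext (hab.1.symm.trans h))
      rw [if_pos (e1.2 (Or.inl hab)), if_pos hab, if_neg hab', add_zero]
    · by_cases hab' : a.val = j.val ∧ b.val = i.val
      · rw [if_pos (e1.2 (Or.inr hab')), if_neg hab, if_pos hab', zero_add]
      · rw [if_neg (fun h => (e1.1 h).elim hab hab'), if_neg hab, if_neg hab', add_zero]

/-- the minors over the reals -/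
theorem h6_real : ∃ g : MvPolynomial (Sym2 (Fin N)) ℝ,
    (∏ c, lead (n c)) = map (algebraMap ℝ ℂ) g := by
  refine ⟨∏ c, (Matrix.of fun a b : Fin ((n c).val + 1) =>
    (X s(Fin.castLE (n c).2 a, Fin.castLE (n c).2 b) : MvPolynomial (Sym2 (Fin N)) ℝ)).det, ?_⟩
  rw [map_prod]
  refine Finset.prod_congr rfl fun c _ => ?_
  unfold lead
  rw [RingHom.map_det]
  congr 1
  ext1 a b
  rw [RingHom.mapMatrix_apply, Matrix.map_apply, Matrix.of_apply, Matrix.of_apply, map_X]

theorem h6_lead_homog (j : Fin N) : (lead j : AN N).IsHomogeneous (j.val + 1) := by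
  unfold lead
  rw [Matrix.det_apply]
  apply IsHomogeneous.sum
  intro σ _
  have h1 : (∏ i, (Matrix.of fun a b : Fin (j.val + 1) =>
      (X s(Fin.castLE j.2 a, Fin.castLE j.2 b) : AN N)) (σ i) i).IsHomogeneous
      (∑ _i : Fin (j.val + 1), 1) := by
    apply IsHomogeneous.prod
    intro i _
    exact isHomogeneous_X _ _
  rw [Finset.sum_const, Finset.card_univ, Fintype.card_fin, smul_eq_mul, mul_one] at h1
  have h2 : (Equiv.Perm.sign σ) • (∏ i, (Matrix.of fun a b : Fin (j.val + 1) =>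
      (X s(Fin.castLE j.2 a, Fin.castLE j.2 b) : AN N)) (σ i) i) =
      C (((Equiv.Perm.sign σ : ℤˣ) : ℤ) : ℂ) * (∏ i, (Matrix.of fun a b : Fin (j.val + 1) =>
      (X s(Fin.castLE j.2 a, Fin.castLE j.2 b) : AN N)) (σ i) i) := by
    rw [Units.smul_def, zsmul_eq_mul, map_intCast]
  rw [h2]
  have h3 := (isHomogeneous_C (Sym2 (Fin N)) (((Equiv.Perm.sign σ : ℤˣ) : ℤ) : ℂ)).mul h1
  rwa [zero_add] at h3

theorem h6_prod_homog : (∏ c, lead (n c) : AN N).IsHomogeneous
    (Fintype.card (Σ c : Fin s, Fin ((n c).val + 1))) := by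
  have h := IsHomogeneous.prod (R := ℂ) Finset.univ (fun c : Fin s => lead (n c))
    (fun c => (n c).val + 1) (fun c _ => h6_lead_homog (n c))
  rw [Fintype.card_sigma]
  simpa using h

theorem h6_lead_ne_zero (j : Fin N) : (lead j : AN N) ≠ 0 := by
  intro h
  have h1 := congrArg (aeval (fun v : Sym2 (Fin N) => if v.IsDiag then (1 : ℂ) else 0)) h
  rw [map_zero] at h1
  unfold lead at h1
  rw [AlgHom.map_det] at h1
  have h2 : ((aeval (fun v : Sym2 (Fin N) => if v.IsDiag then (1 : ℂ) else 0)).mapMatrix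
      (Matrix.of fun a b : Fin (j.val + 1) =>
        (X s(Fin.castLE j.2 a, Fin.castLE j.2 b) : AN N))) = 1 := by
    ext1 a b
    rw [AlgHom.mapMatrix_apply, Matrix.map_apply, Matrix.of_apply, aeval_X, Matrix.one_apply]
    by_cases hab : a = b
    · rw [if_pos hab, if_pos (Sym2.mk_isDiag_iff.2 (congrArg _ hab))]
    · rw [if_neg hab, if_neg]
      intro h
      apply hab
      have h3 := Sym2.mk_isDiag_iff.1 h
      exact Fin.castLE_injective _ h3
  rw [h2, Matrix.det_one] at h1
  exact one_ne_zero h1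

/-- evaluation of `B` at `ȳ` -/
theorem h6_eval : ∃ κ : ℝ, 0 < κ ∧
    aeval (fun v => (h6w v • h6u n v : ZC s)) (∏ c, lead (n c)) =
      algebraMap ℂ (ZC s) (κ : ℂ) * h6T n := by
  classical
  obtain ⟨g, hg⟩ := h6_real n
  set B : AN N := ∏ c, lead (n c) with hB
  set M := Fintype.card (Σ c : Fin s, Fin ((n c).val + 1)) with hM
  have hdeg : ∀ μ ∈ B.support, ∑ v, μ v = M := by
    intro μ hμ
    have h1 : μ.degree = M := by
      rw [Finsupp.degree_eq_weight_one]
      exact h6_prod_homog n (mem_support_iff.1 hμ)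
    rw [← h1, Finsupp.degree_eq_sum]
  have hc : ∀ μ, coeff μ B = ((coeff μ g : ℝ) : ℂ) := by
    intro μ
    rw [hg, coeff_map]
    rfl
  have hterm : ∀ μ ∈ B.support, (∏ v, h6u n v ^ μ v : ZC s) =
      algebraMap ℂ (ZC s) (((M.factorial : ℝ) / (Nat.multinomial Finset.univ μ : ℝ) *
        coeff μ g : ℝ) : ℂ) * h6T n := by
    intro μ hμ
    have h1 := h6_Q3 n μ (hdeg μ hμ)
    have hm : ((Nat.multinomial Finset.univ μ : ℕ) : ℂ) ≠ 0 := by
      rw [Nat.cast_ne_zero]
      exact (Nat.multinomial_pos _ _).ne'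
    have h2 : (∏ v, h6u n v ^ μ v : ZC s) =
        algebraMap ℂ (ZC s) (((Nat.multinomial Finset.univ μ : ℕ) : ℂ)⁻¹) *
          ((Nat.multinomial Finset.univ μ : ZC s) * ∏ v, h6u n v ^ μ v) := by
      rw [← mul_assoc, ← map_natCast (algebraMap ℂ (ZC s)), ← map_mul, inv_mul_cancel₀ hm,
        map_one, one_mul]
    rw [h2, h1, ← map_natCast (algebraMap ℂ (ZC s)), ← mul_assoc, ← mul_assoc, ← map_mul,
      ← map_mul]
    congr 2
    rw [← hB, hc]
    push_cast
    rw [← hM]
    ring
  refine ⟨∑ μ ∈ B.support, (∏ v, (h6w v : ℝ) ^ μ v) *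
    ((M.factorial : ℝ) / (Nat.multinomial Finset.univ μ : ℝ)) * (coeff μ g) ^ 2, ?_, ?_⟩
  · apply Finset.sum_pos
    · intro μ hμ
      have h1 : (coeff μ g) ≠ 0 := by
        intro h
        apply mem_support_iff.1 hμ
        rw [hc, h]
        rfl
      have h2 : (0 : ℝ) < Nat.multinomial Finset.univ μ := by
        exact_mod_cast Nat.multinomial_pos _ _
      have h3 : (0 : ℝ) < M.factorial := by exact_mod_cast Nat.factorial_pos _
      have h4 : (0 : ℝ) < ∏ v, (h6w v : ℝ) ^ μ v :=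
        Finset.prod_pos fun v _ => pow_pos (by exact_mod_cast h6w_pos v) _
      positivity
    · rw [Finset.nonempty_iff_ne_empty, Ne, support_eq_empty]
      exact Finset.prod_ne_zero_iff.2 fun c _ => h6_lead_ne_zero _
  · rw [aeval_def, eval₂_eq', Complex.ofReal_sum, map_sum, Finset.sum_mul]
    refine Finset.sum_congr rfl fun μ hμ => ?_
    have h1 : (∏ v, (h6w v • h6u n v : ZC s) ^ μ v) =
        algebraMap ℂ (ZC s) ((∏ v, (h6w v : ℝ) ^ μ v : ℝ) : ℂ) * ∏ v, h6u n v ^ μ v := by
      rw [Complex.ofReal_prod, map_prod, ← Finset.prod_mul_distrib]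
      refine Finset.prod_congr rfl fun v _ => ?_
      rw [nsmul_eq_mul, mul_pow, Complex.ofReal_pow, Complex.ofReal_natCast, map_pow, map_natCast]
    rw [h1, hterm μ hμ, hc, ← mul_assoc, ← mul_assoc, ← map_mul, ← map_mul]
    congr 2
    push_cast
    ring

end odd

/-- purely odd case (`r = 0`): the product of the leading minors of sizes `n_c`, `c < s`, of the
matrix `y_ij = ∑_c (th^c_i th'^c_j + th^c_j th'^c_i)` is nonzero. -/
theorem odd_nonvanishing (s N : ℕ) (n : Fin s → Fin N) :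
    (evE 0 s (∏ c, rename (Sym2.map Fin.val) (lead (n c)))) ≠ 0 := by
  intro h0
  obtain ⟨Ψ, h1, h2⟩ := h6_exists_trunc n
  obtain ⟨κ, hκ, hκ2⟩ := h6_eval n
  have h3 : (Ψ.comp (((Subalgebra.center ℂ (EB 0 s)).val : _ →+* EB 0 s).comp
      ((evE 0 s : MP50e386.A →+* Subalgebra.center ℂ (EB 0 s)).comp
        (rename (Sym2.map Fin.val) : AN N →ₐ[ℂ] MP50e386.A).toRingHom))) =
      (((Subalgebra.center ℂ (EB 0 s)).val : _ →+* EB 0 s).comp
        (aeval (fun v => (h6w v • h6u n v : ZC s)) : AN N →ₐ[ℂ] ZC s).toRingHom) := by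
    apply MvPolynomial.ringHom_ext
    · intro c
      simp only [RingHom.comp_apply, AlgHom.toRingHom_eq_coe, RingHom.coe_coe, rename_C]
      have e1 : evE 0 s (C c) = algebraMap ℂ _ c := (evE 0 s).commutes c
      have e2 : (aeval (fun v => (h6w v • h6u n v : ZC s)) : AN N →ₐ[ℂ] ZC s) (C c) =
        algebraMap ℂ _ c := (aeval (fun v => (h6w v • h6u n v : ZC s)) : AN N →ₐ[ℂ] ZC s).commutes c
      rw [e1, e2]
      exact h1 c
    · intro v
      simp only [RingHom.comp_apply, AlgHom.toRingHom_eq_coe, RingHom.coe_coe, rename_X, aeval_X]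
      induction v using Sym2.ind with
      | _ i j =>
        have e1 : evE 0 s (X (Sym2.map Fin.val s(i, j))) =
            ⟨xE 0 s i.val j.val, xE_mem_center 0 s i.val j.val⟩ := by
          unfold evE
          rw [aeval_X]
          rfl
        rw [e1, h6_ybar]
        exact h6_trunc_xE n Ψ h2 i.val j.val
  have h4 := congrArg (fun F : AN N →+* EB 0 s => F (∏ c, lead (n c))) h3
  simp only [RingHom.comp_apply, AlgHom.toRingHom_eq_coe, RingHom.coe_coe] at h4
  rw [map_prod (rename (Sym2.map Fin.val) : AN N →ₐ[ℂ] MP50e386.A), h0, map_zero, map_zero,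
    hκ2] at h4
  have h5 : algebraMap ℂ (ZC s) (κ : ℂ) * h6T n = 0 := Subtype.ext h4.symm
  rw [← Algebra.smul_def, smul_eq_zero] at h5
  rcases h5 with h5 | h5
  · rw [Complex.ofReal_eq_zero] at h5
    exact hκ.ne' h5
  · exact h6T_ne_zero n h5

/-! ### the general case -/

/-- the Gram determinant of the first `m` letters -/
noncomputable def h6D (m : ℕ) : MP50e386.A :=
  (Matrix.of fun a b : Fin m => (X s(a.val, b.val) : MP50e386.A)).det

theorem h6_rename_lead {N : ℕ} (j : Fin N) :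
    rename (Sym2.map Fin.val) (lead j) = h6D (j.val + 1) := by
  unfold lead h6D
  rw [AlgHom.map_det]
  congr 1
  ext1 a b
  rw [AlgHom.mapMatrix_apply, Matrix.map_apply, Matrix.of_apply, Matrix.of_apply, rename_X]
  rfl

/-- the specialisation to the odd part -/
noncomputable def h6F (r i j : ℕ) : MP50e386.A :=
  if i < r ∧ j < r then (if i = j then 1 else 0) else
    if r ≤ i ∧ r ≤ j then X s(i - r, j - r) else 0

theorem h6F_lt {r i j : ℕ} (hi : i < r) (hj : j < r) : h6F r i j = if i = j then 1 else 0 := by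
  have h : i < r ∧ j < r := ⟨hi, hj⟩
  unfold h6F
  rw [if_pos h]

theorem h6F_ge {r i j : ℕ} (hi : r ≤ i) (hj : r ≤ j) : h6F r i j = X s(i - r, j - r) := by
  have h : ¬ (i < r ∧ j < r) := by omega
  have h' : r ≤ i ∧ r ≤ j := ⟨hi, hj⟩
  unfold h6F
  rw [if_neg h, if_pos h']

theorem h6F_mix {r i j : ℕ} (h1 : ¬ (i < r ∧ j < r)) (h2 : ¬ (r ≤ i ∧ r ≤ j)) :
    h6F r i j = 0 := by
  unfold h6F
  rw [if_neg h1, if_neg h2]

theorem h6F_comm (r i j : ℕ) : h6F r i j = h6F r j i := by
  by_cases h1 : i < r ∧ j < r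
  · rw [h6F_lt h1.1 h1.2, h6F_lt h1.2 h1.1]
    by_cases h : i = j
    · rw [if_pos h, if_pos h.symm]
    · rw [if_neg h, if_neg (fun h' => h h'.symm)]
  · by_cases h2 : r ≤ i ∧ r ≤ j
    · rw [h6F_ge h2.1 h2.2, h6F_ge h2.2 h2.1, Sym2.eq_swap]
    · rw [h6F_mix h1 h2, h6F_mix (fun h => h1 h.symm) (fun h => h2 h.symm)]

/-- the specialisation to the odd part -/
noncomputable def h6rho (r : ℕ) : MP50e386.A →ₐ[ℂ] MP50e386.A :=
  aeval (Sym2.lift ⟨fun i j => h6F r i j, fun i j => h6F_comm r i j⟩)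

theorem h6rho_X (r i j : ℕ) : h6rho r (X s(i, j)) = h6F r i j := by
  unfold h6rho
  rw [aeval_X]
  rfl

theorem h6rho_D (r m : ℕ) : h6rho r (h6D m) =
    (Matrix.of fun a b : Fin m => h6F r a.val b.val).det := by
  unfold h6D
  rw [AlgHom.map_det]
  congr 1
  ext1 a b
  rw [AlgHom.mapMatrix_apply, Matrix.map_apply, Matrix.of_apply, Matrix.of_apply, h6rho_X]

theorem h6rho_D_le (r m : ℕ) (h : m ≤ r) : h6rho r (h6D m) = 1 := by
  rw [h6rho_D]
  have : (Matrix.of fun a b : Fin m => h6F r a.val b.val) = 1 := by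
    ext1 a b
    have ha := a.2
    have hb := b.2
    rw [Matrix.of_apply, Matrix.one_apply, h6F_lt (by omega) (by omega)]
    by_cases hab : a = b
    · rw [if_pos hab, if_pos (congrArg _ hab)]
    · rw [if_neg hab, if_neg (fun h => hab (Fin.ext h))]
  rw [this, Matrix.det_one]

theorem h6rho_D_ge (r m : ℕ) : h6rho r (h6D (r + m)) = h6D m := by
  rw [h6rho_D, ← Matrix.det_submatrix_equiv_self finSumFinEquiv]
  have : (Matrix.of fun a b : Fin (r + m) => h6F r a.val b.val).submatrix finSumFinEquiv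
      finSumFinEquiv = Matrix.fromBlocks 1 0 0
        (Matrix.of fun a b : Fin m => (X s(a.val, b.val) : MP50e386.A)) := by
    ext1 x y
    rcases x with a | a <;> rcases y with b | b
    · have ha := a.2
      have hb := b.2
      rw [Matrix.submatrix_apply, Matrix.of_apply, Matrix.fromBlocks_apply₁₁, Matrix.one_apply,
        finSumFinEquiv_apply_left, finSumFinEquiv_apply_left, Fin.val_castAdd, Fin.val_castAdd,
        h6F_lt (by omega) (by omega)]
      by_cases hab : a = b
      · rw [if_pos hab, if_pos (congrArg _ hab)]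
      · rw [if_neg hab, if_neg (fun h => hab (Fin.ext h))]
    · have ha := a.2
      rw [Matrix.submatrix_apply, Matrix.of_apply, Matrix.fromBlocks_apply₁₂, Matrix.zero_apply,
        finSumFinEquiv_apply_left, finSumFinEquiv_apply_right, Fin.val_castAdd, Fin.val_natAdd,
        h6F_mix (by omega) (by omega)]
    · have hb := b.2
      rw [Matrix.submatrix_apply, Matrix.of_apply, Matrix.fromBlocks_apply₂₁, Matrix.zero_apply,
        finSumFinEquiv_apply_left, finSumFinEquiv_apply_right, Fin.val_castAdd, Fin.val_natAdd,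
        h6F_mix (by omega) (by omega)]
    · rw [Matrix.submatrix_apply, Matrix.of_apply, Matrix.fromBlocks_apply₂₂, Matrix.of_apply,
        finSumFinEquiv_apply_right, finSumFinEquiv_apply_right, Fin.val_natAdd, Fin.val_natAdd,
        h6F_ge (by omega) (by omega), Nat.add_sub_cancel_left, Nat.add_sub_cancel_left]
  rw [this, Matrix.det_fromBlocks_zero₂₁, Matrix.det_one, one_mul]
  rfl

/-- shifted odd coordinates -/
noncomputable def h6sh (r s : ℕ) (x : ℕ × (Fin s ⊕ Fin s)) : EB 0 s :=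
  if x.1 < r then 0 else th (x.1 - r) x.2

theorem h6sh_anti (r s : ℕ) (x y : ℕ × (Fin s ⊕ Fin s)) :
    h6sh r s x * h6sh r s y = -(h6sh r s y * h6sh r s x) := by
  unfold h6sh
  split_ifs
  · rw [mul_zero, neg_zero]
  · rw [mul_zero, zero_mul, neg_zero]
  · rw [mul_zero, zero_mul, neg_zero]
  · exact th_swap _ _ _ _

theorem h6_exists_shift (r s : ℕ) : ∃ Ψ : EB r s →+* EB 0 s,
    (∀ c : ℂ, Ψ (algebraMap ℂ (EB r s) c) = algebraMap ℂ (EB 0 s) c) ∧
    (∀ i (a : Fin r), Ψ (gg i a) = if i = a.val then 1 else 0) ∧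
    ∀ i b, Ψ (th i b) = h6sh r s (i, b) := by
  obtain ⟨Ψ, h1, h2⟩ := exists_lift (r := r) (s := s)
    ((Algebra.ofId ℂ (EB 0 s)).comp
      (aeval (fun p : ℕ × Fin r => if p.1 = p.2.val then (1 : ℂ) else 0)))
    (fun p x => Algebra.commutes
      (aeval (fun p : ℕ × Fin r => if p.1 = p.2.val then (1 : ℂ) else 0) p) x)
    (h6sh r s) (h6sh_anti r s)
  refine ⟨Ψ, ?_, ?_, h2⟩
  · intro c
    rw [EB_algebraMap, h1]
    exact AlgHom.commutes _ c
  · intro i a
    unfold gg
    rw [h1, AlgHom.comp_apply, aeval_X, Algebra.ofId_apply]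
    dsimp only
    split_ifs
    · rw [map_one]
    · rw [map_zero]

theorem h6_evE_X (r s i j : ℕ) : evE r s (X s(i, j)) = ⟨xE r s i j, xE_mem_center r s i j⟩ := by
  unfold evE
  rw [aeval_X]
  rfl

theorem h6_shift_xE (r s : ℕ) (Ψ : EB r s →+* EB 0 s)
    (h1 : ∀ i (a : Fin r), Ψ (gg i a) = if i = a.val then 1 else 0)
    (h2 : ∀ i b, Ψ (th i b) = h6sh r s (i, b)) (i j : ℕ) :
    Ψ (xE r s i j) = ((evE 0 s (h6F r i j) : Subalgebra.center ℂ (EB 0 s)) : EB 0 s) := by
  unfold xE
  rw [map_add, map_sum, map_sum]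
  simp only [map_mul, map_sub, h1, h2]
  have e1 : ∀ k b, h6sh r s (k, b) = if k < r then 0 else th (k - r) b := fun k b => rfl
  simp only [e1]
  by_cases hi : i < r
  · have h3 : (∑ c : Fin s, ((if i < r then (0 : EB 0 s) else th (i - r) (Sum.inl c)) *
        (if j < r then 0 else th (j - r) (Sum.inr c)) -
        (if i < r then 0 else th (i - r) (Sum.inr c)) *
        (if j < r then 0 else th (j - r) (Sum.inl c)))) = 0 := by
      refine Finset.sum_eq_zero fun c _ => ?_
      rw [if_pos hi, if_pos hi, zero_mul, zero_mul, sub_zero]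
    rw [h3, add_zero, Finset.sum_eq_single ⟨i, hi⟩]
    · dsimp only
      rw [if_pos rfl, one_mul]
      by_cases hj : j < r
      · rw [h6F_lt hi hj]
        by_cases hij : i = j
        · rw [if_pos hij, if_pos hij.symm, map_one]
          rfl
        · rw [if_neg hij, if_neg (fun h => hij h.symm), map_zero]
          rfl
      · rw [h6F_mix (by omega) (by omega), map_zero, if_neg (by omega)]
        rfl
    · intro a _ ha
      rw [if_neg, zero_mul]
      intro h
      apply ha
      exact Fin.ext h.symm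
    · intro h
      exact absurd (Finset.mem_univ _) h
  · have h4 : (∑ a : Fin r, (if i = a.val then (1 : EB 0 s) else 0) *
        (if j = a.val then 1 else 0)) = 0 := by
      refine Finset.sum_eq_zero fun a _ => ?_
      have ha := a.2
      rw [if_neg (by omega), zero_mul]
    rw [h4, zero_add]
    by_cases hj : j < r
    · rw [h6F_mix (by omega) (by omega), map_zero]
      refine Finset.sum_eq_zero fun c _ => ?_
      rw [if_pos hj, if_pos hj, mul_zero, mul_zero, sub_zero]
    · rw [h6F_ge (by omega) (by omega), h6_evE_X]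
      have e2 : xE 0 s (i - r) (j - r) = ∑ c : Fin s, (th (i - r) (Sum.inl c) *
          th (j - r) (Sum.inr c) - th (i - r) (Sum.inr c) * th (j - r) (Sum.inl c)) := by
        unfold xE
        rw [Fin.sum_univ_zero, zero_add]
      refine Eq.trans ?_ e2.symm
      refine Finset.sum_congr rfl fun c _ => ?_
      rw [if_neg hi, if_neg hj, if_neg hi, if_neg hj]

theorem h6_shift (r s : ℕ) (f : MP50e386.A) (hf : evE r s f = 0) :
    evE 0 s (h6rho r f) = 0 := by
  obtain ⟨Ψ, h0, h1, h2⟩ := h6_exists_shift r s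
  have h3 : (Ψ.comp (((Subalgebra.center ℂ (EB r s)).val : _ →+* EB r s).comp
      (evE r s : MP50e386.A →+* Subalgebra.center ℂ (EB r s)))) =
      (((Subalgebra.center ℂ (EB 0 s)).val : _ →+* EB 0 s).comp
        ((evE 0 s : MP50e386.A →+* Subalgebra.center ℂ (EB 0 s)).comp
          (h6rho r : MP50e386.A →+* MP50e386.A))) := by
    apply MvPolynomial.ringHom_ext
    · intro c
      simp only [RingHom.comp_apply, RingHom.coe_coe]
      have e1 : evE r s (C c) = algebraMap ℂ _ c := (evE r s).commutes c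
      have e2 : h6rho r (C c) = C c := (h6rho r).commutes c
      have e3 : evE 0 s (C c) = algebraMap ℂ _ c := (evE 0 s).commutes c
      rw [e1, e2, e3]
      exact h0 c
    · intro v
      simp only [RingHom.comp_apply, RingHom.coe_coe]
      induction v using Sym2.ind with
      | _ i j =>
        rw [h6_evE_X, h6rho_X]
        exact h6_shift_xE r s Ψ h1 h2 i j
  have h4 := congrArg (fun F : MP50e386.A →+* EB 0 s => F f) h3
  simp only [RingHom.comp_apply, RingHom.coe_coe] at h4
  rw [hf, map_zero, map_zero] at h4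
  exact Subtype.ext h4.symm

theorem h6_list {ι κ : Type} [DecidableEq κ] (S : Finset κ) (a : κ → ℕ) (g : κ → ι) :
    ∃ L : List ι, L.length = ∑ j ∈ S, a j ∧
      ∀ F : ι → MP50e386.A, (L.map F).prod = ∏ j ∈ S, F (g j) ^ a j := by
  induction S using Finset.induction_on with
  | empty => exact ⟨[], rfl, fun F => rfl⟩
  | insert j S hj ih =>
    obtain ⟨L, h1, h2⟩ := ih
    refine ⟨List.replicate (a j) (g j) ++ L, ?_, ?_⟩
    · rw [List.length_append, List.length_replicate, h1, Finset.sum_insert hj]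
    · intro F
      rw [List.map_append, List.prod_append, List.map_replicate, List.prod_replicate, h2,
        Finset.prod_insert hj]

theorem h6_list_get {ι : Type} {s : ℕ} (F : ι → MP50e386.A) (L : List ι) (hL : L.length = s) :
    ∏ c : Fin s, F (L.get (Fin.cast hL.symm c)) = (L.map F).prod := by
  subst hL
  rw [← List.prod_ofFn]
  congr 1
  conv_rhs => rw [← List.ofFn_get L]
  rw [List.map_ofFn]
  rfl

theorem nonvanishing (r s N : ℕ) (α : Fin N → ℕ)
    (hα : ∑ j ∈ Finset.univ.filter (fun j : Fin N => r ≤ j.val), α j ≤ s) :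
    evE r s (rename (Sym2.map Fin.val) (DelA α)) ≠ 0 := by
  classical
  intro h0
  have h1 := h6_shift r s _ h0
  set S := Finset.univ.filter (fun j : Fin N => r ≤ j.val) with hS
  have h2 : h6rho r (rename (Sym2.map Fin.val) (DelA α)) =
      ∏ j ∈ S, h6D (j.val - r + 1) ^ α j := by
    unfold DelA
    rw [map_prod, map_prod, hS, Finset.prod_filter]
    refine Finset.prod_congr rfl fun j _ => ?_
    rw [map_pow, map_pow, h6_rename_lead]
    split_ifs with hj
    · have e : j.val + 1 = r + (j.val - r + 1) := by omega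
      rw [e, h6rho_D_ge]
    · rw [h6rho_D_le r _ (by omega), one_pow]
  obtain ⟨L, hL1, hL2⟩ := h6_list S α (fun j => (⟨j.val - r, by omega⟩ : Fin (N + 1)))
  have hlen : (L ++ List.replicate (s - ∑ j ∈ S, α j) (0 : Fin (N + 1))).length = s := by
    rw [List.length_append, hL1, List.length_replicate]
    omega
  apply odd_nonvanishing s (N + 1) (fun c => (L ++ List.replicate (s - ∑ j ∈ S, α j)
    (0 : Fin (N + 1))).get (Fin.cast hlen.symm c))
  rw [h6_list_get (fun m : Fin (N + 1) => rename (Sym2.map Fin.val) (lead m)) _ hlen,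
    List.map_append, List.prod_append, hL2, map_mul]
  have h5 : (∏ j ∈ S, (rename (Sym2.map Fin.val) (lead (⟨j.val - r, by omega⟩ : Fin (N + 1))) :
      MP50e386.A) ^ α j) = h6rho r (rename (Sym2.map Fin.val) (DelA α)) := by
    rw [h2]
    refine Finset.prod_congr rfl fun j _ => ?_
    rw [h6_rename_lead]
  rw [h5, h1, zero_mul]

end MP50e386N
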