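import Mathlib
import Pool.Agent.Lib.MP_50e386_al.N.HDefs
import Pool.Agent.Lib.MP_50e386_al.N.H4
import Pool.Agent.Lib.MP_50e386_al.N.H5
import Pool.Agent.Lib.MP_50e386_al.N.H6
import Pool.Agent.Lib.MP_50e386_al.N.H7

/-! HOOK: `J_{r|s}` is generated by the `Delta(w)^(s+1)`, `w ∈ V^(r+1)`. -/

namespace MP50e386N

open MvPolynomial MP50e386

/-- homogeneous components of stable ideals -/
theorem h8_homog (J : Ideal MP50e386.A)
    (hJ : ∀ (w : ℕ → MP50e386.V) (f : MP50e386.A), f ∈ J → MP50e386.sub w f ∈ J)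
    (f : MP50e386.A) (hf : f ∈ J) (d : ℕ) : homogeneousComponent d f ∈ J := by
  have hid : ∀ g : MP50e386.A, MP50e386.sub (fun i => MP50e386.ee i) g = g := by
    intro g
    have : MP50e386.sub (fun i => MP50e386.ee i) = AlgHom.id ℂ MP50e386.A := by
      apply MvPolynomial.algHom_ext
      intro x
      induction x using Sym2.ind with
      | _ i j => rw [sub_X, bil_ee, AlgHom.id_apply]
    rw [this, AlgHom.id_apply]
  set P : Polynomial MP50e386.A := ∑ k ∈ Finset.range (f.totalDegree + 1),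
    Polynomial.monomial (2 * k) (homogeneousComponent k f) with hP
  have hev : ∀ s ∈ (Set.univ : Set ℂ),
      P.eval (algebraMap ℂ MP50e386.A s) ∈ J.restrictScalars ℂ := by
    intro s _
    have h1 : P.eval (algebraMap ℂ MP50e386.A s) =
        MP50e386.sub (fun i => s • MP50e386.ee i) f := by
      conv_rhs => rw [← sum_homogeneousComponent f]
      rw [map_sum, hP, Polynomial.eval_finsetSum]
      refine Finset.sum_congr rfl fun k _ => ?_
      rw [sub_smul_homog (homogeneousComponent_isHomogeneous k f), hid, Polynomial.eval_monomial,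
        ← map_pow, Algebra.smul_def, mul_comm]
    rw [h1]
    exact hJ _ f hf
  have h2 := coeff_mem_of_infinite (J.restrictScalars ℂ) P Set.univ Set.infinite_univ hev (2 * d)
  have h3 : P.coeff (2 * d) = homogeneousComponent d f := by
    rw [hP, Polynomial.finsetSum_coeff]
    by_cases hd : d < f.totalDegree + 1
    · rw [Finset.sum_eq_single d]
      · rw [Polynomial.coeff_monomial, if_pos rfl]
      · intro b _ hb
        rw [Polynomial.coeff_monomial, if_neg (by omega)]
      · intro h
        exact absurd (Finset.mem_range.2 hd) h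
    · rw [homogeneousComponent_eq_zero _ _ (by omega)]
      refine Finset.sum_eq_zero fun b hb => ?_
      rw [Finset.mem_range] at hb
      rw [Polynomial.coeff_monomial, if_neg (by omega)]
  rw [h3] at h2
  exact h2

/-- inclusion of the finite level -/
noncomputable def h8i (N : ℕ) : AN N →ₐ[ℂ] MP50e386.A := rename (Sym2.map Fin.val)

theorem h8i_X (N : ℕ) (i j : Fin N) : h8i N (X s(i, j)) = X s(i.val, j.val) := by
  unfold h8i
  rw [rename_X]
  rfl

theorem h8_exists {N : ℕ} {f : MP50e386.A} (hf : Lev N f) : ∃ g : AN N, h8i N g = f := by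
  apply exists_rename_eq_of_vars_subset_range f _ (Sym2.map.injective Fin.val_injective)
  intro s hs
  have h := hf s hs
  induction s using Sym2.ind with
  | _ i j =>
    exact ⟨s(⟨i, h i (Sym2.mem_mk_left i j)⟩, ⟨j, h j (Sym2.mem_mk_right i j)⟩), rfl⟩

/-- the vectors of a substitution -/
noncomputable def h8w {N : ℕ} (g : Matrix (Fin N) (Fin N) ℂ) (i : ℕ) : MP50e386.V :=
  if h : i < N then ∑ k, g k ⟨i, h⟩ • MP50e386.ee k.val else 0

theorem h8w_val {N : ℕ} (g : Matrix (Fin N) (Fin N) ℂ) (i : Fin N) :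
    h8w g i.val = ∑ k, g k i • MP50e386.ee k.val := by
  unfold h8w
  rw [dif_pos i.2]

theorem h8_sub {N : ℕ} (g : Matrix (Fin N) (Fin N) ℂ) (f : AN N) :
    h8i N (subN g f) = MP50e386.sub (h8w g) (h8i N f) := by
  have : (h8i N).comp (subN g) = (MP50e386.sub (h8w g)).comp (h8i N) := by
    apply MvPolynomial.algHom_ext
    intro x
    induction x using Sym2.ind with
    | _ i j =>
      rw [AlgHom.comp_apply, AlgHom.comp_apply, h8i_X, sub_X, h8w_val, h8w_val]
      have h1 : subN g (X s(i, j)) = ∑ k, ∑ l, C (g k i * g l j) * (X s(k, l) : AN N) := by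
        unfold subN
        rw [aeval_X]
        rfl
      rw [h1, map_sum, LinearMap.map_sum₂]
      refine Finset.sum_congr rfl fun k _ => ?_
      rw [map_sum, map_sum]
      refine Finset.sum_congr rfl fun l _ => ?_
      rw [C_mul', map_smul, h8i_X, map_smul, map_smul, LinearMap.smul_apply, bil_ee, smul_smul,
        mul_comm]
  exact congrArg (fun F : AN N →ₐ[ℂ] MP50e386.A => F f) this

theorem h8_comp (N : ℕ) (f : AN N) (d : ℕ) :
    h8i N (homogeneousComponent d f) = homogeneousComponent d (h8i N f) := by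
  have hinj : Function.Injective (Sym2.map (Fin.val : Fin N → ℕ)) :=
    Sym2.map.injective Fin.val_injective
  conv_rhs => rw [← sum_homogeneousComponent f]
  rw [map_sum, map_sum]
  have h1 : ∀ k, homogeneousComponent d (h8i N (homogeneousComponent k f)) =
      if d = k then h8i N (homogeneousComponent k f) else 0 := by
    intro k
    have h2 : h8i N (homogeneousComponent k f) ∈ homogeneousSubmodule (Sym2 ℕ) ℂ k := by
      rw [mem_homogeneousSubmodule]
      exact (homogeneousComponent_isHomogeneous k f).rename_isHomogeneous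
    exact homogeneousComponent_of_mem h2
  simp only [h1]
  rw [Finset.sum_ite_eq]
  split_ifs with h
  · rfl
  · rw [Finset.mem_range, not_lt] at h
    rw [homogeneousComponent_eq_zero _ _ (by omega), map_zero]

/-- the degree `d` part of the finite level of an ideal -/
noncomputable def h8L (J : Ideal MP50e386.A) (N d : ℕ) : Submodule ℂ (AN N) :=
  (J.comap (h8i N)).restrictScalars ℂ ⊓ homogeneousSubmodule (Sym2 (Fin N)) ℂ d

theorem h8L_mem (J : Ideal MP50e386.A) (N d : ℕ) (f : AN N) :
    f ∈ h8L J N d ↔ h8i N f ∈ J ∧ f ∈ homogeneousSubmodule (Sym2 (Fin N)) ℂ d := Iff.rfl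

theorem h8_E (J : Ideal MP50e386.A)
    (hJ : ∀ (w : ℕ → MP50e386.V) (f : MP50e386.A), f ∈ J → MP50e386.sub w f ∈ J) (N : ℕ)
    (a b : Fin N) (f : AN N) (hf : f ∈ J.comap (h8i N)) : Eop a b f ∈ J.comap (h8i N) := by
  refine Eop_mem_of_subN ((J.comap (h8i N)).restrictScalars ℂ) ?_ a b f hf
  intro g f hf
  change h8i N (subN g f) ∈ J
  rw [h8_sub]
  exact hJ _ _ hf

theorem h8L_E (J : Ideal MP50e386.A)
    (hJ : ∀ (w : ℕ → MP50e386.V) (f : MP50e386.A), f ∈ J → MP50e386.sub w f ∈ J) (N d : ℕ)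
    (a b : Fin N) (f : AN N) (hf : f ∈ h8L J N d) : Eop a b f ∈ h8L J N d := by
  rw [h8L_mem] at hf ⊢
  exact ⟨h8_E J hJ N a b f hf.1, Eop_homog a b hf.2⟩

theorem h8_lead (r s N : ℕ) (hr : r < N) :
    h8i N (lead ⟨r, hr⟩ ^ (s + 1)) ∈ detIdeal (r + 1) (s + 1) := by
  rw [map_pow]
  apply Ideal.subset_span
  refine ⟨fun a => MP50e386.ee a.val, ?_⟩
  congr 1
  unfold lead
  rw [AlgHom.map_det]
  congr 1
  ext1 a b
  rw [AlgHom.mapMatrix_apply, Matrix.map_apply, Matrix.of_apply, Matrix.of_apply, h8i_X, bil_ee]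
  rfl

theorem h8_level (r s N d : ℕ) (hr : r < N) :
    h8L (Jrs r s) N d ≤ h8L (detIdeal (r + 1) (s + 1)) N d := by
  by_contra hcon
  obtain ⟨α, h1, h2⟩ := exists_DelA d (h8L (Jrs r s) N d) (h8L (detIdeal (r + 1) (s + 1)) N d)
    inf_le_right inf_le_right
    (fun a b f hf => h8L_E (Jrs r s) (fun w f hf => Jrs_stable r s w f hf) N d a b f hf)
    (fun a b f hf => h8L_E (detIdeal (r + 1) (s + 1))
      (fun w f hf => detIdeal_stable (r + 1) (s + 1) w f hf) N d a b f hf) hcon
  rw [h8L_mem] at h1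
  have h3 : DelA α ∉ (detIdeal (r + 1) (s + 1)).comap (h8i N) := by
    intro h
    apply h2
    rw [h8L_mem]
    exact ⟨h, h1.2⟩
  have h4 : ¬ (s + 1 ≤ ∑ j ∈ Finset.univ.filter (fun j : Fin N => (⟨r, hr⟩ : Fin N) ≤ j), α j) := by
    intro h
    apply h3
    refine box ((detIdeal (r + 1) (s + 1)).comap (h8i N)) ?_ ?_ ⟨r, hr⟩ (s + 1) (h8_lead r s N hr)
      α h
    · intro f hf e
      rw [Ideal.mem_comap, h8_comp]
      exact h8_homog (detIdeal (r + 1) (s + 1))
        (fun w f hf => detIdeal_stable (r + 1) (s + 1) w f hf) _ hf e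
    · intro a b f hf
      exact h8_E (detIdeal (r + 1) (s + 1))
        (fun w f hf => detIdeal_stable (r + 1) (s + 1) w f hf) N a b f hf
  refine nonvanishing r s N α ?_ h1.1
  have h5 : (Finset.univ.filter (fun j : Fin N => r ≤ j.val)) =
      Finset.univ.filter (fun j : Fin N => (⟨r, hr⟩ : Fin N) ≤ j) := by
    apply Finset.filter_congr
    intro j _
    rw [Fin.le_def]
  rw [h5]
  omega

theorem hook (r s : ℕ) : Jrs r s = detIdeal (r + 1) (s + 1) := by
  apply le_antisymm
  · intro f hf
    obtain ⟨n, hn⟩ := exists_lev f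
    have hn' : Lev (n + r + 1) f := hn.mono (by omega)
    obtain ⟨g, hg⟩ := h8_exists hn'
    rw [← sum_homogeneousComponent f]
    refine Ideal.sum_mem _ fun d _ => ?_
    have h1 : homogeneousComponent d g ∈ h8L (Jrs r s) (n + r + 1) d := by
      rw [h8L_mem, h8_comp, hg]
      exact ⟨Jrs_homog r s f hf d, homogeneousComponent_mem d g⟩
    have h2 := h8_level r s (n + r + 1) d (by omega) h1
    rw [h8L_mem, h8_comp, hg] at h2
    exact h2.1
  · exact detIdeal_le_Jrs r s

end MP50e386N
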