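import Mathlib
import Pool.Agent.Lib.MP_50e386_al.N.Defs
import Pool.Agent.Lib.MP_50e386_al.Bridge

/-! Substitutions with coefficients in an algebra. -/

namespace MP50e386N

open MvPolynomial Pool.Agent.Lib.MP50e386

/-- the substitution `x_ij ↦ ∑ ψ_i(k) ψ_j(l) φ(x_kl)` -/
noncomputable def Psub {S : Type} [CommRing S] [Algebra ℂ S] (φ : MP50e386.A →ₐ[ℂ] S)
    (ψ : ℕ → ℕ →₀ S) : MP50e386.A →ₐ[ℂ] S :=
  aeval (Sym2.lift ⟨fun i j => (ψ i).sum fun k a => (ψ j).sum fun l b => a * b * φ (X s(k, l)),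
    fun i j => by
      beta_reduce
      rw [Finsupp.sum_comm]
      apply Finsupp.sum_congr
      intro k _
      apply Finsupp.sum_congr
      intro l _
      rw [mul_comm ((ψ i) l), Sym2.eq_swap]⟩)

theorem Psub_X {S : Type} [CommRing S] [Algebra ℂ S] (φ : MP50e386.A →ₐ[ℂ] S)
    (ψ : ℕ → ℕ →₀ S) (i j : ℕ) : Psub φ ψ (X s(i, j)) =
      (ψ i).sum fun k a => (ψ j).sum fun l b => a * b * φ (X s(k, l)) := by
  unfold Psub
  rw [aeval_X]
  rfl

/-- a polynomial over a `ℂ`-algebra which vanishes at all complex points is zero -/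
private theorem eq_zero_of_eval {S σ : Type} [CommRing S] [Algebra ℂ S] (F : MvPolynomial σ S)
    (h : ∀ t : σ → ℂ, eval (fun p => algebraMap ℂ S (t p)) F = 0) : F = 0 := by
  classical
  ext d
  rw [coeff_zero]
  refine (Module.forall_dual_apply_eq_zero_iff ℂ (coeff d F)).1 fun ℓ => ?_
  set G : MvPolynomial σ ℂ := ∑ e ∈ F.support, monomial e (ℓ (coeff e F)) with hG
  have hG0 : G = 0 := by
    apply MvPolynomial.funext
    intro t
    rw [map_zero, hG, map_sum]
    have h1 := congrArg ℓ (h t)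
    rw [map_zero, eval_eq, map_sum] at h1
    rw [← h1]
    refine Finset.sum_congr rfl fun e _ => ?_
    rw [eval_monomial]
    have h2 : ∏ i ∈ e.support, (algebraMap ℂ S (t i)) ^ e i =
        algebraMap ℂ S (e.prod fun n k => t n ^ k) := by
      rw [Finsupp.prod, map_prod]
      refine Finset.prod_congr rfl fun i _ => ?_
      rw [map_pow]
    rw [h2, mul_comm (coeff e F), ← Algebra.smul_def, map_smul, smul_eq_mul, mul_comm]
  have h3 : coeff d G = ℓ (coeff d F) := by
    rw [hG, coeff_sum]
    simp only [coeff_monomial]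
    rw [Finset.sum_ite_eq' F.support d]
    split_ifs with hd
    · rfl
    · rw [notMem_support_iff.1 hd, map_zero]
  rw [← h3, hG0, coeff_zero]

/-- the formal substitution with coefficients `X (i, k)`, `k < m` -/
private noncomputable def genY {S : Type} [CommRing S] [Algebra ℂ S] (φ : MP50e386.A →ₐ[ℂ] S)
    (m : ℕ) : Sym2 ℕ → MvPolynomial (ℕ × ℕ) S :=
  Sym2.lift ⟨fun i j => ∑ k ∈ Finset.range m, ∑ l ∈ Finset.range m,
    X (i, k) * X (j, l) * C (φ (X s(k, l))), fun i j => by
      beta_reduce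
      rw [Finset.sum_comm]
      refine Finset.sum_congr rfl fun k _ => Finset.sum_congr rfl fun l _ => ?_
      rw [Sym2.eq_swap, mul_comm (X (i, l))]⟩

/-- if `J` is stable under complex substitutions and `φ` kills `J`, then the formal substitution
kills `J` -/
theorem Psub_eq_zero {S : Type} [CommRing S] [Algebra ℂ S] (J : Ideal MP50e386.A)
    (hJ : ∀ w : ℕ → MP50e386.V, ∀ f ∈ J, MP50e386.sub w f ∈ J) (φ : MP50e386.A →ₐ[ℂ] S)
    (hφ : ∀ f ∈ J, φ f = 0) (ψ : ℕ → ℕ →₀ S) (f : MP50e386.A) (hf : f ∈ J) :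
    Psub φ ψ f = 0 := by
  classical
  obtain ⟨n, hn⟩ := MP50e386.exists_lev f
  set m : ℕ := (Finset.range n).sup (fun i => (ψ i).support.sup id) + 1 with hm
  have hsupp : ∀ i < n, (ψ i).support ⊆ Finset.range m := by
    intro i hi k hk
    have h1 : k ≤ (ψ i).support.sup id := Finset.le_sup (f := id) hk
    have h2 : (ψ i).support.sup id ≤ (Finset.range n).sup (fun i => (ψ i).support.sup id) :=
      Finset.le_sup (f := fun i => (ψ i).support.sup id) (Finset.mem_range.2 hi)
    rw [Finset.mem_range]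
    omega
  -- the formal substitution kills `f`
  have hG : (aeval (genY φ m) f : MvPolynomial (ℕ × ℕ) S) = 0 := by
    apply eq_zero_of_eval
    intro t
    let w : ℕ → MP50e386.V := fun i => ∑ k ∈ Finset.range m, t (i, k) • MP50e386.ee k
    let E : MvPolynomial (ℕ × ℕ) S →ₐ[ℂ] S :=
      (aeval (fun p => algebraMap ℂ S (t p)) : MvPolynomial (ℕ × ℕ) S →ₐ[S] S).restrictScalars ℂ
    have hE : ∀ F, E F = eval (fun p => algebraMap ℂ S (t p)) F := by
      intro F
      change aeval (fun p => algebraMap ℂ S (t p)) F = _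
      rw [aeval_eq_eval]
    have hcomp : E.comp (aeval (genY φ m) : MP50e386.A →ₐ[ℂ] MvPolynomial (ℕ × ℕ) S) =
        φ.comp (MP50e386.sub w) := by
      apply MvPolynomial.algHom_ext
      intro s
      induction s using Sym2.ind with
      | _ i j =>
        rw [AlgHom.comp_apply, AlgHom.comp_apply, aeval_X, MP50e386.sub_X, hE]
        change eval _ (∑ k ∈ Finset.range m, ∑ l ∈ Finset.range m,
          X (i, k) * X (j, l) * C (φ (X s(k, l)))) = _
        rw [map_sum]
        have h1 : MP50e386.bil (w i) (w j) = ∑ k ∈ Finset.range m, ∑ l ∈ Finset.range m,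
            (t (i, k) * t (j, l)) • (X s(k, l) : MP50e386.A) := by
          change MP50e386.bil (∑ k ∈ Finset.range m, t (i, k) • MP50e386.ee k)
            (∑ k ∈ Finset.range m, t (j, k) • MP50e386.ee k) = _
          rw [LinearMap.map_sum₂]
          refine Finset.sum_congr rfl fun k _ => ?_
          rw [map_smul, LinearMap.smul_apply, map_sum, Finset.smul_sum]
          refine Finset.sum_congr rfl fun l _ => ?_
          rw [map_smul, MP50e386.bil_ee, smul_smul]
        rw [h1, map_sum]
        refine Finset.sum_congr rfl fun k _ => ?_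
        rw [map_sum, map_sum]
        refine Finset.sum_congr rfl fun l _ => ?_
        rw [map_mul, map_mul, eval_X, eval_X, eval_C, map_smul, Algebra.smul_def, map_mul]
    have h2 := congrArg (fun g : MP50e386.A →ₐ[ℂ] S => g f) hcomp
    simp only [AlgHom.comp_apply] at h2
    rw [← hE, h2]
    exact hφ _ (hJ w f hf)
  -- specialise
  let E : MvPolynomial (ℕ × ℕ) S →ₐ[ℂ] S :=
    (aeval (fun p => ψ p.1 p.2) : MvPolynomial (ℕ × ℕ) S →ₐ[S] S).restrictScalars ℂ
  have h3 : aeval (fun s => E (genY φ m s)) f = 0 := by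
    have h4 : aeval (fun s => E (genY φ m s)) f = E (aeval (genY φ m) f) := by
      have h5 : (aeval (fun s => E (genY φ m s)) : MP50e386.A →ₐ[ℂ] S) =
          E.comp (aeval (genY φ m)) := by
        apply MvPolynomial.algHom_ext
        intro s
        rw [AlgHom.comp_apply, aeval_X, aeval_X]
      rw [h5, AlgHom.comp_apply]
    rw [h4, hG, map_zero]
  rw [← h3]
  unfold Psub
  apply MP50e386.aeval_congr_lev hn
  intro i hi j hj
  have h6 : E (genY φ m s(i, j)) = ∑ k ∈ Finset.range m, ∑ l ∈ Finset.range m,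
      ψ i k * ψ j l * φ (X s(k, l)) := by
    change aeval (fun p : ℕ × ℕ => ψ p.1 p.2) (∑ k ∈ Finset.range m, ∑ l ∈ Finset.range m,
      (X (i, k) * X (j, l) * C (φ (X s(k, l))) : MvPolynomial (ℕ × ℕ) S)) = _
    rw [map_sum]
    refine Finset.sum_congr rfl fun k _ => ?_
    rw [map_sum]
    refine Finset.sum_congr rfl fun l _ => ?_
    rw [map_mul, map_mul, aeval_X, aeval_X, aeval_C]
    rfl
  rw [h6]
  change (ψ i).sum (fun k a => (ψ j).sum fun l b => a * b * φ (X s(k, l))) = _
  rw [Finsupp.sum_of_support_subset _ (hsupp i hi)]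
  · refine Finset.sum_congr rfl fun k _ => ?_
    rw [Finsupp.sum_of_support_subset _ (hsupp j hj)]
    intro l _
    rw [mul_zero, zero_mul]
  · intro k _
    rw [Finsupp.sum]
    refine Finset.sum_eq_zero fun l _ => ?_
    rw [zero_mul, zero_mul]

end MP50e386N
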