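import Mathlib
import Pool.Agent.Lib.MP_50e386_al.N.Psub

/-! The rings `A` and `A ⧸ J`. -/

namespace MP50e386N

open MvPolynomial Pool.Agent.Lib.MP50e386

theorem adjoin_x {S : Type} [CommRing S] [Algebra ℂ S] (φ : MP50e386.A →ₐ[ℂ] S)
    (hφ : Function.Surjective φ) :
    Algebra.adjoin ℂ (Set.range fun p : ℕ × ℕ => φ (X s(p.1, p.2))) = ⊤ := by
  have h1 : (Set.range fun p : ℕ × ℕ => φ (X s(p.1, p.2))) =
      φ '' (Set.range (X : Sym2 ℕ → MP50e386.A)) := by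
    ext y
    constructor
    · rintro ⟨p, rfl⟩
      exact ⟨X s(p.1, p.2), ⟨s(p.1, p.2), rfl⟩, rfl⟩
    · rintro ⟨_, ⟨s, rfl⟩, rfl⟩
      induction s using Sym2.ind with
      | _ i j => exact ⟨(i, j), rfl⟩
  rw [h1, ← AlgHom.map_adjoin, MvPolynomial.adjoin_range_X, Algebra.map_top]
  exact (AlgHom.range_eq_top φ).2 hφ

noncomputable instance instGLRingA : GLRing MP50e386.A where
  x i j := X s(i, j)
  x_symm i j := by rw [Sym2.eq_swap]
  gen := by
    have := adjoin_x (AlgHom.id ℂ MP50e386.A) Function.surjective_id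
    simpa using this
  sb ψ := Psub (AlgHom.id ℂ MP50e386.A) ψ
  sb_x ψ i j := Psub_X _ _ _ _

/-- ideals of `A` stable under all complex substitutions -/
class GLIdeal (J : Ideal MP50e386.A) : Prop where
  st : ∀ w : ℕ → MP50e386.V, ∀ f ∈ J, MP50e386.sub w f ∈ J

noncomputable instance instGLRingQuot (J : Ideal MP50e386.A) [GLIdeal J] :
    GLRing (MP50e386.A ⧸ J) where
  x i j := Ideal.Quotient.mkₐ ℂ J (X s(i, j))
  x_symm i j := by rw [Sym2.eq_swap]
  gen := adjoin_x (Ideal.Quotient.mkₐ ℂ J) (Ideal.Quotient.mkₐ_surjective ℂ J)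
  sb ψ := Ideal.Quotient.liftₐ J (Psub (Ideal.Quotient.mkₐ ℂ J) ψ) (fun f hf =>
    Psub_eq_zero J GLIdeal.st (Ideal.Quotient.mkₐ ℂ J)
      (fun g hg => Ideal.Quotient.eq_zero_iff_mem.2 hg) ψ f hf)
  sb_x ψ i j := by
    have h := Psub_X (Ideal.Quotient.mkₐ ℂ J) ψ i j
    rw [← h]
    rfl

noncomputable instance (M N0 : ℕ) : GLIdeal (MP50e386.detIdeal M N0) where
  st w := MP50e386.detIdeal_stable M N0 w

/-- `R_{r|s}` -/
abbrev Rrs (r s : ℕ) := MP50e386.A ⧸ MP50e386.detIdeal (r + 1) (s + 1)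

/-- the ideal `h_{r|s}` of `R_{r|s}` -/
noncomputable def hrs (r s : ℕ) : Ideal (Rrs r s) :=
  Ideal.map (Ideal.Quotient.mk _) (MP50e386.detIdeal r (s + 1) * MP50e386.detIdeal (r + 1) s)

end MP50e386N
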