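import Mathlib
import Pool.Agent.Lib.MP_50e386_al.N.Inst
import Pool.Agent.Lib.MP_50e386_al.N.HDefs

/-!
Block K (super letters, paper section 3): definitions.

`E` is the set of the even super letters, `O` the set of the odd super letters.
-/

namespace MP50e386N

open MvPolynomial Pool.Agent.Lib.MP50e386

/-- the polynomial ring `A[z_{a,i}]` -/
abbrev UA := U MP50e386.A

/-- sign of the exchange of two elements of parities `a`, `b` (`true` means odd) -/
def ss (a b : Bool) : ℤ := if a && b then -1 else 1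

/-- parity of a super letter -/
def par {E O : Type} (y : E ⊕ O) : Bool := y.isRight

/-- The free supercommutative algebra over `B` generated by `P y i`, `y` a super letter, `i ∈ ℕ`,
of parity `par y`, with the coefficient functionals of the monomials. -/
structure SAlg (E O B T : Type) [CommRing B] [Ring T] [Algebra B T] where
  P : E ⊕ O → ℕ → T
  comm : ∀ y i y' i', P y i * P y' i' = ss (par y) (par y') • (P y' i' * P y i)
  sq : ∀ b i, P (Sum.inr b) i * P (Sum.inr b) i = 0
  gen : Algebra.adjoin B {t | ∃ y i, t = P y i} = ⊤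
  coef : List ((E ⊕ O) × ℕ) → T →ₗ[B] B
  coef_self : ∀ l : List ((E ⊕ O) × ℕ), l.Nodup →
    coef l ((l.map fun p => P p.1 p.2).prod) = 1
  coef_ne : ∀ l l' : List ((E ⊕ O) × ℕ), ¬ l.Perm l' →
    coef l ((l'.map fun p => P p.1 p.2).prod) = 0

section SAlg

variable {E O B T : Type} [CommRing B] [Ring T] [Algebra B T] (S : SAlg E O B T)

/-- product of generators -/
def SAlg.pp (l : List ((E ⊕ O) × ℕ)) : T := (l.map fun p => S.P p.1 p.2).prod

/-- an element commuting with all generators is central -/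
theorem SAlg.central (x : T) (hx : ∀ y i, x * S.P y i = S.P y i * x) (t : T) : x * t = t * x := by
  have ht : t ∈ Algebra.adjoin B {t | ∃ y i, t = S.P y i} := by
    rw [S.gen]
    exact Algebra.mem_top
  induction ht using Algebra.adjoin_induction with
  | mem t ht =>
    obtain ⟨y, i, rfl⟩ := ht
    exact hx y i
  | algebraMap r => exact (Algebra.commutes r x).symm
  | add a b _ _ ha hb => rw [mul_add, add_mul, ha, hb]
  | mul a b _ _ ha hb => rw [← mul_assoc, ha, mul_assoc, hb, mul_assoc]

/-- products of two generators of equal parity are central -/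
theorem SAlg.pair_central (y y' : E ⊕ O) (h : par y = par y') (i j : ℕ) (t : T) :
    S.P y i * S.P y' j * t = t * (S.P y i * S.P y' j) := by
  refine S.central _ (fun w k => ?_) t
  have e1 := S.comm y' j w k
  have e2 := S.comm y i w k
  have e3 : ss (par y) (par w) * ss (par y) (par w) = 1 := by
    unfold ss
    split_ifs <;> norm_num
  calc S.P y i * S.P y' j * S.P w k = S.P y i * (S.P y' j * S.P w k) := mul_assoc _ _ _
    _ = ss (par y) (par w) • ((S.P y i * S.P w k) * S.P y' j) := by
        rw [e1, ← h, mul_smul_comm, mul_assoc]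
    _ = (ss (par y) (par w) * ss (par y) (par w)) • (S.P w k * S.P y i * S.P y' j) := by
        rw [e2, smul_mul_assoc, smul_smul]
    _ = S.P w k * (S.P y i * S.P y' j) := by rw [e3, one_smul, mul_assoc]

theorem SAlg.even_central (a : E) (i : ℕ) (t : T) :
    S.P (Sum.inl a) i * t = t * S.P (Sum.inl a) i := by
  refine S.central _ (fun w k => ?_) t
  have := S.comm (Sum.inl a) i w k
  rw [this]
  have e : ss (par (Sum.inl a : E ⊕ O)) (par w) = 1 := by simp [ss, par]
  rw [e, one_smul]

end SAlg

/-! ### letters -/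

/-- substitution of letters by letters -/
noncomputable def lsub (φ : ℕ → ℕ) : UA →+* UA := sbC (fun k => ee (φ k))

/-- extension of a map of the first `n` letters -/
def extd {n : ℕ} (φ : Fin n → ℕ) (k : ℕ) : ℕ := if h : k < n then φ ⟨k, h⟩ else k

/-- `f ∈ A[z]` is multilinear in the letters `0, …, n-1` -/
def UL (n : ℕ) : Submodule ℂ UA where
  carrier := {f | ∀ t : ℕ → ℂ, sbC (fun i => t i • ee i) f = (∏ i ∈ Finset.range n, t i) • f}
  zero_mem' := by
    intro t
    rw [map_zero, smul_zero]
  add_mem' := by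
    intro f g hf hg t
    rw [map_add, hf t, hg t, smul_add]
  smul_mem' := by
    intro c f hf t
    have h1 : sbC (R := MP50e386.A) (fun i => t i • ee i) (c • f) =
        c • sbC (fun i => t i • ee i) f := by
      rw [Algebra.smul_def, Algebra.smul_def, map_mul]
      congr 1
      have h2 : (algebraMap ℂ UA c) = C (algebraMap ℂ MP50e386.A c) := rfl
      rw [h2]
      unfold sbC sbU
      rw [eval₂Hom_C]
      simp only [RingHom.coe_comp, Function.comp_apply]
      congr 1
      exact AlgHom.commutes _ c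
    rw [h1, hf t, smul_comm]

/-- standard multilinear monomials: `e` edges, then legs with the labels `as` -/
noncomputable def mon : ℕ → List ℕ → UA
  | 0, [] => 1
  | 0, a :: as => X (a, 0) * lsub (· + 1) (mon 0 as)
  | e + 1, as => C (X s(0, 1)) * lsub (· + 2) (mon e as)

/-- polynomials in `z_{a,i}` with labels `a < L` -/
def LL (L : ℕ) : Set UA := {f | ∀ m ∈ f.support, ∀ p ∈ m.support, p.1 < L}

/-! ### the universal sign -/

/-- `ε` is the sign of the reordering `σ` of supercommuting elements with the parities `π` -/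
def IsSign {n : ℕ} (σ : Equiv.Perm (Fin n)) (π : Fin n → Bool) (ε : ℤ) : Prop :=
  (ε = 1 ∨ ε = -1) ∧ ∀ (T : Type) [Ring T] (p : Fin n → T),
    (∀ i j, i ≠ j → p i * p j = ss (π i) (π j) • (p j * p i)) →
      (List.ofFn fun k => p (σ k)).prod = ε • (List.ofFn p).prod

open Classical in
/-- the universal sign -/
noncomputable def kap {n : ℕ} (σ : Equiv.Perm (Fin n)) (π : Fin n → Bool) : ℤ :=
  if h : ∃ ε, IsSign σ π ε then h.choose else 1

/-- `e_τ f = ∑ ± σ f`, sum over the permutations with `τ ∘ σ = τ` -/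
noncomputable def eop {E O : Type} {n : ℕ} (τ : Fin n → E ⊕ O) (f : UA) : UA :=
  open Classical in
  ∑ σ ∈ Finset.univ.filter (fun σ : Equiv.Perm (Fin n) => τ ∘ σ = τ),
    kap σ (par ∘ τ) • lsub (extd fun k => (σ k : ℕ)) f

/-! ### super evaluation in the ring `T` over `A[z]` -/

section T

variable {E O T : Type} [Ring T] [Algebra UA T] [Algebra ℂ T]

/-- the list `(τ 0, φ 0), …, (τ (n-1), φ (n-1))` -/
def lis {E O : Type} {n : ℕ} (τ : Fin n → E ⊕ O) (φ : Fin n → ℕ) : List ((E ⊕ O) × ℕ) :=
  List.ofFn fun k => (τ k, φ k)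

/-- sequences of elements of `T` -/
def TN (_ : SAlg E O UA T) : Type := ℕ → T

variable (S : SAlg E O UA T)

noncomputable instance : Ring (TN S) := inferInstanceAs (Ring (ℕ → T))

noncomputable instance : Algebra ℂ (TN S) := inferInstanceAs (Algebra ℂ (ℕ → T))

/-- the super evaluation `f_τ` -/
noncomputable def ft {n : ℕ} (τ : Fin n → E ⊕ O) (f : UA) : TN S := fun m =>
  ∑ ι : Fin n → Fin m, algebraMap UA T (lsub (extd fun k => (ι k : ℕ)) f) *
    S.pp (lis τ fun k => (ι k : ℕ))

/-- `X_{yy'}` -/
noncomputable def XX (y y' : E ⊕ O) : TN S := fun m =>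
  ∑ i ∈ Finset.range m, ∑ j ∈ Finset.range m,
    algebraMap UA T (C (X s(i, j))) * (S.P y i * S.P y' j)

/-- `Z_{a,y}` -/
noncomputable def ZZ (a : ℕ) (y : E ⊕ O) : TN S := fun m =>
  ∑ i ∈ Finset.range m, algebraMap UA T (X (a, i)) * S.P y i

theorem XX_central (y y' : E ⊕ O) (h : par y = par y') (t : TN S) : XX S y y' * t = t * XX S y y' := by
  funext m
  change (∑ i ∈ Finset.range m, ∑ j ∈ Finset.range m,
    algebraMap UA T (C (X s(i, j))) * (S.P y i * S.P y' j)) * t m =
    t m * ∑ i ∈ Finset.range m, ∑ j ∈ Finset.range m,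
    algebraMap UA T (C (X s(i, j))) * (S.P y i * S.P y' j)
  rw [Finset.sum_mul, Finset.mul_sum]
  refine Finset.sum_congr rfl fun i _ => ?_
  rw [Finset.sum_mul, Finset.mul_sum]
  refine Finset.sum_congr rfl fun j _ => ?_
  rw [mul_assoc, S.pair_central y y' h, ← mul_assoc, Algebra.commutes, mul_assoc]

/-- the polynomial ring `K` in the variables `X_{aa'}`, `X_{bb'}` -/
abbrev KK (E O : Type) := MvPolynomial ((E × E) ⊕ (O × O)) ℂ

/-- `K → center` -/
noncomputable def KH : KK E O →ₐ[ℂ] Subalgebra.center ℂ (TN S) :=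
  aeval (Sum.elim
    (fun p => ⟨XX S (Sum.inl p.1) (Sum.inl p.2), by
      rw [Subalgebra.mem_center_iff]
      intro t
      exact (XX_central S (Sum.inl p.1) (Sum.inl p.2) rfl t).symm⟩)
    (fun p => ⟨XX S (Sum.inr p.1) (Sum.inr p.2), by
      rw [Subalgebra.mem_center_iff]
      intro t
      exact (XX_central S (Sum.inr p.1) (Sum.inr p.2) rfl t).symm⟩))

noncomputable instance instAlgKK : Algebra (KK E O) (TN S) :=
  ((Subalgebra.center ℂ (TN S)).val.toRingHom.comp (KH S).toRingHom).toAlgebra' (by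
    intro c x
    exact (Subalgebra.mem_center_iff.1 (KH S c).2 x).symm)

/-- `N ⊗ T_0` -/
def NT (N : Submodule MP50e386.A UA) : AddSubgroup T :=
  AddSubgroup.closure {x | ∃ f ∈ N, ∃ l : List ((E ⊕ O) × ℕ), x = algebraMap UA T f * S.pp l}

/-- the ideal `h` of `A` as a submodule of `A[z]` -/
noncomputable def IU (h : Ideal MP50e386.A) : Submodule MP50e386.A UA :=
  Submodule.map (Algebra.linearMap MP50e386.A UA) h

/-- products of at least `j` factors `χ = X_{ab}`, `a` even, `b` odd -/
noncomputable def Chi (j : ℕ) : Submodule (KK E O) (TN S) :=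
  Submodule.span (KK E O) {x | ∃ l : List (E × O), j ≤ l.length ∧
    x = (l.map fun p => XX S (Sum.inl p.1) (Sum.inr p.2)).prod}

/-- products of at most `D` factors `Z_{a,y}`, `a < L` -/
noncomputable def ZD (L D : ℕ) : Submodule (KK E O) (TN S) :=
  Submodule.span (KK E O) {x | ∃ l : List (ℕ × (E ⊕ O)), (∀ p ∈ l, p.1 < L) ∧ l.length ≤ D ∧
    x = (l.map fun p => ZZ S p.1 p.2).prod}

/-- `SS_{≤ D}` -/
noncomputable def SSD (L D : ℕ) : Submodule (KK E O) (TN S) := Chi S 0 * ZD S L D

end T

/-! ### forms and the exterior evaluation -/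

/-- a super form over `ℂ` with values of the legs -/
structure Form (E O : Type) where
  be : E → E → ℂ
  be_symm : ∀ a a', be a a' = be a' a
  ze : O → O → ℂ
  ze_anti : ∀ b b', ze b b' = - ze b' b
  le : ℕ → E → ℂ

/-- the standard form of the super space `r + L | 2 s` -/
def stdW (r L s : ℕ) : Form (Fin r ⊕ Fin L) (Fin s ⊕ Fin s) where
  be a a' := match a, a' with
    | Sum.inl i, Sum.inl j => if i = j then 1 else 0
    | _, _ => 0
  be_symm a a' := by
    rcases a with i | i <;> rcases a' with j | j <;> simp [eq_comm]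
  ze b b' := match b, b' with
    | Sum.inl i, Sum.inr j => if i = j then 1 else 0
    | Sum.inr i, Sum.inl j => if i = j then -1 else 0
    | _, _ => 0
  ze_anti b b' := by
    rcases b with i | i <;> rcases b' with j | j <;> simp [eq_comm] <;> split_ifs <;> norm_num
  le a y := match y with
    | Sum.inl _ => 0
    | Sum.inr k => if a = k.val then 1 else 0

/-- evaluation of an element of `K` at a form -/
noncomputable def kev {E O : Type} (W : Form E O) : KK E O →ₐ[ℂ] ℂ :=
  aeval (Sum.elim (fun p => W.be p.1 p.2) (fun p => W.ze p.1 p.2))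

/-- pull back of a form -/
noncomputable def Form.pull {E O E' O' : Type} [Fintype E'] [Fintype O'] (W : Form E' O')
    (M : E' → E → ℂ) (M' : O' → O → ℂ) : Form E O where
  be a a' := ∑ u, ∑ u', M u a * M u' a' * W.be u u'
  be_symm a a' := by
    rw [Finset.sum_comm]
    refine Finset.sum_congr rfl fun u _ => Finset.sum_congr rfl fun u' _ => ?_
    rw [W.be_symm u' u, mul_comm (M u' a)]
  ze b b' := ∑ u, ∑ u', M' u b * M' u' b' * W.ze u u'
  ze_anti b b' := by
    rw [Finset.sum_comm, ← Finset.sum_neg_distrib]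
    refine Finset.sum_congr rfl fun u _ => ?_
    rw [← Finset.sum_neg_distrib]
    refine Finset.sum_congr rfl fun u' _ => ?_
    rw [W.ze_anti u' u, mul_comm (M' u' b)]
    ring
  le l a := ∑ u, M u a * W.le l u

section EV

variable {E O T : Type} [Fintype E] [Fintype O] [Ring T] [Algebra ℂ T] (S : SAlg E O ℂ T)
  (W : Form E O)

/-- the image of `x_ij` -/
noncomputable def evx (i j : ℕ) : T :=
  ∑ a, ∑ a', W.be a a' • (S.P (Sum.inl a) i * S.P (Sum.inl a') j) +
    ∑ b, ∑ b', W.ze b b' • (S.P (Sum.inr b) i * S.P (Sum.inr b') j)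

/-- the image of `z_{a,i}` -/
noncomputable def evz (a i : ℕ) : T := ∑ y, W.le a y • S.P (Sum.inl y) i

theorem evx_mem_center (i j : ℕ) : evx S W i j ∈ Subalgebra.center ℂ T := by
  rw [Subalgebra.mem_center_iff]
  intro t
  unfold evx
  rw [mul_add, add_mul]
  congr 1
  · rw [Finset.mul_sum, Finset.sum_mul]
    refine Finset.sum_congr rfl fun a _ => ?_
    rw [Finset.mul_sum, Finset.sum_mul]
    refine Finset.sum_congr rfl fun a' _ => ?_
    rw [smul_mul_assoc, mul_smul_comm, S.pair_central (Sum.inl a) (Sum.inl a') rfl]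
  · rw [Finset.mul_sum, Finset.sum_mul]
    refine Finset.sum_congr rfl fun a _ => ?_
    rw [Finset.mul_sum, Finset.sum_mul]
    refine Finset.sum_congr rfl fun a' _ => ?_
    rw [smul_mul_assoc, mul_smul_comm, S.pair_central (Sum.inr a) (Sum.inr a') rfl]

theorem evz_mem_center (a i : ℕ) : evz S W a i ∈ Subalgebra.center ℂ T := by
  rw [Subalgebra.mem_center_iff]
  intro t
  unfold evz
  rw [Finset.mul_sum, Finset.sum_mul]
  refine Finset.sum_congr rfl fun y _ => ?_
  rw [smul_mul_assoc, mul_smul_comm, S.even_central]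

theorem evx_comm (i j : ℕ) : evx S W i j = evx S W j i := by
  unfold evx
  congr 1
  · rw [Finset.sum_comm]
    refine Finset.sum_congr rfl fun a _ => Finset.sum_congr rfl fun a' _ => ?_
    rw [W.be_symm a' a, S.even_central]
  · rw [Finset.sum_comm]
    refine Finset.sum_congr rfl fun b _ => Finset.sum_congr rfl fun b' _ => ?_
    rw [W.ze_anti b' b, S.comm (Sum.inr b') i (Sum.inr b) j]
    have e : ss (par (Sum.inr b' : E ⊕ O)) (par (Sum.inr b : E ⊕ O)) = -1 := by simp [ss, par]
    have e2 : ∀ x : T, (-1 : ℤ) • x = -x := fun x => by simp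
    rw [e, e2, smul_neg, neg_smul, neg_neg]

/-- the exterior evaluation `A[z] → center T` of the form `W` -/
noncomputable def evF : UA →+* Subalgebra.center ℂ T :=
  eval₂Hom ((aeval (Sym2.lift ⟨fun i j => (⟨evx S W i j, evx_mem_center S W i j⟩ :
      Subalgebra.center ℂ T), fun i j => by
        rw [Subtype.mk.injEq]; exact evx_comm S W i j⟩) :
      MP50e386.A →ₐ[ℂ] Subalgebra.center ℂ T).toRingHom)
    (fun p => ⟨evz S W p.1 p.2, evz_mem_center S W p.1 p.2⟩)

end EV

/-- `w` is the table of the values of the multilinear element `f ∈ A[z]` at the form `W`: the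
exterior evaluation is `∑_τ w(τ) ∏_k P_{τ(k), φ(k)}`. -/
def IsW {E O : Type} [Fintype E] [Fintype O] [DecidableEq E] [DecidableEq O] (n : ℕ)
    (W : Form E O) (f : UA) (w : (Fin n → E ⊕ O) → ℂ) : Prop :=
  ∀ (T : Type) [Ring T] [Algebra ℂ T] (S : SAlg E O ℂ T) (φ : Fin n → ℕ),
    ((evF S W (lsub (extd φ) f) : Subalgebra.center ℂ T) : T) = ∑ τ, w τ • S.pp (lis τ φ)

end MP50e386N
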