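import Mathlib
import Pool.Agent.Lib.MP_50e386_al.N.Inst
import Pool.Agent.Lib.MP_50e386_al.N.HDefs
import Pool.Agent.Lib.MP_50e386_al.N.K.P5
import Pool.Agent.Lib.MP_50e386_al.N.K.P6
import Pool.Agent.Lib.MP_50e386_al.N.K.P7

/-! Block K (super letters, paper section 3), statements over `A`. -/

namespace MP50e386N

open MvPolynomial Pool.Agent.Lib.MP50e386 MP50e386

theorem KP5 (r s : ℕ) (I : Ideal MP50e386.A)
    (hI : ∀ w : ℕ → MP50e386.V, ∀ f ∈ I, MP50e386.sub w f ∈ I)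
    (hJ : detIdeal (r + 1) (s + 1) ≤ I) (hne : I ≠ detIdeal (r + 1) (s + 1)) :
    ∃ q : ℕ, (detIdeal r (s + 1) * detIdeal (r + 1) s) ^ q ≤ I := KP5' r s I hI hJ hne

theorem KP6 (r s L D : ℕ) (N : ℕ → Submodule MP50e386.A (U MP50e386.A)) (hmono : Monotone N)
    (hN : ∀ i, GLS (N i) ∧ detIdeal (r + 1) (s + 1) • BD MP50e386.A L D ≤ N i ∧
      N i ≤ BD MP50e386.A L D) : ∃ n0, ∀ n ≥ n0, N n = N n0 := KP6' r s L D N hmono hN

theorem KP7 (r s L D : ℕ) (N Y : Submodule MP50e386.A (U MP50e386.A)) (hN : GLS N) (hY : GLS Y)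
    (hNY : N ≤ Y) (hYD : Y ≤ BD MP50e386.A L D)
    (hJN : detIdeal (r + 1) (s + 1) • BD MP50e386.A L D ≤ N) (K : ℕ) :
    ∃ K' : ℕ, N ⊓ ((detIdeal r (s + 1) * detIdeal (r + 1) s) ^ K' • Y ⊔
        detIdeal (r + 1) (s + 1) • BD MP50e386.A L D) ≤
      (detIdeal r (s + 1) * detIdeal (r + 1) s) ^ K • N ⊔
        detIdeal (r + 1) (s + 1) • BD MP50e386.A L D := KP7' r s L D N Y hN hY hNY hYD hJN K

end MP50e386N
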