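import Mathlib
import Pool.Agent.Lib.MP_50e386_al.N.TDefs
import Pool.Agent.Lib.MP_50e386_al.N.Inst

/-! Definitions for block L (paper section 7): reduction from `A` to `A ⧸ J`. -/

namespace MP50e386N

open MvPolynomial Pool.Agent.Lib.MP50e386

/-- reduction of the coefficients -/
noncomputable def red (J : Ideal MP50e386.A) : U MP50e386.A →+* U (MP50e386.A ⧸ J) :=
  MvPolynomial.map (Ideal.Quotient.mk J)

/-- preimage of a submodule in `BD(L,D)` -/
noncomputable def pull (J : Ideal MP50e386.A) (N : Submodule (MP50e386.A ⧸ J) (U (MP50e386.A ⧸ J))) :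
    Submodule MP50e386.A (U MP50e386.A) where
  carrier := {f | red J f ∈ N}
  zero_mem' := by
    show red J 0 ∈ N
    rw [map_zero]
    exact N.zero_mem
  add_mem' := by
    intro a b ha hb
    show red J (a + b) ∈ N
    rw [map_add]
    exact N.add_mem ha hb
  smul_mem' := by
    intro c a ha
    show red J (c • a) ∈ N
    have h1 : red J (c • a) = (Ideal.Quotient.mk J c) • red J a := by
      unfold red
      rw [smul_eq_C_mul, map_mul, map_C, smul_eq_C_mul]
    rw [h1]
    exact N.smul_mem _ ha

/-- chains of `GS` submodules of `MS S` containing `J • MS S` are eventually constant -/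
def NI (J : Ideal MP50e386.A) : Prop :=
  ∀ S : Finset ℕ, NoethInt (R := MP50e386.A) GS (J • MS MP50e386.A S) (MS MP50e386.A S)

end MP50e386N
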