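import Mathlib
import Pool.Agent.Lib.MP_50e386_al.N.LDefs
import Pool.Agent.Lib.MP_50e386_al.N.T1
import Pool.Agent.Lib.MP_50e386_al.N.T2
import Pool.Agent.Lib.MP_50e386_al.N.T3

/-! Reduction from `A` to `A ⧸ J`: basic facts. -/

namespace MP50e386N

open MvPolynomial Pool.Agent.Lib.MP50e386

variable (J : Ideal MP50e386.A)

theorem red_surj : Function.Surjective (red J) :=
  MvPolynomial.map_surjective _ Ideal.Quotient.mk_surjective

theorem red_smul (a : MP50e386.A) (f : U MP50e386.A) :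
    red J (a • f) = (Ideal.Quotient.mk J a) • red J f := by
  unfold red
  rw [smul_eq_C_mul, map_mul, map_C, smul_eq_C_mul]

private theorem L1_C (a : MP50e386.A) : red J (C a) = C (Ideal.Quotient.mk J a) := by
  unfold red
  rw [map_C]

private theorem L1_X (p : ℕ × ℕ) : red J (X p) = X p := by
  unfold red
  rw [map_X]

private theorem L1_coeff (f : U MP50e386.A) (m : ℕ × ℕ →₀ ℕ) :
    coeff m (red J f) = Ideal.Quotient.mk J (coeff m f) := by
  unfold red
  rw [coeff_map]

private theorem L1_red_zero (f : U MP50e386.A) : red J f = 0 ↔ ∀ m, coeff m f ∈ J := by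
  constructor
  · intro h m
    rw [← Ideal.Quotient.eq_zero_iff_mem, ← L1_coeff, h, coeff_zero]
  · intro h
    ext m
    rw [L1_coeff, coeff_zero]
    exact Ideal.Quotient.eq_zero_iff_mem.2 (h m)

private theorem L1_smul (Q : Set (ℕ × ℕ →₀ ℕ)) (f : U MP50e386.A) :
    f ∈ J • restrictSupport MP50e386.A Q ↔
      (∀ m, coeff m f ∈ J) ∧ f ∈ restrictSupport MP50e386.A Q := by
  constructor
  · intro h
    refine Submodule.smul_induction_on h ?_ ?_
    · intro r hr g hg
      refine ⟨fun m => ?_, Submodule.smul_mem _ _ hg⟩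
      rw [coeff_smul, smul_eq_mul]
      exact Ideal.mul_mem_right _ _ hr
    · rintro x y ⟨hx1, hx2⟩ ⟨hy1, hy2⟩
      refine ⟨fun m => ?_, Submodule.add_mem _ hx2 hy2⟩
      rw [coeff_add]
      exact Ideal.add_mem _ (hx1 m) (hy1 m)
  · rintro ⟨h1, h2⟩
    rw [f.as_sum]
    refine Submodule.sum_mem _ fun m hm => ?_
    have h3 : monomial m (coeff m f) = coeff m f • (monomial m 1 : U MP50e386.A) := by
      rw [smul_monomial, smul_eq_mul, mul_one]
    rw [h3]
    exact Submodule.smul_mem_smul (h1 m) ((monomial_mem_restrictSupport _).2 (Or.inl (h2 hm)))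

private theorem L1_smul_top (f : U MP50e386.A) :
    f ∈ (J • ⊤ : Submodule MP50e386.A (U MP50e386.A)) ↔ ∀ m, coeff m f ∈ J := by
  have h1 : (⊤ : Submodule MP50e386.A (U MP50e386.A)) = restrictSupport MP50e386.A Set.univ :=
    (restrictSupport_univ _).symm
  rw [h1, L1_smul]
  constructor
  · exact fun h => h.1
  · exact fun h => ⟨h, fun _ _ => trivial⟩

theorem red_eq_zero (f : U MP50e386.A) :
    red J f = 0 ↔ f ∈ (J • ⊤ : Submodule MP50e386.A (U MP50e386.A)) := by
  rw [L1_red_zero, L1_smul_top]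

private theorem L1_inf (Q : Set (ℕ × ℕ →₀ ℕ)) : J • restrictSupport MP50e386.A Q =
    (J • ⊤ : Submodule MP50e386.A (U MP50e386.A)) ⊓ restrictSupport MP50e386.A Q := by
  ext f
  rw [L1_smul, Submodule.mem_inf, L1_smul_top]

theorem J_smul_BD (L D : ℕ) : J • BD MP50e386.A L D =
    (J • ⊤ : Submodule MP50e386.A (U MP50e386.A)) ⊓ BD MP50e386.A L D := L1_inf J _

theorem J_smul_MS (S : Finset ℕ) : J • MS MP50e386.A S =
    (J • ⊤ : Submodule MP50e386.A (U MP50e386.A)) ⊓ MS MP50e386.A S := L1_inf J _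

private theorem L1_lift (Q : Set (ℕ × ℕ →₀ ℕ)) (f : U (MP50e386.A ⧸ J))
    (hf : f ∈ restrictSupport (MP50e386.A ⧸ J) Q) :
    ∃ F ∈ restrictSupport MP50e386.A Q, red J F = f := by
  choose s hs using (Ideal.Quotient.mk_surjective (I := J))
  refine ⟨∑ m ∈ f.support, monomial m (s (coeff m f)), ?_, ?_⟩
  · refine Submodule.sum_mem _ fun m hm => ?_
    exact (monomial_mem_restrictSupport _).2 (Or.inl (hf hm))
  · conv_rhs => rw [f.as_sum]
    rw [map_sum]
    refine Finset.sum_congr rfl fun m _ => ?_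
    unfold red
    rw [map_monomial, hs]

theorem exists_lift_BD (L D : ℕ) (f : U (MP50e386.A ⧸ J)) (hf : f ∈ BD (MP50e386.A ⧸ J) L D) :
    ∃ F ∈ BD MP50e386.A L D, red J F = f := L1_lift J _ f hf

theorem exists_lift_MS (S : Finset ℕ) (f : U (MP50e386.A ⧸ J)) (hf : f ∈ MS (MP50e386.A ⧸ J) S) :
    ∃ F ∈ MS MP50e386.A S, red J F = f := L1_lift J _ f hf

private theorem L1_red (Q : Set (ℕ × ℕ →₀ ℕ)) (F : U MP50e386.A)
    (hF : F ∈ restrictSupport MP50e386.A Q) : red J F ∈ restrictSupport (MP50e386.A ⧸ J) Q := by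
  intro m hm
  exact hF (support_map_subset _ _ hm)

theorem red_BD (L D : ℕ) (F : U MP50e386.A) (hF : F ∈ BD MP50e386.A L D) :
    red J F ∈ BD (MP50e386.A ⧸ J) L D := L1_red J _ F hF

theorem red_MS (S : Finset ℕ) (F : U MP50e386.A) (hF : F ∈ MS MP50e386.A S) :
    red J F ∈ MS (MP50e386.A ⧸ J) S := L1_red J _ F hF

private theorem L1_cst_single {R : Type} [CommRing R] [Algebra ℂ R] (i : ℕ) (a : ℂ) :
    (cst (Finsupp.single i a) : VR R) = Finsupp.single i (algebraMap ℂ R a) := by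
  simp [cst]

private theorem L1_bil (i j : ℕ) (a b : ℂ) :
    MP50e386.bil (Finsupp.single i a) (Finsupp.single j b) =
      algebraMap ℂ MP50e386.A a * algebraMap ℂ MP50e386.A b * X s(i, j) := by
  have h1 : (Finsupp.single i a : MP50e386.V) = a • MP50e386.ee i := by
    rw [MP50e386.ee, Finsupp.smul_single, smul_eq_mul, mul_one]
  have h2 : (Finsupp.single j b : MP50e386.V) = b • MP50e386.ee j := by
    rw [MP50e386.ee, Finsupp.smul_single, smul_eq_mul, mul_one]
  rw [h1, h2, LinearMap.map_smul₂, map_smul, MP50e386.bil_ee, smul_smul, Algebra.smul_def,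
    map_mul]

theorem xv_A (v w : V) : (xv v w : MP50e386.A) = MP50e386.bil v w := by
  unfold xv
  induction v using Finsupp.induction_linear with
  | zero => simp
  | add f g hf hg => rw [map_add, map_add, LinearMap.add_apply, hf, hg, map_add,
      LinearMap.add_apply]
  | single i a =>
    induction w using Finsupp.induction_linear with
    | zero => simp
    | add f g hf hg => rw [map_add, map_add, hf, hg, map_add]
    | single j b =>
      rw [L1_cst_single, L1_cst_single, xf_single, L1_bil]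
      rfl

/-- the substitution of `A` is `sub` -/
theorem sbR_eq_sub (φ : ℕ → V) (a : MP50e386.A) : sbR φ a = MP50e386.sub φ a := by
  have h1 : (sbR φ : MP50e386.A →ₐ[ℂ] MP50e386.A) = MP50e386.sub φ := by
    apply MvPolynomial.algHom_ext
    intro s
    induction s using Sym2.ind with
    | _ i j =>
      rw [MP50e386.sub_X, ← xv_A]
      exact sb_x' (R := MP50e386.A) (fun i => cst (φ i)) i j
  rw [h1]

variable [GLIdeal J]

theorem xv_mk (v w : V) : (xv v w : MP50e386.A ⧸ J) = Ideal.Quotient.mk J (MP50e386.bil v w) := by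
  unfold xv
  induction v using Finsupp.induction_linear with
  | zero => simp
  | add f g hf hg => rw [map_add, map_add, LinearMap.add_apply, hf, hg, map_add,
      LinearMap.add_apply, map_add]
  | single i a =>
    induction w using Finsupp.induction_linear with
    | zero => simp
    | add f g hf hg => rw [map_add, map_add, hf, hg, map_add, map_add]
    | single j b =>
      rw [L1_cst_single, L1_cst_single, xf_single, L1_bil, map_mul, map_mul]
      rfl

theorem sbR_mk (φ : ℕ → V) (a : MP50e386.A) :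
    sbR φ (Ideal.Quotient.mk J a) = Ideal.Quotient.mk J (sbR φ a) := by
  have h1 := sb_ext (R := MP50e386.A)
    (((sbR φ : (MP50e386.A ⧸ J) →ₐ[ℂ] (MP50e386.A ⧸ J)) :
      (MP50e386.A ⧸ J) →+* (MP50e386.A ⧸ J)).comp (Ideal.Quotient.mk J))
    ((Ideal.Quotient.mk J).comp ((sbR φ : MP50e386.A →ₐ[ℂ] MP50e386.A) :
      MP50e386.A →+* MP50e386.A)) (by
      intro c
      simp only [RingHom.comp_apply, RingHom.coe_coe, AlgHom.commutes]
      exact AlgHom.commutes (sbR φ : (MP50e386.A ⧸ J) →ₐ[ℂ] (MP50e386.A ⧸ J)) c) (by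
      intro i j
      simp only [RingHom.comp_apply, RingHom.coe_coe]
      have h2 : (sbR φ (GLRing.x i j : MP50e386.A)) = xv (φ i) (φ j) :=
        sb_x' (R := MP50e386.A) (fun i => cst (φ i)) i j
      have h3 : (sbR φ (GLRing.x i j : MP50e386.A ⧸ J)) = xv (φ i) (φ j) :=
        sb_x' (R := MP50e386.A ⧸ J) (fun i => cst (φ i)) i j
      rw [h2, xv_A, ← xv_mk, ← h3]
      rfl)
  exact DFunLike.congr_fun h1 a

private theorem L1_zf (a : ℕ) (v : V) :
    red J (zf a (cst v : VR MP50e386.A)) = zf a (cst v : VR (MP50e386.A ⧸ J)) := by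
  induction v using Finsupp.induction_linear with
  | zero => simp
  | add f g hf hg => rw [map_add, map_add, map_add, hf, hg, map_add, map_add]
  | single i c =>
    rw [L1_cst_single, L1_cst_single, zf_single, zf_single, red_smul, L1_X]
    rfl

theorem red_sbC (φ : ℕ → V) (f : U MP50e386.A) : red J (sbC φ f) = sbC φ (red J f) := by
  have h1 : ∀ a : MP50e386.A, red J (sbC φ (C a)) = sbC φ (red J (C a)) := by
    intro a
    rw [sbC_C, L1_C, L1_C, sbC_C, sbR_mk]
  have h2 := U_ext ((red J).comp (sbC φ)) ((sbC φ).comp (red J)) (fun c => h1 _)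
    (fun i j => h1 _) (fun a i => by
      rw [RingHom.comp_apply, RingHom.comp_apply, sbC_X, L1_X, sbC_X, L1_zf])
  exact DFunLike.congr_fun h2 f

theorem Dl_mk {r : ℕ} (v : Fin r → V) : (Dl v : MP50e386.A ⧸ J) =
    Ideal.Quotient.mk J (Matrix.det (Matrix.of fun i j : Fin r => MP50e386.bil (v i) (v j))) := by
  unfold Dl gramM
  rw [RingHom.map_det]
  congr 1
  ext i j
  rw [Matrix.of_apply, xv_mk]
  rfl

theorem GLS_pull {N : Submodule (MP50e386.A ⧸ J) (U (MP50e386.A ⧸ J))} (hN : GLS N) :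
    GLS (pull J N) := by
  intro φ f hf
  change red J (sbC φ f) ∈ N
  rw [red_sbC]
  exact hN φ _ hf

theorem GS_pull {N : Submodule (MP50e386.A ⧸ J) (U (MP50e386.A ⧸ J))} (hN : GS N) :
    GS (pull J N) := by
  intro g hg c hc f hf
  change red J (sbC _ f) ∈ N
  rw [red_sbC]
  exact hN g hg c hc _ hf

/-- submodules are determined by their preimages in `BD` -/
theorem pull_inj_BD (L D : ℕ) {N N' : Submodule (MP50e386.A ⧸ J) (U (MP50e386.A ⧸ J))}
    (hN : N ≤ BD (MP50e386.A ⧸ J) L D) (hN' : N' ≤ BD (MP50e386.A ⧸ J) L D)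
    (h : pull J N ⊓ BD MP50e386.A L D ≤ pull J N' ⊓ BD MP50e386.A L D) : N ≤ N' := by
  intro f hf
  obtain ⟨F, hF, rfl⟩ := exists_lift_BD J L D f (hN hf)
  exact (h ⟨hf, hF⟩).1

theorem pull_inj_MS (S : Finset ℕ) {N N' : Submodule (MP50e386.A ⧸ J) (U (MP50e386.A ⧸ J))}
    (hN : N ≤ MS (MP50e386.A ⧸ J) S) (hN' : N' ≤ MS (MP50e386.A ⧸ J) S)
    (h : pull J N ⊓ MS MP50e386.A S ≤ pull J N' ⊓ MS MP50e386.A S) : N ≤ N' := by
  intro f hf
  obtain ⟨F, hF, rfl⟩ := exists_lift_MS J S f (hN hf)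
  exact (h ⟨hf, hF⟩).1

/-- an `A`-submodule of `MS S` containing `J • MS S` comes from an `A ⧸ J`-submodule -/
theorem exists_push (S : Finset ℕ) (N : Submodule MP50e386.A (U MP50e386.A)) (hN : GS N)
    (h1 : J • MS MP50e386.A S ≤ N) (h2 : N ≤ MS MP50e386.A S) :
    ∃ N' : Submodule (MP50e386.A ⧸ J) (U (MP50e386.A ⧸ J)), GS N' ∧
      N' ≤ MS (MP50e386.A ⧸ J) S ∧ (∀ f, f ∈ N' ↔ ∃ F ∈ N, red J F = f) ∧
      pull J N' ⊓ MS MP50e386.A S = N := by
  refine ⟨{ carrier := {f | ∃ F ∈ N, red J F = f}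
            zero_mem' := ⟨0, N.zero_mem, map_zero _⟩
            add_mem' := ?_
            smul_mem' := ?_ }, ?_, ?_, fun f => Iff.rfl, ?_⟩
  · rintro _ _ ⟨F, hF, rfl⟩ ⟨G, hG, rfl⟩
    exact ⟨F + G, N.add_mem hF hG, map_add _ _ _⟩
  · rintro c _ ⟨F, hF, rfl⟩
    obtain ⟨a, rfl⟩ := Ideal.Quotient.mk_surjective c
    exact ⟨a • F, N.smul_mem a hF, red_smul J a F⟩
  · rintro g hg c hc _ ⟨F, hF, rfl⟩
    exact ⟨_, hN g hg c hc F hF, red_sbC J _ F⟩
  · rintro _ ⟨F, hF, rfl⟩
    exact red_MS J S F (h2 hF)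
  · ext F
    constructor
    · rintro ⟨⟨G, hG, hGF⟩, hF⟩
      have h3 : F - G ∈ J • MS MP50e386.A S := by
        rw [J_smul_MS]
        refine ⟨(red_eq_zero J _).1 ?_, Submodule.sub_mem _ hF (h2 hG)⟩
        rw [map_sub, hGF, sub_self]
      have h4 := N.add_mem (h1 h3) hG
      rwa [sub_add_cancel] at h4
    · intro hF
      exact ⟨⟨F, hF, rfl⟩, h2 hF⟩

end MP50e386N
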