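import Mathlib
import Pool.Agent.Lib.MP_50e386_al.N.LDefs
import Pool.Agent.Lib.MP_50e386_al.N.T2
import Pool.Agent.Lib.MP_50e386_al.N.L1
import Pool.Agent.Lib.MP_50e386_al.N.KMain

/-! P5, P6, P7 for `R_{r|s}` from the statements over `A`. -/

namespace MP50e386N

open MvPolynomial Pool.Agent.Lib.MP50e386

private theorem l2_GLSI_det (M N0 : ℕ) : GLSI (MP50e386.detIdeal M N0) := by
  intro φ f hf
  rw [sbR_eq_sub]
  exact MP50e386.detIdeal_stable M N0 φ f hf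

private theorem l2_red_mem (J : Ideal MP50e386.A) {f : U MP50e386.A}
    (hf : f ∈ (J • ⊤ : Submodule MP50e386.A (U MP50e386.A))) (N : Submodule (MP50e386.A ⧸ J)
      (U (MP50e386.A ⧸ J))) : f ∈ pull J N := by
  show red J f ∈ N
  rw [(red_eq_zero J f).2 hf]
  exact N.zero_mem

private theorem l2_JBD_le (J : Ideal MP50e386.A) (L D : ℕ) (N : Submodule (MP50e386.A ⧸ J)
      (U (MP50e386.A ⧸ J))) : J • BD MP50e386.A L D ≤ pull J N ⊓ BD MP50e386.A L D := by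
  rw [J_smul_BD]
  exact fun f hf => ⟨l2_red_mem J hf.1 N, hf.2⟩

private theorem l2_lift (J a : Ideal MP50e386.A) (L D : ℕ) (Y : Submodule (MP50e386.A ⧸ J)
      (U (MP50e386.A ⧸ J))) (hY : Y ≤ BD (MP50e386.A ⧸ J) L D) (f : U (MP50e386.A ⧸ J))
    (hf : f ∈ Ideal.map (Ideal.Quotient.mk J) a • Y) :
    ∃ F ∈ a • (pull J Y ⊓ BD MP50e386.A L D), red J F = f := by
  refine Submodule.smul_induction_on hf ?_ ?_
  · intro c hc y hy
    obtain ⟨b, hb, rfl⟩ := (Ideal.mem_map_iff_of_surjective _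
      Ideal.Quotient.mk_surjective).1 hc
    obtain ⟨F, hF, hFy⟩ := exists_lift_BD J L D y (hY hy)
    refine ⟨b • F, Submodule.smul_mem_smul hb ⟨?_, hF⟩, ?_⟩
    · show red J F ∈ Y
      rw [hFy]
      exact hy
    · rw [red_smul, hFy]
  · rintro x y ⟨F, hF, rfl⟩ ⟨G, hG, rfl⟩
    exact ⟨F + G, Submodule.add_mem _ hF hG, map_add _ _ _⟩

private theorem l2_desc (J a : Ideal MP50e386.A) (L D : ℕ) (N : Submodule (MP50e386.A ⧸ J)
      (U (MP50e386.A ⧸ J))) (F : U MP50e386.A)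
    (hF : F ∈ a • (pull J N ⊓ BD MP50e386.A L D)) :
    red J F ∈ Ideal.map (Ideal.Quotient.mk J) a • N := by
  refine Submodule.smul_induction_on hF ?_ ?_
  · intro b hb G hG
    rw [red_smul]
    exact Submodule.smul_mem_smul (Ideal.mem_map_of_mem _ hb) hG.1
  · intro x y hx hy
    rw [map_add]
    exact Submodule.add_mem _ hx hy

theorem hrs_GLSI (r s : ℕ) : GLSI (hrs r s) := by
  intro φ f hf
  unfold hrs at hf ⊢
  obtain ⟨a, ha, rfl⟩ := (Ideal.mem_map_iff_of_surjective _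
    Ideal.Quotient.mk_surjective).1 hf
  rw [sbR_mk]
  exact Ideal.mem_map_of_mem _ ((l2_GLSI_det r (s + 1)).mul (l2_GLSI_det (r + 1) s) φ a ha)

theorem Rrs_P5 (r s : ℕ) (I : Ideal (Rrs r s)) (hI : GLSI I) (hne : I ≠ ⊥) :
    ∃ q, hrs r s ^ q ≤ I := by
  set J := MP50e386.detIdeal (r + 1) (s + 1) with hJ
  have hsurj : Function.Surjective (Ideal.Quotient.mk J) := Ideal.Quotient.mk_surjective
  obtain ⟨q, hq⟩ := KP5 r s (I.comap (Ideal.Quotient.mk J)) (by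
    intro w f hf
    rw [Ideal.mem_comap] at hf ⊢
    have h1 := hI w _ hf
    have h2 : sbR w (Ideal.Quotient.mk J f) = Ideal.Quotient.mk J (sbR w f) := sbR_mk J w f
    rw [h2, sbR_eq_sub] at h1
    exact h1) (by
    intro f hf
    rw [Ideal.mem_comap, Ideal.Quotient.eq_zero_iff_mem.2 hf]
    exact I.zero_mem) (by
    intro h
    apply hne
    rw [← Ideal.map_comap_of_surjective _ hsurj I, h]
    exact Ideal.map_quotient_self J)
  refine ⟨q, ?_⟩
  unfold hrs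
  rw [← Ideal.map_pow, ← Ideal.map_comap_of_surjective _ hsurj I]
  exact Ideal.map_mono hq

theorem Rrs_P6 (r s L D : ℕ) : NoethInt (R := Rrs r s) GLS ⊥ (BD (Rrs r s) L D) := by
  intro N hmono hN
  obtain ⟨n0, hn0⟩ := KP6 r s L D
    (fun i => pull (MP50e386.detIdeal (r + 1) (s + 1)) (N i) ⊓ BD MP50e386.A L D) (by
      intro i j hij f hf
      exact ⟨hmono hij hf.1, hf.2⟩) (by
      intro i
      exact ⟨(GLS_pull _ (hN i).1).inf (GLS_BD L D), l2_JBD_le _ L D (N i), inf_le_right⟩)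
  refine ⟨n0, fun n hn => ?_⟩
  have h1 := hn0 n hn
  apply le_antisymm
  · exact pull_inj_BD _ L D (hN n).2.2 (hN n0).2.2 h1.le
  · exact pull_inj_BD _ L D (hN n0).2.2 (hN n).2.2 h1.ge

theorem Rrs_P7 (r s L D : ℕ) (N Y : Submodule (Rrs r s) (U (Rrs r s))) (hN : GLS N) (hY : GLS Y)
    (hNY : N ≤ Y) (hYD : Y ≤ BD (Rrs r s) L D) : AR (hrs r s) N Y := by
  intro K
  set J := MP50e386.detIdeal (r + 1) (s + 1) with hJ
  obtain ⟨K', hK'⟩ := KP7 r s L D (pull J N ⊓ BD MP50e386.A L D) (pull J Y ⊓ BD MP50e386.A L D)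
    ((GLS_pull _ hN).inf (GLS_BD L D)) ((GLS_pull _ hY).inf (GLS_BD L D))
    (fun f hf => ⟨hNY hf.1, hf.2⟩) inf_le_right (l2_JBD_le _ L D N) K
  refine ⟨K', ?_⟩
  rintro f ⟨hfN, hfY⟩
  unfold hrs at hfY ⊢
  rw [← Ideal.map_pow] at hfY ⊢
  obtain ⟨F, hF, rfl⟩ := l2_lift J _ L D Y hYD f hfY
  have hFBD : F ∈ BD MP50e386.A L D :=
    (Submodule.smul_le_right.trans (inf_le_right : pull J Y ⊓ BD MP50e386.A L D ≤ _)) hF
  have h1 := hK' ⟨⟨hfN, hFBD⟩, Submodule.mem_sup_left hF⟩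
  obtain ⟨F1, hF1, F2, hF2, hsum⟩ := Submodule.mem_sup.1 h1
  rw [← hsum, map_add]
  have h2 : red J F2 = 0 := by
    rw [red_eq_zero]
    rw [J_smul_BD] at hF2
    exact hF2.1
  rw [h2, add_zero]
  exact l2_desc J _ L D N F1 hF1

end MP50e386N
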