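import Mathlib
import Pool.Agent.Lib.MP_50e386_al.N.LDefs
import Pool.Agent.Lib.MP_50e386_al.N.QDefs
import Pool.Agent.Lib.MP_50e386_al.N.Q1
import Pool.Agent.Lib.MP_50e386_al.N.T2
import Pool.Agent.Lib.MP_50e386_al.N.L1
import Pool.Agent.Lib.MP_50e386_al.N.HDefs
import Pool.Agent.Lib.MP_50e386_al.N.H7
import Pool.Agent.Lib.MP_50e386_al.N.H8

/-! P1-P4 for `R_{r|s}`. -/

namespace MP50e386N

open MvPolynomial Pool.Agent.Lib.MP50e386

theorem Rrs_P1 (r s : ℕ) : HP1 (Rrs r s) r s := by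
  intro w
  rw [Dl_mk, ← map_pow, Ideal.Quotient.eq_zero_iff_mem]
  exact Ideal.subset_span ⟨w, rfl⟩

theorem Rrs_P2 (r s : ℕ) : HP2 (Rrs r s) r := by
  intro v hv
  have key : ∀ x : Rrs r s, (Dl v : Rrs r s) * x = 0 → x = 0 := by
    intro x hx
    obtain ⟨f, rfl⟩ := Ideal.Quotient.mk_surjective x
    rw [Dl_mk, ← map_mul, Ideal.Quotient.eq_zero_iff_mem, ← hook] at hx
    rw [Ideal.Quotient.eq_zero_iff_mem, ← hook]
    exact Dl_nonzeroDiv r s v hv f hx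
  rw [mem_nonZeroDivisors_iff]
  exact ⟨key, fun x hx => key x (by rw [mul_comm]; exact hx)⟩

private theorem l3_det {r : ℕ} (v : Fin r → ℕ) (J : Ideal MP50e386.A) [GLIdeal J] :
    (Dl (fun i => ee (v i)) : MP50e386.A ⧸ J) = Ideal.Quotient.mk J
      (Matrix.det (Matrix.of fun a b : Fin r => (X s(v a, v b) : MP50e386.A))) := by
  rw [Dl_mk]
  congr 2
  apply Matrix.ext
  intro a b
  exact MP50e386.bil_ee (v a) (v b)

private theorem l3_snoc {r : ℕ} (v : Fin r → ℕ) (c : ℕ) :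
    (Fin.snoc (fun i => ee (v i)) (ee c) : Fin (r + 1) → V) =
      fun i => ee ((Fin.snoc v c : Fin (r + 1) → ℕ) i) := by
  funext i
  refine Fin.lastCases ?_ (fun j => ?_) i
  · rw [Fin.snoc_last, Fin.snoc_last]
  · rw [Fin.snoc_castSucc, Fin.snoc_castSucc]

theorem Rrs_P3 (r s D k q : ℕ) (v : Fin D → Fin r → ℕ) (c : Fin D → Fin k → ℕ)
    (h : Function.Injective (fun p : Fin D × (Fin r ⊕ Fin k) => Sum.elim (v p.1) (c p.1) p.2)) :
    (∏ d, hh s q (fun i => ee (v d i)) (fun j => ee (c d j)) : Rrs r s) ≠ 0 := by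
  have h1 := hh_not_mem_Jrs r s D k q v c h
  rw [hook, ← Ideal.Quotient.eq_zero_iff_mem, map_prod] at h1
  intro h2
  apply h1
  rw [← h2]
  refine Finset.prod_congr rfl fun d _ => ?_
  unfold hh Ek Dl1
  rw [map_mul, map_prod, map_pow, l3_det]
  congr 1
  refine Finset.prod_congr rfl fun j _ => ?_
  rw [map_pow, l3_snoc, l3_det]

theorem Rrs_P4 (r s a : ℕ) : ∃ k q : ℕ, ∀ (v : Fin r → V) (c : Fin k → V),
    hh s q v c ∈ hrs r s ^ a := by
  refine ⟨a, (s + 1) * a, fun v c => ?_⟩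
  have h1 : (hh s ((s + 1) * a) v c : Rrs r s) =
      ∏ j : Fin a, (Dl v ^ (s + 1) * (Dl1 v (c j)) ^ s) := by
    unfold hh Ek
    rw [Finset.prod_mul_distrib, Finset.prod_const, Finset.card_univ, Fintype.card_fin, ← pow_mul,
      mul_comm]
  have h2 : ∀ j ∈ (Finset.univ : Finset (Fin a)),
      (Dl v ^ (s + 1) * (Dl1 v (c j)) ^ s : Rrs r s) ∈ hrs r s := by
    intro j _
    unfold Dl1 hrs
    rw [Dl_mk, Dl_mk, ← map_pow, ← map_pow, ← map_mul]
    exact Ideal.mem_map_of_mem _ (Ideal.mul_mem_mul (Ideal.subset_span ⟨v, rfl⟩)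
      (Ideal.subset_span ⟨_, rfl⟩))
  have h3 := Ideal.prod_mem_prod h2
  rw [Finset.prod_const, Finset.card_univ, Fintype.card_fin, ← h1] at h3
  exact h3

end MP50e386N
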