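import Mathlib
import Pool.Agent.Lib.MP_50e386_al.N.LDefs
import Pool.Agent.Lib.MP_50e386_al.N.GDefs
import Pool.Agent.Lib.MP_50e386_al.N.T2
import Pool.Agent.Lib.MP_50e386_al.N.T8
import Pool.Agent.Lib.MP_50e386_al.N.G1
import Pool.Agent.Lib.MP_50e386_al.N.G2
import Pool.Agent.Lib.MP_50e386_al.N.L1

/-! P8 from the induction hypothesis (paper section 7). -/

namespace MP50e386N

open MvPolynomial Pool.Agent.Lib.MP50e386

variable (J : Ideal MP50e386.A) [GLIdeal J]

theorem NI_top : NI ⊤ := by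
  intro S
  rw [Submodule.top_smul]
  exact NoethInt.refl _ _

private theorem L4_GLSI_map (J' : Ideal MP50e386.A) [GLIdeal J'] :
    GLSI (J'.map (Ideal.Quotient.mk J)) := by
  intro φ f hf
  obtain ⟨a, ha, rfl⟩ := (Ideal.mem_map_iff_of_surjective _ Ideal.Quotient.mk_surjective).1 hf
  rw [sbR_mk, sbR_eq_sub]
  exact Ideal.mem_map_of_mem _ (GLIdeal.st φ a ha)

/-- preimage of `N` in `MS S` under `Th g ∘ red` -/
private noncomputable def L4_pre (S : Finset ℕ) (g : U (MP50e386.A ⧸ J))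
    (N : Submodule (MP50e386.A ⧸ J) (U (MP50e386.A ⧸ J))) :
    Submodule MP50e386.A (U MP50e386.A) where
  carrier := {F | F ∈ MS MP50e386.A S ∧ Th g id (red J F) ∈ N}
  zero_mem' := by
    refine ⟨Submodule.zero_mem _, ?_⟩
    rw [map_zero, map_zero]
    exact N.zero_mem
  add_mem' := by
    rintro a b ⟨ha, ha'⟩ ⟨hb, hb'⟩
    refine ⟨Submodule.add_mem _ ha hb, ?_⟩
    rw [map_add, map_add]
    exact N.add_mem ha' hb'
  smul_mem' := by
    rintro c a ⟨ha, ha'⟩
    refine ⟨Submodule.smul_mem _ c ha, ?_⟩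
    rw [red_smul, map_smul]
    exact N.smul_mem _ ha'

private theorem L4_step (J' : Ideal MP50e386.A) [GLIdeal J'] (hJ' : NI J')
    (Y X : Submodule (MP50e386.A ⧸ J) (U (MP50e386.A ⧸ J))) (g : U (MP50e386.A ⧸ J)) (n : ℕ)
    (hg : ML n g) (hgY : spn g ≤ Y) (hX : J'.map (Ideal.Quotient.mk J) • Y ≤ X) :
    NoethInt GS X (X ⊔ spn g) := by
  have hinj : Set.InjOn (id : ℕ → ℕ) (Set.Iio n) := Set.injOn_id _
  have hTh := map_Th g hg id hinj
  refine NoethInt.of_map (P' := GS) (X' := J' • MS MP50e386.A (labS n id))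
    (Y' := MS MP50e386.A (labS n id))
    ((Th g id).toAddMonoidHom.comp (red J).toAddMonoidHom) ?_ ?_ (hJ' _)
  · intro N hN hXN hNY
    refine ⟨L4_pre J (labS n id) g N, fun f => Iff.rfl, ?_, ?_⟩
    · intro g' hg' c hc F hF
      refine ⟨GLS_MS _ _ F hF.1, ?_⟩
      rw [red_sbC, Th_sbC g hg id hinj _ _ (red_MS J _ F hF.1)]
      exact hN g' hg' c hc _ hF.2
    · rw [Submodule.smul_le]
      intro a ha F hF
      refine ⟨Submodule.smul_mem _ a hF, ?_⟩
      rw [red_smul, map_smul]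
      apply hXN
      apply hX
      apply Submodule.smul_mem_smul (Ideal.mem_map_of_mem _ ha)
      apply hgY
      rw [← hTh]
      exact Submodule.mem_map_of_mem (red_MS J _ F hF)
  · intro y hy
    obtain ⟨x, hx, s, hs, rfl⟩ := Submodule.mem_sup.1 hy
    rw [← hTh] at hs
    obtain ⟨f, hf, rfl⟩ := Submodule.mem_map.1 hs
    obtain ⟨F, hF, rfl⟩ := exists_lift_MS J _ f hf
    exact ⟨F, hF, x, hx, add_comm _ _⟩

private theorem L4_GLS_sup {R : Type} [CommRing R] [Algebra ℂ R] [GLRing R] {m : ℕ}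
    (g : Fin m → U R) (X : Submodule R (U R)) (hX : GLS X) (s : Finset (Fin m)) :
    GLS (X ⊔ ⨆ i ∈ s, spn (g i)) := by
  classical
  induction s using Finset.induction_on with
  | empty => simpa using hX
  | insert a s ha ih =>
    have h : X ⊔ ⨆ i ∈ insert a s, spn (g i) = (X ⊔ ⨆ i ∈ s, spn (g i)) ⊔ spn (g a) := by
      rw [Finset.iSup_insert, sup_assoc, sup_comm (spn (g a))]
    rw [h]
    exact GLS.sup ih (GLS_spn _)

/-- one factor -/
theorem noeth_one (h6 : ∀ L D, NoethInt (R := MP50e386.A ⧸ J) GLS ⊥ (BD (MP50e386.A ⧸ J) L D))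
    (J' : Ideal MP50e386.A) [GLIdeal J'] (hJ' : NI J') (L D : ℕ)
    (Y : Submodule (MP50e386.A ⧸ J) (U (MP50e386.A ⧸ J))) (hY : GLS Y)
    (hYD : Y ≤ BD (MP50e386.A ⧸ J) L D) :
    NoethInt GS (J'.map (Ideal.Quotient.mk J) • Y) Y := by
  classical
  obtain ⟨m, d, g, hml, hYg, -⟩ := cov L D (h6 L D) Y hY hYD
  have hgY : ∀ i, spn (g i) ≤ Y := fun i => by rw [hYg]; exact le_iSup (fun i => spn (g i)) i
  have hX : GLS (J'.map (Ideal.Quotient.mk J) • Y) := GLS.smul (L4_GLSI_map J J') hY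
  have key : ∀ s : Finset (Fin m), NoethInt GS (J'.map (Ideal.Quotient.mk J) • Y)
      (J'.map (Ideal.Quotient.mk J) • Y ⊔ ⨆ i ∈ s, spn (g i)) := by
    intro s
    induction s using Finset.induction_on with
    | empty =>
      simpa using NoethInt.refl GS (J'.map (Ideal.Quotient.mk J) • Y)
    | insert a s ha ih =>
      have h : J'.map (Ideal.Quotient.mk J) • Y ⊔ ⨆ i ∈ insert a s, spn (g i) =
          (J'.map (Ideal.Quotient.mk J) • Y ⊔ ⨆ i ∈ s, spn (g i)) ⊔ spn (g a) := by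
        rw [Finset.iSup_insert, sup_assoc, sup_comm (spn (g a))]
      rw [h]
      exact NoethInt.trans (fun _ _ h h' => GS.sup h h') (fun _ _ h h' => GS.inf h h')
        (L4_GLS_sup g _ hX s).gs le_sup_left le_sup_left ih
        (L4_step J J' hJ' Y _ (g a) (d a) (hml a) (hgY a) le_sup_left)
  refine NoethInt.mono le_rfl ?_ (key Finset.univ)
  rw [hYg]
  refine le_trans ?_ le_sup_right
  simp

theorem noeth_two (h6 : ∀ L D, NoethInt (R := MP50e386.A ⧸ J) GLS ⊥ (BD (MP50e386.A ⧸ J) L D))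
    (J' J'' : Ideal MP50e386.A) [GLIdeal J'] [GLIdeal J''] (hJ' : NI J') (hJ'' : NI J'') (L D : ℕ)
    (Y : Submodule (MP50e386.A ⧸ J) (U (MP50e386.A ⧸ J))) (hY : GLS Y)
    (hYD : Y ≤ BD (MP50e386.A ⧸ J) L D) :
    NoethInt GS ((J' * J'').map (Ideal.Quotient.mk J) • Y) Y := by
  rw [Ideal.map_mul, Submodule.mul_smul]
  have hX : GLS (J''.map (Ideal.Quotient.mk J) • Y) := GLS.smul (L4_GLSI_map J J'') hY
  exact NoethInt.trans (fun _ _ h h' => GS.sup h h') (fun _ _ h h' => GS.inf h h')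
    hX.gs Submodule.smul_le_right Submodule.smul_le_right
    (noeth_one J h6 J' hJ' L D _ hX (le_trans Submodule.smul_le_right hYD))
    (noeth_one J h6 J'' hJ'' L D Y hY hYD)

end MP50e386N
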