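import Mathlib
import Pool.Agent.Lib.MP_50e386_al.N.TDefs

/-! Definitions for the main step (paper section 6). -/

namespace MP50e386N

open MvPolynomial Pool.Agent.Lib.MP50e386

variable {R : Type} [CommRing R] [Algebra ℂ R] [GLRing R]

/-- iterated kernels of traces -/
noncomputable def kerL (l : List (ℕ × ℕ)) (N : Submodule R (U R)) : Submodule R (U R) :=
  l.foldr (fun p N' => N' ⊓ LinearMap.ker (tr p.1 p.2)) N

/-- `M₂`: the elements of `M` killed by all traces -/
noncomputable def M2 (S : Finset ℕ) (M : Submodule R (U R)) : Submodule R (U R) :=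
  kerL S.offDiag.toList M

/-- the statement `Claim(S)` of the main step -/
def ClaimS (h : Ideal R) (S : Finset ℕ) : Prop :=
  (∀ N : Submodule R (U R), GS N → N ≤ MS R S → ∀ n, Good h n N) ∧
    NoethInt (R := R) GS ⊥ (MS R S)

end MP50e386N
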