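import Mathlib
import Pool.Agent.Lib.MP_50e386_al.N.MDefs
import Pool.Agent.Lib.MP_50e386_al.N.Good3
import Pool.Agent.Lib.MP_50e386_al.N.T2
import Pool.Agent.Lib.MP_50e386_al.N.T8
import Pool.Agent.Lib.MP_50e386_al.N.TR

/-! Iterated kernels of traces (paper 6.1 and the last parts of 6.3, 6.4). -/

namespace MP50e386N

open MvPolynomial Pool.Agent.Lib.MP50e386

variable {R : Type} [CommRing R] [Algebra ℂ R] [GLRing R]

private theorem kerL_nil (N : Submodule R (U R)) : kerL [] N = N := rfl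

private theorem kerL_cons (p : ℕ × ℕ) (l : List (ℕ × ℕ)) (N : Submodule R (U R)) :
    kerL (p :: l) N = kerL l N ⊓ LinearMap.ker (tr p.1 p.2) := rfl

theorem kerL_le (l : List (ℕ × ℕ)) (N : Submodule R (U R)) : kerL l N ≤ N := by
  induction l with
  | nil => exact le_refl _
  | cons p l ih => rw [kerL_cons]; exact le_trans inf_le_left ih

theorem kerL_mono (l : List (ℕ × ℕ)) {N N' : Submodule R (U R)} (h : N ≤ N') :
    kerL l N ≤ kerL l N' := by
  induction l with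
  | nil => exact h
  | cons p l ih => rw [kerL_cons, kerL_cons]; exact inf_le_inf_right _ ih

theorem kerL_eq_inf (l : List (ℕ × ℕ)) {N M : Submodule R (U R)} (h : N ≤ M) :
    kerL l N = N ⊓ kerL l M := by
  induction l with
  | nil => rw [kerL_nil, kerL_nil]; exact (inf_eq_left.2 h).symm
  | cons p l ih => rw [kerL_cons, kerL_cons, ih, inf_assoc]

theorem GS_kerL (l : List (ℕ × ℕ)) {N : Submodule R (U R)} (h : GS N) : GS (kerL l N) := by
  induction l with
  | nil => exact h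
  | cons p l ih => rw [kerL_cons]; exact GS_ker_tr ih _ _

private theorem mem_kerL (l : List (ℕ × ℕ)) (M : Submodule R (U R)) (f : U R) :
    f ∈ kerL l M ↔ f ∈ M ∧ ∀ p ∈ l, tr p.1 p.2 f = 0 := by
  induction l with
  | nil => rw [kerL_nil]; simp
  | cons p l ih =>
    rw [kerL_cons, Submodule.mem_inf, ih, LinearMap.mem_ker, List.forall_mem_cons]
    tauto

theorem mem_M2 (S : Finset ℕ) (M : Submodule R (U R)) (f : U R) :
    f ∈ M2 S M ↔ f ∈ M ∧ ∀ a ∈ S, ∀ b ∈ S, a ≠ b → tr a b f = 0 := by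
  unfold M2
  rw [mem_kerL]
  refine and_congr_right fun _ => ⟨fun h a ha b hb hab => ?_, fun h p hp => ?_⟩
  · exact h (a, b) (Finset.mem_toList.2 (Finset.mem_offDiag.2 ⟨ha, hb, hab⟩))
  · obtain ⟨ha, hb, hab⟩ := Finset.mem_offDiag.1 (Finset.mem_toList.1 hp)
    exact h p.1 ha p.2 hb hab

private theorem card_lt {S : Finset ℕ} {a b : ℕ} (ha : a ∈ S) :
    ((S.erase a).erase b).card < S.card :=
  lt_of_le_of_lt (Finset.card_le_card (Finset.erase_subset _ _)) (Finset.card_erase_lt_of_mem ha)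

private theorem map_tr_le {S : Finset ℕ} {a b : ℕ} (ha : a ∈ S) (hb : b ∈ S) (hab : a ≠ b)
    {N : Submodule R (U R)} (hNS : N ≤ MS R S) :
    N.map (tr a b) ≤ MS R ((S.erase a).erase b) := by
  rintro f ⟨g, hg, rfl⟩
  exact tr_MS ha hb hab (hNS hg)

/-- 6.1 -/
theorem kerL_down {h : Ideal R} {S : Finset ℕ}
    (IH : ∀ S' : Finset ℕ, S'.card < S.card → ClaimS (R := R) h S') (l : List (ℕ × ℕ))
    (hl : ∀ p ∈ l, p.1 ∈ S ∧ p.2 ∈ S ∧ p.1 ≠ p.2) (N : Submodule R (U R)) (hN : GS N)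
    (hNS : N ≤ MS R S) (hgood : ∀ n, Good h n N) :
    (∀ n, Good h n (kerL l N)) ∧ AR h (kerL l N) N := by
  induction l with
  | nil =>
    refine ⟨hgood, ?_⟩
    apply ar_of_pow_smul_le h (a := 0) (le_refl _)
    rw [kerL_nil, pow_zero, Ideal.one_eq_top, Submodule.top_smul]
  | cons p l ih =>
    obtain ⟨ih1, ih2⟩ := ih (fun q hq => hl q (List.mem_cons_of_mem _ hq))
    obtain ⟨ha, hb, hab⟩ := hl p List.mem_cons_self
    have h1 : ∀ n, Good h n ((kerL l N).map (tr p.1 p.2)) :=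
      (IH _ (card_lt ha)).1 _ (GS_map_tr (GS_kerL l hN) _ _)
        (map_tr_le ha hb hab (le_trans (kerL_le l N) hNS))
    obtain ⟨h2, h3⟩ := good_ker_of_map h (tr p.1 p.2) ih1 h1
    refine ⟨h2, ?_⟩
    exact ar_trans h (by rw [kerL_cons]; exact inf_le_left) (kerL_le l N) h3 ih2

theorem kerL_up {h : Ideal R} {S : Finset ℕ}
    (IH : ∀ S' : Finset ℕ, S'.card < S.card → ClaimS (R := R) h S') (l : List (ℕ × ℕ))
    (hl : ∀ p ∈ l, p.1 ∈ S ∧ p.2 ∈ S ∧ p.1 ≠ p.2) (N : Submodule R (U R)) (hN : GS N)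
    (hNS : N ≤ MS R S) (hgood : ∀ n, Good h n (kerL l N)) : ∀ n, Good h n N := by
  induction l with
  | nil => exact hgood
  | cons p l ih =>
    obtain ⟨ha, hb, hab⟩ := hl p List.mem_cons_self
    have h1 : ∀ n, Good h n ((kerL l N).map (tr p.1 p.2)) :=
      (IH _ (card_lt ha)).1 _ (GS_map_tr (GS_kerL l hN) _ _)
        (map_tr_le ha hb hab (le_trans (kerL_le l N) hNS))
    exact ih (fun q hq => hl q (List.mem_cons_of_mem _ hq))
      (good_of_ker_map h (tr p.1 p.2) hgood h1)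

private theorem eq_of_ker_map {X Y : Submodule R (U R)} (hXY : X ≤ Y) (t : U R →ₗ[R] U R)
    (hk : Y ⊓ LinearMap.ker t ≤ X ⊓ LinearMap.ker t) (hm : Y.map t ≤ X.map t) : Y = X := by
  refine le_antisymm (fun y hy => ?_) hXY
  obtain ⟨x, hx, hxy⟩ := hm (Submodule.mem_map_of_mem hy)
  have h1 : y - x ∈ Y ⊓ LinearMap.ker t := by
    refine ⟨Submodule.sub_mem _ hy (hXY hx), ?_⟩
    change t (y - x) = 0
    rw [map_sub, hxy, sub_self]
  have h2 := Submodule.add_mem _ (hk h1).1 hx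
  rwa [sub_add_cancel] at h2

theorem kerL_chain {h : Ideal R} {S : Finset ℕ}
    (IH : ∀ S' : Finset ℕ, S'.card < S.card → ClaimS (R := R) h S') (l : List (ℕ × ℕ))
    (hl : ∀ p ∈ l, p.1 ∈ S ∧ p.2 ∈ S ∧ p.1 ≠ p.2) (N : ℕ → Submodule R (U R))
    (hmono : Monotone N) (hN : ∀ i, GS (N i)) (hNS : ∀ i, N i ≤ MS R S)
    (hk : ∃ n0, ∀ n ≥ n0, kerL l (N n) = kerL l (N n0)) : ∃ n0, ∀ n ≥ n0, N n = N n0 := by
  induction l with
  | nil => exact hk
  | cons p l ih =>
    obtain ⟨ha, hb, hab⟩ := hl p List.mem_cons_self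
    apply ih (fun q hq => hl q (List.mem_cons_of_mem _ hq))
    obtain ⟨n1, hn1⟩ := hk
    obtain ⟨n2, hn2⟩ := (IH _ (card_lt (b := p.2) ha)).2
      (fun i => (kerL l (N i)).map (tr p.1 p.2))
      (fun i j hij => Submodule.map_mono (kerL_mono l (hmono hij)))
      (fun i => ⟨GS_map_tr (GS_kerL l (hN i)) _ _, bot_le,
        map_tr_le ha hb hab (le_trans (kerL_le l _) (hNS i))⟩)
    refine ⟨max n1 n2, fun n hn => ?_⟩
    apply eq_of_ker_map (kerL_mono l (hmono hn)) (tr p.1 p.2)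
    · have h1 := hn1 n (le_trans (le_max_left _ _) hn)
      have h2 := hn1 (max n1 n2) (le_max_left _ _)
      rw [kerL_cons, kerL_cons] at h1 h2
      rw [h1, h2]
    · have h1 := hn2 n (le_trans (le_max_right _ _) hn)
      have h2 := hn2 (max n1 n2) (le_max_right _ _)
      exact le_of_eq (h1.trans h2.symm)

end MP50e386N
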