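import Mathlib

/-! Lemma (LA) of paper 5.7: pure linear algebra. -/

namespace MP50e386N

open Module

/-- two submodules that do not contain `U` do not cover `U` -/
private theorem LA_avoid {W : Type} [AddCommGroup W] [Module ℂ W] (U A B : Submodule ℂ W)
    (hA : ¬ U ≤ A) (hB : ¬ U ≤ B) : ∃ v ∈ U, v ∉ A ∧ v ∉ B := by
  obtain ⟨a, haU, haA⟩ := Set.not_subset.1 hA
  obtain ⟨b, hbU, hbB⟩ := Set.not_subset.1 hB
  by_cases h1 : a ∈ B
  · by_cases h2 : b ∈ A
    · refine ⟨a + b, U.add_mem haU hbU, fun h => haA ?_, fun h => hbB ?_⟩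
      · have := A.sub_mem h h2
        rwa [add_sub_cancel_right] at this
      · have := B.sub_mem h h1
        rwa [add_sub_cancel_left] at this
    · exact ⟨b, hbU, h2, hbB⟩
  · exact ⟨a, haU, haA, h1⟩

/-- adding a vector outside `Z ⊔ U` keeps disjointness with `Z` -/
private theorem LA_disj {W : Type} [AddCommGroup W] [Module ℂ W] (U Z : Submodule ℂ W) (v : W)
    (h : Disjoint U Z) (hv : v ∉ Z ⊔ U) : Disjoint (U ⊔ Submodule.span ℂ {v}) Z := by
  rw [Submodule.disjoint_def] at h ⊢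
  intro x hx hxZ
  obtain ⟨u, hu, w, hw, rfl⟩ := Submodule.mem_sup.1 hx
  obtain ⟨c, rfl⟩ := Submodule.mem_span_singleton.1 hw
  have hc : c = 0 := by
    by_contra hc
    apply hv
    have h1 : c • v ∈ Z ⊔ U := by
      have h2 : c • v = (u + c • v) - u := by abel
      rw [h2]
      exact Submodule.sub_mem _ ((le_sup_left : Z ≤ Z ⊔ U) hxZ) ((le_sup_right : U ≤ Z ⊔ U) hu)
    have h3 := Submodule.smul_mem (Z ⊔ U) c⁻¹ h1
    rwa [smul_smul, inv_mul_cancel₀ hc, one_smul] at h3
  subst hc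
  rw [zero_smul, add_zero] at hxZ ⊢
  exact h u hu hxZ

/-- the greedy construction of the isotropic subspace -/
private theorem LA_step {W : Type} [AddCommGroup W] [Module ℂ W] [FiniteDimensional ℂ W]
    (ω : LinearMap.BilinForm ℂ W) (hω : ω.IsAlt) (hnd : ω.Nondegenerate) (Z : Submodule ℂ W)
    (r : ℕ) (hr : finrank ℂ Z + r = finrank ℂ W) (h : 4 * r ≤ finrank ℂ W) (j : ℕ) :
    j ≤ r → ∃ U : Submodule ℂ W, finrank ℂ U = j ∧ (∀ x ∈ U, ∀ y ∈ U, ω x y = 0) ∧
      Disjoint U Z ∧ Disjoint U (ω.orthogonal Z) := by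
  have hrefl : ω.IsRefl := hω.isRefl
  induction j with
  | zero =>
    intro _
    refine ⟨⊥, finrank_bot ℂ W, ?_, disjoint_bot_left, disjoint_bot_left⟩
    intro x hx y _
    rw [(Submodule.mem_bot ℂ).1 hx]
    simp
  | succ j ih =>
    intro hj
    obtain ⟨U, hU, hiso, hdZ, hdP⟩ := ih (by omega)
    have hO : finrank ℂ (ω.orthogonal U) = finrank ℂ W - j := by
      rw [LinearMap.BilinForm.finrank_orthogonal hnd, hU]
    have hP : finrank ℂ (ω.orthogonal Z) = r := by
      rw [LinearMap.BilinForm.finrank_orthogonal hnd]; omega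
    -- not contained in `Z ⊔ U`
    have hA : ¬ ω.orthogonal U ≤ Z ⊔ U := by
      intro hle
      have h1 : ω.orthogonal (Z ⊔ U) ≤ ω.orthogonal (ω.orthogonal U) :=
        LinearMap.BilinForm.orthogonal_le hle
      rw [LinearMap.BilinForm.orthogonal_orthogonal hnd hrefl] at h1
      have h2 : ω.orthogonal (Z ⊔ U) = ⊥ := by
        rw [eq_bot_iff]
        intro x hx
        have h3 : x ∈ U := h1 hx
        have h4 : x ∈ ω.orthogonal Z := by
          intro n hn
          exact hx n ((le_sup_left : Z ≤ Z ⊔ U) hn)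
        exact (Submodule.mem_bot ℂ).2 ((Submodule.disjoint_def.1 hdP) x h3 h4)
      have h5 : finrank ℂ (ω.orthogonal (Z ⊔ U)) = finrank ℂ W - finrank ℂ (Z ⊔ U : Submodule ℂ W) :=
        LinearMap.BilinForm.finrank_orthogonal hnd _
      rw [h2, finrank_bot] at h5
      have h6 : finrank ℂ (Z ⊔ U : Submodule ℂ W) ≤ finrank ℂ Z + finrank ℂ U :=
        Submodule.finrank_add_le_finrank_add_finrank Z U
      omega
    have hB : ¬ ω.orthogonal U ≤ ω.orthogonal Z ⊔ U := by
      intro hle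
      have h1 := Submodule.finrank_mono hle
      have h6 : finrank ℂ (ω.orthogonal Z ⊔ U : Submodule ℂ W) ≤
          finrank ℂ (ω.orthogonal Z) + finrank ℂ U :=
        Submodule.finrank_add_le_finrank_add_finrank _ U
      omega
    obtain ⟨v, hvO, hvZ, hvP⟩ := LA_avoid _ _ _ hA hB
    have hvU : v ∉ U := fun h => hvZ ((le_sup_right : U ≤ Z ⊔ U) h)
    have hv0 : v ≠ 0 := fun h => hvU (h ▸ U.zero_mem)
    refine ⟨U ⊔ Submodule.span ℂ {v}, ?_, ?_, LA_disj U Z v hdZ hvZ, LA_disj U _ v hdP hvP⟩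
    · have h1 := Submodule.finrank_sup_add_finrank_inf_eq U (Submodule.span ℂ {v})
      have h2 : U ⊓ Submodule.span ℂ {v} = ⊥ := by
        rw [eq_bot_iff]
        intro x hx
        obtain ⟨hx1, hx2⟩ := Submodule.mem_inf.1 hx
        obtain ⟨c, rfl⟩ := Submodule.mem_span_singleton.1 hx2
        by_cases hc : c = 0
        · subst hc; simp
        · exfalso
          apply hvU
          have h3 := U.smul_mem c⁻¹ hx1
          rwa [smul_smul, inv_mul_cancel₀ hc, one_smul] at h3
      rw [h2, finrank_bot, finrank_span_singleton hv0, hU] at h1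
      omega
    · intro x hx y hy
      obtain ⟨u, hu, w, hw, rfl⟩ := Submodule.mem_sup.1 hx
      obtain ⟨c, rfl⟩ := Submodule.mem_span_singleton.1 hw
      obtain ⟨u', hu', w', hw', rfl⟩ := Submodule.mem_sup.1 hy
      obtain ⟨c', rfl⟩ := Submodule.mem_span_singleton.1 hw'
      have e1 : ω u v = 0 := hvO u hu
      have e2 : ω v u' = 0 := hrefl _ _ (hvO u' hu')
      have e3 : ω v v = 0 := hω v
      have e4 : ω u u' = 0 := hiso u hu u' hu'
      simp only [map_add, LinearMap.add_apply, map_smul, LinearMap.smul_apply, e1, e2, e3, e4,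
        smul_zero, add_zero]

/-- a symmetric form of rank `r` on a symplectic space of dimension at least `4r` is nondegenerate on
some isotropic subspace of dimension `r` -/
theorem LA {W : Type} [AddCommGroup W] [Module ℂ W] [FiniteDimensional ℂ W]
    (ω X : LinearMap.BilinForm ℂ W) (hω : ω.IsAlt) (hnd : ω.Nondegenerate) (hX : X.IsSymm)
    (r : ℕ) (hr : finrank ℂ (LinearMap.ker X) + r = finrank ℂ W) (h : 4 * r ≤ finrank ℂ W) :
    ∃ v : Fin r → W, (∀ i j, ω (v i) (v j) = 0) ∧
      (Matrix.of fun i j : Fin r => X (v i) (v j)).det ≠ 0 := by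
  obtain ⟨U, hU, hiso, hdZ, -⟩ := LA_step ω hω hnd (LinearMap.ker X) r hr h r le_rfl
  let b : Basis (Fin r) ℂ U := finBasisOfFinrankEq ℂ U hU
  refine ⟨fun i => (b i : W), fun i j => hiso _ (b i).2 _ (b j).2, fun hdet => ?_⟩
  obtain ⟨c, hc0, hc⟩ := Matrix.exists_mulVec_eq_zero_iff.2 hdet
  have hy1 : ∀ i, X (b i : W) (∑ j, c j • (b j : W)) = 0 := by
    intro i
    have h1 := congrFun hc i
    simp only [Matrix.mulVec, dotProduct, Matrix.of_apply, Pi.zero_apply] at h1
    rw [map_sum, ← h1]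
    refine Finset.sum_congr rfl fun j _ => ?_
    rw [map_smul, smul_eq_mul, mul_comm]
  have hyU : (∑ j, c j • (b j : W)) = ((∑ j, c j • b j : U) : W) := by
    simp
  have hsup : LinearMap.ker X ⊔ U = ⊤ := by
    apply Submodule.eq_top_of_finrank_eq
    have h1 := Submodule.finrank_sup_add_finrank_inf_eq (LinearMap.ker X) U
    rw [hdZ.symm.eq_bot, finrank_bot, hU] at h1
    omega
  have hall : ∀ x ∈ U, X x (∑ j, c j • (b j : W)) = 0 := by
    intro x hx
    generalize (∑ j, c j • (b j : W)) = y at hy1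
    obtain ⟨d, hd⟩ : ∃ d : Fin r → ℂ, x = ∑ i, d i • (b i : W) := by
      refine ⟨fun i => b.repr ⟨x, hx⟩ i, ?_⟩
      have h2 : ((∑ i, b.repr ⟨x, hx⟩ i • b i : U) : W) = x := by rw [b.sum_repr]
      refine h2.symm.trans ?_
      simp only [Submodule.coe_sum, Submodule.coe_smul]
    rw [hd, map_sum, LinearMap.sum_apply]
    refine Finset.sum_eq_zero fun i _ => ?_
    rw [map_smul, LinearMap.smul_apply, hy1 i, smul_zero]
  have hker : (∑ j, c j • (b j : W)) ∈ LinearMap.ker X := by
    rw [LinearMap.mem_ker]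
    ext x
    rw [LinearMap.zero_apply, hX.eq x _ |>.symm]
    have hx : x ∈ LinearMap.ker X ⊔ U := hsup ▸ Submodule.mem_top
    obtain ⟨z, hz, u, hu, rfl⟩ := Submodule.mem_sup.1 hx
    rw [map_add, LinearMap.add_apply, LinearMap.mem_ker.1 hz, LinearMap.zero_apply, hall u hu,
      add_zero]
  have hz : (∑ j, c j • b j : U) = 0 := by
    have h1 : ((∑ j, c j • b j : U) : W) ∈ LinearMap.ker X := hyU ▸ hker
    have h2 := (Submodule.disjoint_def.1 hdZ) _ (∑ j, c j • b j : U).2 h1
    exact Subtype.ext h2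
  have hli := b.linearIndependent
  rw [Fintype.linearIndependent_iff] at hli
  exact hc0 (funext fun i => hli c hz i)

end MP50e386N
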