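import Mathlib
import Pool.Agent.Lib.MP_50e386_al.Main
import Pool.Agent.Lib.MP_50e386_al.Bridge
import Pool.Agent.Lib.MP_50e386_al.N.Defs
import Pool.Agent.Lib.MP_50e386_al.N.LA

/-! Paper 5.7 (c3): Nullstellensatz in the polynomial ring of symmetric `2n × 2n` matrices. -/

namespace MP50e386N

open MvPolynomial Pool.Agent.Lib.MP50e386 MP50e386 Module

section

variable {W : Type} [AddCommGroup W] [Module ℂ W] [FiniteDimensional ℂ W]

private theorem ns_le_rank (F : LinearMap.BilinForm ℂ W) {k : ℕ} (v : Fin k → W)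
    (h : (Matrix.of fun i j : Fin k => F (v i) (v j)).det ≠ 0) :
    k ≤ finrank ℂ (LinearMap.range F) := by
  have hli : LinearIndependent ℂ
      (fun i : Fin k => (⟨F (v i), LinearMap.mem_range_self F (v i)⟩ : LinearMap.range F)) := by
    rw [Fintype.linearIndependent_iff]
    intro c hc
    have h1 : ∑ i, c i • F (v i) = 0 := by
      have := congrArg (Submodule.subtype (LinearMap.range F)) hc
      simpa [map_sum] using this
    have h2 : Matrix.vecMul c (Matrix.of fun i j : Fin k => F (v i) (v j)) = 0 := by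
      funext j
      have h3 := congrArg (fun f : W →ₗ[ℂ] ℂ => f (v j)) h1
      simp only [LinearMap.sum_apply, LinearMap.smul_apply, LinearMap.zero_apply, smul_eq_mul] at h3
      simpa [Matrix.vecMul, dotProduct] using h3
    have h4 := Matrix.eq_zero_of_vecMul_eq_zero h h2
    intro i
    rw [h4]
    rfl
  simpa using hli.fintype_card_le_finrank

omit [FiniteDimensional ℂ W] in
private theorem ns_minor (F : LinearMap.BilinForm ℂ W) {k : ℕ}
    (hk : k ≤ finrank ℂ (LinearMap.range F)) :
    ∃ a b : Fin k → W, (Matrix.of fun i j : Fin k => F (a i) (b j)).det ≠ 0 := by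
  obtain ⟨f, hf⟩ := exists_linearIndependent_of_le_finrank hk
  have hch : ∀ i, ∃ a : W, F a = (f i : W →ₗ[ℂ] ℂ) := fun i => (f i).2
  choose a ha using hch
  have hli : LinearIndependent ℂ (fun i => F (a i)) := by
    have := hf.map' (LinearMap.range F).subtype (Submodule.ker_subtype _)
    have he : (⇑(LinearMap.range F).subtype ∘ f) = fun i => F (a i) := by
      funext i
      rw [ha i]
      rfl
    rwa [he] at this
  set Φ : W →ₗ[ℂ] (Fin k → ℂ) := LinearMap.pi (fun i => F (a i)) with hΦ
  have hsur : LinearMap.range Φ = ⊤ := by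
    by_contra hne
    obtain ⟨g, hg0, hg⟩ := Submodule.exists_le_ker_of_lt_top _ (lt_top_iff_ne_top.2 hne)
    apply hg0
    have h1 : ∑ i, g (Pi.single i 1) • F (a i) = 0 := by
      ext w
      have h2 : g (Φ w) = 0 := hg (LinearMap.mem_range_self Φ w)
      have h3 : Φ w = ∑ i, (F (a i) w) • (Pi.single i (1 : ℂ) : Fin k → ℂ) := by
        funext j
        simp [hΦ, Finset.sum_apply, Pi.single_apply]
      rw [h3, map_sum] at h2
      simp only [map_smul, smul_eq_mul] at h2
      simp only [LinearMap.sum_apply, LinearMap.smul_apply, smul_eq_mul, LinearMap.zero_apply]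
      rw [← h2]
      exact Finset.sum_congr rfl fun i _ => mul_comm _ _
    have h4 := Fintype.linearIndependent_iff.1 hli _ h1
    apply LinearMap.pi_ext'
    intro i
    ext
    simpa using h4 i
  have hb : ∀ j : Fin k, ∃ b : W, Φ b = Pi.single j 1 := fun j =>
    LinearMap.range_eq_top.1 hsur _
  choose b hb using hb
  refine ⟨a, b, ?_⟩
  have hm : (Matrix.of fun i j : Fin k => F (a i) (b j)) = 1 := by
    ext i j
    have := congrFun (hb j) i
    simp only [hΦ, LinearMap.pi_apply] at this
    rw [Matrix.of_apply, this, Matrix.one_apply, Pi.single_apply]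
  rw [hm, Matrix.det_one]
  exact one_ne_zero

end

private theorem ns_aeval_det {M k : ℕ} (p : Sym2 (Fin M) → ℂ) (a b : Fin k → Fin M → ℂ) :
    aeval p (Matrix.det (Matrix.of fun i j : Fin k => bilM M (a i) (b j))) =
      (Matrix.of fun i j : Fin k => Matrix.toBilin' (qm p) (a i) (b j)).det := by
  rw [AlgHom.map_det]
  congr 1
  ext i j
  simp only [AlgHom.mapMatrix_apply, Matrix.map_apply, Matrix.of_apply]
  exact aeval_bilM p (a i) (b j)

theorem NS (n r q : ℕ) (hn : 2 * r ≤ n) (hq : 1 ≤ q) : ∃ q1 : ℕ,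
    ∀ v : Fin r → (Fin (2 * n) → ℂ),
      (Matrix.det (Matrix.of fun i j : Fin r => bilM (2 * n) (v i) (v j))) ^ q1 ∈
        Ideal.span
          ({f | ∃ a b : Fin (r + 1) → (Fin (2 * n) → ℂ),
              f = Matrix.det (Matrix.of fun i j : Fin (r + 1) => bilM (2 * n) (a i) (b j))} ∪
           {f | ∃ v' : Fin r → (Fin (2 * n) → ℂ),
              (∀ i j, om (jN (2 * n) (v' i)) (jN (2 * n) (v' j)) = 0) ∧
              f = (Matrix.det (Matrix.of fun i j : Fin r => bilM (2 * n) (v' i) (v' j))) ^ q}) := by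
  set I := Ideal.span
          ({f | ∃ a b : Fin (r + 1) → (Fin (2 * n) → ℂ),
              f = Matrix.det (Matrix.of fun i j : Fin (r + 1) => bilM (2 * n) (a i) (b j))} ∪
           {f | ∃ v' : Fin r → (Fin (2 * n) → ℂ),
              (∀ i j, om (jN (2 * n) (v' i)) (jN (2 * n) (v' j)) = 0) ∧
              f = (Matrix.det (Matrix.of fun i j : Fin r => bilM (2 * n) (v' i) (v' j))) ^ q})
    with hI
  obtain ⟨q1, hq1⟩ := I.exists_radical_pow_le_of_fg I.radical.fg_of_isNoetherianRing
  refine ⟨q1, fun v => hq1 (Ideal.pow_mem_pow ?_ q1)⟩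
  rw [← vanishingIdeal_zeroLocus_eq_radical (K := ℂ) I, mem_vanishingIdeal_iff]
  intro p hp
  rw [hI, zeroLocus_span] at hp
  rw [ns_aeval_det]
  by_contra hne
  set F := Matrix.toBilin' (qm p) with hF
  have hge : r ≤ finrank ℂ (LinearMap.range F) := ns_le_rank F v hne
  have hle : finrank ℂ (LinearMap.range F) ≤ r := by
    by_contra hlt
    obtain ⟨a, b, hab⟩ := ns_minor F (k := r + 1) (by omega)
    apply hab
    rw [← ns_aeval_det]
    exact hp _ (Or.inl ⟨a, b, rfl⟩)
  have hrank : finrank ℂ (LinearMap.ker F) + r = finrank ℂ (Fin (2 * n) → ℂ) := by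
    have := LinearMap.finrank_range_add_finrank_ker F
    omega
  have halt : (FN pis sis (2 * n)).IsAlt := by
    intro x
    have h1 := frm_refl_eps gdata_sp (jN (2 * n) x) (jN (2 * n) x)
    rw [FN_apply]
    have h2 : 2 * frm pis sis (jN (2 * n) x) (jN (2 * n) x) = 0 := by linear_combination h1
    simpa using h2
  obtain ⟨v', hv', hdet⟩ := LA (FN pis sis (2 * n)) F halt
    (FN_nondeg gdata_sp (even_two_mul n)) (qm_symm p) r hrank (by
      rw [finrank_fin_fun]
      omega)
  apply hdet
  have h3 := hp _ (Or.inr ⟨v', fun i j => by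
    have := hv' i j
    rw [FN_apply] at this
    rw [om, sympForm_eq]
    exact this, rfl⟩)
  rw [map_pow, ns_aeval_det] at h3
  exact pow_eq_zero_iff (by omega) |>.1 h3

end MP50e386N
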