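import Mathlib
import Pool.Agent.Lib.MP_50e386_al.N.QDefs
import Pool.Agent.Lib.MP_50e386_al.N.T2
import Pool.Agent.Lib.MP_50e386_al.N.Q1

/-! Frame change, paper 5.7 (b). -/

namespace MP50e386N

open MvPolynomial Pool.Agent.Lib.MP50e386

variable {R : Type} [CommRing R] [Algebra ℂ R] [GLRing R]

/-! ### Gram determinants of vectors with coefficients in `R` -/

/-- Gram determinant -/
private noncomputable def Q2_D {n : ℕ} (w : Fin n → VR R) : R :=
  Matrix.det (Matrix.of fun i j => (xf (w i) (w j) : R))

private theorem Q2_Dl {n : ℕ} (v : Fin n → V) : (Dl v : R) = Q2_D (fun i => cst (v i)) := rfl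

private theorem Q2_mat {n : ℕ} (g : Matrix (Fin n) (Fin n) R) (w : Fin n → VR R) :
    Q2_D (fun j => ∑ i, g i j • w i) = g.det ^ 2 * Q2_D w := by
  have h : (Matrix.of fun a b => (xf (∑ i, g i a • w i) (∑ i, g i b • w i) : R)) =
      g.transpose * (Matrix.of fun i j => (xf (w i) (w j) : R)) * g := by
    ext a b
    simp only [Matrix.mul_apply, Matrix.transpose_apply, Matrix.of_apply, map_sum, map_smul,
      LinearMap.sum_apply, LinearMap.smul_apply, smul_eq_mul, Finset.sum_mul, Finset.mul_sum]
    refine Finset.sum_congr rfl fun j _ => Finset.sum_congr rfl fun i _ => ?_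
    ring
  unfold Q2_D
  rw [h, Matrix.det_mul, Matrix.det_mul, Matrix.det_transpose]
  ring

private theorem Q2_ann {n : ℕ} (E : R) (A B : Matrix (Fin n) (Fin n) R)
    (h : ∀ i j, E * A i j = E * B i j) : E * A.det = E * B.det := by
  let I : Ideal R := LinearMap.ker (LinearMap.mulLeft R E)
  have hI : ∀ x : R, x ∈ I ↔ E * x = 0 := fun x => LinearMap.mem_ker
  have h1 : Ideal.Quotient.mk I A.det = Ideal.Quotient.mk I B.det := by
    rw [RingHom.map_det, RingHom.map_det]
    congr 1
    ext i j
    rw [RingHom.mapMatrix_apply, RingHom.mapMatrix_apply, Matrix.map_apply, Matrix.map_apply,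
      Ideal.Quotient.eq, hI, mul_sub, h i j, sub_self]
  rw [Ideal.Quotient.eq, hI, mul_sub] at h1
  exact sub_eq_zero.1 h1

private theorem Q2_annP {ι : Type} (E : R) (t : Finset ι) (A B : ι → R) (s : ℕ)
    (h : ∀ i ∈ t, E * A i = E * B i) : E * ∏ i ∈ t, A i ^ s = E * ∏ i ∈ t, B i ^ s := by
  let I : Ideal R := LinearMap.ker (LinearMap.mulLeft R E)
  have hI : ∀ x : R, x ∈ I ↔ E * x = 0 := fun x => LinearMap.mem_ker
  have h1 : Ideal.Quotient.mk I (∏ i ∈ t, A i ^ s) = Ideal.Quotient.mk I (∏ i ∈ t, B i ^ s) := by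
    rw [map_prod, map_prod]
    refine Finset.prod_congr rfl fun i hi => ?_
    rw [map_pow, map_pow]
    congr 1
    rw [Ideal.Quotient.eq, hI, mul_sub, h i hi, sub_self]
  rw [Ideal.Quotient.eq, hI, mul_sub] at h1
  exact sub_eq_zero.1 h1

private theorem Q2_congr {n : ℕ} (E : R) (w w' : Fin n → VR R)
    (h : ∀ i, w i - w' i ∈ Rad E) : E * Q2_D w = E * Q2_D w' := by
  unfold Q2_D
  refine Q2_ann E _ _ fun i j => ?_
  rw [Matrix.of_apply, Matrix.of_apply]
  have h1 : E * xf (w i - w' i) (w j) = 0 := h i (w j)
  have h2 : E * xf (w j - w' j) (w' i) = 0 := h j (w' i)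
  rw [map_sub, LinearMap.sub_apply, mul_sub] at h1 h2
  rw [xf_comm (w' i) (w' j), ← sub_eq_zero.1 h2, xf_comm (w j) (w' i)]
  exact sub_eq_zero.1 h1

/-- a column operation -/
private theorem Q2_upd {n : ℕ} (w : Fin n → VR R) (b : Fin n) (u : Fin n → R) :
    Q2_D (Function.update w b (∑ i, u i • w i)) = u b ^ 2 * Q2_D w := by
  have h := Q2_mat ((1 : Matrix (Fin n) (Fin n) R).updateCol b u) w
  have hdet : ((1 : Matrix (Fin n) (Fin n) R).updateCol b u).det = u b := by
    rw [← Matrix.cramer_apply, Matrix.cramer_one]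
    rfl
  rw [hdet] at h
  rw [← h]
  congr 1
  funext j
  by_cases hj : j = b
  · subst hj
    rw [Function.update_self]
    refine Finset.sum_congr rfl fun i _ => ?_
    rw [Matrix.updateCol_self]
  · rw [Function.update_of_ne hj]
    have : ∀ i, (1 : Matrix (Fin n) (Fin n) R).updateCol b u i j • w i =
        if i = j then w i else 0 := by
      intro i
      rw [Matrix.updateCol_ne hj, Matrix.one_apply]
      split_ifs
      · rw [one_smul]
      · rw [zero_smul]
    rw [Finset.sum_congr rfl fun i _ => this i, Finset.sum_ite_eq' Finset.univ j w,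
      if_pos (Finset.mem_univ j)]

private theorem Q2_scale {n : ℕ} (w : Fin n → VR R) (b : Fin n) (t : R) (z : VR R) :
    Q2_D (Function.update w b (t • z)) = t ^ 2 * Q2_D (Function.update w b z) := by
  have h := Q2_upd (Function.update w b z) b (Pi.single b t)
  rw [Pi.single_eq_same] at h
  rw [← h]
  congr 1
  have h1 : ∑ i, (Pi.single b t : Fin n → R) i • Function.update w b z i = t • z := by
    rw [Finset.sum_eq_single b]
    · rw [Pi.single_eq_same, Function.update_self]
    · intro i _ hi
      rw [Pi.single_eq_of_ne hi, zero_smul]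
    · intro hb
      exact absurd (Finset.mem_univ b) hb
  rw [h1, Function.update_idem]

/-- the basic computation modulo the radical -/
private theorem Q2_core {n : ℕ} (E : R) (w : Fin n → VR R) (b : Fin n) (c : VR R) (a D : R)
    (cof : Fin n → R) (h : D • c - ∑ l, cof l • w l ∈ Rad E) :
    E * (D ^ 2 * Q2_D (Function.update w b (w b + a • c))) =
      E * ((D + a * cof b) ^ 2 * Q2_D w) := by
  rw [← Q2_scale]
  have h1 := Q2_upd w b (fun l => (Pi.single b D : Fin n → R) l + a * cof l)
  simp only [Pi.single_eq_same] at h1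
  rw [← h1]
  refine Q2_congr E _ _ fun i => ?_
  by_cases hi : i = b
  · subst hi
    rw [Function.update_self, Function.update_self]
    have h2 : D • (w i + a • c) - ∑ l, ((Pi.single i D : Fin n → R) l + a * cof l) • w l =
        a • (D • c - ∑ l, cof l • w l) := by
      have h3 : ∑ l, ((Pi.single i D : Fin n → R) l + a * cof l) • w l =
          D • w i + a • ∑ l, cof l • w l := by
        simp only [add_smul]
        rw [Finset.sum_add_distrib, Finset.smul_sum]
        congr 1
        · rw [Finset.sum_eq_single i]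
          · rw [Pi.single_eq_same]
          · intro l _ hl
            rw [Pi.single_eq_of_ne hl, zero_smul]
          · intro hb
            exact absurd (Finset.mem_univ i) hb
        · refine Finset.sum_congr rfl fun l _ => ?_
          rw [mul_smul]
      rw [h3, smul_sub, smul_add, smul_comm D a c]
      abel
    rw [h2]
    exact (Rad E).smul_mem a h
  · rw [Function.update_of_ne hi, Function.update_of_ne hi, sub_self]
    exact (Rad E).zero_mem

/-! ### linear independence -/

omit [Algebra ℂ R] [GLRing R] [CommRing R] in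
private theorem Q2_li {ι : Type} [Fintype ι] [DecidableEq ι] (y : ι → V)
    (hy : LinearIndependent ℂ y) (g : Matrix ι ι ℂ) (hg : g.det ≠ 0) :
    LinearIndependent ℂ (fun j => ∑ i, g i j • y i) := by
  rw [Fintype.linearIndependent_iff] at hy ⊢
  intro c hc
  have h1 : ∑ i, (∑ j, c j * g i j) • y i = 0 := by
    rw [← hc]
    simp only [Finset.smul_sum, Finset.sum_smul, smul_smul]
    exact Finset.sum_comm
  have h2 := hy _ h1
  have h3 : g.mulVec c = 0 := by
    funext i
    rw [Matrix.mulVec, dotProduct, Pi.zero_apply, ← h2 i]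
    exact Finset.sum_congr rfl fun j _ => mul_comm _ _
  exact fun i => congrFun (Matrix.eq_zero_of_mulVec_eq_zero hg h3) i

omit [Algebra ℂ R] [GLRing R] [CommRing R] in
private theorem Q2_inl {r k : ℕ} {y : Fin r ⊕ Fin k → V} (hy : LinearIndependent ℂ y) :
    LinearIndependent ℂ (fun i => y (Sum.inl i)) :=
  hy.comp Sum.inl Sum.inl_injective

/-! ### transvections -/

/-- `Delta` of a family of `V` with one vector changed by a multiple of another one -/
private theorem Q2_trans {n : ℕ} (v : Fin n → V) (i j : Fin n) (hij : i ≠ j) (a : ℂ) :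
    (Dl (Function.update v j (v j + a • v i)) : R) = Dl v := by
  have h := Dl_mat (R := R) (Matrix.transvection i j a) v
  rw [Matrix.det_transvection_of_ne i j hij, one_pow, map_one, one_mul] at h
  rw [← h]
  congr 1
  funext l
  have h1 : ∀ m, Matrix.transvection i j a m l • v m =
      (if m = l then v m else 0) + (if m = i then (if l = j then a • v m else 0) else 0) := by
    intro m
    rw [Matrix.transvection, Matrix.add_apply, Matrix.one_apply, Matrix.single_apply, add_smul]
    congr 1
    · split_ifs
      · rw [one_smul]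
      · rw [zero_smul]
    · by_cases hm : m = i
      · subst hm
        by_cases hl : l = j
        · subst hl
          simp
        · rw [if_neg (fun hh => hl hh.2.symm), if_pos rfl, if_neg hl, zero_smul]
      · rw [if_neg (fun hh => hm hh.1.symm), if_neg hm, zero_smul]
  rw [Finset.sum_congr rfl fun m _ => h1 m, Finset.sum_add_distrib,
    Finset.sum_ite_eq' Finset.univ l v, if_pos (Finset.mem_univ l),
    Finset.sum_ite_eq' Finset.univ i, if_pos (Finset.mem_univ i)]
  by_cases hl : l = j
  · subst hl
    rw [Function.update_self, if_pos rfl]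
  · rw [Function.update_of_ne hl, if_neg hl, add_zero]

omit [Algebra ℂ R] [GLRing R] [CommRing R] in
private theorem Q2_snoc_upd {r : ℕ} (v : Fin r → V) (j : Fin r) (z c : V) :
    (Fin.snoc (Function.update v j z) c : Fin (r + 1) → V) =
      Function.update (Fin.snoc v c : Fin (r + 1) → V) j.castSucc z := by
  rw [Fin.snoc_update]

/-- `Dl1` is unchanged if a multiple of `v i` is added to `v j` -/
private theorem Q2_Dl1_vv {r : ℕ} (v : Fin r → V) (i j : Fin r) (hij : i ≠ j) (a : ℂ) (c : V) :
    (Dl1 (Function.update v j (v j + a • v i)) c : R) = Dl1 v c := by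
  unfold Dl1
  rw [Q2_snoc_upd]
  have h := Q2_trans (R := R) (Fin.snoc v c : Fin (r + 1) → V) i.castSucc j.castSucc
    (fun h => hij (Fin.castSucc_injective r h)) a
  rw [Fin.snoc_castSucc, Fin.snoc_castSucc] at h
  exact h

/-- `Dl1` is unchanged if a multiple of `c` is added to `v j` -/
private theorem Q2_Dl1_vc {r : ℕ} (v : Fin r → V) (j : Fin r) (a : ℂ) (c : V) :
    (Dl1 (Function.update v j (v j + a • c)) c : R) = Dl1 v c := by
  unfold Dl1
  rw [Q2_snoc_upd]
  have h := Q2_trans (R := R) (Fin.snoc v c : Fin (r + 1) → V) (Fin.last r) j.castSucc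
    (Fin.castSucc_lt_last j).ne' a
  rw [Fin.snoc_castSucc, Fin.snoc_last] at h
  exact h

/-- `Dl1` is unchanged if a multiple of `v i` is added to `c` -/
private theorem Q2_Dl1_cv {r : ℕ} (v : Fin r → V) (i : Fin r) (a : ℂ) (c : V) :
    (Dl1 v (c + a • v i) : R) = Dl1 v c := by
  rw [Dl1_add, Dl1_mem, xf_til_comm, til_self, map_zero, LinearMap.zero_apply, smul_zero,
    smul_zero, add_zero, add_zero]

/-- the ratio relation -/
private theorem Q2_ratio {r s : ℕ} (h1 : HP1 R r s) (h2 : HP2 R r) (v : Fin r → V)
    (hv : LinearIndependent ℂ v) (j : Fin r) (a : ℂ) (c d : V) :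
    (Dl1 v c : R) ^ s * (Dl1 (Function.update v j (v j + a • c)) d * Dl v) =
      (Dl1 v c : R) ^ s * (Dl (Function.update v j (v j + a • c)) * Dl1 v d) := by
  set E : R := (Dl1 v c : R) ^ s with hE
  set D : R := (Dl v : R) with hD
  set cof : Fin r → R := fun k => ∑ l, (xv c (v l) : R) *
    (gramM v : Matrix (Fin r) (Fin r) R).adjugate l k with hcof
  have hrad : (til v c : VR R) ∈ Rad E := fun y' => KI h1 v c y'
  have hpit : (til v c : VR R) = D • cst c - ∑ k, cof k • (cst (v k) : VR R) := rfl
  have hcst : (algebraMap ℂ R a) • (cst c : VR R) = cst (a • c) := by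
    rw [map_smul, algebraMap_smul]
  have k1 : E * (D ^ 2 * Dl (Function.update v j (v j + a • c))) =
      E * ((D + algebraMap ℂ R a * cof j) ^ 2 * Dl v) := by
    have h3 := Q2_core E (fun i => (cst (v i) : VR R)) j (cst c) (algebraMap ℂ R a) D cof
      (by rw [← hpit]; exact hrad)
    rw [Q2_Dl, Q2_Dl]
    rw [← h3]
    congr 3
    funext i
    by_cases hi : i = j
    · subst hi
      simp only [Function.update_self, map_add]
      rw [hcst]
    · simp only [Function.update_of_ne hi]
  have k2 : E * (D ^ 2 * Dl1 (Function.update v j (v j + a • c)) d) =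
      E * ((D + algebraMap ℂ R a * cof j) ^ 2 * Dl1 v d) := by
    have h3 := Q2_core E (fun i => (cst ((Fin.snoc v d : Fin (r + 1) → V) i) : VR R))
      j.castSucc (cst c) (algebraMap ℂ R a) D (Fin.snoc cof 0 : Fin (r + 1) → R) (by
        rw [Fin.sum_univ_castSucc]
        simp only [Fin.snoc_castSucc, Fin.snoc_last, zero_smul, add_zero]
        rw [← hpit]
        exact hrad)
    rw [Fin.snoc_castSucc, Fin.snoc_castSucc] at h3
    unfold Dl1
    rw [Q2_Dl, Q2_Dl, Q2_snoc_upd, ← h3]
    congr 3
    funext i
    by_cases hi : i = j.castSucc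
    · subst hi
      simp only [Function.update_self, map_add, Fin.snoc_castSucc]
      rw [hcst]
    · simp only [Function.update_of_ne hi]
  have hnz := h2 v hv
  have k3 : (E * (Dl1 (Function.update v j (v j + a • c)) d * Dl v) -
      E * (Dl (Function.update v j (v j + a • c)) * Dl1 v d)) * D ^ 2 = 0 := by
    have : (E * (Dl1 (Function.update v j (v j + a • c)) d * Dl v) -
      E * (Dl (Function.update v j (v j + a • c)) * Dl1 v d)) * D ^ 2 =
      (E * (D ^ 2 * Dl1 (Function.update v j (v j + a • c)) d)) * Dl v -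
      (E * (D ^ 2 * Dl (Function.update v j (v j + a • c)))) * Dl1 v d := by ring
    rw [this, k1, k2]
    ring
  have k4 := (mem_nonZeroDivisors_iff_right.1 (pow_mem hnz 2)) _ k3
  exact sub_eq_zero.1 k4

/-- the transvection of type `v_j ↦ v_j + a c_i` -/
theorem frame_trans3 {r s k : ℕ} (h1 : HP1 R r s) (h2 : HP2 R r) (y : Fin r ⊕ Fin k → V)
    (hy : LinearIndependent ℂ y) (i : Fin k) (j : Fin r) (a : ℂ) :
    (Ev s (Function.update y (Sum.inl j) (y (Sum.inl j) + a • y (Sum.inr i))) : R) *
        dl y ^ (s * k) *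
        dl (Function.update y (Sum.inl j) (y (Sum.inl j) + a • y (Sum.inr i))) ^ s =
      Ev s y * dl (Function.update y (Sum.inl j) (y (Sum.inl j) + a • y (Sum.inr i))) ^ (s * k) *
        dl y ^ s := by
  classical
  set v : Fin r → V := fun i => y (Sum.inl i) with hv
  have hvli : LinearIndependent ℂ v := Q2_inl hy
  set c : Fin k → V := fun i => y (Sum.inr i) with hc
  set y' := Function.update y (Sum.inl j) (y (Sum.inl j) + a • y (Sum.inr i)) with hy'
  have e1 : (fun l => y' (Sum.inl l)) = Function.update v j (v j + a • c i) := by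
    funext l
    by_cases hl : l = j
    · subst hl
      rw [hy', Function.update_self, Function.update_self]
    · rw [hy', Function.update_of_ne (fun h => hl (Sum.inl_injective h)),
        Function.update_of_ne hl]
  have e2 : (fun l => y' (Sum.inr l)) = c := by
    funext l
    rw [hy', Function.update_of_ne Sum.inr_ne_inl]
  have e3 : (dl y' : R) = Dl (Function.update v j (v j + a • c i)) := by
    unfold dl
    rw [e1]
  have e4 : (dl y : R) = Dl v := rfl
  have e5 : (Ev s y : R) = ∏ l, (Dl1 v (c l) : R) ^ s := rfl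
  have e6 : (Ev s y' : R) =
      ∏ l, (Dl1 (Function.update v j (v j + a • c i)) (c l) : R) ^ s := by
    unfold Ev Ek
    rw [e1, e2]
  set v' := Function.update v j (v j + a • c i) with hv'
  have e7 : (Dl1 v' (c i) : R) = Dl1 v (c i) := Q2_Dl1_vc v j a (c i)
  have hr : ∀ l, (Dl1 v (c i) : R) ^ s * (Dl1 v' (c l) * Dl v) =
      (Dl1 v (c i) : R) ^ s * (Dl v' * Dl1 v (c l)) := fun l =>
    Q2_ratio h1 h2 v hvli j a (c i) (c l)
  have hp := Q2_annP ((Dl1 v (c i) : R) ^ s) (Finset.univ.erase i)
    (fun l => (Dl1 v' (c l) * Dl v : R)) (fun l => (Dl v' * Dl1 v (c l) : R)) s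
    (fun l _ => hr l)
  have hL : (Ev s y' : R) * dl y ^ (s * k) =
      (Dl1 v (c i) : R) ^ s * Dl v ^ s * ∏ l ∈ Finset.univ.erase i, (Dl1 v' (c l) * Dl v : R) ^ s := by
    have : (dl y : R) ^ (s * k) = ∏ _l : Fin k, (Dl v : R) ^ s := by
      rw [Finset.prod_const, Finset.card_univ, Fintype.card_fin, ← pow_mul, e4]
    rw [this, e6, ← Finset.prod_mul_distrib, ← Finset.mul_prod_erase _ _ (Finset.mem_univ i), e7]
    congr 1
    refine Finset.prod_congr rfl fun l _ => ?_
    rw [mul_pow]
  have hR : (Ev s y : R) * dl y' ^ (s * k) =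
      (Dl1 v (c i) : R) ^ s * Dl v' ^ s * ∏ l ∈ Finset.univ.erase i, (Dl v' * Dl1 v (c l) : R) ^ s := by
    have : (dl y' : R) ^ (s * k) = ∏ _l : Fin k, (Dl v' : R) ^ s := by
      rw [Finset.prod_const, Finset.card_univ, Fintype.card_fin, ← pow_mul, e3]
    rw [this, e5, ← Finset.prod_mul_distrib, ← Finset.mul_prod_erase _ _ (Finset.mem_univ i)]
    congr 1
    refine Finset.prod_congr rfl fun l _ => ?_
    rw [mul_pow, mul_comm]
  rw [hL, hR, e3, e4]
  calc _ = (Dl1 v (c i) : R) ^ s * (∏ l ∈ Finset.univ.erase i, (Dl1 v' (c l) * Dl v : R) ^ s) *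
        (Dl v ^ s * Dl v' ^ s) := by ring
    _ = (Dl1 v (c i) : R) ^ s * (∏ l ∈ Finset.univ.erase i, (Dl v' * Dl1 v (c l) : R) ^ s) *
        (Dl v ^ s * Dl v' ^ s) := by rw [hp]
    _ = _ := by ring

omit [Algebra ℂ R] [GLRing R] [CommRing R] in
private theorem Q2_transv {ι : Type} [Fintype ι] [DecidableEq ι] (y : ι → V) (i j : ι) (a : ℂ) :
    (fun l => ∑ m, Matrix.transvection i j a m l • y m) =
      Function.update y j (y j + a • y i) := by
  funext l
  have h1 : ∀ m, Matrix.transvection i j a m l • y m =
      (if m = l then y m else 0) + (if m = i then (if l = j then a • y m else 0) else 0) := by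
    intro m
    rw [Matrix.transvection, Matrix.add_apply, Matrix.one_apply, Matrix.single_apply, add_smul]
    congr 1
    · split_ifs
      · rw [one_smul]
      · rw [zero_smul]
    · by_cases hm : m = i
      · subst hm
        by_cases hl : l = j
        · subst hl
          simp
        · rw [if_neg (fun hh => hl hh.2.symm), if_pos rfl, if_neg hl, zero_smul]
      · rw [if_neg (fun hh => hm hh.1.symm), if_neg hm, zero_smul]
  rw [Finset.sum_congr rfl fun m _ => h1 m, Finset.sum_add_distrib,
    Finset.sum_ite_eq' Finset.univ l y, if_pos (Finset.mem_univ l),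
    Finset.sum_ite_eq' Finset.univ i, if_pos (Finset.mem_univ i)]
  by_cases hl : l = j
  · subst hl
    rw [Function.update_self, if_pos rfl]
  · rw [Function.update_of_ne hl, if_neg hl, add_zero]

private theorem Q2_diag {n : ℕ} (D : Fin n → ℂ) (v : Fin n → V) :
    (Dl (fun j => D j • v j) : R) = algebraMap ℂ R ((∏ i, D i) ^ 2) * Dl v := by
  have h := Dl_mat (R := R) (Matrix.diagonal D) v
  rw [Matrix.det_diagonal] at h
  rw [← h]
  congr 1
  funext j
  rw [Finset.sum_eq_single j]
  · rw [Matrix.diagonal_apply_eq]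
  · intro i _ hi
    rw [Matrix.diagonal_apply_ne _ hi, zero_smul]
  · intro hj
    exact absurd (Finset.mem_univ j) hj

private theorem Q2_diag1 {r : ℕ} (D : Fin r → ℂ) (d : ℂ) (v : Fin r → V) (c : V) :
    (Dl1 (fun j => D j • v j) (d • c) : R) = algebraMap ℂ R (((∏ i, D i) * d) ^ 2) * Dl1 v c := by
  unfold Dl1
  have h := Q2_diag (R := R) (Fin.snoc D d : Fin (r + 1) → ℂ) (Fin.snoc v c : Fin (r + 1) → V)
  rw [Fin.prod_univ_castSucc] at h
  simp only [Fin.snoc_castSucc, Fin.snoc_last] at h
  rw [← h]
  congr 1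
  funext j
  refine Fin.lastCases ?_ (fun i => ?_) j
  · simp only [Fin.snoc_last]
  · simp only [Fin.snoc_castSucc]

theorem frame {r s k : ℕ} (h1 : HP1 R r s) (h2 : HP2 R r) (y : Fin r ⊕ Fin k → V)
    (hy : LinearIndependent ℂ y) (g : Matrix (Fin r ⊕ Fin k) (Fin r ⊕ Fin k) ℂ)
    (hg : g.det ≠ 0) :
    (Ev s (fun j => ∑ i, g i j • y i) : R) * dl y ^ (s * k) *
        dl (fun j => ∑ i, g i j • y i) ^ s =
      algebraMap ℂ R (g.det ^ (2 * s)) *
        (Ev s y * dl (fun j => ∑ i, g i j • y i) ^ (s * k) * dl y ^ s) := by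
  classical
  revert y
  refine Matrix.diagonal_transvection_induction_of_det_ne_zero
    (fun g => ∀ y : Fin r ⊕ Fin k → V, LinearIndependent ℂ y →
    (Ev s (fun j => ∑ i, g i j • y i) : R) * dl y ^ (s * k) *
        dl (fun j => ∑ i, g i j • y i) ^ s =
      algebraMap ℂ R (g.det ^ (2 * s)) *
        (Ev s y * dl (fun j => ∑ i, g i j • y i) ^ (s * k) * dl y ^ s)) g hg ?_ ?_ ?_
  · -- diagonal matrices
    intro D _ y _
    have e0 : (fun j => ∑ i, Matrix.diagonal D i j • y i) = fun j => D j • y j := by
      funext j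
      rw [Finset.sum_eq_single j]
      · rw [Matrix.diagonal_apply_eq]
      · intro i _ hi
        rw [Matrix.diagonal_apply_ne _ hi, zero_smul]
      · intro hj
        exact absurd (Finset.mem_univ j) hj
    rw [e0, Matrix.det_diagonal, Fintype.prod_sum_type]
    have e1 : (dl (fun j => D j • y j) : R) =
        algebraMap ℂ R ((∏ i : Fin r, D (Sum.inl i)) ^ 2) * dl y := by
      unfold dl
      exact Q2_diag (fun i => D (Sum.inl i)) (fun i => y (Sum.inl i))
    have e2 : (Ev s (fun j => D j • y j) : R) =
        (∏ j : Fin k, (algebraMap ℂ R (((∏ i : Fin r, D (Sum.inl i)) * D (Sum.inr j)) ^ 2)) ^ s) *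
          Ev s y := by
      unfold Ev Ek
      rw [← Finset.prod_mul_distrib]
      refine Finset.prod_congr rfl fun j _ => ?_
      rw [← mul_pow]
      congr 1
      exact Q2_diag1 (fun i => D (Sum.inl i)) (D (Sum.inr j)) (fun i => y (Sum.inl i))
        (y (Sum.inr j))
    rw [e1, e2]
    have e3 : (∏ j : Fin k, (algebraMap ℂ R (((∏ i : Fin r, D (Sum.inl i)) *
        D (Sum.inr j)) ^ 2)) ^ s) = algebraMap ℂ R ((∏ i : Fin r, D (Sum.inl i)) ^ (2 * s * k) *
          (∏ j : Fin k, D (Sum.inr j)) ^ (2 * s)) := by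
      rw [map_mul, map_pow, map_pow, map_prod (algebraMap ℂ R) (fun j => D (Sum.inr j)),
        ← Finset.prod_pow]
      have : (algebraMap ℂ R (∏ i : Fin r, D (Sum.inl i))) ^ (2 * s * k) =
          ∏ _j : Fin k, (algebraMap ℂ R (∏ i : Fin r, D (Sum.inl i))) ^ (2 * s) := by
        rw [Finset.prod_const, Finset.card_univ, Fintype.card_fin, ← pow_mul]
      rw [this, ← Finset.prod_mul_distrib]
      refine Finset.prod_congr rfl fun j _ => ?_
      rw [← map_pow, ← map_pow, ← map_pow, ← map_mul]
      congr 1
      ring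
    rw [e3]
    simp only [map_mul, map_pow, mul_pow]
    ring
  · -- transvections
    rintro ⟨i, j, hij, a⟩ y hy
    rw [Matrix.TransvectionStruct.toMatrix_mk, Q2_transv,
      Matrix.det_transvection_of_ne i j hij, one_pow, map_one, one_mul]
    rcases i with i | i <;> rcases j with j | j
    · -- both in the first block
      have hne : i ≠ j := fun h => hij (by rw [h])
      have e1 : (fun l => Function.update y (Sum.inl j) (y (Sum.inl j) + a • y (Sum.inl i))
          (Sum.inl l)) = Function.update (fun l => y (Sum.inl l)) j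
            (y (Sum.inl j) + a • y (Sum.inl i)) := by
        funext l
        by_cases hl : l = j
        · subst hl
          rw [Function.update_self, Function.update_self]
        · rw [Function.update_of_ne (fun h => hl (Sum.inl_injective h)),
            Function.update_of_ne hl]
      have e2 : (dl (Function.update y (Sum.inl j) (y (Sum.inl j) + a • y (Sum.inl i))) : R) =
          dl y := by
        unfold dl
        rw [e1]
        exact Q2_trans (fun l => y (Sum.inl l)) i j hne a
      have e3 : (Ev s (Function.update y (Sum.inl j) (y (Sum.inl j) + a • y (Sum.inl i))) : R) =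
          Ev s y := by
        unfold Ev Ek
        rw [e1]
        refine Finset.prod_congr rfl fun l _ => ?_
        beta_reduce
        rw [Function.update_of_ne Sum.inr_ne_inl]
        congr 1
        exact Q2_Dl1_vv (fun l => y (Sum.inl l)) i j hne a _
      rw [e2, e3]
    · -- `c_j ↦ c_j + a v_i`
      have e1 : (fun l => Function.update y (Sum.inr j) (y (Sum.inr j) + a • y (Sum.inl i))
          (Sum.inl l)) = (fun l => y (Sum.inl l)) := by
        funext l
        rw [Function.update_of_ne Sum.inl_ne_inr]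
      have e2 : (dl (Function.update y (Sum.inr j) (y (Sum.inr j) + a • y (Sum.inl i))) : R) =
          dl y := by
        unfold dl
        rw [e1]
      have e3 : (Ev s (Function.update y (Sum.inr j) (y (Sum.inr j) + a • y (Sum.inl i))) : R) =
          Ev s y := by
        unfold Ev Ek
        rw [e1]
        refine Finset.prod_congr rfl fun l _ => ?_
        congr 1
        beta_reduce
        by_cases hl : l = j
        · subst hl
          rw [Function.update_self]
          exact Q2_Dl1_cv (fun l => y (Sum.inl l)) i a _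
        · rw [Function.update_of_ne (fun h => hl (Sum.inr_injective h))]
      rw [e2, e3]
    · exact frame_trans3 h1 h2 y hy i j a
    · -- both in the second block
      have hne : i ≠ j := fun h => hij (by rw [h])
      have e1 : (fun l => Function.update y (Sum.inr j) (y (Sum.inr j) + a • y (Sum.inr i))
          (Sum.inl l)) = (fun l => y (Sum.inl l)) := by
        funext l
        rw [Function.update_of_ne Sum.inl_ne_inr]
      have e2 : (dl (Function.update y (Sum.inr j) (y (Sum.inr j) + a • y (Sum.inr i))) : R) =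
          dl y := by
        unfold dl
        rw [e1]
      have e3 : (Ev s (Function.update y (Sum.inr j) (y (Sum.inr j) + a • y (Sum.inr i))) : R) =
          Ev s y := by
        unfold Ev Ek
        rw [e1, ← Finset.mul_prod_erase _ _ (Finset.mem_univ i),
          ← Finset.mul_prod_erase Finset.univ
            (fun l => (Dl1 (fun i => y (Sum.inl i)) (y (Sum.inr l)) : R) ^ s)
            (Finset.mem_univ i)]
        beta_reduce
        rw [Function.update_of_ne (fun h => hne (Sum.inr_injective h))]
        refine Q2_annP _ _ _ _ s fun l _ => ?_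
        by_cases hl : l = j
        · subst hl
          rw [Function.update_self, Dl1_add, mul_add, mul_add]
          have f1 : (Dl1 (fun i => y (Sum.inl i)) (y (Sum.inr i)) : R) ^ s *
              (2 * a) • xf (til (fun i => y (Sum.inl i)) (y (Sum.inr l)))
                (cst (y (Sum.inr i))) = 0 := by
            rw [xf_til_comm, mul_smul_comm, KI h1, smul_zero]
          have f2 : (Dl1 (fun i => y (Sum.inl i)) (y (Sum.inr i)) : R) ^ s *
              a ^ 2 • Dl1 (fun i => y (Sum.inl i)) (y (Sum.inr i)) = 0 := by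
            rw [mul_smul_comm, ← pow_succ]
            unfold Dl1
            rw [h1, smul_zero]
          rw [f1, f2, add_zero, add_zero]
        · rw [Function.update_of_ne (fun h => hl (Sum.inr_injective h))]
      rw [e2, e3]
  · -- products
    intro A B hA hB PA PB y hy
    have hy' := Q2_li y hy A hA
    have q1 := PA y hy
    have q2 := PB _ hy'
    have e0 : (fun j => ∑ i, (A * B) i j • y i) =
        fun j => ∑ i, B i j • ∑ l, A l i • y l := by
      funext j
      simp only [Matrix.mul_apply, Finset.sum_smul, Finset.smul_sum, smul_smul]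
      rw [Finset.sum_comm]
      refine Finset.sum_congr rfl fun l _ => Finset.sum_congr rfl fun i _ => ?_
      rw [mul_comm]
    rw [e0, Matrix.det_mul, mul_pow, map_mul]
    set y' : Fin r ⊕ Fin k → V := fun j => ∑ i, A i j • y i with hy'def
    set y'' : Fin r ⊕ Fin k → V := fun j => ∑ i, B i j • y' i with hy''def
    have hnz : (dl y' : R) ^ (s * k) ∈ nonZeroDivisors R :=
      pow_mem (h2 _ (Q2_inl hy')) _
    have k3 : ((Ev s y'' : R) * dl y ^ (s * k) * dl y'' ^ s -
        algebraMap ℂ R (A.det ^ (2 * s)) * algebraMap ℂ R (B.det ^ (2 * s)) *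
          (Ev s y * dl y'' ^ (s * k) * dl y ^ s)) * dl y' ^ (s * k) = 0 := by
      calc _ = (Ev s y'' * dl y' ^ (s * k) * dl y'' ^ s) * dl y ^ (s * k) -
            algebraMap ℂ R (B.det ^ (2 * s)) * dl y'' ^ (s * k) *
              (algebraMap ℂ R (A.det ^ (2 * s)) *
                (Ev s y * dl y' ^ (s * k) * dl y ^ s)) := by ring
        _ = 0 := by
          rw [q2, ← q1]
          ring
    exact sub_eq_zero.1 ((mem_nonZeroDivisors_iff_right.1 hnz) _ k3)

/-- paper 5.7 (c2) -/
theorem det_mul_Ev {r s k : ℕ} (h1 : HP1 R r s) (y : Fin r ⊕ Fin k → V) (a b : Fin (r + 1) → V)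
    (ha : ∀ i, a i ∈ Submodule.span ℂ (Set.range y)) :
    (Matrix.det (Matrix.of fun i j : Fin (r + 1) => (xv (a i) (b j) : R))) *
      (Ev s y * dl y ^ (r + 1)) = 0 := by
  set v : Fin r → V := fun i => y (Sum.inl i) with hv
  set E : R := Ev s y with hE
  set X : Matrix (Fin (r + 1)) (Fin (r + 1)) R := Matrix.of fun i j => (xv (a i) (b j) : R)
    with hX
  have hspan : ∀ i, a i ∈ Submodule.span ℂ (Set.range v ∪ Set.range fun j => y (Sum.inr j)) := by
    intro i
    refine Submodule.span_mono ?_ (ha i)
    rintro _ ⟨l, rfl⟩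
    rcases l with l | l
    · exact Or.inl ⟨l, rfl⟩
    · exact Or.inr ⟨l, rfl⟩
  have hrad : ∀ i, (til v (a i) : VR R) ∈ Rad E := fun i =>
    til_mem_Rad h1 v (fun j => y (Sum.inr j)) (a i) (hspan i)
  have k1 : E * ((dl y : R) • X).det =
      E * (Matrix.of fun i j => (xf (pit v (a i)) (cst (b j)) : R)).det := by
    refine Q2_ann E _ _ fun i j => ?_
    rw [Matrix.smul_apply, Matrix.of_apply, hX, Matrix.of_apply, smul_eq_mul]
    have h3 : E * xf (til v (a i)) (cst (b j)) = 0 := hrad i (cst (b j))
    unfold til at h3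
    rw [map_sub, LinearMap.sub_apply, map_smul, LinearMap.smul_apply, smul_eq_mul, mul_sub] at h3
    exact sub_eq_zero.1 h3
  have k2 : (Matrix.of fun i j : Fin (r + 1) => (xf (pit v (a i)) (cst (b j)) : R)).det = 0 := by
    let Cm : Matrix (Fin (r + 1)) (Fin (r + 1)) R := Matrix.of fun i =>
      (Fin.snoc (fun k => ∑ l, (xv (a i) (v l) : R) *
        (gramM v : Matrix (Fin r) (Fin r) R).adjugate l k) 0 : Fin (r + 1) → R)
    let Xm : Matrix (Fin (r + 1)) (Fin (r + 1)) R := Matrix.of fun k j =>
      (Fin.snoc (fun k => (xf (cst (v k)) (cst (b j)) : R)) 0 : Fin (r + 1) → R) k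
    have h4 : (Matrix.of fun i j : Fin (r + 1) => (xf (pit v (a i)) (cst (b j)) : R)) =
        Cm * Xm := by
      ext i j
      rw [Matrix.mul_apply, Fin.sum_univ_castSucc]
      simp only [Cm, Xm, Matrix.of_apply, Fin.snoc_castSucc, Fin.snoc_last, mul_zero, add_zero]
      unfold pit
      rw [map_sum, LinearMap.sum_apply]
      refine Finset.sum_congr rfl fun l _ => ?_
      rw [map_smul, LinearMap.smul_apply, smul_eq_mul]
    have h5 : Cm.det = 0 := by
      apply Matrix.det_eq_zero_of_column_eq_zero (Fin.last r)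
      intro i
      simp only [Cm, Matrix.of_apply, Fin.snoc_last]
    rw [h4, Matrix.det_mul, h5, zero_mul]
  rw [k2, mul_zero, Matrix.det_smul, Fintype.card_fin] at k1
  calc _ = E * ((dl y : R) ^ (r + 1) * X.det) := by ring
    _ = 0 := k1

end MP50e386N
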