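import Mathlib
import Pool.Agent.Lib.MP_50e386_al.Main
import Pool.Agent.Lib.MP_50e386_al.N.QDefs
import Pool.Agent.Lib.MP_50e386_al.N.T2
import Pool.Agent.Lib.MP_50e386_al.N.T3
import Pool.Agent.Lib.MP_50e386_al.N.Q1
import Pool.Agent.Lib.MP_50e386_al.N.Q2
import Pool.Agent.Lib.MP_50e386_al.N.NS
import Pool.Agent.Lib.MP_50e386_al.N.TL1

/-! Paper 5.7 (c). -/

namespace MP50e386N

open MvPolynomial Pool.Agent.Lib.MP50e386

variable {R : Type} [CommRing R] [Algebra ℂ R] [GLRing R]

/-- the homomorphism from the polynomial ring on symmetric `M × M` matrices -/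
noncomputable def toR (R : Type) [CommRing R] [Algebra ℂ R] [GLRing R] (M : ℕ) :
    MvPolynomial (Sym2 (Fin M)) ℂ →ₐ[ℂ] R :=
  aeval (Sym2.lift ⟨fun i j => (GLRing.x (i : ℕ) (j : ℕ) : R), fun i j => GLRing.x_symm _ _⟩)

private theorem TL2_xv_add_left (v v' w : V) : (xv (v + v') w : R) = xv v w + xv v' w := by
  unfold xv
  rw [map_add, map_add, LinearMap.add_apply]

private theorem TL2_xv_smul_left (a : ℂ) (v w : V) : (xv (a • v) w : R) = a • xv v w := by
  unfold xv
  rw [map_smul, ← algebraMap_smul R a (cst v : VR R), map_smul, LinearMap.smul_apply,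
    algebraMap_smul]

private theorem TL2_xv_add_right (v w w' : V) : (xv v (w + w') : R) = xv v w + xv v w' := by
  rw [xv_comm, TL2_xv_add_left, xv_comm w, xv_comm w']

private theorem TL2_xv_smul_right (a : ℂ) (v w : V) : (xv v (a • w) : R) = a • xv v w := by
  rw [xv_comm, TL2_xv_smul_left, xv_comm w]

private noncomputable def TL2_xvL (R : Type) [CommRing R] [Algebra ℂ R] [GLRing R] :
    V →ₗ[ℂ] V →ₗ[ℂ] R :=
  LinearMap.mk₂ ℂ (fun v w => (xv v w : R)) TL2_xv_add_left TL2_xv_smul_left TL2_xv_add_right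
    TL2_xv_smul_right

theorem toR_bilM (M : ℕ) (x y : Fin M → ℂ) :
    toR R M (MP50e386.bilM M x y) = xv (MP50e386.jN M x) (MP50e386.jN M y) := by
  have h0 : ∀ z : Fin M → ℂ, MP50e386.jN M z = ∑ i, z i • ee (i : ℕ) := by
    intro z
    unfold MP50e386.jN
    rw [Fintype.linearCombination_apply]
  have h1 : ∀ i j : ℕ, TL2_xvL R (ee i) (ee j) = GLRing.x i j := fun i j => xv_ee i j
  have h2 : ∀ v w : V, (xv v w : R) = TL2_xvL R v w := fun _ _ => rfl
  rw [h2, h0, h0, LinearMap.map_sum₂]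
  unfold MP50e386.bilM
  rw [map_sum]
  refine Finset.sum_congr rfl fun i _ => ?_
  rw [map_sum, map_sum]
  refine Finset.sum_congr rfl fun j _ => ?_
  rw [map_smul, map_smul, map_smul, LinearMap.smul_apply, h1, smul_smul, mul_comm (y j)]
  congr 1
  unfold toR
  rw [aeval_X, Sym2.lift_mk]

private theorem TL2_range (n : ℕ) : LinearMap.range (MP50e386.jN (2 * n)) =
    Submodule.span ℂ ((fun i : ℕ => ee i) '' Set.Iio (2 * n)) := by
  unfold MP50e386.jN
  rw [Fintype.range_linearCombination]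
  congr 1
  ext x
  constructor
  · rintro ⟨i, rfl⟩
    exact ⟨i.val, i.2, rfl⟩
  · rintro ⟨i, hi, rfl⟩
    exact ⟨⟨i, hi⟩, rfl⟩

private theorem TL2_mem_L {n : ℕ} {v : V}
    (h : v ∈ Submodule.span ℂ ((fun i : ℕ => ee i) '' Set.Iio (2 * n))) :
    ∃ x, MP50e386.jN (2 * n) x = v := by
  rw [← TL2_range] at h
  exact h

/-- the symplectic form on `ℂ^(2n)` -/
private noncomputable def TL2_F (n : ℕ) : (Fin (2 * n) → ℂ) →ₗ[ℂ] (Fin (2 * n) → ℂ) →ₗ[ℂ] ℂ :=
  MP50e386.FN MP50e386.pis MP50e386.sis (2 * n)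

private theorem TL2_F_apply (n : ℕ) (x y : Fin (2 * n) → ℂ) :
    TL2_F n x y = om (MP50e386.jN (2 * n) x) (MP50e386.jN (2 * n) y) := by
  unfold TL2_F om
  rw [MP50e386.FN_apply, MP50e386.sympForm_eq]

private theorem TL2_F_anti (n : ℕ) (x y : Fin (2 * n) → ℂ) : TL2_F n x y = - TL2_F n y x := by
  unfold TL2_F
  rw [MP50e386.FN_apply, MP50e386.FN_apply, MP50e386.frm_refl_eps MP50e386.gdata_sp]
  ring

/-- the extension step -/
private theorem TL2_step (n r k : ℕ) (hrk : r + k ≤ n) (M : ℕ) (hM : M < 2 * n)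
    (u : Fin M → (Fin (2 * n) → ℂ)) (hu : LinearIndependent ℂ u)
    (hi : ∀ i j : Fin M, i.val < r + k → j.val < r + k → TL2_F n (u i) (u j) = 0) :
    ∃ x : Fin (2 * n) → ℂ, LinearIndependent ℂ (Fin.snoc u x : Fin (M + 1) → (Fin (2 * n) → ℂ)) ∧
      ∀ i j : Fin (M + 1), i.val < r + k → j.val < r + k →
        TL2_F n ((Fin.snoc u x : Fin (M + 1) → (Fin (2 * n) → ℂ)) i)
          ((Fin.snoc u x : Fin (M + 1) → (Fin (2 * n) → ℂ)) j) = 0 := by
  have hspan : Module.finrank ℂ (Submodule.span ℂ (Set.range u)) = M := by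
    rw [finrank_span_eq_card hu, Fintype.card_fin]
  by_cases hMk : M < r + k
  · let L : (Fin (2 * n) → ℂ) →ₗ[ℂ] (Fin M → ℂ) := LinearMap.pi fun i => TL2_F n (u i)
    have h1 := LinearMap.finrank_range_add_finrank_ker L
    rw [Module.finrank_fin_fun] at h1
    have h2 : Module.finrank ℂ (LinearMap.range L) ≤ M := by
      have := Submodule.finrank_le (LinearMap.range L)
      rwa [Module.finrank_fin_fun] at this
    have h3 : ¬ LinearMap.ker L ≤ Submodule.span ℂ (Set.range u) := by
      intro h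
      have := Submodule.finrank_mono h
      rw [hspan] at this
      omega
    obtain ⟨x, hx1, hx2⟩ := Set.not_subset.1 h3
    have hx3 : ∀ i, TL2_F n (u i) x = 0 := by
      intro i
      have : L x = 0 := hx1
      exact congrFun this i
    refine ⟨x, linearIndependent_finSnoc.2 ⟨hu, hx2⟩, ?_⟩
    intro i j
    refine Fin.lastCases ?_ (fun i => ?_) i
    · refine Fin.lastCases ?_ (fun j => ?_) j
      · intro _ _
        rw [Fin.snoc_last]
        have := TL2_F_anti n x x
        have h4 : 2 * TL2_F n x x = 0 := by linear_combination this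
        simpa using h4
      · intro _ _
        rw [Fin.snoc_last, Fin.snoc_castSucc, TL2_F_anti, hx3, neg_zero]
    · refine Fin.lastCases ?_ (fun j => ?_) j
      · intro _ _
        rw [Fin.snoc_last, Fin.snoc_castSucc, hx3]
      · intro h5 h6
        rw [Fin.snoc_castSucc, Fin.snoc_castSucc]
        exact hi i j h5 h6
  · have h3 : ¬ (⊤ : Submodule ℂ (Fin (2 * n) → ℂ)) ≤ Submodule.span ℂ (Set.range u) := by
      intro h
      have := Submodule.finrank_mono h
      rw [hspan, finrank_top, Module.finrank_fin_fun] at this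
      omega
    obtain ⟨x, _, hx2⟩ := Set.not_subset.1 h3
    refine ⟨x, linearIndependent_finSnoc.2 ⟨hu, hx2⟩, ?_⟩
    intro i j
    refine Fin.lastCases ?_ (fun i => ?_) i
    · intro h5 _
      rw [Fin.val_last] at h5
      exact absurd h5 hMk
    · refine Fin.lastCases ?_ (fun j => ?_) j
      · intro _ h6
        rw [Fin.val_last] at h6
        exact absurd h6 hMk
      · intro h5 h6
        rw [Fin.snoc_castSucc, Fin.snoc_castSucc]
        exact hi i j h5 h6

private theorem TL2_ext (n r k : ℕ) (hrk : r + k ≤ n) (v : Fin r → (Fin (2 * n) → ℂ))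
    (hv : LinearIndependent ℂ v) (hi : ∀ i j, TL2_F n (v i) (v j) = 0) (M : ℕ) (hrM : r ≤ M)
    (hM : M ≤ 2 * n) :
    ∃ u : Fin M → (Fin (2 * n) → ℂ), LinearIndependent ℂ u ∧
      (∀ i j : Fin M, i.val < r + k → j.val < r + k → TL2_F n (u i) (u j) = 0) ∧
      ∀ (i : Fin r) (h : i.val < M), u ⟨i.val, h⟩ = v i := by
  induction M, hrM using Nat.le_induction with
  | base =>
    refine ⟨v, hv, fun i j _ _ => hi i j, fun i h => rfl⟩
  | succ M hrM ih =>
    obtain ⟨u, hu1, hu2, hu3⟩ := ih (by omega)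
    obtain ⟨x, hx1, hx2⟩ := TL2_step n r k hrk M (by omega) u hu1 hu2
    refine ⟨Fin.snoc u x, hx1, hx2, ?_⟩
    intro i h
    have h1 : i.val < M := lt_of_lt_of_le i.2 hrM
    have h2 : (⟨i.val, h⟩ : Fin (M + 1)) = Fin.castSucc ⟨i.val, h1⟩ := rfl
    rw [h2, Fin.snoc_castSucc]
    exact hu3 i h1

/-- an isotropic independent family of `r` vectors of `ℂ^(2n)` extends to a basis
whose first `r + k` vectors are isotropic (`r + k ≤ n`) -/
theorem exists_basis_iso (n r k : ℕ) (hrk : r + k ≤ n) (v : Fin r → V)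
    (hv : LinearIndependent ℂ v) (hvi : Iso v)
    (hvL : ∀ i, v i ∈ Submodule.span ℂ ((fun i : ℕ => ee i) '' Set.Iio (2 * n))) :
    ∃ y : Fin r ⊕ Fin (2 * n - r) → V, LinearIndependent ℂ y ∧
      Submodule.span ℂ (Set.range y) = Submodule.span ℂ ((fun i : ℕ => ee i) '' Set.Iio (2 * n)) ∧
      (∀ i, y (Sum.inl i) = v i) ∧
      ∀ e : Fin k → V, (∀ j, ∃ hj : j.val < 2 * n - r, e j = y (Sum.inr ⟨j.val, hj⟩)) →
        Iso (Sum.elim v e) := by
  choose v' hv' using fun i => TL2_mem_L (hvL i)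
  have hvv : (fun i => MP50e386.jN (2 * n) (v' i)) = v := funext hv'
  have hli : LinearIndependent ℂ v' := by
    apply LinearIndependent.of_comp (MP50e386.jN (2 * n))
    have : (MP50e386.jN (2 * n)) ∘ v' = v := hvv
    rw [this]
    exact hv
  have hiso : ∀ i j, TL2_F n (v' i) (v' j) = 0 := by
    intro i j
    rw [TL2_F_apply, hv', hv']
    exact hvi i j
  obtain ⟨u, hu1, hu2, hu3⟩ := TL2_ext n r k hrk v' hli hiso (2 * n) (by omega) le_rfl
  have hru : ∀ i : Fin r, i.val < 2 * n := fun i => by have := i.2; omega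
  have hru' : ∀ j : Fin (2 * n - r), r + j.val < 2 * n := fun j => by have := j.2; omega
  let e : Fin r ⊕ Fin (2 * n - r) → Fin (2 * n) :=
    Sum.elim (fun i => ⟨i.val, hru i⟩) (fun j => ⟨r + j.val, hru' j⟩)
  have he : Function.Injective e := by
    rintro (a | a) (b | b) hab
    · have : a.val = b.val := congrArg (fun t : Fin (2 * n) => t.val) hab
      rw [Fin.ext this]
    · have h : a.val = r + b.val := congrArg (fun t : Fin (2 * n) => t.val) hab
      have := a.2
      omega
    · have h : r + a.val = b.val := congrArg (fun t : Fin (2 * n) => t.val) hab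
      have := b.2
      omega
    · have h : r + a.val = r + b.val := congrArg (fun t : Fin (2 * n) => t.val) hab
      have : a.val = b.val := by omega
      rw [Fin.ext this]
  have hue : LinearIndependent ℂ (u ∘ e) := hu1.comp e he
  have hspan : Submodule.span ℂ (Set.range (u ∘ e)) = ⊤ := by
    apply hue.span_eq_top_of_card_eq_finrank'
    rw [Module.finrank_fin_fun, Fintype.card_sum, Fintype.card_fin, Fintype.card_fin]
    omega
  refine ⟨fun a => MP50e386.jN (2 * n) (u (e a)), ?_, ?_, ?_, ?_⟩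
  · exact hue.map' (MP50e386.jN (2 * n))
      (LinearMap.ker_eq_bot.2 (MP50e386.jN_injective (2 * n)))
  · have h1 : Set.range (fun a => MP50e386.jN (2 * n) (u (e a))) =
        (MP50e386.jN (2 * n)) '' (Set.range (u ∘ e)) := by
      rw [← Set.range_comp]
      rfl
    rw [h1, Submodule.span_image, hspan, Submodule.map_top, TL2_range]
  · intro i
    change MP50e386.jN (2 * n) (u ⟨i.val, hru i⟩) = v i
    rw [hu3 i (hru i), hv']
  · intro e' he'
    have key : ∀ a : Fin r ⊕ Fin k, ∃ i : Fin (2 * n), i.val < r + k ∧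
        Sum.elim v e' a = MP50e386.jN (2 * n) (u i) := by
      rintro (a | a)
      · refine ⟨⟨a.val, hru a⟩, ?_, ?_⟩
        · have := a.2
          change a.val < r + k
          omega
        · rw [Sum.elim_inl, hu3 a (hru a), hv']
      · obtain ⟨hj, hj'⟩ := he' a
        refine ⟨⟨r + a.val, hru' ⟨a.val, hj⟩⟩, ?_, ?_⟩
        · have := a.2
          change r + a.val < r + k
          omega
        · rw [Sum.elim_inr, hj']
          rfl
    intro a b
    obtain ⟨i, hi, hia⟩ := key a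
    obtain ⟨j, hj, hjb⟩ := key b
    rw [hia, hjb, ← TL2_F_apply]
    exact hu2 i j hi hj

/-- paper 5.7 (c1) -/
private theorem TL2_c1 {r s : ℕ} (h1 : HP1 R r s) (h2 : HP2 R r) (N : Ideal R) (k q n : ℕ)
    (hrk : r + k ≤ n)
    (hN : ∀ (w : Fin r → V) (c : Fin k → V), Iso (Sum.elim w c) → hh s q w c ∈ N)
    (y : Fin r ⊕ Fin (2 * n - r) → V) (hy : LinearIndependent ℂ y)
    (hyL : Submodule.span ℂ (Set.range y) =
      Submodule.span ℂ ((fun i : ℕ => ee i) '' Set.Iio (2 * n)))
    (v : Fin r → V)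
    (hvL : ∀ i, v i ∈ Submodule.span ℂ ((fun i : ℕ => ee i) '' Set.Iio (2 * n)))
    (hvi : Iso v) :
    (Ev s y * dl y ^ s * Dl v ^ (s * (2 * n - r) + q + 1) : R) ∈ N := by
  by_cases hv : LinearIndependent ℂ v
  swap
  · rw [Dl_eq_zero v hv, pow_succ, mul_zero, mul_zero]
    exact N.zero_mem
  obtain ⟨y', hy'1, hy'2, hy'3, hy'4⟩ := exists_basis_iso n r k hrk v hv hvi hvL
  have hv' : (fun i => y' (Sum.inl i)) = v := funext hy'3
  have h3 : (hh s q v (fun j => y' (Sum.inr j)) : R) ∈ N :=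
    hh_mem_mono (by omega) le_rfl N hN v (fun j => y' (Sum.inr j)) hy'4
  have hg : ∀ j, ∃ c : Fin r ⊕ Fin (2 * n - r) → ℂ, ∑ i, c i • y i = y' j := by
    intro j
    have h4 : y' j ∈ Submodule.span ℂ (Set.range y) := by
      rw [hyL, ← hy'2]
      exact Submodule.subset_span ⟨j, rfl⟩
    exact (Submodule.mem_span_range_iff_exists_fun ℂ).1 h4
  choose c hc using hg
  let g : Matrix (Fin r ⊕ Fin (2 * n - r)) (Fin r ⊕ Fin (2 * n - r)) ℂ :=
    Matrix.of fun i j => c j i
  have hgy : (fun j => ∑ i, g i j • y i) = y' := funext hc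
  have hdet : g.det ≠ 0 := by
    intro h0
    obtain ⟨x, hx, hx0⟩ := Matrix.exists_mulVec_eq_zero_iff.2 h0
    apply hx
    have h5 : ∑ j, x j • y' j = 0 := by
      have h6 : ∀ j, x j • y' j = ∑ i, (g i j * x j) • y i := by
        intro j
        rw [← hc j, Finset.smul_sum]
        refine Finset.sum_congr rfl fun i _ => ?_
        rw [smul_smul, mul_comm]
        rfl
      rw [Finset.sum_congr rfl fun j _ => h6 j, Finset.sum_comm]
      refine Finset.sum_eq_zero fun i _ => ?_
      rw [← Finset.sum_smul]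
      have h7 : ∑ j, g i j * x j = 0 := congrFun hx0 i
      rw [h7, zero_smul]
    funext j
    exact Fintype.linearIndependent_iff.1 hy'1 x h5 j
  have h4 := frame h1 h2 y hy g hdet
  rw [hgy] at h4
  have hdl : (dl y' : R) = Dl v := by
    unfold dl
    rw [hv']
  have hEv : (hh s q v (fun j => y' (Sum.inr j)) : R) = Ev s y' * Dl v ^ q := by
    rw [← hv']
    rfl
  rw [hdl] at h4
  rw [hEv] at h3
  have h5 : (algebraMap ℂ R ((g.det ^ (2 * s))⁻¹)) * algebraMap ℂ R (g.det ^ (2 * s)) = 1 := by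
    rw [← map_mul, inv_mul_cancel₀ (pow_ne_zero _ hdet), map_one]
  have h6 : (Ev s y * dl y ^ s * Dl v ^ (s * (2 * n - r) + q + 1) : R) =
      (algebraMap ℂ R ((g.det ^ (2 * s))⁻¹) * (dl y ^ (s * (2 * n - r)) * Dl v ^ (s + 1))) *
        (Ev s y' * Dl v ^ q) := by
    rw [add_assoc, pow_add (Dl v : R) (s * (2 * n - r)) (q + 1), pow_add (Dl v : R) q 1,
      pow_add (Dl v : R) s 1, pow_one]
    linear_combination
      (-(Ev s y * dl y ^ s * Dl v ^ (s * (2 * n - r)) * (Dl v ^ q * Dl v)) : R) * h5 -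
      (algebraMap ℂ R ((g.det ^ (2 * s))⁻¹) * (Dl v ^ q * Dl v)) * h4
  rw [h6]
  exact N.mul_mem_left _ h3

theorem TLc {r s : ℕ} (h1 : HP1 R r s) (h2 : HP2 R r) (N : Ideal R) (k q n : ℕ)
    (hn : 2 * r ≤ n) (hrk : r + k ≤ n)
    (hN : ∀ (w : Fin r → V) (c : Fin k → V), Iso (Sum.elim w c) → hh s q w c ∈ N) :
    ∃ q' : ℕ, ∀ y : Fin r ⊕ Fin (2 * n - r) → V, LinearIndependent ℂ y →
      Submodule.span ℂ (Set.range y) = Submodule.span ℂ ((fun i : ℕ => ee i) '' Set.Iio (2 * n)) →
      hh s q' (fun i => y (Sum.inl i)) (fun j => y (Sum.inr j)) ∈ N := by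
  obtain ⟨q1, hq1⟩ := NS n r (s * (2 * n - r) + q + 1) hn (by omega)
  refine ⟨q1 + (s + r + 1), fun y hy hyL => ?_⟩
  have hc1 := TL2_c1 h1 h2 N k q n hrk hN y hy hyL
  have hmem : ∀ i, y i ∈ Submodule.span ℂ ((fun i : ℕ => ee i) '' Set.Iio (2 * n)) := by
    intro i
    rw [← hyL]
    exact Submodule.subset_span ⟨i, rfl⟩
  choose v hv using fun i : Fin r => TL2_mem_L (hmem (Sum.inl i))
  have hdet : ∀ (t : ℕ) (a b : Fin t → (Fin (2 * n) → ℂ)),
      toR R (2 * n) (Matrix.det (Matrix.of fun i j : Fin t => MP50e386.bilM (2 * n) (a i) (b j))) =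
        Matrix.det (Matrix.of fun i j : Fin t =>
          (xv (MP50e386.jN (2 * n) (a i)) (MP50e386.jN (2 * n) (b j)) : R)) := by
    intro t a b
    rw [AlgHom.map_det]
    congr 1
    ext i j
    rw [AlgHom.mapMatrix_apply, Matrix.map_apply, Matrix.of_apply, Matrix.of_apply, toR_bilM]
  have key : ∀ f ∈ Ideal.span
          ({f | ∃ a b : Fin (r + 1) → (Fin (2 * n) → ℂ),
              f = Matrix.det (Matrix.of fun i j : Fin (r + 1) =>
                MP50e386.bilM (2 * n) (a i) (b j))} ∪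
           {f | ∃ v' : Fin r → (Fin (2 * n) → ℂ),
              (∀ i j, om (MP50e386.jN (2 * n) (v' i)) (MP50e386.jN (2 * n) (v' j)) = 0) ∧
              f = (Matrix.det (Matrix.of fun i j : Fin r =>
                MP50e386.bilM (2 * n) (v' i) (v' j))) ^ (s * (2 * n - r) + q + 1)}),
      toR R (2 * n) f * (Ev s y * dl y ^ (s + r + 1)) ∈ N := by
    intro f hf
    induction hf using Submodule.span_induction with
    | mem f hf =>
      rcases hf with ⟨a, b, rfl⟩ | ⟨v', hv', rfl⟩
      · rw [hdet]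
        have h3 := det_mul_Ev h1 y (fun i => MP50e386.jN (2 * n) (a i))
          (fun i => MP50e386.jN (2 * n) (b i)) (fun i => by
            rw [hyL, ← TL2_range]
            exact ⟨a i, rfl⟩)
        have h4 : (Matrix.det (Matrix.of fun i j : Fin (r + 1) =>
              (xv (MP50e386.jN (2 * n) (a i)) (MP50e386.jN (2 * n) (b j)) : R))) *
            (Ev s y * dl y ^ (s + r + 1)) = 0 := by
          rw [add_assoc, pow_add]
          linear_combination dl y ^ s * h3
        rw [h4]
        exact N.zero_mem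
      · rw [map_pow, hdet]
        have h3 := hc1 (fun i => MP50e386.jN (2 * n) (v' i)) (fun i => by
            rw [← TL2_range]
            exact ⟨v' i, rfl⟩) hv'
        have h4 := N.mul_mem_left (dl y ^ (r + 1)) h3
        have h5 : (Matrix.det (Matrix.of fun i j : Fin r =>
              (xv (MP50e386.jN (2 * n) (v' i)) (MP50e386.jN (2 * n) (v' j)) : R))) ^
              (s * (2 * n - r) + q + 1) * (Ev s y * dl y ^ (s + r + 1)) =
            dl y ^ (r + 1) * (Ev s y * dl y ^ s *
              Dl (fun i => MP50e386.jN (2 * n) (v' i)) ^ (s * (2 * n - r) + q + 1)) := by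
          have h6 : (Matrix.det (Matrix.of fun i j : Fin r =>
              (xv (MP50e386.jN (2 * n) (v' i)) (MP50e386.jN (2 * n) (v' j)) : R))) =
              Dl (fun i => MP50e386.jN (2 * n) (v' i)) := rfl
          rw [h6]
          ring
        rw [h5]
        exact h4
    | zero =>
      rw [map_zero, zero_mul]
      exact N.zero_mem
    | add x y _ _ hx hy =>
      rw [map_add, add_mul]
      exact N.add_mem hx hy
    | smul a x _ hx =>
      rw [smul_eq_mul, map_mul, mul_assoc]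
      exact N.mul_mem_left _ hx
  have h3 := key _ (hq1 v)
  rw [map_pow, hdet] at h3
  have h4 : (fun i => MP50e386.jN (2 * n) (v i)) = fun i => y (Sum.inl i) := funext hv
  have h5 : (Matrix.det (Matrix.of fun i j : Fin r =>
      (xv (MP50e386.jN (2 * n) (v i)) (MP50e386.jN (2 * n) (v j)) : R))) = dl y := by
    unfold dl
    rw [← h4]
    rfl
  rw [h5] at h3
  have h6 : (hh s (q1 + (s + r + 1)) (fun i => y (Sum.inl i)) (fun j => y (Sum.inr j)) : R) =
      dl y ^ q1 * (Ev s y * dl y ^ (s + r + 1)) := by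
    have h7 : (hh s (q1 + (s + r + 1)) (fun i => y (Sum.inl i)) (fun j => y (Sum.inr j)) : R) =
      Ev s y * dl y ^ (q1 + (s + r + 1)) := rfl
    rw [h7, pow_add]
    ring
  rw [h6]
  exact h3

end MP50e386N
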