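import Mathlib
import Pool.Agent.Lib.MP_50e386_al.N.MDefs
import Pool.Agent.Lib.MP_50e386_al.N.Good3
import Pool.Agent.Lib.MP_50e386_al.N.T2
import Pool.Agent.Lib.MP_50e386_al.N.T8
import Pool.Agent.Lib.MP_50e386_al.N.G3
import Pool.Agent.Lib.MP_50e386_al.N.M1m
import Pool.Agent.Lib.MP_50e386_al.N.M2m

/-! Main step (paper 6.3, 6.4). -/

namespace MP50e386N

open MvPolynomial Pool.Agent.Lib.MP50e386

variable {R : Type} [CommRing R] [Algebra ℂ R] [GLRing R]

/-- the facts of 6.1 and 6.2 for a `GL`-stable submodule -/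
private theorem m3_data {r s : ℕ} {h : Ideal R} (P : Pkg R r s h) (S : Finset ℕ)
    (IH : ∀ S' : Finset ℕ, S'.card < S.card → ClaimS (R := R) h S')
    (hl : ∀ p ∈ S.offDiag.toList, p.1 ∈ S ∧ p.2 ∈ S ∧ p.1 ≠ p.2) (L : ℕ)
    (hL : MS R S ≤ BD R L S.card) (M : Submodule R (U R)) (hM : GLS M) (hMS : M ≤ MS R S) :
    (∀ n, Good h n (M2 S M)) ∧ AR h (M2 S M) M ∧ ∃ a : ℕ, h ^ a • M2 S M ≤ nn M := by
  have hgood := good_GLS h P.p6 P.p7 L S.card M hM (hMS.trans hL)
  obtain ⟨h1, h2⟩ := kerL_down IH S.offDiag.toList hl M hM.gs hMS hgood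
  exact ⟨h1, h2, bound62 P S M hM hMS h2⟩

theorem main_step {r s : ℕ} {h : Ideal R} (P : Pkg R r s h) : ∀ S : Finset ℕ, ClaimS h S := by
  intro S
  induction hc : S.card using Nat.strong_induction_on generalizing S with
  | _ c ihc =>
    have IH : ∀ S' : Finset ℕ, S'.card < S.card → ClaimS (R := R) h S' :=
      fun S' hS' => ihc S'.card (hc ▸ hS') S' rfl
    have hl : ∀ p ∈ S.offDiag.toList, p.1 ∈ S ∧ p.2 ∈ S ∧ p.1 ≠ p.2 := by
      intro p hp
      rw [Finset.mem_toList, Finset.mem_offDiag] at hp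
      exact hp
    obtain ⟨L, hL⟩ : ∃ L, MS R S ≤ BD R L S.card :=
      ⟨S.sup id + 1, MS_le_BD S _ fun a ha => Nat.lt_succ_of_le (Finset.le_sup (f := id) ha)⟩
    have data := m3_data P S IH hl L hL
    constructor
    · intro N hN hNS
      have hNM : N ≤ M1 S N := le_M1 hN hNS
      obtain ⟨h1, -, a, ha⟩ := data (M1 S N) (M1_GLS S N) (M1_le S N)
      have hk : kerL S.offDiag.toList N = N ⊓ M2 S (M1 S N) := kerL_eq_inf _ hNM
      refine kerL_up IH S.offDiag.toList hl N hN hNS ?_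
      refine good_of_pow_smul_le h (a := a) (good_pow h P.gl P.p6 P.p7 a) (kerL_mono _ hNM) ?_ h1
      rw [hk]
      exact le_inf (ha.trans (nn_M1_le S N)) Submodule.smul_le_right
    · intro N hmono hN
      obtain ⟨n0, hn0⟩ := P.p6 L S.card (fun i => M1 S (N i)) (fun i j hij => M1_mono (hmono hij))
        (fun i => ⟨M1_GLS S _, bot_le, (M1_le S _).trans hL⟩)
      set M : Submodule R (U R) := M1 S (N n0) with hM
      have hMG : GLS M := M1_GLS S _
      have hMS : M ≤ MS R S := M1_le S _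
      have hNM : ∀ i, N i ≤ M := by
        intro i
        have h1 : N i ≤ N (max i n0) := hmono (le_max_left _ _)
        have h2 : N (max i n0) ≤ M1 S (N (max i n0)) := le_M1 (hN _).1 (hN _).2.2
        have h3 : M1 S (N (max i n0)) = M := hn0 _ (le_max_right _ _)
        exact h1.trans (h3 ▸ h2)
      obtain ⟨-, har, a, ha⟩ := data M hMG hMS
      have haN : ∀ i ≥ n0, h ^ a • M2 S M ≤ N i := by
        intro i hi
        have h3 : M1 S (N i) = M := hn0 i hi
        rw [← h3] at ha ⊢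
        exact ha.trans (nn_M1_le S (N i))
      obtain ⟨K', hK'⟩ := har a
      obtain ⟨n1, hn1⟩ := noeth_pow P L S.card M hMG (hMS.trans hL) K'
        (fun i => kerL S.offDiag.toList (N i) ⊔ h ^ K' • M)
        (fun i j hij => sup_le_sup_right (kerL_mono _ (hmono hij)) _)
        (fun i => ⟨(GS_kerL _ (hN i).1).sup (GS.smul (P.gl.pow K').gsi hMG.gs), le_sup_right,
          sup_le ((kerL_le _ _).trans (hNM i)) Submodule.smul_le_right⟩)
      refine kerL_chain IH S.offDiag.toList hl N hmono (fun i => (hN i).1) (fun i => (hN i).2.2)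
        ⟨max n0 n1, fun n hn => le_antisymm ?_ (kerL_mono _ (hmono hn))⟩
      intro f hf
      have hf1 : f ∈ kerL S.offDiag.toList (N (max n0 n1)) ⊔ h ^ K' • M := by
        have h4 : kerL S.offDiag.toList (N (max n0 n1)) ⊔ h ^ K' • M =
            kerL S.offDiag.toList (N n) ⊔ h ^ K' • M :=
          (hn1 _ (le_max_right _ _)).trans (hn1 n ((le_max_right _ _).trans hn)).symm
        rw [h4]
        exact Submodule.mem_sup_left hf
      obtain ⟨u, hu, v, hv, huv⟩ := Submodule.mem_sup.1 hf1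
      have hv2 : v ∈ M2 S M := by
        have h5 : v = f - u := by rw [← huv]; abel
        rw [h5]
        exact Submodule.sub_mem _ (kerL_mono _ (hNM n) hf) (kerL_mono _ (hNM _) hu)
      have hv3 : v ∈ h ^ a • M2 S M := hK' ⟨hv2, hv⟩
      have hv4 : v ∈ kerL S.offDiag.toList (N (max n0 n1)) := by
        rw [kerL_eq_inf S.offDiag.toList (hNM (max n0 n1))]
        exact ⟨haN _ (le_max_left _ _) hv3, hv2⟩
      rw [← huv]
      exact Submodule.add_mem _ hu hv4

end MP50e386N
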