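import Mathlib
import Pool.Agent.Lib.MP_50e386_al.Bridge
import Pool.Agent.Lib.MP_50e386_al.N.LDefs
import Pool.Agent.Lib.MP_50e386_al.N.T2
import Pool.Agent.Lib.MP_50e386_al.N.T8
import Pool.Agent.Lib.MP_50e386_al.N.L1
import Pool.Agent.Lib.MP_50e386_al.N.L5

/-! The associated graded ideal and the final theorem (paper section 7). -/

namespace MP50e386N

open MvPolynomial Pool.Agent.Lib.MP50e386

/-- ideal of the top degree parts -/
noncomputable def grI (I : Ideal MP50e386.A) : Ideal MP50e386.A :=
  Ideal.span {g | ∃ f ∈ I, g = homogeneousComponent f.totalDegree f}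

theorem grI_mono {I I' : Ideal MP50e386.A} (h : I ≤ I') : grI I ≤ grI I' := by
  unfold grI
  apply Ideal.span_mono
  rintro g ⟨f, hf, rfl⟩
  exact ⟨f, h hf, rfl⟩

attribute [local instance] MvPolynomial.gradedAlgebra

private theorem l6_hc (f : MP50e386.A) (d : ℕ) :
    (DirectSum.decompose (homogeneousSubmodule (Sym2 ℕ) ℂ) f d : MP50e386.A) =
      homogeneousComponent d f :=
  decomposition.decompose'_apply f d

private theorem l6_hc_mul {a : MP50e386.A} {k d : ℕ} (ha : a.IsHomogeneous k) (h : k ≤ d)
    (g : MP50e386.A) :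
    homogeneousComponent d (a * g) = a * homogeneousComponent (d - k) g := by
  rw [← l6_hc, ← l6_hc]
  exact DirectSum.coe_decompose_mul_of_left_mem_of_le (homogeneousSubmodule (Sym2 ℕ) ℂ) ha h

private theorem l6_hc_mul0 {a : MP50e386.A} {k d : ℕ} (ha : a.IsHomogeneous k) (h : ¬ k ≤ d)
    (g : MP50e386.A) : homogeneousComponent d (a * g) = 0 := by
  rw [← l6_hc]
  exact DirectSum.coe_decompose_mul_of_left_mem_of_not_le (homogeneousSubmodule (Sym2 ℕ) ℂ) ha h

/-- elements of `grI I` have all their components the top components of elements of `I` -/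
private theorem l6_lift {I : Ideal MP50e386.A} {g : MP50e386.A} (hg : g ∈ grI I) :
    ∀ d, ∃ f ∈ I, f.totalDegree ≤ d ∧ homogeneousComponent d f = homogeneousComponent d g := by
  unfold grI at hg
  induction hg using Submodule.span_induction with
  | mem x hx =>
    obtain ⟨f, hf, rfl⟩ := hx
    intro d
    by_cases hd : d = f.totalDegree
    · subst hd
      refine ⟨f, hf, le_refl _, ?_⟩
      rw [homogeneousComponent_of_mem (homogeneousComponent_mem _ _), if_pos rfl]
    · refine ⟨0, I.zero_mem, by simp, ?_⟩
      rw [homogeneousComponent_of_mem (homogeneousComponent_mem _ _), if_neg hd, map_zero]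
  | zero =>
    intro d
    exact ⟨0, I.zero_mem, by simp, rfl⟩
  | add x y _ _ hx hy =>
    intro d
    obtain ⟨f, hf, hfd, hfc⟩ := hx d
    obtain ⟨f', hf', hfd', hfc'⟩ := hy d
    refine ⟨f + f', I.add_mem hf hf', ?_, ?_⟩
    · exact (totalDegree_add _ _).trans (max_le hfd hfd')
    · rw [map_add, map_add, hfc, hfc']
  | smul a x _ hx =>
    intro d
    have key : ∀ k, ∃ f ∈ I, f.totalDegree ≤ d ∧
        homogeneousComponent d f = homogeneousComponent d (homogeneousComponent k a * x) := by
      intro k
      by_cases hk : k ≤ d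
      · obtain ⟨f, hf, hfd, hfc⟩ := hx (d - k)
        refine ⟨homogeneousComponent k a * f, I.mul_mem_left _ hf, ?_, ?_⟩
        · refine (totalDegree_mul _ _).trans ?_
          have h1 := (homogeneousComponent_isHomogeneous k a).totalDegree_le
          omega
        · rw [l6_hc_mul (homogeneousComponent_isHomogeneous k a) hk,
            l6_hc_mul (homogeneousComponent_isHomogeneous k a) hk, hfc]
      · refine ⟨0, I.zero_mem, by simp, ?_⟩
        rw [l6_hc_mul0 (homogeneousComponent_isHomogeneous k a) hk, map_zero]
    choose F hF1 hF2 hF3 using key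
    refine ⟨∑ k ∈ Finset.range (a.totalDegree + 1), F k, I.sum_mem fun k _ => hF1 k, ?_, ?_⟩
    · refine (totalDegree_finsetSum _ _).trans (Finset.sup_le fun k _ => hF2 k)
    · rw [map_sum]
      conv_rhs => rw [← sum_homogeneousComponent a, smul_eq_mul, Finset.sum_mul, map_sum]
      exact Finset.sum_congr rfl fun k _ => hF3 k

theorem eq_of_grI {I I' : Ideal MP50e386.A} (h : I ≤ I') (hg : grI I = grI I') : I = I' := by
  apply le_antisymm h
  have main : ∀ d : ℕ, ∀ f ∈ I', f.totalDegree ≤ d → f ∈ I := by
    intro d
    induction d using Nat.strong_induction_on with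
    | _ d ih =>
      intro f hf hfd
      have hT : homogeneousComponent f.totalDegree f ∈ grI I := by
        rw [hg]
        exact Ideal.subset_span ⟨f, hf, rfl⟩
      obtain ⟨f1, hf1, hf1d, hf1c⟩ := l6_lift hT f.totalDegree
      rw [homogeneousComponent_of_mem (homogeneousComponent_mem _ _), if_pos rfl] at hf1c
      have hsub : f - f1 ∈ I' := I'.sub_mem hf (h hf1)
      have hle : (f - f1).totalDegree ≤ f.totalDegree :=
        (totalDegree_sub _ _).trans (max_le (le_refl _) hf1d)
      have hz : homogeneousComponent f.totalDegree (f - f1) = 0 := by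
        rw [map_sub, hf1c, sub_self]
      by_cases h0 : f.totalDegree = 0
      · -- degree zero
        have h1 : f - f1 = 0 := by
          have h2 := sum_homogeneousComponent (f - f1)
          have h3 : (f - f1).totalDegree = 0 := by omega
          rw [h3, zero_add, Finset.sum_range_one] at h2
          rw [h0] at hz
          rw [← h2, hz]
        rw [sub_eq_zero] at h1
        rw [h1]
        exact hf1
      · have hlt : (f - f1).totalDegree ≤ f.totalDegree - 1 := by
          rcases Nat.lt_or_ge (f - f1).totalDegree f.totalDegree with hlt | hge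
          · omega
          · exfalso
            have he : (f - f1).totalDegree = f.totalDegree := le_antisymm hle hge
            have hne : f - f1 ≠ 0 := by
              intro h5
              rw [h5, totalDegree_zero] at he
              omega
            -- the top component is nonzero
            have h6 : homogeneousComponent (f - f1).totalDegree (f - f1) ≠ 0 := by
              intro h7
              have hne' : (f - f1).support.Nonempty := by
                rwa [Finset.nonempty_iff_ne_empty, Ne, support_eq_empty]
              obtain ⟨m, hm, hmd⟩ := Finset.exists_mem_eq_sup (f - f1).support hne'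
                (fun m => m.sum fun _ e => e)
              have h8 := congrArg (coeff m) h7
              rw [coeff_homogeneousComponent, coeff_zero, if_pos] at h8
              · exact (mem_support_iff.1 hm) h8
              · unfold totalDegree
                rw [hmd]
                rfl
            rw [he] at h6
            exact h6 hz
        have h9 := ih (f.totalDegree - 1) (by omega) (f - f1) hsub hlt
        have h10 := I.add_mem h9 hf1
        rwa [sub_add_cancel] at h10
  intro f hf
  exact main _ f hf (le_refl _)

private theorem l6_bil (u v : V) : (MP50e386.bil u v).IsHomogeneous 1 := by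
  unfold MP50e386.bil
  rw [Finsupp.linearCombination_apply, Finsupp.sum, LinearMap.sum_apply]
  apply IsHomogeneous.sum
  intro i _
  rw [LinearMap.smul_apply, Finsupp.linearCombination_apply, Finsupp.sum, smul_eq_C_mul]
  apply IsHomogeneous.C_mul
  apply IsHomogeneous.sum
  intro j _
  rw [smul_eq_C_mul]
  exact isHomogeneous_C_mul_X _ _

private theorem l6_det {M : ℕ} (u : Fin M → V) :
    (Matrix.det (Matrix.of fun i j : Fin M => MP50e386.bil (u i) (u j))).IsHomogeneous M := by
  rw [Matrix.det_apply]
  apply IsHomogeneous.sum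
  intro σ _
  have h1 : (∏ i, (Matrix.of fun i j : Fin M => MP50e386.bil (u i) (u j)) (σ i) i).IsHomogeneous
      (∑ _i : Fin M, 1) := by
    apply IsHomogeneous.prod
    intro i _
    exact l6_bil _ _
  rw [Finset.sum_const, Finset.card_univ, Fintype.card_fin, smul_eq_mul, mul_one] at h1
  rcases Int.units_eq_one_or (Equiv.Perm.sign σ) with h | h
  · rw [h, one_smul]
    exact h1
  · rw [h, Units.neg_smul, one_smul]
    exact h1.neg

/-- homogeneous elements of `I` lie in `grI I` -/
private theorem l6_homog_mem {I : Ideal MP50e386.A} {f : MP50e386.A} {k : ℕ} (hf : f ∈ I)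
    (h : f.IsHomogeneous k) : f ∈ grI I := by
  by_cases h0 : f = 0
  · rw [h0]
    exact Submodule.zero_mem _
  · apply Ideal.subset_span
    refine ⟨f, hf, ?_⟩
    rw [h.totalDegree h0, homogeneousComponent_eq_self h]

theorem detIdeal_le_grI {I : Ideal MP50e386.A} {M N0 : ℕ} (h : MP50e386.detIdeal M N0 ≤ I) :
    MP50e386.detIdeal M N0 ≤ grI I := by
  apply MP50e386.detIdeal_le
  intro u
  have h1 : (Matrix.det (Matrix.of fun i j : Fin M => MP50e386.bil (u i) (u j))) ^ N0 ∈ I :=
    h (Ideal.subset_span ⟨u, rfl⟩)
  exact l6_homog_mem h1 ((l6_det u).pow N0)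

private theorem l6_sub_homog {f : MP50e386.A} {k : ℕ} (h : f.IsHomogeneous k) (w : ℕ → V) :
    (MP50e386.sub w f).IsHomogeneous k := by
  unfold MP50e386.sub
  have h1 := IsHomogeneous.aeval h (MP50e386.Yw w) (n := 1) (by
    intro s
    induction s using Sym2.ind with
    | _ i j =>
      rw [MP50e386.Yw_mk]
      exact l6_bil _ _)
  rwa [one_mul] at h1

private theorem l6_sub_hc (f : MP50e386.A) (w : ℕ → V) (d : ℕ) :
    homogeneousComponent d (MP50e386.sub w f) = MP50e386.sub w (homogeneousComponent d f) := by
  conv_lhs => rw [← sum_homogeneousComponent f, map_sum, map_sum]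
  by_cases hd : d ∈ Finset.range (f.totalDegree + 1)
  · rw [Finset.sum_eq_single_of_mem d hd]
    · exact homogeneousComponent_eq_self
        (l6_sub_homog (homogeneousComponent_isHomogeneous d f) w)
    · intro k _ hkd
      rw [homogeneousComponent_of_mem
        (l6_sub_homog (homogeneousComponent_isHomogeneous k f) w), if_neg (Ne.symm hkd)]
  · rw [Finset.sum_eq_zero]
    · rw [Finset.mem_range, not_lt] at hd
      rw [homogeneousComponent_eq_zero _ _ (by omega), map_zero]
    · intro k hk
      rw [homogeneousComponent_of_mem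
        (l6_sub_homog (homogeneousComponent_isHomogeneous k f) w), if_neg]
      rintro rfl
      exact hd hk

theorem GSI_grI {I : Ideal MP50e386.A} (hI : IsStable IsSp I) : GSI (grI I) := by
  intro g hg c hc f hf
  rw [sbR_eq_sub]
  have key : grI I ≤ (grI I).comap (MP50e386.sub (fun i => c • g (ee i))) := by
    conv_lhs => unfold grI
    rw [Ideal.span_le]
    rintro T ⟨f0, hf0, rfl⟩
    rw [SetLike.mem_coe, Ideal.mem_comap,
      MP50e386.sub_smul_homog (homogeneousComponent_isHomogeneous _ f0) c (fun i => g (ee i)),
      ← l6_sub_hc, smul_eq_C_mul]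
    apply Ideal.mul_mem_left
    have h1 : MP50e386.sub (fun i => g (ee i)) f0 ∈ I := by
      have h2 := hI g hg f0 hf0
      rwa [MP50e386.act_eq] at h2
    set F := MP50e386.sub (fun i => g (ee i)) f0 with hF
    by_cases h0 : homogeneousComponent f0.totalDegree F = 0
    · rw [h0]
      exact Submodule.zero_mem _
    · apply Ideal.subset_span
      refine ⟨F, h1, ?_⟩
      have h3 : f0.totalDegree ≤ F.totalDegree := by
        by_contra hcon
        exact h0 (homogeneousComponent_eq_zero _ _ (by omega))
      have h4 : F.totalDegree ≤ f0.totalDegree := by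
        rw [hF]
        conv_lhs => rw [← sum_homogeneousComponent f0, map_sum]
        refine (totalDegree_finsetSum _ _).trans (Finset.sup_le fun k hk => ?_)
        have h5 := (l6_sub_homog (homogeneousComponent_isHomogeneous k f0)
          (fun i => g (ee i))).totalDegree_le
        rw [Finset.mem_range] at hk
        omega
      rw [le_antisymm h4 h3]
  exact key hf

theorem stab_of_isStable {I : Ideal MP50e386.A} (hI : IsStable IsSp I) :
    MP50e386.Stab MP50e386.pis MP50e386.sis I := by
  intro g hg1 hg2 f hf
  have h1 := hI g ⟨hg1, fun x y => by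
    rw [MP50e386.sympForm_eq, MP50e386.sympForm_eq]
    exact hg2 x y⟩ f hf
  rwa [MP50e386.act_eq] at h1

/-- `A = Sym(Sym^2(ℂ^∞))` is topologically `Sp_∞`-noetherian (indeed noetherian) -/
theorem sp_noetherian (I : ℕ → Ideal SymSym) (hmono : Monotone I)
    (hI : ∀ n, IsStable IsSp (I n)) : ∃ n0, ∀ n ≥ n0, I n = I n0 := by
  by_cases hbot : ∀ n, I n = ⊥
  · exact ⟨0, fun n _ => by rw [hbot n, hbot 0]⟩
  push Not at hbot
  obtain ⟨n1, hn1⟩ := hbot
  obtain ⟨M, N0, hle⟩ := MP50e386.main_sp (I n1) hn1 (stab_of_isStable (hI n1))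
  have hleN : ∀ i, MP50e386.detIdeal M N0 ≤ grI (I (n1 + i)) := fun i =>
    detIdeal_le_grI (hle.trans (hmono (Nat.le_add_right n1 i)))
  obtain ⟨n0, hn0⟩ := NI_det M N0 ∅ (fun i => ofI (grI (I (n1 + i))))
    (fun i j hij => (ofI_le _ _).2 (grI_mono (hmono (Nat.add_le_add_left hij n1))))
    (fun i => by
      refine ⟨(GS_ofI _).2 (GSI_grI (hI _)), ?_, ?_⟩
      · rw [MS_empty, ofI_smul, Ideal.mul_top, ofI_le]
        exact hleN i
      · rw [MS_empty, ofI_le]
        exact le_top)
  refine ⟨n1 + n0, fun n hn => ?_⟩
  obtain ⟨j, rfl⟩ := Nat.exists_eq_add_of_le (le_trans (Nat.le_add_right n1 n0) hn)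
  have hj : n0 ≤ j := by omega
  have h1 := hn0 j hj
  have h2 : grI (I (n1 + j)) = grI (I (n1 + n0)) :=
    le_antisymm ((ofI_le _ _).1 h1.le) ((ofI_le _ _).1 h1.ge)
  exact (eq_of_grI (hmono hn) h2.symm).symm

end MP50e386N
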